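import Pool.Agent.Lib.MP_2de762_an.H69Levi

/-! Averages of Sobolev functions at scale `1 / s` about the line. -/

namespace Pool.Agent.Lib.MP_2de762_an.H69

open MeasureTheory Filter Topology Set Complex Asymptotics
open scoped ContDiff

noncomputable section

lemma scale_int {F : E5 → ℝ} (hF : Continuous F) {s : ℝ} (hs : 0 < s) :
    ∫ Z, F (D 1 s Z) = (s ^ 6)⁻¹ * ∫ Z, F Z := by
  have hd : LinearMap.det (D 1 s : E5 →ₗ[ℝ] E5) = s ^ 6 := by
    have := LinearMap.det_pi (R := ℝ) (M := ℂ) fun i : Fin 5 => dg 1 s i • LinearMap.id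
    simp only [LinearMap.det_smul, finrank_real_complex, LinearMap.det_id, mul_one] at this
    rw [show (D 1 s : E5 →ₗ[ℝ] E5) = LinearMap.pi fun i : Fin 5 =>
      (dg 1 s i • LinearMap.id) ∘ₗ LinearMap.proj i from rfl, this]
    simp [dg, Fin.prod_univ_five]
    ring
  have h := Measure.map_linearMap_addHaar_eq_smul_addHaar (volume : Measure E5)
    (f := (D 1 s : E5 →ₗ[ℝ] E5)) (by rw [hd]; positivity)
  have h2 := integral_map (μ := volume) (D 1 s).continuous.aemeasurable hF.aestronglyMeasurable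
  rw [← h2]
  erw [h]
  rw [integral_smul_measure, hd, ENNReal.toReal_ofReal (abs_nonneg _),
    abs_of_pos (by positivity), smul_eq_mul]

/-- The six real directions of the fibre. -/
def ev (k : Fin 3 × Bool) : E5 := Pi.single k.1.succ.succ (if k.2 then 1 else I)

/-- The six real coordinates of the fibre. -/
def xk (k : Fin 3 × Bool) : E5 →L[ℝ] ℝ := co k.1.succ.succ k.2

lemma D_ev (a b : ℝ) (k : Fin 3 × Bool) : D a b (ev k) = b • ev k := by
  obtain ⟨i, c⟩ := k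
  fin_cases i <;> apply ext5 <;> simp [ev, D0, D1, D2, D3, D4]

lemma xk_ev (k : Fin 3 × Bool) : xk k (ev k) = 1 := by
  obtain ⟨i, c⟩ := k
  cases c <;> simp [xk, co, ev]

lemma sum_ev (Z : E5) : D 0 1 Z = ∑ k, xk k Z • ev k := by
  apply ext5 <;> simp [ev, xk, co, D0, D1, D2, D3, D4, Fintype.sum_prod_type, Fin.sum_univ_three]

lemma cd_xk (k : Fin 3 × Bool) : ContDiff ℝ ∞ fun Z => (xk k Z : ℂ) :=
  ofRealCLM.contDiff.comp (xk k).contDiff

lemma test_mul {K : Set E5} {Ψ a : E5 → ℂ} (h : IsTest5 K Ψ) (ha : ContDiff ℝ ∞ a) :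
    IsTest5 K fun Z => a Z * Ψ Z :=
  ⟨ha.mul h.1, h.2.1.mul_left, tsupport_mul_subset_right.trans h.2.2⟩

lemma test_fd {K : Set E5} {Ψ : E5 → ℂ} (h : IsTest5 K Ψ) (v : E5) :
    IsTest5 K fun Z => fderiv ℝ Ψ Z v :=
  ⟨(h.1.fderiv_right (m := ∞) (by simp)).clm_apply contDiff_const, h.2.1.fderiv_apply ℝ v,
    (tsupport_fderiv_apply_subset ℝ v).trans h.2.2⟩

lemma test_zero {K : Set E5} {Ψ : E5 → ℂ} (h : IsTest5 K Ψ) {Z : E5} (hZ : Z ∉ K) : Ψ Z = 0 :=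
  image_eq_zero_of_notMem_tsupport fun k => hZ (h.2.2 k)

lemma test_scale {U K : Set E5} (hK : IsCompact K) {Ψ : E5 → ℂ} (h : IsTest5 K Ψ) {s : ℝ}
    (hs : 0 < s) (hU : ∀ Z ∈ K, D 1 s⁻¹ Z ∈ U) : IsTest5 U fun Z => Ψ (D 1 s Z) := by
  have hc := hK.image (D 1 s⁻¹).continuous
  have h0 : ∀ Z ∉ D 1 s⁻¹ '' K, Ψ (D 1 s Z) = 0 := fun Z hZ => test_zero h fun k =>
    hZ ⟨_, k, by rw [D_D, one_mul, inv_mul_cancel₀ hs.ne', D_one]⟩
  refine ⟨h.1.comp (D 1 s).contDiff, HasCompactSupport.intro hc h0,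
    (closure_minimal (fun Z hZ => ?_) hc.isClosed).trans (image_subset_iff.2 hU)⟩
  by_contra k
  exact hZ (h0 Z k)

/-- The pairing of `g` with the test function `Ψ` at scale `1 / s`. -/
def J (U : Set E5) (g Ψ : E5 → ℂ) (s : ℝ) : ℂ := ∫ Z in U, g Z * Ψ (D 1 s Z)

lemma J_int {U K : Set E5} {g Ψ : E5 → ℂ} (hg : Integrable g (volume.restrict U))
    (h : IsTest5 K Ψ) (s : ℝ) : Integrable (fun Z => g Z * Ψ (D 1 s Z)) (volume.restrict U) := by
  obtain ⟨C, hC⟩ := h.2.1.exists_bound_of_continuous h.1.continuous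
  exact hg.mul_bdd (h.1.continuous.comp (D 1 s).continuous).aestronglyMeasurable
    (Eventually.of_forall fun Z => hC _)

lemma J_weak {U K : Set E5} (hK : IsCompact K) {g g' Ψ : E5 → ℂ} {k : Fin 3 × Bool}
    (hw : WeakDeriv U (ev k) g g') (h : IsTest5 K Ψ) {s : ℝ} (hs : 0 < s)
    (hU : ∀ Z ∈ K, D 1 s⁻¹ Z ∈ U) :
    J U g (fun Z => fderiv ℝ Ψ Z (ev k)) s = -((s : ℂ)⁻¹ * J U g' Ψ s) := by
  have h1 := hw _ (test_scale hK h hs hU)
  have h2 : ∀ Z, g Z * fderiv ℝ (fun Z => Ψ (D 1 s Z)) Z (ev k) =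
      s * (g Z * fderiv ℝ Ψ (D 1 s Z) (ev k)) := fun Z => by
    have d : HasFDerivAt (fun Z => Ψ (D 1 s Z)) _ Z :=
      (h.1.differentiable (by simp) _).hasFDerivAt.comp Z (D 1 s).hasFDerivAt
    rw [d.fderiv, ContinuousLinearMap.comp_apply, D_ev, map_smul, real_smul]
    ring
  have hs' : (s : ℂ) ≠ 0 := ofReal_ne_zero.2 hs.ne'
  simp only [h2, integral_const_mul] at h1
  rw [J, J, ← mul_neg, ← h1, inv_mul_cancel_left₀ hs']

lemma radial {Ψ : E5 → ℂ} (h : ContDiff ℝ ∞ Ψ) (Y : E5) : fderiv ℝ Ψ Y (D 0 1 Y) =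
    ∑ k, fderiv ℝ (fun Z => (xk k Z : ℂ) * Ψ Z) Y (ev k) - 6 * Ψ Y := by
  have e : ∀ k, fderiv ℝ (fun Z => (xk k Z : ℂ) * Ψ Z) Y (ev k) =
      xk k Y * fderiv ℝ Ψ Y (ev k) + Ψ Y := fun k => by
    have d : HasFDerivAt (fun Z => (xk k Z : ℂ)) _ Y :=
      ofRealCLM.hasFDerivAt.comp Y (xk k).hasFDerivAt
    rw [fderiv_fun_mul d.differentiableAt (h.differentiable (by simp) Y), d.fderiv]
    simp [xk_ev]
  simp only [e, sum_ev Y, map_sum, map_smul, real_smul, Finset.sum_add_distrib]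
  simp

lemma norm_D01 (Z : E5) : ‖D 0 1 Z‖ ≤ ‖Z‖ := by
  refine (pi_norm_le_iff_of_nonneg (norm_nonneg _)).2 fun i => ?_
  rw [D_apply, norm_mul]
  refine (mul_le_of_le_one_left (norm_nonneg _) ?_).trans (norm_le_pi_norm Z i)
  fin_cases i <;> simp [dg]

lemma J_deriv {U K : Set E5} (hU : MeasurableSet U) (hb : ∀ Z ∈ U, ‖Z‖ ≤ 2) {g Ψ : E5 → ℂ}
    (hg : Integrable g (volume.restrict U)) (h : IsTest5 K Ψ) (s : ℝ) :
    HasDerivAt (J U g Ψ) (∫ Z in U, g Z * fderiv ℝ Ψ (D 1 s Z) (D 0 1 Z)) s := by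
  have cf := h.1.continuous_fderiv (by simp)
  obtain ⟨C, hC⟩ := (h.2.1.fderiv ℝ).exists_bound_of_continuous cf
  refine (hasDerivAt_integral_of_dominated_loc_of_deriv_le (s := univ) (μ := volume.restrict U)
    (F := fun s Z => g Z * Ψ (D 1 s Z))
    (F' := fun s Z => g Z * fderiv ℝ Ψ (D 1 s Z) (D 0 1 Z)) (bound := fun Z => ‖g Z‖ * (C * 2))
    univ_mem (Eventually.of_forall fun t => (J_int hg h t).1) (J_int hg h s)
    (hg.1.mul (Continuous.aestronglyMeasurable (by fun_prop))) ?_ (hg.norm.mul_const _)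
    (Eventually.of_forall fun Z t _ => ?_)).2
  · filter_upwards [ae_restrict_mem hU] with Z hZ t _
    rw [norm_mul]
    refine mul_le_mul_of_nonneg_left (((fderiv ℝ Ψ _).le_opNorm _).trans ?_) (norm_nonneg _)
    exact mul_le_mul (hC _) ((norm_D01 Z).trans (hb Z hZ)) (norm_nonneg _)
      ((norm_nonneg _).trans (hC 0))
  · have e : (fun t : ℝ => D 1 t Z) = fun t : ℝ => D 1 0 Z + t • D 0 1 Z := by
      funext t
      apply ext5 <;> simp [D0, D1, D2, D3, D4]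
    have d : HasDerivAt (fun t : ℝ => D 1 t Z) (D 0 1 Z) t := by
      rw [e]
      simpa using ((hasDerivAt_id t).smul_const (D 0 1 Z)).const_add (D 1 0 Z)
    exact ((h.1.differentiable (by simp) _).hasFDerivAt.comp_hasDerivAt t d).const_mul (g Z)

lemma j_deriv {U K : Set E5} (hU : MeasurableSet U) (hb : ∀ Z ∈ U, ‖Z‖ ≤ 2) (hK : IsCompact K)
    {g Ψ : E5 → ℂ} {g' : Fin 3 × Bool → E5 → ℂ} (hg : Integrable g (volume.restrict U))
    (hw : ∀ k, WeakDeriv U (ev k) g (g' k)) (h : IsTest5 K Ψ) {s : ℝ} (hs : 0 < s)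
    (hS : ∀ Z ∈ K, D 1 s⁻¹ Z ∈ U) : HasDerivAt (fun s : ℝ => (s : ℂ) ^ 6 * J U g Ψ s)
      (-((s : ℂ)⁻¹ ^ 2 * ∑ k, (s : ℂ) ^ 6 * J U (g' k) (fun Z => (xk k Z : ℂ) * Ψ Z) s)) s := by
  have hs' : (s : ℂ) ≠ 0 := ofReal_ne_zero.2 hs.ne'
  have d1 : HasDerivAt (fun s : ℝ => (s : ℂ) ^ 6) (6 * (s : ℂ) ^ 5) s := by
    simpa using (hasDerivAt_pow 6 (s : ℂ)).comp_ofReal
  refine (d1.fun_mul (J_deriv hU hb hg h s)).congr_deriv ?_
  have e : ∀ Z, g Z * fderiv ℝ Ψ (D 1 s Z) (D 0 1 Z) = (s : ℂ)⁻¹ *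
      (∑ k, g Z * fderiv ℝ (fun Z => (xk k Z : ℂ) * Ψ Z) (D 1 s Z) (ev k) -
        6 * (g Z * Ψ (D 1 s Z))) := fun Z => by
    have e1 : D 0 1 (D 1 s Z) = s • D 0 1 Z := by
      apply ext5 <;> simp [D0, D1, D2, D3, D4]
    have e2 := radial h.1 (D 1 s Z)
    rw [e1, map_smul, real_smul] at e2
    rw [← Finset.mul_sum, eq_inv_mul_iff_mul_eq₀ hs']
    linear_combination g Z * e2
  have i1 := fun k => J_int hg (test_fd (test_mul h (cd_xk k)) (ev k)) s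
  have e3 := fun k => J_weak hK (hw k) (test_mul h (cd_xk k)) hs hS
  simp only [e]
  rw [integral_const_mul, integral_sub (integrable_finsetSum _ fun k _ => i1 k)
    ((J_int hg h s).const_mul 6), integral_finsetSum _ fun k _ => i1 k, integral_const_mul]
  simp only [J] at e3 ⊢
  simp only [e3, Finset.sum_neg_distrib, ← Finset.mul_sum]
  field_simp
  ring

lemma level0 {U K : Set E5} (hU : MeasurableSet U)
    (hw : ∀ Z ∈ U, 0 < WW Z) {g Ψ : E5 → ℂ} {n : ℕ} {r : ℝ} (hr : 1 ≤ r) (hn : n * r = 6)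
    (g2 : Integrable (fun Z => ‖g Z‖ ^ r) (volume.restrict U)) (h : IsTest5 K Ψ) :
    (fun s : ℝ => (s : ℂ) ^ 6 * J U g Ψ s) =o[atTop] fun s : ℝ => s ^ n := by
  obtain ⟨C, hC⟩ := h.2.1.exists_bound_of_continuous h.1.continuous
  have cΨ : ∀ s, Continuous fun Z => ‖Ψ (D 1 s Z)‖ := fun s =>
    (h.1.continuous.comp (D 1 s).continuous).norm
  have i1 : ∀ s, Integrable (fun Z => ‖g Z‖ ^ r * ‖Ψ (D 1 s Z)‖) (volume.restrict U) := fun s =>
    g2.mul_bdd (cΨ s).aestronglyMeasurable (Eventually.of_forall fun Z => by simpa using hC _)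
  have t1 : Tendsto (fun s : ℝ => ∫ Z in U, ‖g Z‖ ^ r * ‖Ψ (D 1 s Z)‖) atTop (𝓝 0) := by
    have := tendsto_integral_filter_of_dominated_convergence (μ := volume.restrict U)
      (l := atTop) (F := fun (s : ℝ) Z => ‖g Z‖ ^ r * ‖Ψ (D 1 s Z)‖) (f := fun _ => 0)
      (fun Z => ‖g Z‖ ^ r * C) (Eventually.of_forall fun s => (i1 s).1)
      (Eventually.of_forall fun s => Eventually.of_forall fun Z => by
        rw [Real.norm_of_nonneg (by positivity)]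
        exact mul_le_mul_of_nonneg_left (hC _) (by positivity)) (g2.mul_const C) ?_
    · simpa using this
    · filter_upwards [ae_restrict_mem hU] with Z hZ
      obtain ⟨M, hM⟩ := h.2.1.isCompact.exists_bound_of_continuousOn cd_WW.continuous.continuousOn
      refine tendsto_const_nhds.congr' ?_
      filter_upwards [((tendsto_pow_atTop two_ne_zero).atTop_mul_const
        (hw Z hZ)).eventually_gt_atTop M] with s hs
      rw [image_eq_zero_of_notMem_tsupport (f := Ψ) fun k => ?_]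
      · simp
      · have := hM _ k
        rw [(scal_D 1 s Z).2.1] at this
        exact absurd hs (not_lt.2 ((le_abs_self _).trans this))
  set A := ∫ Z, ‖Ψ Z‖ with hA
  have hA0 : 0 ≤ A := integral_nonneg fun _ => norm_nonneg _
  refine isLittleO_iff.2 fun η hη => ?_
  set μ := (A + 1) / η with hμ
  have hμ0 : 0 < μ := by positivity
  filter_upwards [t1.eventually (Iio_mem_nhds (by positivity : 0 < (μ ^ r)⁻¹)),
    eventually_gt_atTop 0] with s h1 hs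
  have i2 : Integrable fun Z => ‖Ψ (D 1 s Z)‖ :=
    (cΨ s).integrable_of_hasCompactSupport (test_scale (U := univ) h.2.1.isCompact
      ⟨h.1, h.2.1, subset_rfl⟩ hs fun _ _ => mem_univ _).2.1.norm
  set l := μ / s ^ n with hl
  have hl0 : 0 < l := by positivity
  have hlr : l ^ r = μ ^ r / s ^ 6 := by
    rw [hl, Real.div_rpow hμ0.le (by positivity), ← Real.rpow_natCast s n,
      ← Real.rpow_mul hs.le, hn, ← Real.rpow_natCast s 6]
    norm_num
  have k1 : ‖J U g Ψ s‖ ≤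
      ∫ Z in U, l⁻¹ * (l ^ r * (‖g Z‖ ^ r * ‖Ψ (D 1 s Z)‖) + ‖Ψ (D 1 s Z)‖) := by
    refine norm_integral_le_of_norm_le ((((i1 s).const_mul _).add i2.restrict).const_mul _)
      (Eventually.of_forall fun Z => ?_)
    have : l * ‖g Z‖ ≤ l ^ r * ‖g Z‖ ^ r + 1 := by
      rw [← Real.mul_rpow hl0.le (norm_nonneg _)]
      rcases le_total (l * ‖g Z‖) 1 with k | k
      · exact k.trans (le_add_of_nonneg_left (by positivity))
      · exact (Real.self_le_rpow_of_one_le k hr).trans (le_add_of_nonneg_right zero_le_one)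
    rw [norm_mul, le_inv_mul_iff₀ hl0]
    nlinarith [mul_le_mul_of_nonneg_right this (norm_nonneg (Ψ (D 1 s Z)))]
  have k2 : ∫ Z in U, ‖Ψ (D 1 s Z)‖ ≤ (s ^ 6)⁻¹ * A :=
    (setIntegral_le_integral i2 (Eventually.of_forall fun _ => norm_nonneg _)).trans_eq
      (scale_int h.1.continuous.norm hs)
  rw [integral_const_mul, integral_add ((i1 s).const_mul _) i2.restrict, integral_const_mul] at k1
  have k3 : ‖J U g Ψ s‖ ≤ l⁻¹ * (l ^ r * (μ ^ r)⁻¹ + (s ^ 6)⁻¹ * A) :=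
    k1.trans (mul_le_mul_of_nonneg_left (add_le_add
      (mul_le_mul_of_nonneg_left h1.le (by positivity)) k2) (by positivity))
  have hμr : 0 < μ ^ r := by positivity
  rw [norm_mul, norm_pow, norm_real, norm_pow, Real.norm_of_nonneg hs.le]
  refine (mul_le_mul_of_nonneg_left k3 (by positivity)).trans_eq ?_
  rw [hlr]
  generalize μ ^ r = y at hμr
  rw [hl, hμ]
  field_simp
  ring

lemma littleO_succ {f f' : ℝ → ℂ} {n : ℕ} (hd : ∀ᶠ s in atTop, HasDerivAt f (f' s) s)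
    (h : f' =o[atTop] fun s : ℝ => s ^ n) : f =o[atTop] fun s : ℝ => s ^ (n + 1) := by
  refine isLittleO_iff.2 fun η hη => ?_
  obtain ⟨a, ha⟩ := eventually_atTop.1 (hd.and ((isLittleO_iff.1 h (half_pos hη)).and
    (eventually_ge_atTop 0)))
  filter_upwards [eventually_ge_atTop a, ((tendsto_pow_atTop n.succ_ne_zero).const_mul_atTop
    (half_pos hη)).eventually_ge_atTop ‖f a‖] with s h1 h2
  have a0 := (ha a le_rfl).2.2
  have k := (convex_Icc a s).norm_image_sub_le_of_norm_hasDerivWithin_le (C := η / 2 * s ^ n)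
    (fun x hx => (ha x hx.1).1.hasDerivWithinAt) (fun x hx => (ha x hx.1).2.1.trans (by
      rw [norm_pow, Real.norm_of_nonneg (ha x hx.1).2.2]
      exact mul_le_mul_of_nonneg_left (pow_le_pow_left₀ (ha x hx.1).2.2 hx.2 n) (by positivity)))
    (left_mem_Icc.2 h1) (right_mem_Icc.2 h1)
  have s0 := a0.trans h1
  rw [Real.norm_of_nonneg (sub_nonneg.2 h1)] at k
  rw [Real.norm_of_nonneg (by positivity)]
  have k2 := norm_le_norm_add_norm_sub' (f s) (f a)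
  have k3 : η / 2 * s ^ n * (s - a) ≤ η / 2 * s ^ n * s :=
    mul_le_mul_of_nonneg_left (by linarith) (by positivity)
  rw [Nat.succ_eq_add_one] at h2
  rw [pow_succ] at h2 ⊢
  linarith

lemma fin_meas {U : Set E5} (hb : ∀ Z ∈ U, ‖Z‖ ≤ 2) : IsFiniteMeasure (volume.restrict U) :=
  isFiniteMeasure_restrict.2 (isBounded_iff_forall_norm_le.2 ⟨2, hb⟩).measure_lt_top.ne

lemma Sob_memLp {U : Set E5} {p : ENNReal} : ∀ {k : ℕ} {g : E5 → ℂ}, Sob U p k g →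
    MemLp g p (volume.restrict U)
  | 0, _, h => h
  | _ + 1, _, h => h.1

lemma Sob_int {U : Set E5} (hb : ∀ Z ∈ U, ‖Z‖ ≤ 2) {p : ENNReal} (hp : 1 ≤ p) {k : ℕ}
    {g : E5 → ℂ} (hg : Sob U p k g) : Integrable g (volume.restrict U) :=
  have := fin_meas hb
  (Sob_memLp hg).integrable hp

lemma Sob_mono {U : Set E5} {p : ENNReal} :
    ∀ {k : ℕ} {g : E5 → ℂ}, Sob U p (k + 1) g → Sob U p k g
  | 0, _, h => h.1
  | _ + 1, _, h => ⟨h.1, fun v => (h.2 v).imp fun _ k => ⟨k.1, Sob_mono k.2⟩⟩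

lemma Sob_le {U : Set E5} {p : ENNReal} {j k : ℕ} (hj : j ≤ k) {g : E5 → ℂ} (h : Sob U p k g) :
    Sob U p j g := by
  induction hj with
  | refl => exact h
  | step _ ih => exact ih (Sob_mono h)

lemma Sob_exp {U : Set E5} (hb : ∀ Z ∈ U, ‖Z‖ ≤ 2) {p q : ENNReal} (hq : q ≤ p) :
    ∀ {k : ℕ} {g : E5 → ℂ}, Sob U p k g → Sob U q k g
  | 0, _, h => have := fin_meas hb; MemLp.mono_exponent h hq
  | _ + 1, _, h => have := fin_meas hb
    ⟨h.1.mono_exponent hq, fun v => (h.2 v).imp fun _ k => ⟨k.1, Sob_exp hb hq k.2⟩⟩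

lemma level_succ {U K : Set E5} (hU : MeasurableSet U) (hb : ∀ Z ∈ U, ‖Z‖ ≤ 2)
    (hK : IsCompact K) (hS : ∀ᶠ s : ℝ in atTop, ∀ Z ∈ K, D 1 s⁻¹ Z ∈ U) {p : ENNReal}
    (hp : 1 ≤ p) {m n : ℕ} (ih : ∀ g Ψ, Sob U p m g → IsTest5 K Ψ →
      (fun s : ℝ => (s : ℂ) ^ 6 * J U g Ψ s) =o[atTop] fun s : ℝ => s ^ (n + 2))
    (g Ψ : E5 → ℂ) (hg : Sob U p (m + 1) g) (h : IsTest5 K Ψ) :
    (fun s : ℝ => (s : ℂ) ^ 6 * J U g Ψ s) =o[atTop] fun s : ℝ => s ^ (n + 1) := by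
  choose g' hw hs using fun k => hg.2 (ev k)
  refine littleO_succ (by
    filter_upwards [hS, eventually_gt_atTop 0] with s h1 h2
    exact j_deriv hU hb hK (Sob_int hb hp hg) hw h h2 h1) ?_
  have k := IsLittleO.sum (s := Finset.univ) fun k _ => ih _ _ (hs k) (test_mul h (cd_xk k))
  have k2 : (fun s : ℝ => (s : ℂ)⁻¹ ^ 2) =O[atTop] fun s : ℝ => s⁻¹ ^ 2 :=
    IsBigO.of_bound' (Eventually.of_forall fun s => by simp)
  refine ((k2.mul_isLittleO k).congr' EventuallyEq.rfl ?_).neg_left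
  filter_upwards [eventually_gt_atTop 0] with s h1
  field_simp
  ring

/-- The averages of `g` grow more slowly than `s`. -/
def Slow (U K : Set E5) (g : E5 → ℂ) : Prop := ∀ Ψ, IsTest5 K Ψ →
  Tendsto (fun s : ℝ => (s : ℂ) ^ 6 * ((s : ℂ)⁻¹ * J U g Ψ s)) atTop (𝓝 0)

lemma slow_of_Sob {U K : Set E5} (hU : MeasurableSet U) (hb : ∀ Z ∈ U, ‖Z‖ ≤ 2)
    (hw : ∀ Z ∈ U, 0 < WW Z) (hK : IsCompact K)
    (hS : ∀ᶠ s : ℝ in atTop, ∀ Z ∈ K, D 1 s⁻¹ Z ∈ U) {j : ℕ} (hj : j + 1 ≤ 6) {g : E5 → ℂ}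
    (hg : Sob U (6 / ((j + 1 : ℕ) : ENNReal)) j g) : Slow U K g := by
  intro Ψ h
  have k0 : ((j + 1 : ℕ) : ENNReal) ≠ 0 := by simp
  have k1 : ((j + 1 : ℕ) : ENNReal) ≠ ⊤ := ENNReal.natCast_ne_top _
  have hp : 1 ≤ 6 / ((j + 1 : ℕ) : ENNReal) :=
    (ENNReal.le_div_iff_mul_le (Or.inl k0) (Or.inl k1)).2 (by rw [one_mul]; exact_mod_cast hj)
  have hp2 : 6 / ((j + 1 : ℕ) : ENNReal) ≠ ⊤ := ENNReal.div_ne_top (by simp) k0
  have all : ∀ i n : ℕ, i + n = j → ∀ g Ψ, Sob U (6 / ((j + 1 : ℕ) : ENNReal)) i g →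
      IsTest5 K Ψ →
      (fun s : ℝ => (s : ℂ) ^ 6 * J U g Ψ s) =o[atTop] fun s : ℝ => s ^ (n + 1) := by
    intro i
    induction i with
    | zero =>
      intro n hn g Ψ hg h
      refine level0 hU hw (by simpa using ENNReal.toReal_mono hp2 hp) ?_
        (MemLp.integrable_norm_rpow hg (zero_lt_one.trans_le hp).ne' hp2) h
      rw [← hn, zero_add, ENNReal.toReal_div, ENNReal.toReal_natCast]
      field_simp
      simp
    | succ i ih => exact fun n hn => level_succ hU hb hK hS hp (ih (n + 1) (by omega))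
  have k := all j 0 rfl g Ψ hg h
  have k2 : (fun s : ℝ => (s : ℂ)⁻¹) =O[atTop] fun s : ℝ => s⁻¹ :=
    IsBigO.of_bound' (Eventually.of_forall fun s => by simp)
  refine (isLittleO_one_iff ℝ).1 ((k2.mul_isLittleO k).congr' ?_ ?_)
  · exact Eventually.of_forall fun s => by ring
  · filter_upwards [eventually_gt_atTop 0] with s h1
    field_simp
    ring

lemma Sob_reduce {U K : Set E5} (hU : MeasurableSet U) (hb : ∀ Z ∈ U, ‖Z‖ ≤ 2)
    (hw : ∀ Z ∈ U, 0 < WW Z) (hK : IsCompact K)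
    (hS : ∀ᶠ s : ℝ in atTop, ∀ Z ∈ K, D 1 s⁻¹ Z ∈ U) {k : ℕ} {p : ENNReal} (hp : 1 ≤ p)
    (hk : 6 ≤ k * p) {g : E5 → ℂ} (hg : Sob U p k g) : Integrable g (volume.restrict U) ∧
      Slow U K g ∧ ∀ v, ∃ g', WeakDeriv U v g g' ∧ Slow U K g' := by
  obtain ⟨j, j1, j2, j3⟩ : ∃ j : ℕ, j + 1 ≤ 6 ∧ j + 1 ≤ k ∧ 6 ≤ ((j + 1 : ℕ) : ENNReal) * p := by
    rcases le_total k 6 with e | e
    · rcases k with _ | j
      · simp at hk
      · exact ⟨j, e, le_rfl, hk⟩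
    · exact ⟨5, le_rfl, e, le_mul_of_one_le_right' hp⟩
  have k := Sob_exp hb (ENNReal.div_le_of_le_mul' j3) (Sob_le j2 hg)
  exact ⟨Sob_int hb hp hg, slow_of_Sob hU hb hw hK hS j1 (Sob_mono k),
    fun v => (k.2 v).imp fun _ e => ⟨e.1, slow_of_Sob hU hb hw hK hS j1 e.2⟩⟩

end

end Pool.Agent.Lib.MP_2de762_an.H69
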