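import Pool.Agent.Lib.MP_2de762_an.H69Defs

/-! Calculus for second derivatives and the Levi form, the cone lemma, a compactness lemma. -/

namespace Pool.Agent.Lib.MP_2de762_an.H69

open Filter Topology Set
open scoped ContDiff

noncomputable section

/-- The second derivative in the directions `X`, `Y`. -/
def B2 (φ : E5 → ℝ) (Z X Y : E5) : ℝ := fderiv ℝ (fderiv ℝ φ) Z X Y

lemma levi_eq (φ : E5 → ℝ) (Z X : E5) :
    levi φ Z X = B2 φ Z X X + B2 φ Z (Complex.I • X) (Complex.I • X) := rfl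

lemma ev_diff {f : E5 → ℝ} {Z : E5} (hf : ContDiffAt ℝ 2 f Z) :
    ∀ᶠ Y in 𝓝 Z, DifferentiableAt ℝ f Y :=
  (hf.eventually (by simp)).mono fun _ h => h.differentiableAt (by simp)

lemma diff_fderiv {f : E5 → ℝ} {Z : E5} (hf : ContDiffAt ℝ 2 f Z) :
    DifferentiableAt ℝ (fderiv ℝ f) Z :=
  (hf.fderiv_right (m := 1) (by norm_num)).differentiableAt (by simp)

lemma B2_eq {f : E5 → ℝ} {Z : E5} (hf : ContDiffAt ℝ 2 f Z) (X Y : E5) :
    B2 f Z X Y = fderiv ℝ (fun W => fderiv ℝ f W Y) Z X := by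
  rw [B2, fderiv_clm_apply (diff_fderiv hf) (differentiableAt_const Y)]
  simp

lemma diff_fderiv_apply {f : E5 → ℝ} {Z : E5} (hf : ContDiffAt ℝ 2 f Z) (Y : E5) :
    DifferentiableAt ℝ (fun W => fderiv ℝ f W Y) Z :=
  (diff_fderiv hf).clm_apply (differentiableAt_const Y)

lemma B2_congr {f g : E5 → ℝ} {Z : E5} (h : f =ᶠ[𝓝 Z] g) (X Y : E5) :
    B2 f Z X Y = B2 g Z X Y := by
  rw [B2, B2, h.fderiv.fderiv_eq]

lemma levi_congr {f g : E5 → ℝ} {Z : E5} (h : f =ᶠ[𝓝 Z] g) (X : E5) :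
    levi f Z X = levi g Z X := by
  rw [levi_eq, levi_eq, B2_congr h, B2_congr h]

lemma B2_mul {f g : E5 → ℝ} {Z : E5} (hf : ContDiffAt ℝ 2 f Z) (hg : ContDiffAt ℝ 2 g Z)
    (X : E5) : B2 (fun W => f W * g W) Z X X =
      f Z * B2 g Z X X + 2 * (fderiv ℝ f Z X * fderiv ℝ g Z X) + g Z * B2 f Z X X := by
  have e : (fun W => fderiv ℝ (fun W => f W * g W) W X) =ᶠ[𝓝 Z]
      fun W => f W * fderiv ℝ g W X + g W * fderiv ℝ f W X := by
    filter_upwards [ev_diff hf, ev_diff hg] with W h1 h2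
    rw [fderiv_fun_mul h1 h2]
    simp
  have d1 := hf.differentiableAt (by simp)
  have d2 := hg.differentiableAt (by simp)
  rw [B2_eq (hf.mul hg), e.fderiv_eq, B2_eq hf, B2_eq hg,
    fderiv_fun_add (d1.fun_mul (diff_fderiv_apply hg X)) (d2.fun_mul (diff_fderiv_apply hf X)),
    fderiv_fun_mul d1 (diff_fderiv_apply hg X), fderiv_fun_mul d2 (diff_fderiv_apply hf X)]
  simp
  ring

lemma B2_lin {f g : E5 → ℝ} {Z : E5} (hf : ContDiffAt ℝ 2 f Z) (hg : ContDiffAt ℝ 2 g Z)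
    (a b c : ℝ) (X : E5) : B2 (fun W => a * f W + b * g W + c) Z X X =
      a * B2 f Z X X + b * B2 g Z X X := by
  have e : (fun W => fderiv ℝ (fun W => a * f W + b * g W + c) W X) =ᶠ[𝓝 Z]
      fun W => a * fderiv ℝ f W X + b * fderiv ℝ g W X := by
    filter_upwards [ev_diff hf, ev_diff hg] with W h1 h2
    have := ((h1.hasFDerivAt.const_mul a).add (h2.hasFDerivAt.const_mul b)).add_const c
    rw [show (fun W => a * f W + b * g W + c) = fun W =>
      ((fun W => a * f W) + fun W => b * g W) W + c from rfl, this.fderiv]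
    simp
  have k := ((diff_fderiv_apply hf X).hasFDerivAt.const_mul a).add
    ((diff_fderiv_apply hg X).hasFDerivAt.const_mul b)
  rw [B2_eq (((contDiffAt_const.mul hf).add (contDiffAt_const.mul hg)).add contDiffAt_const),
    e.fderiv_eq, B2_eq hf, B2_eq hg]
  rw [show (fun W => a * fderiv ℝ f W X + b * fderiv ℝ g W X) =
      ((fun W => a * fderiv ℝ f W X) + fun W => b * fderiv ℝ g W X) from rfl, k.fderiv]
  simp

lemma levi_lin {f g : E5 → ℝ} {Z : E5} (hf : ContDiffAt ℝ 2 f Z) (hg : ContDiffAt ℝ 2 g Z)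
    (a b c : ℝ) (X : E5) : levi (fun W => a * f W + b * g W + c) Z X =
      a * levi f Z X + b * levi g Z X := by
  rw [levi_eq, levi_eq, levi_eq, B2_lin hf hg, B2_lin hf hg]
  ring

lemma B2_sum {ι : Type} (s : Finset ι) {f : ι → E5 → ℝ} {Z : E5}
    (hf : ∀ i, ContDiffAt ℝ 2 (f i) Z) (X : E5) :
    B2 (fun W => ∑ i ∈ s, f i W) Z X X = ∑ i ∈ s, B2 (f i) Z X X := by
  classical
  induction s using Finset.induction_on with
  | empty => simp [B2]
  | insert i s hi ih =>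
    have := B2_lin (hf i) (ContDiffAt.sum (s := s) fun j _ => hf j) 1 1 0 X
    simp only [one_mul, add_zero] at this
    simp only [Finset.sum_insert hi]
    rw [this, ih]

lemma B2_comp {f : E5 → ℝ} (L : E5 →L[ℝ] E5) {Z : E5} (hf : ContDiffAt ℝ 2 f (L Z)) (X : E5) :
    B2 (fun W => f (L W)) Z X X = B2 f (L Z) (L X) (L X) := by
  have e : (fun W => fderiv ℝ (fun W => f (L W)) W X) =ᶠ[𝓝 Z]
      fun W => fderiv ℝ f (L W) (L X) := by
    filter_upwards [L.continuous.continuousAt.eventually (ev_diff hf)] with W h1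
    rw [show (fun W => f (L W)) = f ∘ L from rfl, (h1.hasFDerivAt.comp W L.hasFDerivAt).fderiv]
    simp
  have hc : ContDiffAt ℝ 2 (fun W => f (L W)) Z := hf.comp Z L.contDiff.contDiffAt
  rw [B2_eq hc, B2_eq hf, e.fderiv_eq]
  rw [show (fun W => fderiv ℝ f (L W) (L X)) = (fun W => fderiv ℝ f W (L X)) ∘ L from rfl,
    ((diff_fderiv_apply hf (L X)).hasFDerivAt.comp Z L.hasFDerivAt).fderiv]
  simp

lemma levi_comp {f : E5 → ℝ} (L : E5 →L[ℝ] E5) (hL : ∀ X, L (Complex.I • X) = Complex.I • L X)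
    {Z : E5} (hf : ContDiffAt ℝ 2 f (L Z)) (X : E5) :
    levi (fun W => f (L W)) Z X = levi f (L Z) (L X) := by
  rw [levi_eq, levi_eq, B2_comp L hf, B2_comp L hf, hL]

lemma levi_smul (f : E5 → ℝ) (Z X : E5) (r : ℝ) : levi f Z (r • X) = r ^ 2 * levi f Z X := by
  rw [levi, levi, smul_comm Complex.I r X]
  simp only [map_smul, smul_apply, smul_eq_mul]
  ring

lemma fderiv_line {F : Type} [NormedAddCommGroup F] [NormedSpace ℝ F] {f : E5 → F} {Z X : E5}
    (hf : DifferentiableAt ℝ f Z) {y : F} (h : HasDerivAt (fun s : ℝ => f (Z + s • X)) y 0) :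
    fderiv ℝ f Z X = y := by
  have h1 : HasDerivAt (fun s : ℝ => Z + s • X) X 0 := by
    simpa using ((hasDerivAt_id (0 : ℝ)).smul_const X).const_add Z
  have h2 : HasFDerivAt f (fderiv ℝ f Z) ((fun s : ℝ => Z + s • X) 0) := by
    simpa using hf.hasFDerivAt
  exact (h2.comp_hasDerivAt (0 : ℝ) h1).unique h

/-- For a function that is constant on complex lines through the origin, the Levi form only
depends on the direction modulo the radial line. -/
lemma levi_radial {O : Set E5} (hO : IsOpen O) {f : E5 → ℝ} (hf : ∀ Z ∈ O, ContDiffAt ℝ 2 f Z)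
    (hi : ∀ Z ∈ O, ∀ c : ℂ, c ≠ 0 → f (c • Z) = f Z) {Z : E5} (hZ : Z ∈ O) (X : E5) (l : ℂ) :
    levi f Z (X + l • Z) = levi f Z X := by
  have h1 : ∀ W ∈ O, ∀ c : ℂ, fderiv ℝ f W (c • W) = 0 := by
    intro W hW c
    refine fderiv_line ((hf W hW).differentiableAt (by simp)) ?_
    refine (hasDerivAt_const (0 : ℝ) (f W)).congr_of_eventuallyEq ?_
    have : ∀ᶠ s : ℝ in 𝓝 0, (1 + (s : ℂ) * c) ≠ 0 := by
      have hc : ContinuousAt (fun s : ℝ => 1 + (s : ℂ) * c) 0 := by fun_prop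
      exact hc.eventually_ne (by simp)
    filter_upwards [this] with s hs
    rw [← hi W hW _ hs]
    congr 1
    ext i
    simp
    ring
  have h2 : ∀ (c : ℂ) (Y : E5), B2 f Z Y (c • Z) = -fderiv ℝ f Z (c • Y) := by
    intro c Y
    have e : (fun W => fderiv ℝ f W (c • W)) =ᶠ[𝓝 Z] fun _ => 0 := by
      filter_upwards [hO.mem_nhds hZ] with W hW using h1 W hW c
    have k : HasFDerivAt (fun W : E5 => c • W) (c • ContinuousLinearMap.id ℝ E5) Z :=
      (hasFDerivAt_id Z).const_smul c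
    have k2 := ((diff_fderiv (hf Z hZ)).hasFDerivAt.clm_apply k).fderiv
    rw [e.fderiv_eq] at k2
    have k3 := congrArg (fun A => A Y) k2
    simp at k3
    rw [B2]
    linarith
  have h3 : ∀ X Y, B2 f Z X Y = B2 f Z Y X := fun X Y =>
    ((hf Z hZ).isSymmSndFDerivAt (by simp)).eq X Y
  have h4 : ∀ (Y : E5) (c : ℂ), B2 f Z (Y + c • Z) (Y + c • Z) =
      B2 f Z Y Y - 2 * fderiv ℝ f Z (c • Y) := by
    intro Y c
    have e : B2 f Z (Y + c • Z) (Y + c • Z) =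
        B2 f Z Y Y + B2 f Z Y (c • Z) + B2 f Z (c • Z) Y + B2 f Z (c • Z) (c • Z) := by
      simp only [B2, map_add, add_apply]
      ring
    rw [e, h3 (c • Z) Y, h2, h2, smul_smul, h1 Z hZ]
    ring
  rw [levi_eq, levi_eq, h4, smul_add, smul_smul, h4, smul_smul]
  have : (Complex.I * l * Complex.I) • X = -(l • X) := by
    rw [← neg_smul]
    congr 1
    linear_combination l * Complex.I_mul_I
  rw [this, map_neg]
  ring

lemma levi_inv {f : E5 → ℝ} {Z : E5} (hf : ContDiffAt ℝ 2 f Z) {a : ℝ} (ha : f Z < a) (X : E5) :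
    ((a - f Z)⁻¹) ^ 2 * levi f Z X ≤ levi (fun W => (a - f W)⁻¹) Z X := by
  have h0 : a - f Z ≠ 0 := (sub_pos.2 ha).ne'
  have hg : ContDiffAt ℝ 2 (fun W => a - f W) Z := contDiffAt_const.sub hf
  have hi : ContDiffAt ℝ 2 (fun W => (a - f W)⁻¹) Z := hg.inv h0
  have key : ∀ Y, ((a - f Z)⁻¹) ^ 2 * B2 f Z Y Y ≤ B2 (fun W => (a - f W)⁻¹) Z Y Y := by
    intro Y
    have e : (fun W => (a - f W)⁻¹ * (a - f W)) =ᶠ[𝓝 Z] fun _ => 1 := by
      filter_upwards [hg.continuousAt.eventually_ne h0] with W hW using inv_mul_cancel₀ hW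
    have k := B2_mul hi hg Y
    rw [B2_congr e] at k
    have k0 : B2 (fun _ => (1 : ℝ)) Z Y Y = 0 := by simp [B2]
    have k1 : B2 (fun W => a - f W) Z Y Y = -B2 f Z Y Y := by
      have := B2_lin hf hf (-1) 0 a Y
      rw [show (fun W => a - f W) = fun W => -1 * f W + 0 * f W + a by funext W; ring, this]
      ring
    have d1 := (hf.differentiableAt (by simp)).hasFDerivAt.const_sub a
    have d2 := (hasDerivAt_inv h0).comp_hasFDerivAt Z d1
    have k2 : fderiv ℝ (fun W => (a - f W)⁻¹) Z Y = ((a - f Z)⁻¹) ^ 2 * fderiv ℝ f Z Y := by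
      rw [show (fun W => (a - f W)⁻¹) = (fun y : ℝ => y⁻¹) ∘ fun W => a - f W from rfl, d2.fderiv]
      simp
    rw [k0, k1, k2, d1.fderiv] at k
    simp only [neg_apply] at k
    have hp : 0 < (a - f Z)⁻¹ := inv_pos.2 (sub_pos.2 ha)
    have k3 : B2 (fun W => (a - f W)⁻¹) Z Y Y = (a - f Z)⁻¹ * ((a - f Z)⁻¹ * B2 f Z Y Y +
        2 * (((a - f Z)⁻¹) ^ 2 * (fderiv ℝ f Z Y) ^ 2)) := by
      rw [eq_inv_mul_iff_mul_eq₀ h0]
      linarith
    rw [k3]
    have : 0 ≤ (a - f Z)⁻¹ * (2 * (((a - f Z)⁻¹) ^ 2 * (fderiv ℝ f Z Y) ^ 2)) := by positivity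
    nlinarith
  rw [levi_eq, levi_eq, mul_add]
  exact add_le_add (key _) (key _)

lemma levi_contOn {O : Set E5} {f : E5 → ℝ} (hf : ∀ Z ∈ O, ContDiffAt ℝ 2 f Z) :
    ContinuousOn (fun p : E5 × E5 => levi f p.1 p.2) {p | p.1 ∈ O} := by
  intro p hp
  have h : ContinuousAt (fun q : E5 × E5 => fderiv ℝ (fderiv ℝ f) q.1) p :=
    ((((hf p.1 hp).fderiv_right (m := 1) (by norm_num)).fderiv_right (m := 0)
      (by norm_num)).continuousAt).comp continuousAt_fst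
  have h2 : ContinuousAt (fun q : E5 × E5 => Complex.I • q.2) p := by fun_prop
  exact (((h.clm_apply continuousAt_snd).clm_apply continuousAt_snd).add
    ((h.clm_apply h2).clm_apply h2)).continuousWithinAt

/-- On a compact set, if `g` is positive wherever `f` is not, then `g` is bounded below where `f`
is small. -/
lemma compact_small {T : Type} [TopologicalSpace T] {C : Set T} (hC : IsCompact C)
    {f g : T → ℝ} (hf : ContinuousOn f C) (hg : ContinuousOn g C)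
    (h : ∀ x ∈ C, f x ≤ 0 → 0 < g x) : ∃ m, 0 < m ∧ ∀ x ∈ C, f x < m → m ≤ g x := by
  rcases C.eq_empty_or_nonempty with he | he
  · exact ⟨1, one_pos, fun x hx => absurd hx (by simp [he])⟩
  · obtain ⟨y, hy, hm⟩ := hC.exists_isMinOn he (hf.sup hg)
    refine ⟨max (f y) (g y), ?_, fun x hx h1 => ?_⟩
    · rcases le_or_gt (f y) 0 with k | k
      · exact lt_max_of_lt_right (h y hy k)
      · exact lt_max_of_lt_left k
    · have : max (f y) (g y) ≤ max (f x) (g x) := hm hx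
      rcases le_max_iff.1 this with k | k
      · exact absurd k (not_le.2 h1)
      · exact k

/-- The cone condition for a set given by `‖G‖ < κ`. -/
lemma cone_lemma {F : Type} [NormedAddCommGroup F] [NormedSpace ℝ F] {Ω : Set E5} {Z₀ v : E5}
    {G : E5 → F} {κ : E5 → ℝ} (hG : ContDiffAt ℝ 1 G Z₀) (hκ : ContDiffAt ℝ 1 κ Z₀)
    (h : ∀ᶠ Z in 𝓝 Z₀, (Z ∈ Ω ↔ ‖G Z‖ < κ Z)) (h1 : fderiv ℝ G Z₀ v = 0)
    (h2 : 0 < fderiv ℝ κ Z₀ v) : ∃ (v : E5) (δ : ℝ), 0 < δ ∧ ∀ Z ∈ closure Ω, dist Z Z₀ < δ →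
      ∀ v' : E5, dist v' v < δ → ∀ s : ℝ, 0 < s → s < δ → Z + s • v' ∈ Ω := by
  set m := fderiv ℝ κ Z₀ v with hm
  set η := m / (4 * (‖v‖ + 1)) with hη
  have hη0 : 0 < η := by positivity
  have sG := (hG.hasStrictFDerivAt (by simp)).isLittleO.def hη0
  have sκ := (hκ.hasStrictFDerivAt (by simp)).isLittleO.def hη0
  have hcl : ∀ᶠ Z in 𝓝 Z₀, Z ∈ closure Ω → ‖G Z‖ ≤ κ Z := by
    filter_upwards [h.eventually_nhds, hG.eventually (by simp), hκ.eventually (by simp)]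
      with Z k1 k2 k3 hZ
    by_contra hlt
    have : ∀ᶠ Y in 𝓝 Z, κ Y < ‖G Y‖ :=
      k3.continuousAt.eventually_lt k2.continuousAt.norm (not_le.1 hlt)
    obtain ⟨Y, y1, y2, y3⟩ := ((mem_closure_iff_frequently.1 hZ).and_eventually
      (k1.and this)).exists
    exact absurd (y2.1 y1) (not_lt.2 y3.le)
  have c1 : ContinuousAt (fun q : E5 × E5 × ℝ => q.1 + q.2.2 • q.2.1) (Z₀, v, 0) := by fun_prop
  have c2 : Tendsto (fun q : E5 × E5 × ℝ => q.1 + q.2.2 • q.2.1) (𝓝 (Z₀, v, 0)) (𝓝 Z₀) := by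
    simpa using c1.tendsto
  have c3 : Tendsto (fun q : E5 × E5 × ℝ => q.1) (𝓝 (Z₀, v, 0)) (𝓝 Z₀) := continuousAt_fst
  have c4 : Tendsto (fun q : E5 × E5 × ℝ => (q.1 + q.2.2 • q.2.1, q.1)) (𝓝 (Z₀, v, 0))
      (𝓝 (Z₀, Z₀)) := c2.prodMk_nhds c3
  have c5 : ∀ᶠ q : E5 × E5 × ℝ in 𝓝 (Z₀, v, 0),
      ‖fderiv ℝ G Z₀ q.2.1‖ + 2 * (η * ‖q.2.1‖) < fderiv ℝ κ Z₀ q.2.1 := by
    refine ContinuousAt.eventually_lt (by fun_prop) (by fun_prop) ?_
    simp only [h1, norm_zero, zero_add, ← hm]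
    have : η * (‖v‖ + 1) = m / 4 := by rw [hη]; field_simp
    nlinarith [norm_nonneg v]
  obtain ⟨δ, hδ, hb⟩ := Metric.eventually_nhds_iff.1
    ((c4.eventually (sG.and sκ)).and ((c2.eventually h).and ((c3.eventually hcl).and c5)))
  refine ⟨v, δ, hδ, fun Z hZ d1 v' d2 s s1 s2 => ?_⟩
  obtain ⟨⟨k1, k2⟩, k3, k4, k5⟩ := hb (y := (Z, v', s)) (by
    simp only [Prod.dist_eq, max_lt_iff]
    exact ⟨d1, d2, by simpa [abs_of_pos s1] using s2⟩)
  simp only [add_sub_cancel_left, map_smul, norm_smul, Real.norm_eq_abs, abs_of_pos s1,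
    smul_eq_mul] at k1 k2 k3 k4 k5
  refine k3.2 ?_
  have e1 : ‖G (Z + s • v')‖ ≤ ‖G Z‖ + s * ‖fderiv ℝ G Z₀ v'‖ + η * (s * ‖v'‖) := by
    have : G (Z + s • v') = G Z + s • fderiv ℝ G Z₀ v' +
        (G (Z + s • v') - G Z - s • fderiv ℝ G Z₀ v') := by abel
    rw [this]
    refine (norm_add_le _ _).trans (add_le_add ((norm_add_le _ _).trans ?_) k1)
    rw [norm_smul, Real.norm_eq_abs, abs_of_pos s1]
  have e2 := (abs_le.1 k2).1
  have e3 := k4 hZ
  nlinarith [mul_lt_mul_of_pos_left k5 s1]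

end

end Pool.Agent.Lib.MP_2de762_an.H69
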