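import Mathlib

/-! Domains of the complex projective space of dimension four, read on the cone over them in
homogeneous coordinates: pseudoconvexity, Lipschitz boundary, Sobolev spaces, and the coefficients
of the form of Fubini and Study. -/

namespace Pool.Agent.Lib.MP_2de762_an.H69

open MeasureTheory ComplexConjugate Filter Topology
open scoped ContDiff

noncomputable section

/-- Homogeneous coordinates on the complex projective space of dimension four. -/
abbrev E5 : Type := Fin 5 → ℂ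

/-- The square of the Euclidean length. -/
def N2 (Z : E5) : ℝ := ∑ i, Complex.normSq (Z i)

/-- Four times the Levi form of `φ` at `Z` in the direction `X`: the Laplacian of `φ` on the
complex line through `Z` with direction `X`. -/
def levi (φ : E5 → ℝ) (Z X : E5) : ℝ :=
  fderiv ℝ (fderiv ℝ φ) Z X X + fderiv ℝ (fderiv ℝ φ) Z (Complex.I • X) (Complex.I • X)

/-- `Ω` is the cone over a domain (a nonempty connected open set) of the projective space. -/
def IsConeDomain (Ω : Set E5) : Prop :=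
  IsOpen Ω ∧ IsConnected Ω ∧ 0 ∉ Ω ∧ ∀ Z ∈ Ω, ∀ c : ℂ, c ≠ 0 → c • Z ∈ Ω

/-- The domain has a strictly plurisubharmonic exhaustion function of class `C²`. -/
def HasPshExhaustion (Ω : Set E5) : Prop :=
  ∃ φ : E5 → ℝ, ContDiffOn ℝ 2 φ Ω ∧ (∀ Z ∈ Ω, ∀ c : ℂ, c ≠ 0 → φ (c • Z) = φ Z) ∧
    (∀ Z ∈ Ω, ∀ X : E5, (∀ c : ℂ, X ≠ c • Z) → 0 < levi φ Z X) ∧
    ∀ Z ∈ frontier Ω, Z ≠ 0 → Tendsto φ (𝓝[Ω] Z) atTop

/-- The uniform cone condition at every boundary point: the boundary is locally the graph of a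
Lipschitz function, with the domain on one side. -/
def LipschitzBoundary (Ω : Set E5) : Prop :=
  ∀ Z₀ ∈ frontier Ω, Z₀ ≠ 0 → ∃ (v : E5) (δ : ℝ), 0 < δ ∧ ∀ Z ∈ closure Ω, dist Z Z₀ < δ →
    ∀ v' : E5, dist v' v < δ → ∀ s : ℝ, 0 < s → s < δ → Z + s • v' ∈ Ω

/-- Near `Z₀` the domain is given by a smooth defining function with nonzero differential. -/
def SmoothBoundaryAt (Ω : Set E5) (Z₀ : E5) : Prop :=
  ∃ ρ : E5 → ℝ, fderiv ℝ ρ Z₀ ≠ 0 ∧ ∀ᶠ Z in 𝓝 Z₀, ContDiffAt ℝ ∞ ρ Z ∧ (Z ∈ Ω ↔ ρ Z < 0)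

/-- Smooth functions with compact support inside `U`. -/
def IsTest5 (U : Set E5) (φ : E5 → ℂ) : Prop :=
  ContDiff ℝ ∞ φ ∧ HasCompactSupport φ ∧ tsupport φ ⊆ U

/-- `g'` is the derivative of `g` in the real direction `v`, in the sense of distributions on
`U`. -/
def WeakDeriv (U : Set E5) (v : E5) (g g' : E5 → ℂ) : Prop :=
  ∀ φ, IsTest5 U φ → ∫ Z in U, g Z * fderiv ℝ φ Z v = -∫ Z in U, g' Z * φ Z

/-- The Sobolev space of order `k` and exponent `p` on `U`: all weak derivatives of order at most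
`k` lie in `L^p`. -/
def Sob (U : Set E5) (p : ENNReal) : ℕ → (E5 → ℂ) → Prop
  | 0, g => MemLp g p (volume.restrict U)
  | k + 1, g => MemLp g p (volume.restrict U) ∧ ∀ v, ∃ g', WeakDeriv U v g g' ∧ Sob U p k g'

/-- The derivative with respect to the conjugate of the coordinate `Z j`. -/
def dbar (j : Fin 5) (φ : E5 → ℂ) (Z : E5) : ℂ :=
  (fderiv ℝ φ Z (Pi.single j 1) + Complex.I * fderiv ℝ φ Z (Pi.single j Complex.I)) / 2

/-- The coefficients of the form of Fubini and Study: the mixed second derivatives of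
`log |Z|²`. -/
def fsCoeff (i j : Fin 5) (Z : E5) : ℂ :=
  (if i = j then 1 else 0) / (N2 Z : ℂ) - conj (Z i) * Z j / (N2 Z : ℂ) ^ 2

end

end Pool.Agent.Lib.MP_2de762_an.H69
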