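import Pool.Agent.Lib.MP_2de762_an.H69Levi

/-! The domain: a thin round cone about the totally real cone, capped. -/

namespace Pool.Agent.Lib.MP_2de762_an.H69

open Filter Topology Set ComplexConjugate Complex
open scoped ContDiff

noncomputable section

/-- The defining function away from the line. -/
def psi (g : ℝ) (Z : E5) : ℝ := ps0 Z + g * TT Z

/-- The domain. -/
def Om (g : ℝ) : Set E5 := {Z | 0 < RR Z ∧ psi g Z < g}

/-- Moving the point inside its fibre. -/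
def mv (Z : E5) (b τ : ℝ) : E5 := D 1 b Z + τ • pv Z

lemma mv0 (Z : E5) (b τ : ℝ) : mv Z b τ 0 = Z 0 := by simp [mv, D0, pv]

lemma mv1 (Z : E5) (b τ : ℝ) : mv Z b τ 1 = Z 1 := by simp [mv, D1, pv]

lemma pv_congr {Y Z : E5} (h0 : Y 0 = Z 0) (h1 : Y 1 = Z 1) : pv Y = pv Z := by
  simp only [pv, h0, h1]

lemma mv_nn (Z : E5) (b τ : ℝ) : nn (mv Z b τ) = nn Z := by simp only [nn, mv0, mv1]

lemma mv_PP (Z : E5) (b τ : ℝ) : PP (mv Z b τ) = PP Z := by
  simp only [PP, pv_congr (mv0 Z b τ) (mv1 Z b τ)]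

lemma mv_RR (Z : E5) (b τ : ℝ) : RR (mv Z b τ) = b * RR Z + τ * PP Z := by
  have p0 : pv Z 0 = 0 := rfl
  have p1 : pv Z 1 = 0 := rfl
  simp only [RR, HH, pv_congr (mv0 Z b τ) (mv1 Z b τ), PP, N2, Fin.sum_univ_five, p0, p1]
  simp [mv, D2, D3, D4, normSq_apply]
  ring

lemma mv_WW (Z : E5) (b τ : ℝ) :
    WW (mv Z b τ) = b ^ 2 * WW Z + 2 * b * τ * RR Z + τ ^ 2 * PP Z := by
  have p0 : pv Z 0 = 0 := rfl
  have p1 : pv Z 1 = 0 := rfl
  simp only [RR, HH, WW, PP, N2, Fin.sum_univ_five, p0, p1]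
  simp [mv, D2, D3, D4, normSq_apply]
  ring

lemma RR_zero {Z : E5} (h : WW Z ≤ 0) : RR Z = 0 := by
  by_contra k
  exact absurd (WW_pos k) (not_lt.2 h)

lemma cd_psi (g : ℝ) {Z : E5} (h : RR Z ≠ 0) : ContDiffAt ℝ ∞ (psi g) Z :=
  (cd_ps0 h).add (contDiffAt_const.mul (cd_TT (nn_pos h)))

variable {g : ℝ}

lemma mem_near {Z : E5} (h : 0 < RR Z) : ∀ᶠ Y in 𝓝 Z, (Y ∈ Om g ↔ psi g Y < g) := by
  filter_upwards [continuousAt_const.eventually_lt cd_RR.continuous.continuousAt h] with Y hY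
  exact and_iff_right hY

lemma Om_open : IsOpen (Om g) := by
  refine isOpen_iff_mem_nhds.2 fun Z hZ => ?_
  filter_upwards [mem_near (g := g) hZ.1,
    (cd_psi g hZ.1.ne').continuousAt.eventually_lt continuousAt_const hZ.2] with Y h1 h2
  exact h1.2 h2

lemma Om_smul {Z : E5} (hZ : Z ∈ Om g) {c : ℂ} (hc : c ≠ 0) : c • Z ∈ Om g := by
  refine ⟨?_, ?_⟩
  · rw [(scal_smul c Z).2.2.2]
    exact mul_pos (pow_pos (normSq_pos.2 hc) 2) hZ.1
  · simpa only [psi, ps0_smul hc, TT_smul hc] using hZ.2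

lemma Om_TT (hg : 0 < g) {Z : E5} (hZ : Z ∈ Om g) : TT Z < 1 := by
  have h1 := ps0_nonneg hZ.1.ne'
  have h2 := hZ.2
  rw [psi] at h2
  nlinarith

lemma Om_ps0 (hg : 0 < g) {Z : E5} (hZ : Z ∈ Om g) : ps0 Z < g := by
  have h1 := mul_pos hg (TT_pos hZ.1.ne')
  have h2 := hZ.2
  rw [psi] at h2
  linarith

lemma Om_RR (hg : 0 < g) {Z : E5} (hZ : Z ∈ Om g) : RR Z < nn Z ^ 2 := by
  have h := Om_TT hg hZ
  have hn := nn_pos hZ.1.ne'
  rw [TT, div_lt_one (by positivity)] at h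
  exact lt_of_pow_lt_pow_left₀ 2 (by positivity) (by linarith)

lemma ax_mem (hg : 0 < g) {Z : E5} (hn : 0 < nn Z) {τ : ℝ} (h0 : 0 < τ)
    (h1 : τ * PP Z < nn Z ^ 2) : mv Z 0 τ ∈ Om g := by
  have hP := PP_pos hn
  refine ⟨by rw [mv_RR, zero_mul, zero_add]; positivity, ?_⟩
  have e1 : ps0 (mv Z 0 τ) = 0 := by
    rw [ps0, mv_RR, mv_WW, mv_PP]
    field_simp
    ring
  have e2 : TT (mv Z 0 τ) < 1 := by
    rw [TT, mv_RR, mv_nn, div_lt_one (by positivity)]
    nlinarith [mul_pos h0 hP]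
  rw [psi, e1]
  nlinarith

lemma seg_mem {Z : E5} (hZ : Z ∈ Om g) {s : ℝ} (h0 : 0 ≤ s) (h1 : s ≤ 1) :
    mv Z (1 - s) (s * (RR Z / PP Z)) ∈ Om g := by
  have hR := hZ.1
  have hP := PP_pos (nn_pos hR.ne')
  have e0 : RR (mv Z (1 - s) (s * (RR Z / PP Z))) = RR Z := by
    rw [mv_RR]
    field_simp
    ring
  have e1 : ps0 (mv Z (1 - s) (s * (RR Z / PP Z))) = (1 - s) ^ 2 * ps0 Z := by
    rw [ps0, e0, mv_WW, mv_PP, ps0]
    field_simp
    ring
  refine ⟨by rwa [e0], lt_of_le_of_lt ?_ hZ.2⟩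
  rw [psi, psi, e1, TT, TT, e0, mv_nn]
  have := mul_nonneg (mul_nonneg h0 (by linarith : 0 ≤ 2 - s)) (ps0_nonneg hR.ne')
  nlinarith

/-- The inclusion of the plane of the first two coordinates. -/
def emb (y : Fin 2 → ℂ) : E5 := ![y 0, y 1, 0, 0, 0]

lemma emb_cont : Continuous emb := by
  refine continuous_pi fun i => ?_
  fin_cases i
  exacts [continuous_apply 0, continuous_apply 1, continuous_const, continuous_const,
    continuous_const]

lemma emb_pos {y : Fin 2 → ℂ} (hy : y ≠ 0) : 0 < nn (emb y) := by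
  by_contra k
  obtain ⟨k0, k1⟩ := nn_zero (not_lt.1 k)
  refine hy (funext fun i => ?_)
  fin_cases i
  exacts [k0, k1]

lemma Om_connected (hg : 0 < g) : IsConnected (Om g) := by
  set F : (Fin 2 → ℂ) × ℝ → E5 := fun q =>
    mv (emb q.1) 0 (q.2 * (nn (emb q.1) ^ 2 / PP (emb q.1))) with hF
  have hc : IsConnected (F '' ({0}ᶜ ×ˢ Ioo 0 1)) := by
    refine ((isConnected_compl_singleton_of_one_lt_rank ?_ 0).prod
      (isConnected_Ioo one_pos)).image F fun q hq => ?_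
    · rw [← Module.finrank_eq_rank, Module.finrank_pi_fintype]
      simp
    · have c1 := cd_nn.continuous
      have c2 := cd_PP.continuous
      have c3 := cd_pv.continuous
      have c4 := emb_cont
      have hP := (PP_pos (emb_pos hq.1)).ne'
      refine ContinuousAt.continuousWithinAt ?_
      simp only [hF, mv]
      fun_prop (disch := assumption)
  have hs : F '' ({0}ᶜ ×ˢ Ioo 0 1) ⊆ Om g := by
    rintro _ ⟨q, hq, rfl⟩
    have hn := emb_pos hq.1
    have hP := PP_pos hn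
    have h0 := hq.2.1
    refine ax_mem hg hn (by positivity) ?_
    rw [mul_assoc, div_mul_cancel₀ _ hP.ne']
    exact mul_lt_of_lt_one_left (by positivity) hq.2.2
  obtain ⟨x, hx⟩ := hc.nonempty
  refine ⟨⟨x, hs hx⟩, isPreconnected_of_forall x fun Z hZ => ?_⟩
  set f : ℝ → E5 := fun s => mv Z (1 - s) (s * (RR Z / PP Z)) with hf
  have hfc : Continuous f := by
    have : f = fun s => Z - s • D 0 1 Z + (s * (RR Z / PP Z)) • pv Z := by
      funext s
      simp only [hf, mv]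
      congr 1
      apply ext5 <;> simp [D0, D1, D2, D3, D4] <;> ring
    rw [this]
    fun_prop
  have hn := nn_pos hZ.1.ne'
  refine ⟨F '' ({0}ᶜ ×ˢ Ioo 0 1) ∪ f '' Icc 0 1, union_subset hs ?_, Or.inl hx,
    Or.inr ⟨0, by simp, by simp [hf, mv, D_one]⟩, IsPreconnected.union (f 1) ?_
      ⟨1, by simp, rfl⟩ hc.isPreconnected (isPreconnected_Icc.image f hfc.continuousOn)⟩
  · rintro _ ⟨s, hs, rfl⟩
    exact seg_mem hZ hs.1 hs.2
  · have e0 : emb ![Z 0, Z 1] 0 = Z 0 := rfl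
    have e1 : emb ![Z 0, Z 1] 1 = Z 1 := rfl
    refine ⟨(![Z 0, Z 1], RR Z / nn Z ^ 2), ⟨fun e => ?_, div_pos hZ.1 (by positivity),
      (div_lt_one (by positivity)).2 (Om_RR hg hZ)⟩, ?_⟩
    · have k0 : Z 0 = 0 := congrFun (mem_singleton_iff.1 e) 0
      have k1 : Z 1 = 0 := congrFun (mem_singleton_iff.1 e) 1
      simp [nn, k0, k1] at hn
    · have e2 : nn (emb ![Z 0, Z 1]) = nn Z := rfl
      have e3 : PP (emb ![Z 0, Z 1]) = PP Z := rfl
      have e4 : pv (emb ![Z 0, Z 1]) = pv Z := rfl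
      simp only [hF, hf, mv, e2, e3, e4]
      congr 1
      · apply ext5 <;> simp [D0, D1, D2, D3, D4, e0, e1]
      · congr 1
        field_simp

lemma Om_cone (hg : 0 < g) : IsConeDomain (Om g) :=
  ⟨Om_open, Om_connected hg, fun h => by simpa [nn] using nn_pos h.1.ne',
    fun _ hZ _ hc => Om_smul hZ hc⟩

lemma Om_bounds (hg : 0 < g) (hg1 : g ≤ 1) {Z : E5} (hZ : Z ∈ closure (Om g)) :
    0 ≤ RR Z ∧ PP Z * WW Z ≤ 2 * RR Z ^ 2 ∧ WW Z ≤ 8 * nn Z := by
  have hc : IsClosed {Z | 0 ≤ RR Z ∧ PP Z * WW Z ≤ 2 * RR Z ^ 2 ∧ WW Z ≤ 8 * nn Z} := by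
    have c1 := cd_nn.continuous
    have c2 := cd_RR.continuous
    have c3 := cd_PP.continuous
    have c4 := cd_WW.continuous
    simp only [ofPred_and]
    exact (isClosed_le (by fun_prop) (by fun_prop)).inter
      ((isClosed_le (by fun_prop) (by fun_prop)).inter (isClosed_le (by fun_prop) (by fun_prop)))
  refine closure_minimal (fun Y hY => ?_) hc hZ
  have h1 := Om_ps0 hg hY
  have h2 := Om_RR hg hY
  have hR := hY.1
  have hn := nn_pos hR.ne'
  have h3 : PP Y * WW Y ≤ 2 * RR Y ^ 2 := by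
    rw [ps0] at h1
    exact (div_le_iff₀ (by positivity)).1 (by linarith)
  refine ⟨hR.le, h3, le_of_mul_le_mul_left ?_ (by positivity : 0 < nn Y ^ 3 / 4)⟩
  have := mul_le_mul_of_nonneg_right (PP_ge Y) (WW_nonneg Y)
  nlinarith

lemma frontier_cases (hg : 0 < g) (hg1 : g ≤ 1) {Z : E5} (hZ : Z ∈ frontier (Om g))
    (h0 : Z ≠ 0) : (0 < RR Z ∧ psi g Z = g) ∨ (0 < nn Z ∧ WW Z ≤ 0) := by
  obtain ⟨h1, h2, h3⟩ := Om_bounds hg hg1 hZ.1
  rcases h1.lt_or_eq with k | k
  · refine Or.inl ⟨k, le_antisymm ?_ ?_⟩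
    · have := mem_closure_iff_nhdsWithin_neBot.1 hZ.1
      exact le_of_tendsto ((cd_psi g k.ne').continuousAt.tendsto.mono_left nhdsWithin_le_nhds)
        (eventually_mem_nhdsWithin.mono fun Y (hY : Y ∈ Om g) => hY.2.le)
    · by_contra e
      exact hZ.2 (Om_open.interior_eq.symm ▸ (⟨k, not_le.1 e⟩ : Z ∈ Om g))
  · have hn : 0 < nn Z := by
      by_contra e
      exact h0 (N2_eq_zero (by rw [N2_eq]; linarith))
    refine Or.inr ⟨hn, ?_⟩
    rw [← k] at h2
    exact le_of_mul_le_mul_left (by simpa using h2) (PP_pos hn)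

lemma line_frontier (hg : 0 < g) {Z : E5} (h0 : Z ≠ 0) (hW : WW Z ≤ 0) :
    Z ∈ frontier (Om g) := by
  have hn : 0 < nn Z := by
    by_contra e
    exact h0 (N2_eq_zero (by rw [N2_eq]; linarith))
  obtain ⟨k2, k3, k4⟩ := WW_zero hW
  refine ⟨?_, fun h => (interior_subset h).1.ne' (RR_zero hW)⟩
  have e : mv Z 0 0 = Z := by
    apply ext5 <;> simp [mv, D0, D1, D2, D3, D4, k2, k3, k4]
  have hc : Tendsto (fun τ : ℝ => mv Z 0 τ) (𝓝[>] 0) (𝓝 Z) := by
    have : Continuous fun τ : ℝ => mv Z 0 τ := by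
      simp only [mv]
      fun_prop
    exact (e ▸ this.tendsto 0).mono_left nhdsWithin_le_nhds
  refine mem_closure_of_tendsto hc ?_
  have : ∀ᶠ τ : ℝ in 𝓝 0, τ * PP Z < nn Z ^ 2 :=
    ContinuousAt.eventually_lt (by fun_prop) continuousAt_const (by simpa using by positivity)
  filter_upwards [self_mem_nhdsWithin, nhdsWithin_le_nhds this] with τ h1 h2
  exact ax_mem hg hn h1 h2

lemma line_frontier' (hg : 0 < g) {Z : E5} (h : Z 2 = 0 ∧ Z 3 = 0 ∧ Z 4 = 0) :
    Z ∈ frontier (Om g) := by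
  rcases eq_or_ne Z 0 with rfl | h0
  · have hc : Tendsto (fun τ : ℝ => τ • emb ![1, 1]) (𝓝[>] 0) (𝓝 0) := by
      have : Continuous fun τ : ℝ => τ • emb ![1, 1] := by fun_prop
      simpa using (this.tendsto 0).mono_left nhdsWithin_le_nhds
    refine isClosed_frontier.mem_of_tendsto hc (eventually_mem_nhdsWithin.mono fun τ hτ => ?_)
    refine line_frontier hg (fun e => ?_) (by simp [WW, emb])
    have := congrFun e 0
    simp [emb, (mem_Ioi.1 hτ).ne'] at this
  · exact line_frontier hg h0 (by simp [WW, h])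

lemma fderiv_psi {Z : E5} (h : RR Z ≠ 0) :
    fderiv ℝ (psi g) Z (-D 0 1 Z) = -(2 * g * TT Z) := by
  refine fderiv_line ((cd_psi g h).differentiableAt (by simp)) ?_
  have k : HasDerivAt (fun s : ℝ => ps0 Z + g * ((1 - s) * (1 - s) * TT Z)) _ 0 :=
    (((((hasDerivAt_id (0 : ℝ)).const_sub 1).fun_mul
      ((hasDerivAt_id (0 : ℝ)).const_sub 1)).mul_const _).const_mul g).const_add _
  refine (k.congr_of_eventuallyEq ?_).congr_deriv (by simp; ring)
  filter_upwards [Iio_mem_nhds (one_pos : (0 : ℝ) < 1)] with s hs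
  have e : Z + s • -D 0 1 Z = D 1 (1 - s) Z := by
    apply ext5 <;> simp [D0, D1, D2, D3, D4] <;> ring
  rw [e, psi, ps0_D one_ne_zero (sub_pos.2 hs).ne', TT_D one_ne_zero]
  ring

lemma Om_smooth (hg : 0 < g) {Z : E5} (h : 0 < RR Z) : SmoothBoundaryAt (Om g) Z := by
  refine ⟨fun Y => psi g Y - g, fun e => ?_, ?_⟩
  · have := fderiv_psi (g := g) h.ne'
    rw [fderiv_sub_const] at e
    rw [e] at this
    have := mul_pos hg (TT_pos h.ne')
    simp only [zero_apply] at *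
    linarith
  · filter_upwards [mem_near (g := g) h, cd_RR.continuous.continuousAt.eventually_ne h.ne']
      with Y h1 h2
    exact ⟨(cd_psi g h2).sub contDiffAt_const, by rw [h1, sub_neg]⟩

lemma Om_lip (hg : 0 < g) (hg1 : g ≤ 1) : LipschitzBoundary (Om g) := by
  intro Z hZ h0
  rcases frontier_cases hg hg1 hZ h0 with ⟨hR, -⟩ | ⟨hn, hW⟩
  · refine cone_lemma (F := ℝ) (G := fun _ => 0) (κ := fun Y => g - psi g Y) (v := -D 0 1 Z)
      contDiffAt_const ((contDiffAt_const.sub (cd_psi g hR.ne')).of_le one_le) ?_ (by simp) ?_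
    · simpa only [norm_zero, sub_pos] using mem_near hR
    · rw [fderiv_const_sub, neg_apply, fderiv_psi hR.ne', neg_neg]
      have := TT_pos hR.ne'
      positivity
  · have hR := RR_zero hW
    have hP := PP_pos hn
    have hT : TT Z = 0 := by simp [TT, hR]
    have hp : 0 < PP Z * (g - g * TT Z) := by rw [hT]; simpa using mul_pos hP hg
    have ch : ContDiffAt ℝ ∞ (fun Y => √(PP Y * (g - g * TT Y))) Z :=
      (cd_PP.contDiffAt.mul (contDiffAt_const.sub (contDiffAt_const.mul (cd_TT hn)))).sqrt hp.ne'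
    have cG : ContDiff ℝ ∞ fun Y => (WithLp.toLp 2 (GG Y) : EuclideanSpace ℂ (Fin 5)) :=
      PiLp.contDiff_toLp.comp cd_GG
    have hN : ∀ Y : E5, ‖(WithLp.toLp 2 Y : EuclideanSpace ℂ (Fin 5))‖ = √(N2 Y) := fun Y => by
      simp [EuclideanSpace.norm_eq, N2, normSq_eq_norm_sq]
    have e : ∀ s : ℝ, Z + s • pv Z = mv Z 1 s := fun s => by rw [mv, D_one]
    refine cone_lemma (G := fun Y => (WithLp.toLp 2 (GG Y) : EuclideanSpace ℂ (Fin 5)))
      (κ := fun Y => RR Y * √(PP Y * (g - g * TT Y))) (v := pv Z)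
      (cG.contDiffAt.of_le one_le) ((cd_RR.contDiffAt.mul ch).of_le one_le) ?_ ?_ ?_
    · have c : ContinuousAt (fun Y => PP Y * (g - g * TT Y)) Z :=
        (cd_PP.contDiffAt.mul (contDiffAt_const.sub
          (contDiffAt_const.mul (cd_TT hn)))).continuousAt
      filter_upwards [continuousAt_const.eventually_lt c hp] with Y hY
      have hs := Real.sqrt_pos.2 hY
      have key : 0 < RR Y → (psi g Y < g ↔ √(N2 (GG Y)) < RR Y * √(PP Y * (g - g * TT Y))) := by
        intro k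
        have := PP_pos (nn_pos k.ne')
        rw [Real.sqrt_lt' (by positivity), mul_pow, Real.sq_sqrt hY.le, psi, ps0_eq k.ne',
          ← lt_sub_iff_add_lt, inv_mul_lt_iff₀ (by positivity)]
        constructor <;> intro <;> linarith
      rw [hN]
      refine ⟨fun k => (key k.1).1 k.2, fun k => ?_⟩
      have k1 : 0 < RR Y := (mul_pos_iff_of_pos_right hs).1 (lt_of_le_of_lt (Real.sqrt_nonneg _) k)
      exact ⟨k1, (key k1).2 k⟩
    · refine fderiv_line (cG.differentiable (by simp) Z) ?_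
      refine (hasDerivAt_const (0 : ℝ) 0).congr_of_eventuallyEq (Eventually.of_forall fun s => ?_)
      have : GG (Z + s • pv Z) = 0 := by
        refine N2_eq_zero (le_of_eq ?_)
        rw [e, N2_GG, mv_PP, mv_WW, mv_RR, hR, le_antisymm hW (WW_nonneg Z)]
        ring
      simp [this]
    · have d : fderiv ℝ RR Z (pv Z) = PP Z := by
        refine fderiv_line (cd_RR.differentiable (by simp) Z) ?_
        simp only [e, mv_RR]
        simpa using ((hasDerivAt_id (0 : ℝ)).mul_const (PP Z)).const_add (1 * RR Z)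
      rw [fderiv_fun_mul (cd_RR.differentiable (by simp) Z) (ch.differentiableAt (by simp))]
      simp only [hR, zero_smul, zero_add, smul_apply, d, smul_eq_mul]
      exact mul_pos (Real.sqrt_pos.2 hp) hP

lemma Om_psh : ∃ g₀, 0 < g₀ ∧ g₀ ≤ 1 ∧ HasPshExhaustion (Om g₀) := by
  obtain ⟨m, C, hm, hC, key⟩ := key1
  obtain ⟨g, hg, hg1, g1, g2⟩ : ∃ g : ℝ, 0 < g ∧ g ≤ 1 ∧ g ≤ m ∧ g * C ≤ m / 2 :=
    ⟨min 1 (min m (m / 2 / C)), by positivity, min_le_left _ _,
      min_le_of_right_le (min_le_left _ _),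
      (le_div_iff₀ hC).1 (min_le_of_right_le (min_le_right _ _))⟩
  set φ : E5 → ℝ := fun Z => 1 * (g - psi g Z)⁻¹ + -(m / 4 / C) * Real.log (TT Z) + 0 with hφ
  have ci : ∀ Z ∈ Om g, ContDiffAt ℝ 2 (fun W => (g - psi g W)⁻¹) Z := fun Z hZ =>
    ((contDiffAt_const.sub (cd_psi g hZ.1.ne')).inv (sub_pos.2 hZ.2).ne').of_le two_le
  have cφ : ∀ Z ∈ Om g, ContDiffAt ℝ 2 φ Z := fun Z hZ =>
    ((contDiffAt_const.mul (ci Z hZ)).add
      (contDiffAt_const.mul ((cd_logT hZ.1.ne').of_le two_le))).add contDiffAt_const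
  have iφ : ∀ Z ∈ Om g, ∀ c : ℂ, c ≠ 0 → φ (c • Z) = φ Z := fun Z _ c hc => by
    simp only [hφ, psi, ps0_smul hc, TT_smul hc]
  refine ⟨g, hg, hg1, φ, fun Z hZ => (cφ Z hZ).contDiffWithinAt, iφ, fun Z hZ X hX => ?_,
    fun Z hZ h0 => ?_⟩
  · have hR := hZ.1
    have hn : (nn Z : ℂ) ≠ 0 := ofReal_ne_zero.2 (nn_pos hR.ne').ne'
    set l : ℂ := -((X 0 * conj (Z 0) + X 1 * conj (Z 1)) / nn Z) with hl
    rw [← levi_radial Om_open cφ iφ hZ X l]
    obtain ⟨κ, hκ, k1, k2, k3⟩ := key Z (X + l • Z) hR ((Om_ps0 hg hZ).trans_le g1)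
      ((Om_ps0 hg hZ).le.trans hg1) (by
        have e : (nn Z : ℂ) = Z 0 * conj (Z 0) + Z 1 * conj (Z 1) := by
          rw [mul_conj, mul_conj, nn, ofReal_add]
        have e2 : l * nn Z = -(X 0 * conj (Z 0) + X 1 * conj (Z 1)) := by
          rw [hl, neg_mul, div_mul_cancel₀ _ hn]
        simp only [Pi.add_apply, Pi.smul_apply, smul_eq_mul]
        linear_combination e2 - l * e)
      fun e => hX (-l) (by rw [neg_smul, eq_neg_iff_add_eq_zero, e])
    generalize X + l • Z = Y at k1 k2 k3 ⊢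
    have k4 := levi_lin ((cd_ps0 hR.ne').of_le two_le) ((cd_TT (nn_pos hR.ne')).of_le two_le)
      1 g 0 Y
    simp only [one_mul, add_zero] at k4
    have k5 : levi (psi g) Z Y = levi ps0 Z Y + g * levi TT Z Y := k4
    have k6 := levi_inv ((cd_psi g hR.ne').of_le two_le) hZ.2 Y
    have hT := Om_TT hg hZ
    have hT0 := TT_pos hR.ne'
    have k7 : m / 2 * κ ≤ levi (psi g) Z Y := by
      have a1 := mul_le_mul_of_nonneg_left k2 hg.le
      have a2 : g * C * TT Z ≤ m / 2 :=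
        (mul_le_of_le_one_right (by positivity) hT.le).trans g2
      nlinarith [mul_le_mul_of_nonneg_right a2 hκ.le]
    have k8 : 1 ≤ ((g - psi g Z)⁻¹) ^ 2 := by
      refine one_le_pow₀ ((one_le_inv₀ (sub_pos.2 hZ.2)).2 ?_)
      have := ps0_nonneg hR.ne'
      have := mul_pos hg hT0
      rw [psi]
      linarith
    have k9 : m / 4 / C * levi (fun W => Real.log (TT W)) Z Y ≤ m / 4 * κ := by
      refine (mul_le_mul_of_nonneg_left k3 (by positivity)).trans_eq ?_
      field_simp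
    rw [hφ, levi_lin (ci Z hZ) ((cd_logT hR.ne').of_le two_le)]
    have := mul_pos hm hκ
    nlinarith [mul_le_mul k8 k7 (by positivity) (by positivity)]
  · have he : 0 < m / 4 / C := by positivity
    rcases frontier_cases hg hg1 hZ h0 with ⟨hR, hψ⟩ | ⟨hn, hW⟩
    · have t1 : Tendsto (fun W => g - psi g W) (𝓝[Om g] Z) (𝓝[>] 0) := by
        refine tendsto_nhdsWithin_iff.2 ⟨?_, eventually_mem_nhdsWithin.mono
          fun Y (hY : Y ∈ Om g) => sub_pos.2 hY.2⟩
        have := ((cd_psi g hR.ne').continuousAt.tendsto.const_sub g).mono_left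
          (nhdsWithin_le_nhds (s := Om g))
        simpa [hψ] using this
      refine tendsto_atTop_mono' _ ?_ (tendsto_inv_nhdsGT_zero.comp t1)
      filter_upwards [eventually_mem_nhdsWithin] with Y hY
      have := mul_nonneg he.le (neg_nonneg.2 (Real.log_nonpos (TT_pos hY.1.ne').le
        (Om_TT hg hY).le))
      simp only [hφ, Function.comp]
      linarith
    · have t1 : Tendsto TT (𝓝[Om g] Z) (𝓝[>] 0) := by
        refine tendsto_nhdsWithin_iff.2 ⟨?_, eventually_mem_nhdsWithin.mono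
          fun Y (hY : Y ∈ Om g) => TT_pos hY.1.ne'⟩
        have := (cd_TT hn).continuousAt.tendsto.mono_left (nhdsWithin_le_nhds (s := Om g))
        simpa [TT, RR_zero hW] using this
      refine tendsto_atTop_mono' _ ?_ ((Real.tendsto_log_nhdsGT_zero.comp t1).const_mul_atBot_of_neg
        (neg_neg_of_pos he))
      filter_upwards [eventually_mem_nhdsWithin] with Y hY
      have := inv_pos.2 (sub_pos.2 hY.2)
      simp only [hφ, Function.comp]
      linarith

end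

end Pool.Agent.Lib.MP_2de762_an.H69
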