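import Pool.Agent.Lib.MP_2de762_an.H69Dom
import Pool.Agent.Lib.MP_2de762_an.H69Ana

/-! The form of Fubini and Study has no primitive with `k` derivatives in `L^p` when `k p ≥ 6`. -/

namespace Pool.Agent.Lib.MP_2de762_an.H69

open MeasureTheory Filter Topology Set ComplexConjugate Complex
open scoped ContDiff

noncomputable section

/-- The displacement from `p(ζ)`. -/
def Yv (Z : E5) : E5 := D 0 1 Z - pv Z

/-- The support of the test functions. -/
def KK (m : ℝ) : Set E5 := {Z | 3 / 2 ≤ nn Z ∧ nn Z ≤ 5 / 2 ∧ N2 (Yv Z) ≤ m}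

lemma cd_Yv : ContDiff ℝ ∞ Yv := (D 0 1).contDiff.sub cd_pv

lemma KK_compact {m : ℝ} (hm : m ≤ 1) : IsCompact (KK m) := by
  have c1 := cd_nn.continuous
  have c2 := cd_N2.continuous
  have c3 := cd_Yv.continuous
  have c4 := cd_pv.continuous
  refine (((isCompact_closedBall (0 : E5) 2).prod (isCompact_closedBall (0 : E5) 1)).image
    (f := fun q => q.1 + q.2 + pv q.1) (by fun_prop)).of_isClosed_subset ?_ fun Z hZ => ?_
  · simp only [KK, ofPred_and]
    exact (isClosed_le (by fun_prop) (by fun_prop)).inter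
      ((isClosed_le (by fun_prop) (by fun_prop)).inter (isClosed_le (by fun_prop) (by fun_prop)))
  · obtain ⟨s1, s2, -⟩ := scal_D 1 0 Z
    refine ⟨(D 1 0 Z, Yv Z), ⟨mem_closedBall_zero_iff.2 (norm_le_of_N2 (by norm_num) ?_),
      mem_closedBall_zero_iff.2 (norm_le_of_N2 (by norm_num) (by linarith [hZ.2.2]))⟩, ?_⟩
    · simp only [N2_eq, s1, s2]
      linarith [hZ.2.1]
    · have : pv (D 1 0 Z) = pv Z := pv_congr (by simp [D0]) (by simp [D1])
      simp only [this, Yv]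
      apply ext5 <;> simp [D0, D1, D2, D3, D4]

lemma KK_small {g : ℝ} (hg : 0 < g) : ∃ m, 0 < m ∧ m ≤ 1 ∧ ∀ᶠ s : ℝ in atTop, ∀ Z ∈ KK m,
    D 1 s⁻¹ Z ∈ Om g ∩ {Z | 1 < N2 Z ∧ N2 Z < 4} := by
  have c2 := cd_RR.continuous
  have c3 := cd_PP.continuous
  have c4 := cd_WW.continuous
  have hc := KK_compact (le_refl 1)
  have hn : ∀ Z ∈ KK 1, 0 < nn Z := fun Z hZ => by linarith [hZ.1]
  obtain ⟨m, hm, h⟩ := compact_small hc (f := fun Z => N2 (Yv Z))
    (g := fun Z => min (RR Z) ((g / 2 + 1) * RR Z ^ 2 - PP Z * WW Z))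
    (cd_N2.comp cd_Yv).continuous.continuousOn (Continuous.continuousOn (by fun_prop))
    fun Z hZ h0 => by
      have e : mv Z 0 1 = Z := by
        have k := sub_eq_zero.1 (N2_eq_zero h0)
        rw [mv, ← k]
        apply ext5 <;> simp [D0, D1, D2, D3, D4]
      have e1 := mv_RR Z 0 1
      have e2 := mv_WW Z 0 1
      have hP := PP_pos (hn Z hZ)
      rw [e] at e1 e2
      simp only [zero_mul, zero_add, one_mul, mul_zero, one_pow, ne_eq, OfNat.ofNat_ne_zero,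
        not_false_eq_true, zero_pow] at e1 e2
      rw [e1, e2]
      exact lt_min hP (by nlinarith [mul_pos hg (mul_pos hP hP)])
  obtain ⟨M1, h1⟩ := hc.exists_bound_of_continuousOn c4.continuousOn
  obtain ⟨M2, h2⟩ := hc.exists_bound_of_continuousOn
    fun Z hZ => (cd_TT (hn Z hZ)).continuousAt.continuousWithinAt
  have t : ∀ M : ℝ, ∀ᶠ s : ℝ in atTop, s⁻¹ ^ 2 * M < 1 / 2 := fun M => by
    have : Tendsto (fun s : ℝ => s⁻¹ ^ 2 * M) atTop (𝓝 (0 ^ 2 * M)) :=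
      (tendsto_inv_atTop_zero.pow 2).mul_const M
    exact this.eventually (Iio_mem_nhds (by simp))
  refine ⟨min 1 (m / 2), by positivity, min_le_left _ _, ?_⟩
  filter_upwards [t M1, t M2, eventually_gt_atTop 0] with s t1 t2 hs Z hZ
  have hZ1 : Z ∈ KK 1 := ⟨hZ.1, hZ.2.1, hZ.2.2.trans (min_le_left _ _)⟩
  obtain ⟨k1, k2⟩ := le_min_iff.1 (h Z hZ1 (by linarith [hZ.2.2.trans (min_le_right _ _)]))
  have hR : 0 < RR Z := hm.trans_le k1
  obtain ⟨s1, s2, -, s4⟩ := scal_D 1 s⁻¹ Z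
  have b1 := mul_le_mul_of_nonneg_left ((le_abs_self _).trans (h1 Z hZ1)) (sq_nonneg s⁻¹)
  have b2 := mul_le_mul_of_nonneg_left ((le_abs_self _).trans (h2 Z hZ1)) (sq_nonneg s⁻¹)
  have b3 := mul_nonneg (sq_nonneg s⁻¹) (WW_nonneg Z)
  refine ⟨⟨by rw [s4]; positivity, ?_⟩, ?_⟩
  · have : PP Z * WW Z / RR Z ^ 2 < g / 2 + 1 := (div_lt_iff₀ (by positivity)).2 (by linarith)
    rw [psi, ps0_D one_ne_zero (inv_pos.2 hs).ne', TT_D one_ne_zero, div_one, ps0]
    nlinarith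
  · simp only [mem_ofPred, N2_eq, s1, s2]
    constructor <;> linarith [hZ.1, hZ.2.1]

/-- The test functions. -/
def tf (c b : ℝ → ℝ) (Y : E5) : ℂ := ((c (nn Y) * b (N2 (Yv Y)) : ℝ) : ℂ)

lemma tf_test {m : ℝ} (hm : m ≤ 1) {c b : ℝ → ℝ} (hc : ContDiff ℝ ∞ c) (hb : ContDiff ℝ ∞ b)
    (sc : ∀ x, c x ≠ 0 → 3 / 2 ≤ x ∧ x ≤ 5 / 2) (sb : ∀ x, b x ≠ 0 → x ≤ m) :
    IsTest5 (KK m) (tf c b) := by
  have h0 : ∀ Z ∉ KK m, tf c b Z = 0 := fun Z hZ => by
    by_contra k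
    have k1 := mul_ne_zero_iff.1 (ofReal_ne_zero.1 k)
    exact hZ ⟨(sc _ k1.1).1, (sc _ k1.1).2, sb _ k1.2⟩
  refine ⟨ofRealCLM.contDiff.comp ((hc.comp cd_nn).mul (hb.comp (cd_N2.comp cd_Yv))),
    HasCompactSupport.intro (KK_compact hm) h0,
    closure_minimal (fun Z hZ => ?_) (KK_compact hm).isClosed⟩
  by_contra k
  exact hZ (h0 Z k)

lemma fderiv_nn (Y X : E5) :
    fderiv ℝ nn Y X = 2 * (conj (Y 0) * X 0 + conj (Y 1) * X 1).re := by
  refine fderiv_line (cd_nn.differentiable (by simp) Y) ?_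
  have k : HasDerivAt (fun s : ℝ => nn Y + (s * (2 * (conj (Y 0) * X 0 + conj (Y 1) * X 1).re) +
      s * s * nn X)) _ 0 := (((hasDerivAt_id (0 : ℝ)).mul_const _).fun_add
    (((hasDerivAt_id (0 : ℝ)).fun_mul (hasDerivAt_id (0 : ℝ))).mul_const _)).const_add _
  refine (k.congr_of_eventuallyEq (Eventually.of_forall fun s => ?_)).congr_deriv (by simp)
  simp [nn, normSq_apply]
  ring

lemma fderiv_tf {c b : ℝ → ℝ} (hc : ContDiff ℝ ∞ c) (hb : ContDiff ℝ ∞ b) (Y v : E5)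
    (hv : D 0 1 v = 0) : fderiv ℝ (tf c b) Y v =
      tf (deriv c) b Y * (fderiv ℝ nn Y v : ℝ) - fderiv ℝ (tf c b) Y (dp Y v) := by
  have d1 : HasFDerivAt (fun Y => c (nn Y)) _ Y :=
    (hc.differentiable (by simp) _).hasDerivAt.comp_hasFDerivAt Y
      (cd_nn.differentiable (by simp) Y).hasFDerivAt
  have d2 : HasFDerivAt Yv _ Y :=
    (D 0 1).hasFDerivAt.sub (cd_pv.differentiable (by simp) Y).hasFDerivAt
  have d3 : HasFDerivAt (fun Y => b (N2 (Yv Y))) _ Y :=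
    ((hb.comp cd_N2).differentiable (by simp) _).hasFDerivAt.comp Y d2
  have d4 : HasFDerivAt (tf c b) _ Y := ofRealCLM.hasFDerivAt.comp Y (d1.fun_mul d3)
  have e1 : D 0 1 (v + dp Y v) - fderiv ℝ pv Y (v + dp Y v) = 0 := by
    rw [map_add, hv, fderiv_pv]
    apply ext5 <;> simp [dp, D0, D1, D2, D3, D4]
  have e2 : fderiv ℝ nn Y (v + dp Y v) = fderiv ℝ nn Y v := by
    have a0 : dp Y v 0 = 0 := rfl
    have a1 : dp Y v 1 = 0 := rfl
    simp only [fderiv_nn, Pi.add_apply, a0, a1, add_zero]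
  rw [eq_sub_iff_add_eq, ← map_add, d4.fderiv]
  simp only [ContinuousLinearMap.comp_apply, add_apply, smul_apply, sub_apply, e1, e2, map_zero,
    tf, ofRealCLM_apply, smul_eq_mul]
  push_cast
  ring

lemma dbar_tf {c b : ℝ → ℝ} (hc : ContDiff ℝ ∞ c) (hb : ContDiff ℝ ∞ b) (s : ℝ) (Z : E5)
    {i : Fin 5} (hi : i = 0 ∨ i = 1) : dbar i (fun Z => tf c b (D 1 s Z)) Z =
      D 1 s Z i * tf (deriv c) b (D 1 s Z) -
        2⁻¹ * fderiv ℝ (tf c b) (D 1 s Z) (dp (D 1 s Z) (Pi.single i 1)) -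
        I / 2 * fderiv ℝ (tf c b) (D 1 s Z) (dp (D 1 s Z) (Pi.single i I)) := by
  have ct : ContDiff ℝ ∞ (tf c b) :=
    ofRealCLM.contDiff.comp ((hc.comp cd_nn).mul (hb.comp (cd_N2.comp cd_Yv)))
  have d : HasFDerivAt (fun Z => tf c b (D 1 s Z)) _ Z :=
    (ct.differentiable (by simp) _).hasFDerivAt.comp Z (D 1 s).hasFDerivAt
  have e1 : ∀ z : ℂ, D 1 s (Pi.single i z) = Pi.single i z := fun z => by
    rcases hi with rfl | rfl <;> apply ext5 <;> simp [D0, D1, D2, D3, D4]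
  have e2 : ∀ z : ℂ, D 0 1 (Pi.single i z) = 0 := fun z => by
    rcases hi with rfl | rfl <;> apply ext5 <;> simp [D0, D1, D2, D3, D4]
  have e3 : ∀ (Y : E5) (z : ℂ), fderiv ℝ nn Y (Pi.single i z) = 2 * (conj (Y i) * z).re :=
    fun Y z => by rcases hi with rfl | rfl <;> simp [fderiv_nn]
  rw [dbar, d.fderiv]
  simp only [ContinuousLinearMap.comp_apply, e1]
  rw [fderiv_tf hc hb _ _ (e2 1), fderiv_tf hc hb _ _ (e2 I), e3, e3]
  have e4 : D 1 s Z i = (conj (D 1 s Z i) * 1).re + I * (conj (D 1 s Z i) * I).re := by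
    apply Complex.ext <;> simp
  push_cast
  linear_combination (-tf (deriv c) b (D 1 s Z)) * e4

lemma small_dp {U K : Set E5} (hK : IsCompact K)
    (hS : ∀ᶠ s : ℝ in atTop, ∀ Z ∈ K, D 1 s⁻¹ Z ∈ U) {g Φ : E5 → ℂ}
    (hi : Integrable g (volume.restrict U)) (hg : ∀ v, ∃ g', WeakDeriv U v g g' ∧ Slow U K g')
    (h : IsTest5 K Φ) (v : E5) :
    (∀ s, Integrable (fun Z => g Z * fderiv ℝ Φ (D 1 s Z) (dp (D 1 s Z) v))
      (volume.restrict U)) ∧ Tendsto (fun s : ℝ => (s : ℂ) ^ 6 *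
        ∫ Z in U, g Z * fderiv ℝ Φ (D 1 s Z) (dp (D 1 s Z) v)) atTop (𝓝 0) := by
  choose g' hw' hs using fun k => hg (ev k)
  have ca : ∀ k, ContDiff ℝ ∞ fun Y => (xk k (dp Y v) : ℂ) := fun k => (cd_xk k).comp (cd_dp v)
  have e : ∀ Y (x : ℂ), x * fderiv ℝ Φ Y (dp Y v) =
      ∑ k, x * fderiv ℝ (fun Y => (xk k (dp Y v) : ℂ) * Φ Y) Y (ev k) := fun Y x => by
    have e1 : D 0 1 (dp Y v) = dp Y v := by apply ext5 <;> simp [dp, D0, D1, D2, D3, D4]
    have e2 : ∀ k, fderiv ℝ (fun Y => (xk k (dp Y v) : ℂ)) Y (ev k) = 0 := fun k => by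
      refine fderiv_line ((ca k).differentiable (by simp) Y) ?_
      refine (hasDerivAt_const (0 : ℝ) (xk k (dp Y v) : ℂ)).congr_of_eventuallyEq
        (Eventually.of_forall fun s => ?_)
      have : dp (Y + s • ev k) v = dp Y v := by
        have a0 : ev k 0 = 0 := Pi.single_eq_of_ne (Fin.succ_ne_zero _).symm _
        have a1 : ev k 1 = 0 := Pi.single_eq_of_ne (Fin.succ_succ_ne_one _).symm _
        simp [dp, a0, a1]
      simp only [this]
    rw [← Finset.mul_sum, congrArg (fderiv ℝ Φ Y) (e1.symm.trans (sum_ev _)), map_sum]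
    congr 1
    refine Finset.sum_congr rfl fun k _ => ?_
    rw [fderiv_fun_mul ((ca k).differentiable (by simp) Y) (h.1.differentiable (by simp) Y)]
    simp [e2]
  have i1 := fun k s => J_int hi (test_fd (test_mul h (ca k)) (ev k)) s
  simp only [e]
  refine ⟨fun s => integrable_finsetSum _ fun k _ => i1 k s, ?_⟩
  have t := (tendsto_finsetSum Finset.univ fun k _ => hs k _ (test_mul h (ca k))).neg
  simp only [Finset.sum_const_zero, neg_zero] at t
  refine t.congr' ?_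
  filter_upwards [hS, eventually_gt_atTop 0] with s h1 h2
  have e3 := fun k => J_weak hK (hw' k) (test_mul h (ca k)) h2 h1
  rw [integral_finsetSum _ fun k _ => i1 k s]
  simp only [J] at e3 ⊢
  simp only [e3, Finset.sum_neg_distrib, ← Finset.mul_sum, mul_neg]

lemma small_hor {U K : Set E5} {u : Fin 5 → E5 → ℂ} {Θ : E5 → ℂ}
    (hi : ∀ i, Integrable (u i) (volume.restrict U)) (hu : ∀ i, Slow U K (u i))
    (hz : ∀ᵐ Z ∂volume.restrict U, ∑ i, u i Z * Z i = 0)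
    (h : IsTest5 K Θ) : Tendsto (fun s : ℝ => (s : ℂ) ^ 6 *
      (J U (u 0) (fun Y => Y 0 * Θ Y) s + J U (u 1) (fun Y => Y 1 * Θ Y) s)) atTop (𝓝 0) := by
  have l := fun i => hu i _ (test_mul h (cd_co i))
  have t := (((l 2).add (l 3)).add (l 4)).neg
  simp only [add_zero, neg_zero] at t
  refine t.congr' ?_
  filter_upwards [eventually_gt_atTop 0] with s hs
  have hs' : (s : ℂ) ≠ 0 := ofReal_ne_zero.2 hs.ne'
  have i1 := fun i => J_int (hi i) (test_mul h (cd_co i)) s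
  have e : ∑ i, ((dg 1 s i : ℂ))⁻¹ * J U (u i) (fun Y => Y i * Θ Y) s = 0 := by
    simp only [J, ← integral_const_mul]
    rw [← integral_finsetSum _ fun i _ => (i1 i).const_mul _]
    refine integral_eq_zero_of_ae ?_
    filter_upwards [hz] with Z hZ
    simp only [Fin.sum_univ_five, D0, D1, D2, D3, D4, dg, Matrix.cons_val, Pi.zero_apply] at hZ ⊢
    field_simp
    linear_combination Θ (D 1 s Z) * hZ
  simp only [Fin.sum_univ_five, dg, Matrix.cons_val, ofReal_one, inv_one, one_mul] at e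
  linear_combination (-(s : ℂ) ^ 6) * e

lemma fs_diag (i : Fin 5) (Z : E5) :
    fsCoeff i i Z = ((1 / N2 Z - normSq (Z i) / N2 Z ^ 2 : ℝ) : ℂ) := by
  simp [fsCoeff, normSq_eq_conj_mul_self]

theorem no_primitive {g : ℝ} (hg : 0 < g) (k : ℕ) (p : ENNReal) (hp : 1 ≤ p) (hk : 6 ≤ k * p) :
    ¬ ∃ u : Fin 5 → E5 → ℂ, (∀ i, Sob (Om g ∩ {Z | 1 < N2 Z ∧ N2 Z < 4}) p k (u i)) ∧
    (∀ᵐ Z ∂volume.restrict (Om g ∩ {Z | 1 < N2 Z ∧ N2 Z < 4}), ∑ i, u i Z * Z i = 0) ∧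
    ∀ i j φ, IsTest5 (Om g ∩ {Z | 1 < N2 Z ∧ N2 Z < 4}) φ →
      ∫ Z in Om g ∩ {Z | 1 < N2 Z ∧ N2 Z < 4}, u i Z * dbar j φ Z =
        -∫ Z in Om g ∩ {Z | 1 < N2 Z ∧ N2 Z < 4}, fsCoeff i j Z * φ Z := by
  rintro ⟨u, hu, hz, he⟩
  obtain ⟨m, hm, hm1, hS⟩ := KK_small hg
  have c5 := cd_N2.continuous
  have hU : MeasurableSet (Om g ∩ {Z | 1 < N2 Z ∧ N2 Z < 4}) :=
    (Om_open.inter ((isOpen_lt continuous_const c5).inter
      (isOpen_lt c5 continuous_const))).measurableSet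
  generalize hUe : Om g ∩ {Z | 1 < N2 Z ∧ N2 Z < 4} = U at hu hz he hS hU
  have hN : ∀ Z ∈ U, 1 < N2 Z ∧ N2 Z < 4 := fun Z hZ => (hUe ▸ hZ).2
  have hb : ∀ Z ∈ U, ‖Z‖ ≤ 2 := fun Z hZ => norm_le_of_N2 (by norm_num) (by linarith [hN Z hZ])
  have hw : ∀ Z ∈ U, 0 < WW Z := fun Z hZ => WW_pos (hUe ▸ hZ).1.1.ne'
  have hK := KK_compact hm1
  let c : ContDiffBump (2 : ℝ) := ⟨1 / 4, 1 / 2, by norm_num, by norm_num⟩
  let b : ContDiffBump (0 : ℝ) := ⟨m / 2, m, by positivity, by linarith⟩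
  have sc : ∀ x ∈ tsupport c, 3 / 2 ≤ x ∧ x ≤ 5 / 2 := fun x hx => by
    have e : c.rOut = 1 / 2 := rfl
    rw [c.tsupport_eq, Metric.mem_closedBall, Real.dist_eq, abs_le, e] at hx
    constructor <;> linarith [hx.1, hx.2]
  have sb : ∀ x, b x ≠ 0 → x ≤ m := fun x hx => by
    have : x ∈ Function.support b := hx
    rw [b.support_eq, mem_ball_zero_iff] at this
    exact ((le_abs_self x).trans_lt this).le
  have hΦ := tf_test hm1 c.contDiff b.contDiff (fun x hx => sc x (subset_tsupport _ hx)) sb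
  have hΘ := tf_test hm1 (contDiff_infty_iff_deriv.1 c.contDiff).2 b.contDiff
    (fun x hx => sc x (support_deriv_subset hx)) sb
  have hr := fun i => Sob_reduce hU hb hw hK hS hp hk (hu i)
  have sd := fun i v => small_dp hK hS (hr i).1 (hr i).2.2 hΦ v
  have t := ((small_hor (fun i => (hr i).1) (fun i => (hr i).2.1) hz hΘ).sub
    (((sd 0 (Pi.single 0 1)).2.add (sd 1 (Pi.single 1 1)).2).const_mul 2⁻¹)).sub
    (((sd 0 (Pi.single 0 I)).2.add (sd 1 (Pi.single 1 I)).2).const_mul (I / 2))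
  simp only [add_zero, mul_zero, sub_zero] at t
  set F : E5 → ℝ := fun Y => c (nn Y) * b (N2 (Yv Y)) with hF
  have cF : Continuous F := ((c.contDiff.comp cd_nn).mul
    (b.contDiff.comp (cd_N2.comp cd_Yv))).continuous
  have F0 : ∀ Y, 0 ≤ F Y := fun Y => mul_nonneg c.nonneg b.nonneg
  have sF : ∀ {V : Set E5} {L : E5 → E5}, IsTest5 V (fun Z => tf c b (L Z)) →
      HasCompactSupport (fun Z => F (L Z)) ∧ ∀ Z ∉ V, F (L Z) = 0 := fun k =>
    ⟨k.2.1.comp_left (g := re) zero_re, fun Z hZ => ofReal_eq_zero.1 (test_zero k hZ)⟩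
  have hA : 0 < ∫ Y, F Y := by
    refine cF.integral_pos_of_hasCompactSupport_nonneg_nonzero (x := mv (emb ![1, 1]) 0 1)
      (sF (L := id) hΦ).1 F0 ?_
    have e1 : nn (mv (emb ![1, 1]) 0 1) = 2 := by
      rw [mv_nn]
      simp [nn, emb]
      norm_num
    have e2 : Yv (mv (emb ![1, 1]) 0 1) = 0 := by
      rw [Yv, pv_congr (mv0 _ _ _) (mv1 _ _ _)]
      have p0 : pv (emb ![1, 1]) 0 = 0 := rfl
      have p1 : pv (emb ![1, 1]) 1 = 0 := rfl
      apply ext5 <;> simp [mv, D0, D1, D2, D3, D4, p0, p1]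
    have e3 : c 2 = 1 := c.one_of_mem_closedBall (Metric.mem_closedBall_self c.rIn_pos.le)
    have e4 : b 0 = 1 := b.one_of_mem_closedBall (Metric.mem_closedBall_self b.rIn_pos.le)
    simp [hF, e1, e2, e3, e4, N2]
  refine absurd (le_of_tendsto (b := -((∫ Y, F Y) / 4)) (continuous_re.tendsto 0 |>.comp t) ?_)
    (by simpa using hA)
  filter_upwards [hS, eventually_gt_atTop 0] with s h1 hs
  have hT := test_scale hK hΦ hs h1
  obtain ⟨k1, k2⟩ := sF hT
  have iF : Integrable (fun Z => F (D 1 s Z)) (volume.restrict U) :=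
    ((cF.comp (D 1 s).continuous).integrable_of_hasCompactSupport k1).restrict
  have e1 : ∀ i : Fin 5, i = 0 ∨ i = 1 → J U (u i) (fun Y => Y i * tf (deriv c) b Y) s -
      2⁻¹ * (∫ Z in U, u i Z * fderiv ℝ (tf c b) (D 1 s Z) (dp (D 1 s Z) (Pi.single i 1))) -
      I / 2 * (∫ Z in U, u i Z * fderiv ℝ (tf c b) (D 1 s Z) (dp (D 1 s Z) (Pi.single i I))) =
      -((∫ Z in U, (1 / N2 Z - normSq (Z i) / N2 Z ^ 2) * F (D 1 s Z) : ℝ) : ℂ) := by
    intro i hi
    have i0 := J_int (hr i).1 (test_mul hΘ (cd_co i)) s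
    have i1 := ((sd i (Pi.single i 1)).1 s).const_mul 2⁻¹
    have i2 := ((sd i (Pi.single i I)).1 s).const_mul (I / 2)
    have k := he i i _ hT
    rw [J, ← integral_const_mul, ← integral_const_mul, ← integral_sub i0 i1,
      ← integral_sub (i0.sub' i1) i2, ← integral_complex_ofReal]
    simp only [fs_diag, dbar_tf c.contDiff b.contDiff s _ hi] at k
    refine Eq.trans (integral_congr_ae (Eventually.of_forall fun Z => ?_)) (k.trans ?_)
    · ring
    · simp only [tf, hF, ofReal_mul]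
  have i3 : ∀ i : Fin 5, Integrable
      (fun Z => (1 / N2 Z - normSq (Z i) / N2 Z ^ 2) * F (D 1 s Z)) (volume.restrict U) := by
    intro i
    refine iF.bdd_mul (c := 1) (ContinuousOn.aestronglyMeasurable (fun Z hZ => ?_) hU) ?_
    · have := (zero_lt_one.trans (hN Z hZ).1).ne'
      have c6 := (cd_normSq (cd_co i)).continuous
      refine ContinuousAt.continuousWithinAt ?_
      exact (continuousAt_const.div c5.continuousAt this).sub
        (c6.continuousAt.div (c5.pow 2).continuousAt (pow_ne_zero 2 this))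
    · filter_upwards [ae_restrict_mem hU] with Z hZ
      have a1 := (hN Z hZ).1
      have a2 : normSq (Z i) ≤ N2 Z :=
        Finset.single_le_sum (f := fun i => normSq (Z i)) (fun _ _ => normSq_nonneg _)
          (Finset.mem_univ i)
      have a3 := normSq_nonneg (Z i)
      rw [show 1 / N2 Z - normSq (Z i) / N2 Z ^ 2 = (N2 Z - normSq (Z i)) / N2 Z ^ 2 by
        field_simp, Real.norm_of_nonneg (div_nonneg (by linarith) (by positivity)),
        div_le_one (by positivity)]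
      nlinarith
  have k3 : 1 / 4 * ((s ^ 6)⁻¹ * ∫ Y, F Y) ≤
      (∫ Z in U, (1 / N2 Z - normSq (Z 0) / N2 Z ^ 2) * F (D 1 s Z)) +
        ∫ Z in U, (1 / N2 Z - normSq (Z 1) / N2 Z ^ 2) * F (D 1 s Z) := by
    rw [← scale_int cF hs, ← setIntegral_eq_integral_of_forall_compl_eq_zero k2,
      ← integral_const_mul, ← integral_add (i3 0) (i3 1)]
    refine setIntegral_mono_on (iF.const_mul _) ((i3 0).add (i3 1)) hU fun Z hZ => ?_
    rw [← add_mul]
    refine mul_le_mul_of_nonneg_right ?_ (F0 _)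
    obtain ⟨a1, a2⟩ := hN Z hZ
    have a3 := N2_eq Z
    have a4 := WW_nonneg Z
    rw [show 1 / N2 Z - normSq (Z 0) / N2 Z ^ 2 + (1 / N2 Z - normSq (Z 1) / N2 Z ^ 2) =
      (2 * N2 Z - nn Z) / N2 Z ^ 2 by rw [nn]; field_simp; ring, le_div_iff₀ (by positivity)]
    nlinarith
  have k4 := mul_le_mul_of_nonneg_left k3 (pow_pos hs 6).le
  rw [mul_left_comm, mul_inv_cancel_left₀ (pow_pos hs 6).ne'] at k4
  refine le_of_eq_of_le (congrArg re (?_ : _ = ((-(s ^ 6 * _) : ℝ) : ℂ)))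
    ((ofReal_re _).trans_le ((neg_le_neg k4).trans_eq (by ring)))
  push_cast
  linear_combination (s : ℂ) ^ 6 * e1 0 (Or.inl rfl) + (s : ℂ) ^ 6 * e1 1 (Or.inr rfl)

end

end Pool.Agent.Lib.MP_2de762_an.H69
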