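import Pool.Agent.Lib.MP_2de762_an.H69Calc

/-! The totally real cone `w = τ p(ζ)` and the functions that describe a neighbourhood of it. -/

namespace Pool.Agent.Lib.MP_2de762_an.H69

open Filter Topology Set ComplexConjugate Complex
open scoped ContDiff

noncomputable section

/-- The diagonal entries `a, a, b, b, b`. -/
def dg (a b : ℝ) : Fin 5 → ℝ := ![a, a, b, b, b]

/-- The diagonal map with entries `a, a, b, b, b`. -/
def D (a b : ℝ) : E5 →L[ℝ] E5 :=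
  ContinuousLinearMap.pi fun i => dg a b i • ContinuousLinearMap.proj i

lemma D_apply (a b : ℝ) (Z : E5) (i : Fin 5) : D a b Z i = (dg a b i : ℂ) * Z i := by
  simp [D]

lemma D0 (a b : ℝ) (Z : E5) : D a b Z 0 = a * Z 0 := by simp [D_apply, dg]
lemma D1 (a b : ℝ) (Z : E5) : D a b Z 1 = a * Z 1 := by simp [D_apply, dg]
lemma D2 (a b : ℝ) (Z : E5) : D a b Z 2 = b * Z 2 := by simp [D_apply, dg]
lemma D3 (a b : ℝ) (Z : E5) : D a b Z 3 = b * Z 3 := by simp [D_apply, dg]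
lemma D4 (a b : ℝ) (Z : E5) : D a b Z 4 = b * Z 4 := by simp [D_apply, dg]

lemma ext5 {Z Y : E5} (h0 : Z 0 = Y 0) (h1 : Z 1 = Y 1) (h2 : Z 2 = Y 2) (h3 : Z 3 = Y 3)
    (h4 : Z 4 = Y 4) : Z = Y := by
  ext i
  fin_cases i
  exacts [h0, h1, h2, h3, h4]

lemma D_D (a b c d : ℝ) (Z : E5) : D a b (D c d Z) = D (a * c) (b * d) Z := by
  apply ext5 <;> simp only [D0, D1, D2, D3, D4] <;> push_cast <;> ring

lemma D_one (Z : E5) : D 1 1 Z = Z := by
  apply ext5 <;> simp [D0, D1, D2, D3, D4]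

lemma D_I (a b : ℝ) (X : E5) : D a b (I • X) = I • D a b X := by
  apply ext5 <;> simp only [D0, D1, D2, D3, D4, Pi.smul_apply, smul_eq_mul] <;> ring

/-- The vector `p(ζ)`. -/
def pv (Z : E5) : E5 :=
  ![0, 0, Z 0 * Z 0 * conj (Z 0), Z 1 * Z 1 * conj (Z 0) + Z 0 * Z 0 * conj (Z 1),
    Z 1 * Z 1 * conj (Z 1)]

/-- The derivative of `pv`. -/
def dp (Z X : E5) : E5 :=
  ![0, 0, 2 * Z 0 * X 0 * conj (Z 0) + Z 0 * Z 0 * conj (X 0),
    2 * Z 1 * X 1 * conj (Z 0) + Z 1 * Z 1 * conj (X 0) +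
      (2 * Z 0 * X 0 * conj (Z 1) + Z 0 * Z 0 * conj (X 1)),
    2 * Z 1 * X 1 * conj (Z 1) + Z 1 * Z 1 * conj (X 1)]

/-- The squared length of `ζ`. -/
def nn (Z : E5) : ℝ := normSq (Z 0) + normSq (Z 1)

/-- The squared length of `w`. -/
def WW (Z : E5) : ℝ := normSq (Z 2) + normSq (Z 3) + normSq (Z 4)

/-- The squared length of `p(ζ)`. -/
def PP (Z : E5) : ℝ := N2 (pv Z)

/-- The Hermitian product of `w` and `p(ζ)`. -/
def HH (Z : E5) : ℂ := ∑ i, Z i * conj (pv Z i)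

/-- The real product of `w` and `p(ζ)`. -/
def RR (Z : E5) : ℝ := (HH Z).re

/-- The component of `w` orthogonal to the real line through `p(ζ)`, up to a factor. -/
def GG (Z : E5) : E5 := PP Z • D 0 1 Z - RR Z • pv Z

/-- The squared tangent of the angle between `w` and `p(ζ)`. -/
def ps0 (Z : E5) : ℝ := PP Z * WW Z / RR Z ^ 2 - 1

/-- The squared height over the line `w = 0`. -/
def TT (Z : E5) : ℝ := RR Z ^ 2 / nn Z ^ 4

lemma N2_eq (Z : E5) : N2 Z = nn Z + WW Z := by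
  simp only [N2, nn, WW, Fin.sum_univ_five]
  ring

lemma nn_nonneg (Z : E5) : 0 ≤ nn Z := add_nonneg (normSq_nonneg _) (normSq_nonneg _)

lemma WW_nonneg (Z : E5) : 0 ≤ WW Z :=
  add_nonneg (add_nonneg (normSq_nonneg _) (normSq_nonneg _)) (normSq_nonneg _)

lemma N2_nonneg (Z : E5) : 0 ≤ N2 Z := Finset.sum_nonneg fun _ _ => normSq_nonneg _

lemma N2_eq_zero {Z : E5} (h : N2 Z ≤ 0) : Z = 0 := by
  ext i
  exact normSq_eq_zero.1 ((Finset.sum_eq_zero_iff_of_nonneg fun _ _ => normSq_nonneg _).1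
    (le_antisymm h (N2_nonneg Z)) i (Finset.mem_univ _))

lemma norm_le_of_N2 {Z : E5} {r : ℝ} (hr : 0 ≤ r) (h : N2 Z ≤ r ^ 2) : ‖Z‖ ≤ r := by
  refine (pi_norm_le_iff_of_nonneg hr).2 fun i => ?_
  have : normSq (Z i) ≤ N2 Z :=
    Finset.single_le_sum (f := fun i => normSq (Z i)) (fun _ _ => normSq_nonneg _)
      (Finset.mem_univ i)
  rw [normSq_eq_norm_sq] at this
  exact abs_le_of_sq_le_sq' (this.trans h) hr |>.2

lemma nn_zero {Z : E5} (h : nn Z ≤ 0) : Z 0 = 0 ∧ Z 1 = 0 := by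
  have := normSq_nonneg (Z 0)
  have := normSq_nonneg (Z 1)
  rw [nn] at h
  exact ⟨normSq_eq_zero.1 (by linarith), normSq_eq_zero.1 (by linarith)⟩

lemma WW_zero {Z : E5} (h : WW Z ≤ 0) : Z 2 = 0 ∧ Z 3 = 0 ∧ Z 4 = 0 := by
  have := normSq_nonneg (Z 2)
  have := normSq_nonneg (Z 3)
  have := normSq_nonneg (Z 4)
  rw [WW] at h
  exact ⟨normSq_eq_zero.1 (by linarith), normSq_eq_zero.1 (by linarith),
    normSq_eq_zero.1 (by linarith)⟩

lemma PP_ge (Z : E5) : nn Z ^ 3 / 4 ≤ PP Z := by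
  have h0 := normSq_nonneg (Z 0)
  have h1 := normSq_nonneg (Z 1)
  have h2 := normSq_nonneg (Z 1 * Z 1 * conj (Z 0) + Z 0 * Z 0 * conj (Z 1))
  simp only [PP, N2, pv, nn, Fin.sum_univ_five, Matrix.cons_val, map_zero, map_mul, normSq_conj]
  nlinarith [mul_nonneg (add_nonneg h0 h1) (sq_nonneg (normSq (Z 0) - normSq (Z 1)))]

lemma nn_pos {Z : E5} (h : RR Z ≠ 0) : 0 < nn Z := by
  by_contra k
  obtain ⟨k0, k1⟩ := nn_zero (not_lt.1 k)
  exact h (by simp [RR, HH, pv, Fin.sum_univ_five, k0, k1])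

lemma PP_pos {Z : E5} (h : 0 < nn Z) : 0 < PP Z := lt_of_lt_of_le (by positivity) (PP_ge Z)

lemma WW_pos {Z : E5} (h : RR Z ≠ 0) : 0 < WW Z := by
  by_contra k
  obtain ⟨k0, k1, k2⟩ := WW_zero (not_lt.1 k)
  exact h (by simp [RR, HH, pv, Fin.sum_univ_five, k0, k1, k2])

lemma N2_GG (Z : E5) : N2 (GG Z) = PP Z * (PP Z * WW Z - RR Z ^ 2) := by
  have key : ∀ a b : ℝ, N2 (a • D 0 1 Z - b • pv Z) =
      a ^ 2 * WW Z - 2 * a * b * RR Z + b ^ 2 * PP Z := by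
    intro a b
    have p0 : pv Z 0 = 0 := rfl
    have p1 : pv Z 1 = 0 := rfl
    simp only [N2, WW, RR, HH, PP, Fin.sum_univ_five, Pi.sub_apply, Pi.smul_apply, D0, D1, D2,
      D3, D4, p0, p1]
    simp [normSq_apply]
    ring
  rw [GG, key]
  ring

lemma ps0_eq {Z : E5} (h : RR Z ≠ 0) : ps0 Z = (PP Z * RR Z ^ 2)⁻¹ * N2 (GG Z) := by
  have := (PP_pos (nn_pos h)).ne'
  rw [N2_GG, ps0]
  field_simp

lemma ps0_nonneg {Z : E5} (h : RR Z ≠ 0) : 0 ≤ ps0 Z := by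
  have := PP_pos (nn_pos h)
  have := N2_nonneg (GG Z)
  rw [ps0_eq h]
  positivity

lemma scal (α β : ℂ) {Z Y : E5} (h0 : Y 0 = α * Z 0) (h1 : Y 1 = α * Z 1) (h2 : Y 2 = β * Z 2)
    (h3 : Y 3 = β * Z 3) (h4 : Y 4 = β * Z 4) :
    nn Y = normSq α * nn Z ∧ WW Y = normSq β * WW Z ∧ PP Y = normSq α ^ 3 * PP Z ∧
      HH Y = β * conj α * (α * conj α) * HH Z := by
  have hp : ∀ i, pv Y i = α * α * conj α * pv Z i := by
    intro i
    fin_cases i <;> simp [pv, h0, h1] <;> ring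
  have p0 : pv Z 0 = 0 := rfl
  have p1 : pv Z 1 = 0 := rfl
  refine ⟨?_, ?_, ?_, ?_⟩
  · simp only [nn, h0, h1, map_mul]
    ring
  · simp only [WW, h2, h3, h4, map_mul]
    ring
  · simp only [PP, N2, hp, map_mul, normSq_conj, Fin.sum_univ_five]
    ring
  · simp only [HH, hp, Fin.sum_univ_five, p0, p1, h2, h3, h4, map_mul, conj_conj, map_zero]
    ring

lemma scal_smul (c : ℂ) (Z : E5) :
    nn (c • Z) = normSq c * nn Z ∧ WW (c • Z) = normSq c * WW Z ∧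
      PP (c • Z) = normSq c ^ 3 * PP Z ∧ RR (c • Z) = normSq c ^ 2 * RR Z := by
  obtain ⟨a, b, d, e⟩ := scal c c (Z := Z) (Y := c • Z) rfl rfl rfl rfl rfl
  refine ⟨a, b, d, ?_⟩
  rw [RR, e, mul_conj, ← ofReal_mul, re_ofReal_mul, RR, sq]

lemma scal_D (a b : ℝ) (Z : E5) :
    nn (D a b Z) = a ^ 2 * nn Z ∧ WW (D a b Z) = b ^ 2 * WW Z ∧
      PP (D a b Z) = a ^ 6 * PP Z ∧ RR (D a b Z) = b * a ^ 3 * RR Z := by
  obtain ⟨k, l, d, e⟩ := scal a b (D0 a b Z) (D1 a b Z) (D2 a b Z) (D3 a b Z) (D4 a b Z)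
  rw [normSq_ofReal] at k l d
  refine ⟨by rw [k]; ring, by rw [l]; ring, by rw [d]; ring, ?_⟩
  rw [RR, e, conj_ofReal, ← ofReal_mul, ← ofReal_mul, ← ofReal_mul, re_ofReal_mul, RR]
  ring

lemma ps0_smul {c : ℂ} (hc : c ≠ 0) (Z : E5) : ps0 (c • Z) = ps0 Z := by
  obtain ⟨-, b, d, e⟩ := scal_smul c Z
  have := (normSq_pos.2 hc).ne'
  rw [ps0, ps0, b, d, e, mul_pow, ← mul_div_mul_left (PP Z * WW Z) _ (pow_ne_zero 4 this)]
  ring

lemma TT_smul {c : ℂ} (hc : c ≠ 0) (Z : E5) : TT (c • Z) = TT Z := by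
  obtain ⟨a, -, -, e⟩ := scal_smul c Z
  have := (normSq_pos.2 hc).ne'
  rw [TT, TT, a, e, ← mul_div_mul_left (RR Z ^ 2) _ (pow_ne_zero 4 this)]
  ring

lemma ps0_D {a b : ℝ} (ha : a ≠ 0) (hb : b ≠ 0) (Z : E5) : ps0 (D a b Z) = ps0 Z := by
  obtain ⟨-, k, d, e⟩ := scal_D a b Z
  rw [ps0, ps0, k, d, e,
    ← mul_div_mul_left (PP Z * WW Z) _ (mul_ne_zero (pow_ne_zero 2 hb) (pow_ne_zero 6 ha))]
  ring

lemma TT_D {a : ℝ} (ha : a ≠ 0) (b : ℝ) (Z : E5) : TT (D a b Z) = (b / a) ^ 2 * TT Z := by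
  obtain ⟨k, -, -, e⟩ := scal_D a b Z
  rw [TT, TT, k, e]
  rcases eq_or_ne (nn Z) 0 with h | h
  · simp [h]
  · field_simp

lemma cd_conj {f : E5 → ℂ} (hf : ContDiff ℝ ∞ f) : ContDiff ℝ ∞ fun Z => conj (f Z) :=
  conjCLE.contDiff.comp hf

lemma cd_normSq {f : E5 → ℂ} (hf : ContDiff ℝ ∞ f) : ContDiff ℝ ∞ fun Z => normSq (f Z) := by
  simp only [normSq_apply]
  exact ((reCLM.contDiff.comp hf).mul (reCLM.contDiff.comp hf)).add
    ((imCLM.contDiff.comp hf).mul (imCLM.contDiff.comp hf))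

lemma cd_co (i : Fin 5) : ContDiff ℝ ∞ fun Z : E5 => Z i := contDiff_apply ℝ ℂ i

lemma cd_pv : ContDiff ℝ ∞ pv := by
  have m : ∀ i j, ContDiff ℝ ∞ fun Z : E5 => Z i * Z i * conj (Z j) := fun i j =>
    ((cd_co i).mul (cd_co i)).mul (cd_conj (cd_co j))
  refine contDiff_pi.2 fun i => ?_
  fin_cases i
  exacts [contDiff_const, contDiff_const, m 0 0, (m 1 0).add (m 0 1), m 1 1]

lemma cd_dp (X : E5) : ContDiff ℝ ∞ fun Z => dp Z X := by
  have m : ∀ i j, ContDiff ℝ ∞ fun Z : E5 =>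
      2 * Z i * X i * conj (Z j) + Z i * Z i * conj (X j) := fun i j =>
    (((contDiff_const.mul (cd_co i)).mul contDiff_const).mul (cd_conj (cd_co j))).add
      (((cd_co i).mul (cd_co i)).mul contDiff_const)
  refine contDiff_pi.2 fun i => ?_
  fin_cases i
  exacts [contDiff_const, contDiff_const, m 0 0, (m 1 0).add (m 0 1), m 1 1]

lemma cd_N2 : ContDiff ℝ ∞ N2 := ContDiff.sum fun i _ => cd_normSq (cd_co i)

lemma cd_nn : ContDiff ℝ ∞ nn := (cd_normSq (cd_co 0)).add (cd_normSq (cd_co 1))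

lemma cd_WW : ContDiff ℝ ∞ WW :=
  ((cd_normSq (cd_co 2)).add (cd_normSq (cd_co 3))).add (cd_normSq (cd_co 4))

lemma cd_PP : ContDiff ℝ ∞ PP := cd_N2.comp cd_pv

lemma cd_RR : ContDiff ℝ ∞ RR := by
  have h : ContDiff ℝ ∞ HH :=
    ContDiff.sum fun i _ => (cd_co i).mul (cd_conj (contDiff_pi.1 cd_pv i))
  exact reCLM.contDiff.comp h

lemma cd_GG : ContDiff ℝ ∞ GG := (cd_PP.smul (D 0 1).contDiff).sub (cd_RR.smul cd_pv)

lemma cd_ps0 {Z : E5} (h : RR Z ≠ 0) : ContDiffAt ℝ ∞ ps0 Z :=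
  ((cd_PP.mul cd_WW).contDiffAt.div (cd_RR.pow 2).contDiffAt (pow_ne_zero 2 h)).sub
    contDiffAt_const

lemma cd_TT {Z : E5} (h : 0 < nn Z) : ContDiffAt ℝ ∞ TT Z :=
  (cd_RR.pow 2).contDiffAt.div (cd_nn.pow 4).contDiffAt (pow_ne_zero 4 h.ne')

lemma TT_pos {Z : E5} (h : RR Z ≠ 0) : 0 < TT Z := by
  have := nn_pos h
  rw [TT]
  positivity

lemma two_le : (2 : WithTop ℕ∞) ≤ ∞ := WithTop.coe_le_coe.2 (le_top : (2 : ℕ∞) ≤ ⊤)

lemma one_le : (1 : WithTop ℕ∞) ≤ ∞ := by exact_mod_cast le_top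

lemma fderiv_pv (Z X : E5) : fderiv ℝ pv Z X = dp Z X := by
  refine fderiv_line (cd_pv.differentiable (by simp) Z) ?_
  have l : ∀ a b : ℂ, HasDerivAt (fun s : ℝ => a + (s : ℂ) * b) b 0 := fun a b => by
    simpa using ((hasDerivAt_id (0 : ℝ)).ofReal_comp.mul_const b).const_add a
  have m : ∀ i j, HasDerivAt (fun s : ℝ => (Z + s • X) i * (Z + s • X) i * conj ((Z + s • X) j))
      (2 * Z i * X i * conj (Z j) + Z i * Z i * conj (X j)) 0 := fun i j => by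
    have := ((l (Z i) (X i)).fun_mul (l (Z i) (X i))).fun_mul (l (conj (Z j)) (conj (X j)))
    refine (this.congr_of_eventuallyEq (Eventually.of_forall fun s => by simp)).congr_deriv ?_
    rw [ofReal_zero]
    ring
  refine hasDerivAt_pi.2 fun i => ?_
  fin_cases i
  exacts [hasDerivAt_const _ _, hasDerivAt_const _ _, m 0 0, (m 1 0).add (m 0 1), m 1 1]

lemma fderiv_GG (Z X : E5) : fderiv ℝ GG Z X = PP Z • D 0 1 X + fderiv ℝ PP Z X • D 0 1 Z -
    (RR Z • dp Z X + fderiv ℝ RR Z X • pv Z) := by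
  have h := ((cd_PP.differentiable (by simp) Z).hasFDerivAt.smul (D 0 1).hasFDerivAt).sub
    ((cd_RR.differentiable (by simp) Z).hasFDerivAt.smul
      (cd_pv.differentiable (by simp) Z).hasFDerivAt)
  have h2 : HasFDerivAt GG _ Z := h
  rw [h2.fderiv, ← fderiv_pv]
  simp

/-- The cone `G = 0` is totally real. -/
lemma totally_real {Z X : E5} (hR : RR Z ≠ 0) (hG : GG Z = 0)
    (ho : X 0 * conj (Z 0) + X 1 * conj (Z 1) = 0) (h1 : fderiv ℝ GG Z X = 0)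
    (h2 : fderiv ℝ GG Z (I • X) = 0) : X = 0 := by
  have hn := nn_pos hR
  have hP := PP_pos hn
  rw [fderiv_GG] at h1 h2
  generalize fderiv ℝ PP Z X = a at h1
  generalize fderiv ℝ RR Z X = b at h1
  generalize fderiv ℝ PP Z (I • X) = c at h2
  generalize fderiv ℝ RR Z (I • X) = d at h2
  have hP' : (PP Z : ℂ) ≠ 0 := ofReal_ne_zero.2 hP.ne'
  have hR' : (RR Z : ℂ) ≠ 0 := ofReal_ne_zero.2 hR
  have hn' : Z 0 * conj (Z 0) + Z 1 * conj (Z 1) ≠ 0 := by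
    rw [mul_conj, mul_conj, ← ofReal_add]
    exact ofReal_ne_zero.2 hn.ne'
  have g2 := congrFun hG 2
  have g3 := congrFun hG 3
  have g4 := congrFun hG 4
  have a2 := congrFun h1 2
  have a3 := congrFun h1 3
  have a4 := congrFun h1 4
  have b2 := congrFun h2 2
  have b3 := congrFun h2 3
  have b4 := congrFun h2 4
  have ho' := congrArg conj ho
  simp only [GG, Pi.sub_apply, Pi.add_apply, Pi.smul_apply, D2, D3, D4, pv, dp, Matrix.cons_val,
    real_smul, smul_eq_mul, ofReal_one, one_mul, Pi.zero_apply, map_mul, conj_I, map_add,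
    conj_conj, map_zero] at g2 g3 g4 a2 a3 a4 b2 b3 b4 ho'
  set P : ℂ := (PP Z : ℂ)
  set R : ℂ := (RR Z : ℂ)
  set μ : ℂ := I * (a * R - b * P) - (c * R - d * P) with hμ
  set y0 : ℂ := μ * conj (Z 0) - 2 * I * P * R * conj (X 0) with hy0
  set y1 : ℂ := μ * conj (Z 1) - 2 * I * P * R * conj (X 1) with hy1
  have e2 : Z 0 * Z 0 * y0 = 0 := by
    linear_combination I * P * a2 - P * b2 - (I * a - c) * g2
  have e3 : Z 1 * Z 1 * y0 + Z 0 * Z 0 * y1 = 0 := by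
    linear_combination I * P * a3 - P * b3 - (I * a - c) * g3
  have e4 : Z 1 * Z 1 * y1 = 0 := by
    linear_combination I * P * a4 - P * b4 - (I * a - c) * g4
  have hy : y0 = 0 ∧ y1 = 0 := by
    rcases eq_or_ne (Z 0) 0 with k | k
    · have k1 : Z 1 ≠ 0 := fun k1 => hn' (by simp [k, k1])
      rw [k] at e3
      exact ⟨by simpa [k1] using e3, by simpa [k1] using e4⟩
    · have k0 : y0 = 0 := by simpa [k] using e2
      rw [k0] at e3
      exact ⟨k0, by simpa [k] using e3⟩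
  have hμ0 : μ = 0 := by
    refine (mul_eq_zero.1 (?_ : μ * _ = 0)).resolve_right hn'
    linear_combination Z 0 * hy.1 + Z 1 * hy.2 + 2 * I * P * R * ho'
  have x0 : X 0 = 0 := by
    have := hy.1
    rw [hy0, hμ0] at this
    simpa [hP', hR'] using this
  have x1 : X 1 = 0 := by
    have := hy.2
    rw [hy1, hμ0] at this
    simpa [hP', hR'] using this
  have hab : a * RR Z - b * PP Z = 0 := by
    have := congrArg im hμ0
    simpa [hμ, P, R] using this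
  have hab' : (a : ℂ) * R - b * P = 0 := by
    have := congrArg ofReal hab
    push_cast at this
    exact this
  simp only [x0, x1, map_zero, mul_zero, zero_mul, add_zero, zero_add] at a2 a3 a4
  have fin : ∀ x : ℂ, P * P * x = 0 → x = 0 := fun x hx => by simpa [hP'] using hx
  refine ext5 x0 x1 (fin _ ?_) (fin _ ?_) (fin _ ?_)
  · linear_combination P * a2 - a * g2 - Z 0 * Z 0 * conj (Z 0) * hab'
  · linear_combination P * a3 - a * g3 -
      (Z 1 * Z 1 * conj (Z 0) + Z 0 * Z 0 * conj (Z 1)) * hab'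
  · linear_combination P * a4 - a * g4 - Z 1 * Z 1 * conj (Z 1) * hab'

end

end Pool.Agent.Lib.MP_2de762_an.H69
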