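import Pool.Agent.Lib.MP_2de762_an.H69Geo

/-! Uniform bounds for the Levi forms near the totally real cone. -/

namespace Pool.Agent.Lib.MP_2de762_an.H69

open Filter Topology Set ComplexConjugate Complex
open scoped ContDiff

noncomputable section

/-- The real coordinates. -/
def co (i : Fin 5) (b : Bool) : E5 →L[ℝ] ℝ :=
  (if b then reCLM else imCLM).comp (ContinuousLinearMap.proj i)

lemma N2_co (Y : E5) : N2 Y = ∑ p : Fin 5 × Bool, co p.1 p.2 Y * co p.1 p.2 Y := by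
  simp [N2, co, Fintype.sum_prod_type, normSq_apply]

lemma N2_smul (r : ℝ) (X : E5) : N2 (r • X) = r ^ 2 * N2 X := by
  simp only [N2, Pi.smul_apply, real_smul, map_mul, normSq_ofReal, Finset.mul_sum, sq]

lemma B2_sq {a g : E5 → ℝ} {Z : E5} (ha : ContDiffAt ℝ 2 a Z) (hg : ContDiffAt ℝ 2 g Z)
    (h0 : g Z = 0) (X : E5) : B2 (fun W => a W * g W * g W) Z X X =
      2 * a Z * (fderiv ℝ g Z X * fderiv ℝ g Z X) := by
  rw [B2_mul (ha.mul hg) hg,
    fderiv_fun_mul (ha.differentiableAt (by simp)) (hg.differentiableAt (by simp))]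
  simp [h0]
  ring

lemma B2_ps0 {Z : E5} (hR : RR Z ≠ 0) (hG : GG Z = 0) (X : E5) :
    B2 ps0 Z X X = 2 * (PP Z * RR Z ^ 2)⁻¹ * N2 (fderiv ℝ GG Z X) := by
  have hP := PP_pos (nn_pos hR)
  have e : ps0 =ᶠ[𝓝 Z] fun W => ∑ p : Fin 5 × Bool,
      (PP W * RR W ^ 2)⁻¹ * co p.1 p.2 (GG W) * co p.1 p.2 (GG W) := by
    filter_upwards [cd_RR.continuous.continuousAt.eventually_ne hR] with W hW
    rw [ps0_eq hW, N2_co, Finset.mul_sum]
    simp only [mul_assoc]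
  have ha : ContDiffAt ℝ 2 (fun W => (PP W * RR W ^ 2)⁻¹) Z :=
    ((cd_PP.mul (cd_RR.pow 2)).contDiffAt.inv (by positivity)).of_le two_le
  have hg : ∀ p : Fin 5 × Bool, ContDiffAt ℝ 2 (fun W => co p.1 p.2 (GG W)) Z := fun p =>
    (((co p.1 p.2).contDiff.comp cd_GG).contDiffAt).of_le two_le
  rw [B2_congr e, B2_sum _ fun p => (ha.mul (hg p)).mul (hg p), N2_co, Finset.mul_sum]
  refine Finset.sum_congr rfl fun p _ => ?_
  have d : HasFDerivAt (fun W => co p.1 p.2 (GG W)) _ Z :=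
    (co p.1 p.2).hasFDerivAt.comp Z (cd_GG.differentiable (by simp) Z).hasFDerivAt
  rw [B2_sq ha (hg p) (by simp [hG]), d.fderiv]
  simp

lemma levi_ps0_pos {Z X : E5} (hR : RR Z ≠ 0) (h0 : ps0 Z ≤ 0)
    (ho : X 0 * conj (Z 0) + X 1 * conj (Z 1) = 0) (hX : X ≠ 0) : 0 < levi ps0 Z X := by
  have hP := PP_pos (nn_pos hR)
  have ha : 0 < (PP Z * RR Z ^ 2)⁻¹ := by positivity
  have hG : GG Z = 0 := by
    rw [ps0_eq hR] at h0
    exact N2_eq_zero (by nlinarith [N2_nonneg (GG Z)])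
  rw [levi_eq, B2_ps0 hR hG, B2_ps0 hR hG, ← mul_add]
  refine mul_pos (by positivity) ?_
  have k1 := N2_nonneg (fderiv ℝ GG Z X)
  have k2 := N2_nonneg (fderiv ℝ GG Z (I • X))
  by_contra k
  exact hX (totally_real hR hG ho (N2_eq_zero (by linarith)) (N2_eq_zero (by linarith)))

lemma cd_logT {Z : E5} (h : RR Z ≠ 0) : ContDiffAt ℝ ∞ (fun W => Real.log (TT W)) Z :=
  (cd_TT (nn_pos h)).log (TT_pos h).ne'

/-- The normalised points and directions. -/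
def K0 : Set (E5 × E5) := {p | nn p.1 = 1 ∧ RR p.1 = 1 ∧ PP p.1 * WW p.1 ≤ 2 ∧
    p.2 0 * conj (p.1 0) + p.2 1 * conj (p.1 1) = 0 ∧ N2 p.2 = 1}

lemma K0_compact : IsCompact K0 := by
  refine ((isCompact_closedBall (0 : E5) 3).prod (isCompact_closedBall (0 : E5) 1)
    ).of_isClosed_subset ?_ ?_
  · have c1 := cd_nn.continuous
    have c2 := cd_RR.continuous
    have c3 := cd_PP.continuous
    have c4 := cd_WW.continuous
    have c5 := cd_N2.continuous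
    simp only [K0, ofPred_and]
    refine IsClosed.inter ?_ (IsClosed.inter ?_ (IsClosed.inter ?_ (IsClosed.inter ?_ ?_)))
    · exact isClosed_eq (by fun_prop) continuous_const
    · exact isClosed_eq (by fun_prop) continuous_const
    · exact isClosed_le (by fun_prop) continuous_const
    · exact isClosed_eq (by fun_prop) continuous_const
    · exact isClosed_eq (by fun_prop) continuous_const
  · rintro ⟨Z, X⟩ ⟨k1, -, k3, -, k5⟩
    simp only at k1 k3 k5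
    refine ⟨mem_closedBall_zero_iff.2 (norm_le_of_N2 (by norm_num) ?_),
      mem_closedBall_zero_iff.2 (norm_le_of_N2 (by norm_num) (by simp [k5]))⟩
    have := PP_ge Z
    rw [k1] at this
    simp only [N2_eq, k1]
    nlinarith [WW_nonneg Z]

lemma key0 : ∃ m C : ℝ, 0 < m ∧ 0 < C ∧ ∀ Z X : E5, nn Z = 1 → RR Z = 1 → PP Z * WW Z ≤ 2 →
    X 0 * conj (Z 0) + X 1 * conj (Z 1) = 0 → N2 X = 1 →
    (ps0 Z < m → m ≤ levi ps0 Z X) ∧ -C ≤ levi TT Z X ∧
      levi (fun W => Real.log (TT W)) Z X ≤ C := by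
  have hc := K0_compact
  have hs : ∀ p ∈ K0, RR p.1 ≠ 0 := fun p hp => by
    rw [hp.2.1]
    exact one_ne_zero
  have cc : ∀ f : E5 → ℝ, (∀ Z, RR Z ≠ 0 → ContDiffAt ℝ ∞ f Z) →
      ContinuousOn (fun p : E5 × E5 => levi f p.1 p.2) K0 := fun f hf =>
    (levi_contOn (O := {Z | RR Z ≠ 0}) fun Z hZ => (hf Z hZ).of_le two_le).mono hs
  have c1 := cc ps0 fun Z hZ => cd_ps0 hZ
  have c2 := cc TT fun Z hZ => cd_TT (nn_pos hZ)
  have c3 := cc (fun W => Real.log (TT W)) fun Z hZ => cd_logT hZ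
  have c0 : ContinuousOn (fun p : E5 × E5 => ps0 p.1) K0 := fun p hp =>
    (ContinuousAt.comp (f := Prod.fst) (cd_ps0 (hs p hp)).continuousAt
      continuousAt_fst).continuousWithinAt
  obtain ⟨m, hm, h1⟩ := compact_small hc c0 c1 fun p hp h0 =>
    levi_ps0_pos (hs p hp) h0 hp.2.2.2.1 fun e => by
      have := hp.2.2.2.2
      simp [e, N2] at this
  obtain ⟨C2, h2⟩ := hc.exists_bound_of_continuousOn c2
  obtain ⟨C3, h3⟩ := hc.exists_bound_of_continuousOn c3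
  refine ⟨m, max 1 (max C2 C3), hm, lt_max_of_lt_left one_pos, fun Z X k1 k2 k3 k4 k5 => ?_⟩
  have hp : (Z, X) ∈ K0 := ⟨k1, k2, k3, k4, k5⟩
  have j1 := h1 _ hp
  have j2 := h2 _ hp
  have j3 := h3 _ hp
  simp only [Real.norm_eq_abs, abs_le] at j1 j2 j3
  have j4 : C2 ≤ max 1 (max C2 C3) := le_max_of_le_right (le_max_left _ _)
  have j5 : C3 ≤ max 1 (max C2 C3) := le_max_of_le_right (le_max_right _ _)
  exact ⟨j1, by linarith [j2.1], j3.2.trans j5⟩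

lemma key1 : ∃ m C : ℝ, 0 < m ∧ 0 < C ∧ ∀ Z X : E5, 0 < RR Z → ps0 Z < m → ps0 Z ≤ 1 →
    X 0 * conj (Z 0) + X 1 * conj (Z 1) = 0 → X ≠ 0 → ∃ κ, 0 < κ ∧
    m * κ ≤ levi ps0 Z X ∧ -(C * TT Z * κ) ≤ levi TT Z X ∧
      levi (fun W => Real.log (TT W)) Z X ≤ C * κ := by
  obtain ⟨m, C, hm, hC, h⟩ := key0
  refine ⟨m, C, hm, hC, fun Z X hR k1 k2 ho hX => ?_⟩
  have hn := nn_pos hR.ne'
  obtain ⟨a, ha, ha2⟩ : ∃ a : ℝ, 0 < a ∧ a ^ 2 = nn Z :=
    ⟨√(nn Z), Real.sqrt_pos.2 hn, Real.sq_sqrt hn.le⟩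
  obtain ⟨b, hb, hb2⟩ : ∃ b : ℝ, 0 < b ∧ b * a ^ 3 = RR Z :=
    ⟨RR Z / a ^ 3, by positivity, by field_simp⟩
  have inv : ∀ Y, D a b (D a⁻¹ b⁻¹ Y) = Y := fun Y => by
    rw [D_D, mul_inv_cancel₀ ha.ne', mul_inv_cancel₀ hb.ne', D_one]
  obtain ⟨Z', rfl⟩ : ∃ Z', D a b Z' = Z := ⟨_, inv Z⟩
  obtain ⟨X', rfl⟩ : ∃ X', D a b X' = X := ⟨_, inv X⟩
  have hX' : 0 < N2 X' := lt_of_le_of_ne (N2_nonneg _) fun e => hX (by
    rw [N2_eq_zero e.symm.le, map_zero])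
  obtain ⟨r, hr, hr2⟩ : ∃ r : ℝ, 0 < r ∧ r ^ 2 = N2 X' :=
    ⟨√(N2 X'), Real.sqrt_pos.2 hX', Real.sq_sqrt hX'.le⟩
  obtain ⟨Y, rfl⟩ : ∃ Y, r • Y = X' := ⟨r⁻¹ • X', by simp [smul_smul, hr.ne']⟩
  obtain ⟨s1, -, -, s4⟩ := scal_D a b Z'
  have n1 : nn Z' = 1 := by
    rw [s1] at ha2
    exact (mul_left_cancel₀ (pow_ne_zero 2 ha.ne') (by rw [mul_one, ← ha2])).symm
  have r1 : RR Z' = 1 := by
    rw [s4] at hb2
    exact (mul_left_cancel₀ (by positivity : b * a ^ 3 ≠ 0) (by rw [mul_one, ← hb2])).symm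
  have t1 : TT Z' = 1 := by simp [TT, n1, r1]
  have hR' : RR Z' ≠ 0 := by simp [r1]
  rw [ps0_D ha.ne' hb.ne'] at k1 k2
  have y1 : N2 Y = 1 := by
    rw [N2_smul] at hr2
    exact (mul_left_cancel₀ (pow_ne_zero 2 hr.ne') (by rw [mul_one, ← hr2])).symm
  obtain ⟨h1, h2, h3⟩ := h Z' Y n1 r1 (by simp only [ps0, r1] at k2; linarith) (by
    simp only [D0, D1, Pi.smul_apply, real_smul, map_mul, conj_ofReal] at ho
    have k : (a : ℂ) * a * r ≠ 0 := by exact_mod_cast (by positivity : a * a * r ≠ 0)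
    refine mul_left_cancel₀ k ?_
    linear_combination ho) y1
  have tr : ∀ f : E5 → ℝ, ContDiffAt ℝ ∞ f (D a b Z') → levi f (D a b Z') (D a b (r • Y)) =
      r ^ 2 * levi (fun W => f (D a b W)) Z' Y := fun f hf => by
    rw [map_smul, levi_smul, levi_comp (D a b) (D_I a b) (hf.of_le two_le)]
  have cT := (cd_TT (nn_pos hR')).of_le two_le
  have cL := (cd_logT hR').of_le two_le
  refine ⟨r ^ 2, by positivity, ?_, ?_, ?_⟩
  · rw [tr _ (cd_ps0 hR.ne')]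
    simp only [ps0_D ha.ne' hb.ne']
    nlinarith [h1 k1, sq_nonneg r]
  · have := levi_lin cT cT ((b / a) ^ 2) 0 0 Y
    simp only [zero_mul, add_zero] at this
    rw [tr _ (cd_TT hn)]
    simp only [TT_D ha.ne']
    rw [this, t1]
    nlinarith [mul_le_mul_of_nonneg_left h2 (mul_nonneg (sq_nonneg r) (sq_nonneg (b / a)))]
  · have := levi_lin cL cL 1 0 (Real.log ((b / a) ^ 2)) Y
    simp only [zero_mul, add_zero, one_mul] at this
    have e : (fun W => Real.log (TT (D a b W))) =ᶠ[𝓝 Z']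
        fun W => Real.log (TT W) + Real.log ((b / a) ^ 2) := by
      filter_upwards [cd_RR.continuous.continuousAt.eventually_ne hR'] with W hW
      rw [TT_D ha.ne', Real.log_mul (by positivity) (TT_pos hW).ne', add_comm]
    rw [tr _ (cd_logT hR.ne'), levi_congr e, this]
    nlinarith [sq_nonneg r]

end

end Pool.Agent.Lib.MP_2de762_an.H69
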