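import Pool.Agent.Lib.MP_2de762_an.H98Range

/-! The transform of Beurling on slices, and bounds for the Cauchy transform in `w`. -/

namespace Pool.Agent.Lib.MP_2de762_an

open Set Metric MeasureTheory Filter Topology ComplexConjugate
open scoped ContDiff ENNReal

noncomputable section

/-- The Wirtinger derivatives in one variable. -/
def w1 (s : ℂ) (F : ℂ → ℂ) (x : ℂ) : ℂ :=
  (fderiv ℝ F x 1 + s * Complex.I * fderiv ℝ F x Complex.I) / 2

theorem cd_fd {W : ℂ → ℂ} (hW : ContDiff ℝ ∞ W) (u : ℂ) : ContDiff ℝ ∞ fun q => fderiv ℝ W q u :=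
  (hW.fderiv_right (m := ∞) (by simp)).clm_apply contDiff_const

theorem cd_w1 {W : ℂ → ℂ} (hW : ContDiff ℝ ∞ W) (s : ℂ) : ContDiff ℝ ∞ (w1 s W) :=
  ((cd_fd hW 1).add (contDiff_const.mul (cd_fd hW _))).div_const _

theorem fd_symm {W : ℂ → ℂ} (hW : ContDiff ℝ ∞ W) (u v x : ℂ) :
    fderiv ℝ (fun q => fderiv ℝ W q u) x v = fderiv ℝ (fun q => fderiv ℝ W q v) x u := by
  have h1 := (hW.fderiv_right (m := ∞) (by simp)).differentiable (by simp) x
  rw [fderiv_clm_apply h1 (differentiableAt_const _), fderiv_clm_apply h1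
    (differentiableAt_const _)]
  simpa using (hW.contDiffAt.isSymmSndFDerivAt (x := x)
    (by simpa using WithTop.coe_le_coe.2 (le_top (a := (2 : ℕ∞))))).eq v u

theorem cross {W U : ℂ → ℂ} (hW : ContDiff ℝ ∞ W) (hc : HasCompactSupport W)
    (hU : ContDiff ℝ ∞ U) (u v : ℂ) :
    ∫ x, fderiv ℝ W x u * fderiv ℝ U x v = ∫ x, fderiv ℝ W x v * fderiv ℝ U x u := by
  have h : ∀ u v : ℂ, ∫ x, W x * fderiv ℝ (fun q => fderiv ℝ U q v) x u =
      -∫ x, fderiv ℝ W x u * fderiv ℝ U x v := fun u v =>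
    integral_mul_fderiv_eq_neg_fderiv_mul_of_integrable
      (((cd_fd hW u).continuous.mul (cd_fd hU v).continuous).integrable_of_hasCompactSupport
        (hc.fderiv_apply ℝ u).mul_right)
      ((hW.continuous.mul (cd_fd (cd_fd hU v) u).continuous).integrable_of_hasCompactSupport
        hc.mul_right)
      ((hW.continuous.mul (cd_fd hU v).continuous).integrable_of_hasCompactSupport hc.mul_right)
      (fun x _ => hW.differentiable (by simp) x)
      (fun x _ => (cd_fd hU v).differentiable (by simp) x)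
  rw [← neg_inj, ← h, ← h]
  simp only [fd_symm hU v u]

theorem jac {W : ℂ → ℂ} (hW : ContDiff ℝ ∞ W) (hc : HasCompactSupport W) :
    ∫⁻ x, ‖w1 (-1) W x‖ₑ ^ 2 = ∫⁻ x, ‖w1 1 W x‖ₑ ^ 2 := by
  have hU : ContDiff ℝ ∞ fun x => conj (W x) := contDiff_conj.comp hW
  have e : ∀ x v, fderiv ℝ (fun x => conj (W x)) x v = conj (fderiv ℝ W x v) := fun x v => by
    have h := (Complex.conjCLE.hasFDerivAt.comp x
      (hW.differentiable (by simp) x).hasFDerivAt).fderiv
    have h2 : (fun x => conj (W x)) = Complex.conjCLE ∘ W := rfl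
    rw [h2, h]
    simp
  have h1 := cross hW hc hU 1 Complex.I
  simp only [e] at h1
  have cs : ∀ s, HasCompactSupport (w1 s W) := fun s =>
    (hc.fderiv ℝ).mono fun x hx h => hx (by simp [w1, h])
  have i : ∀ s, Integrable fun x => ‖w1 s W x‖ ^ 2 := fun s => by
    have c1 := (cd_w1 hW s).continuous
    refine Continuous.integrable_of_hasCompactSupport (by fun_prop) ((cs s).mono fun x hx h => ?_)
    exact hx (by simp [h])
  have j : ∀ s, ∫⁻ x, ‖w1 s W x‖ₑ ^ 2 = ENNReal.ofReal (∫ x, ‖w1 s W x‖ ^ 2) := fun s => by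
    rw [ofReal_integral_eq_lintegral_ofReal (i s) (Eventually.of_forall fun p => sq_nonneg _)]
    simp only [ENNReal.ofReal_pow (norm_nonneg _), ofReal_norm]
  have k : ∀ u v : ℂ, Integrable fun x => fderiv ℝ W x u * conj (fderiv ℝ W x v) := fun u v => by
    have c1 := (cd_fd hW u).continuous
    have c2 := (cd_fd hW v).continuous
    exact Continuous.integrable_of_hasCompactSupport (by fun_prop)
      (hc.fderiv_apply ℝ u).mul_right
  rw [j, j]
  congr 1
  rw [← sub_eq_zero, ← integral_sub (i _) (i _), ← Complex.ofReal_eq_zero, ← integral_complex_ofReal]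
  rw [← sub_eq_zero, ← integral_sub (k _ _) (k _ _)] at h1
  rw [← mul_zero (Complex.I / 2), ← h1, ← integral_const_mul]
  congr 1
  funext x
  push_cast
  rw [← Complex.mul_conj', ← Complex.mul_conj']
  simp only [w1, map_div₀, map_add, map_mul, map_neg, map_one, Complex.conj_I, map_ofNat]
  ring

theorem sq_add_le (x y : ℝ≥0∞) : (x + y) ^ 2 ≤ 2 * x ^ 2 + 2 * y ^ 2 := by
  rw [← mul_add]
  have := ENNReal.rpow_add_le_mul_rpow_add_rpow x y (p := 2) one_le_two
  norm_num at this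
  exact this

theorem beur1 {V φ : ℂ → ℂ} (hV : ContDiff ℝ ∞ V) (hφ : ∀ x, w1 1 V x = φ x) {A R : ℝ}
    (hA : ∀ x, R ≤ ‖x‖ → ‖V x‖ ≤ A / ‖x‖) (hA0 : 0 ≤ A) :
    ∫⁻ x, ‖w1 (-1) V x‖ₑ ^ 2 ≤ 2 * ∫⁻ x, ‖φ x‖ₑ ^ 2 := by
  obtain ⟨χ, B, hB, hχ⟩ := exists_cut
  have hR : ∀ n : ℕ, (0 : ℝ) < n + 1 := fun n => by positivity
  have sm : ∀ n : ℕ, ContDiff ℝ ∞ fun x => χ (n + 1) x * V x := fun n => (hχ _ (hR n)).1.mul hV
  have e : ∀ (n : ℕ) s x, w1 s (fun x => χ (n + 1) x * V x) x =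
      χ (n + 1) x * w1 s V x + V x * w1 s (χ (n + 1)) x := fun n s x => by
    simp only [w1]
    rw [fderiv_fun_mul ((hχ _ (hR n)).1.differentiable (by simp) x) (hV.differentiable (by simp) x)]
    simp only [add_apply, smul_apply, smul_eq_mul]
    ring
  have mφ : Continuous φ := by
    rw [← funext hφ]
    exact (cd_w1 hV 1).continuous
  set X := ∫⁻ x, ‖φ x‖ₑ ^ 2 with hX
  set d : ℕ → ℝ≥0∞ := fun n => ENNReal.ofReal (2 * A * B / (n + 1)) ^ 2 * NNReal.pi with hd
  have h1 : ∀ᶠ n : ℕ in atTop,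
      ∫⁻ x, ‖w1 (-1) (fun x => χ (n + 1) x * V x) x‖ₑ ^ 2 ≤ 2 * X + 2 * d n := by
    filter_upwards [tendsto_natCast_atTop_atTop.eventually_ge_atTop R] with n hn
    rw [jac (sm n) (HasCompactSupport.intro (isCompact_closedBall (0 : ℂ) (2 * (n + 1)))
      fun x hx => by rw [(hχ _ (hR n)).2.2.2.1 x (by simpa using hx), zero_mul])]
    calc _ ≤ ∫⁻ x, (2 * ‖φ x‖ₑ ^ 2 + 2 * (closedBall (0 : ℂ) (2 * (n + 1))).indicator
          (fun _ => ENNReal.ofReal (A * B / (n + 1) ^ 2) ^ 2) x) := by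
          refine lintegral_mono fun x => ?_
          rw [e, hφ]
          refine (pow_le_pow_left' (enorm_add_le _ _) 2).trans ((sq_add_le _ _).trans
            (add_le_add (mul_le_mul_right (pow_le_pow_left' ?_ 2) _) (mul_le_mul_right ?_ _)))
          · rw [← ofReal_norm, ← ofReal_norm, norm_mul]
            exact ENNReal.ofReal_le_ofReal
              (mul_le_of_le_one_left (norm_nonneg _) ((hχ _ (hR n)).2.1 x))
          · by_cases hx : x ∈ closedBall (0 : ℂ) (2 * (n + 1))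
            · rw [indicator_of_mem hx, ← ofReal_norm]
              refine pow_le_pow_left' (ENNReal.ofReal_le_ofReal ?_) 2
              rcases lt_or_ge ‖x‖ (n + 1) with h | h
              · rw [w1, (hχ _ (hR n)).2.2.2.2.2.1 x h]
                simp only [zero_apply, mul_zero, add_zero, zero_div, norm_zero]
                positivity
              · have h3 := (hχ _ (hR n)).2.2.2.2.1 x
                have h4 : ∀ η : ℂ, ‖η‖ = 1 → ‖fderiv ℝ (χ (n + 1)) x η‖ ≤ B / (n + 1) :=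
                  fun η hη => ((fderiv ℝ (χ (n + 1)) x).le_opNorm η).trans
                    (by rw [hη, mul_one]; exact h3)
                have h5 : ‖w1 1 (χ (n + 1)) x‖ ≤ B / (n + 1) := by
                  rw [w1, norm_div, Complex.norm_two]
                  have h5 := norm_add_le (fderiv ℝ (χ (n + 1)) x 1)
                    (1 * Complex.I * fderiv ℝ (χ (n + 1)) x Complex.I)
                  rw [norm_mul, one_mul, Complex.norm_I, one_mul] at h5
                  rw [one_mul]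
                  linarith [h4 1 norm_one, h4 _ Complex.norm_I]
                have h6 : ‖V x‖ ≤ A / (n + 1) :=
                  (hA x (by linarith)).trans (div_le_div_of_nonneg_left hA0 (hR n) h)
                rw [norm_mul]
                refine (mul_le_mul h6 h5 (norm_nonneg _) (by positivity)).trans_eq ?_
                field_simp
            · rw [w1, (hχ _ (hR n)).2.2.2.2.2.2 x (by simpa using hx)]
              simp
      _ = _ := by
          rw [lintegral_add_left (by fun_prop), lintegral_const_mul' _ _ (by simp),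
            lintegral_const_mul' _ _ (by simp), lintegral_indicator measurableSet_closedBall,
            setLIntegral_const, Complex.volume_closedBall, ← mul_assoc (_ ^ 2), ← mul_pow,
            ← ENNReal.ofReal_mul (by positivity)]
          congr 5
          field_simp
  have h2 : Tendsto (fun n => 2 * X + 2 * d n) atTop (𝓝 (2 * X)) := by
    have t1 : Tendsto (fun n : ℕ => 2 * A * B / ((n : ℝ) + 1)) atTop (𝓝 0) :=
      tendsto_const_nhds.div_atTop (tendsto_atTop_add_const_right _ _ tendsto_natCast_atTop_atTop)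
    have t2 := ENNReal.Tendsto.const_mul (a := 2) (ENNReal.Tendsto.mul_const (b := NNReal.pi)
      (ENNReal.Tendsto.pow (n := 2) (ENNReal.tendsto_ofReal t1)) (Or.inr (by simp)))
      (Or.inr (by simp))
    simpa using t2.const_add (2 * X)
  have h3 := lintegral_liminf_le (μ := volume) (u := atTop)
    (f := fun (n : ℕ) x => ‖w1 (-1) (fun x => χ (n + 1) x * V x) x‖ₑ ^ 2)
    fun n => (cd_w1 (sm n) _).continuous.enorm.measurable.pow_const 2
  refine le_trans (le_of_eq ?_) (h3.trans ((liminf_le_liminf h1).trans_eq h2.liminf_eq))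
  congr 1
  funext x
  refine (Tendsto.liminf_eq (tendsto_const_nhds.congr' ?_)).symm
  filter_upwards [tendsto_natCast_atTop_atTop.eventually_ge_atTop ‖x‖] with n hn
  have h4 : w1 (-1) (χ (n + 1)) x = 0 := by
    simp [w1, (hχ _ (hR n)).2.2.2.2.2.1 x (by linarith)]
  rw [e, (hχ _ (hR n)).2.2.1 x (by linarith), one_mul, h4, mul_zero, add_zero]

theorem w1_slice {φ : ℂ × ℂ → ℂ} (hφ : ContDiff ℝ ∞ φ) (p v : ℂ × ℂ) (s ξ : ℂ) :
    w1 s (fun x : ℂ => φ (p + x • v)) ξ = wirt v s φ (p + ξ • v) := by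
  simp [w1, wirt, slice_fderiv hφ]

theorem beur_slice {v : ℂ × ℂ} {φ : ℂ × ℂ → ℂ} (hφ : ContDiff ℝ ∞ φ) (h : Loc v φ) (p : ℂ × ℂ) :
    ∫⁻ x : ℂ, ‖wirt v (-1) (Cv ck v φ) (p + x • v)‖ₑ ^ 2 ≤
      2 * ∫⁻ x : ℂ, ‖φ (p + x • v)‖ₑ ^ 2 := by
  have hV := Cv_contDiff ck_loc hφ h
  obtain ⟨S, hS⟩ := h (‖p‖ + 1)
  have hc := hφ.continuous
  have i : Integrable fun ζ : ℂ => ‖φ (p + ζ • v)‖ :=
    (Continuous.integrable_of_hasCompactSupport (by fun_prop) (h.slice p)).norm
  simp only [← w1_slice hV]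
  refine beur1 (by fun_prop) (fun x => ?_) (A := 2 * ∫ ζ : ℂ, ‖φ (p + ζ • v)‖)
    (R := 2 * max S 1) (fun x hx => ?_) (by positivity)
  · rw [w1_slice hV, wirt_Cv ck_loc hφ h, Cv_wirt hφ h]
  · have x0 : 0 < ‖x‖ := by linarith [le_max_right S 1]
    rw [Cv, ← integral_sub_left_eq_self _ volume x, mul_comm, mul_div_assoc, ← integral_mul_const]
    refine norm_integral_le_of_norm_le (i.mul_const _) (Eventually.of_forall fun ζ => ?_)
    have e : p + x • v - (x - ζ) • v = p + ζ • v := by module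
    rw [e, norm_mul, mul_comm]
    rcases lt_or_ge S ‖ζ‖ with h1 | h1
    · simp [hS p (lt_add_one _) ζ h1]
    · refine mul_le_mul_of_nonneg_left ?_ (norm_nonneg _)
      rw [ck, norm_mul, norm_inv (x - ζ)]
      refine (mul_le_of_le_one_left (by positivity) norm_pi_inv).trans ?_
      have h2 := norm_sub_norm_le x ζ
      have h3 := le_max_left S 1
      rw [inv_eq_one_div, div_le_div_iff₀ (by linarith) x0]
      linarith

theorem N2_beur_fst {φ : ℂ × ℂ → ℂ} (hφ : ContDiff ℝ ∞ φ) (h : Loc (1, 0) φ) :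
    N2 (wirt (1, 0) (-1) (Cv ck (1, 0) φ)) ≤ 2 * N2 φ := by
  rw [N2_fst (contDiff_wirt (Cv_contDiff ck_loc hφ h) _ _).continuous, N2_fst hφ.continuous,
    ← lintegral_const_mul' _ _ (by simp)]
  refine lintegral_mono fun w => ?_
  simpa using beur_slice hφ h (0, w)

theorem lint_ball {φ : ℂ × ℂ → ℂ} {r : ℝ} (hr : r < 1) (h : ∀ p, r < ‖p.2‖ → φ p = 0) (z : ℂ) :
    ∫⁻ w, ‖φ (z, w)‖ₑ ^ 2 = ∫⁻ w in ball (0 : ℂ) 1, ‖φ (z, w)‖ₑ ^ 2 := by
  rw [← lintegral_indicator measurableSet_ball]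
  congr 1
  funext w
  by_cases hw : w ∈ ball (0 : ℂ) 1
  · rw [indicator_of_mem hw]
  · rw [indicator_of_notMem hw, h (z, w) (lt_of_lt_of_le hr (by simpa using hw))]
    simp

theorem N2_beur_snd {φ : ℂ × ℂ → ℂ} (hφ : ContDiff ℝ ∞ φ) {r : ℝ} (hr : r < 1)
    (h : ∀ p, r < ‖p.2‖ → φ p = 0) : N2 (wirt (0, 1) (-1) (Cv ck (0, 1) φ)) ≤ 2 * N2 φ := by
  rw [N2_snd (contDiff_wirt (Cv_contDiff ck_loc hφ (loc_snd h)) _ _).continuous,
    N2_snd hφ.continuous, ← lintegral_const_mul' _ _ (by simp)]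
  refine lintegral_mono fun z => (setLIntegral_le_lintegral _ _).trans ?_
  rw [← lint_ball hr h]
  simpa using beur_slice hφ (loc_snd h) (z, 0)

theorem N2_Cw : ∃ M : ℝ≥0∞, M ≠ ⊤ ∧ ∀ (φ : ℂ × ℂ → ℂ) (r : ℝ), ContDiff ℝ ∞ φ → r < 1 →
    (∀ p, r < ‖p.2‖ → φ p = 0) → N2 (Cv ck (0, 1) φ) ≤ M * N2 φ := by
  obtain ⟨M, hM, hs⟩ := schur
  refine ⟨M * 2 ^ 2, by finiteness, fun φ r hφ hr h => ?_⟩
  have hc := hφ.continuous
  rw [N2_snd (Cv_contDiff ck_loc hφ (loc_snd h)).continuous, N2_snd hc,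
    ← lintegral_const_mul' _ _ (by finiteness)]
  refine lintegral_mono fun z => ?_
  have h1 := hs (fun w => 2 * ‖φ (z, w)‖ₑ)
    ((Continuous.measurable (f := fun w => ‖φ (z, w)‖ₑ) (by fun_prop)).const_mul 2)
  simp only [mul_pow (2 : ℝ≥0∞)] at h1
  rw [lintegral_const_mul' _ _ (by finiteness), lint_ball hr h, ← mul_assoc] at h1
  refine le_trans ?_ ((setLIntegral_le_lintegral (ball (0 : ℂ) 1) _).trans h1)
  refine setLIntegral_mono_ae' measurableSet_ball (Eventually.of_forall fun w hw => ?_)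
  refine pow_le_pow_left' ?_ 2
  rw [Cv_snd, ← lintegral_const_mul' _ _ (by simp [sw])]
  refine (enorm_integral_le_lintegral_enorm _).trans (lintegral_mono fun ζ => ?_)
  rcases lt_or_ge r ‖ζ‖ with h2 | h2
  · simp [h (z, ζ) h2]
  · have h3 : ∀ x : ℂ, ‖x‖ < 1 → √(1 + ‖x‖ ^ 2) ≤ √2 := fun x hx =>
      Real.sqrt_le_sqrt (by nlinarith [norm_nonneg x])
    have h4 : 1 ≤ sw w * sw ζ * 2 := by
      rw [sw, sw, ← ENNReal.ofReal_ofNat, ← ENNReal.ofReal_mul (by positivity),
        ← ENNReal.ofReal_mul (by positivity), ENNReal.one_le_ofReal, ← mul_inv,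
        le_inv_mul_iff₀ (by positivity), mul_one, ← Real.mul_self_sqrt zero_le_two]
      exact mul_le_mul (h3 w (by simpa using hw)) (h3 ζ (by linarith)) (by positivity)
        (by positivity)
    rw [enorm_mul]
    calc _ ≤ ka (w - ζ) * (1 * ‖φ (z, ζ)‖ₑ) := by
          rw [one_mul]
          exact mul_le_mul_left (enorm_ck _) _
      _ ≤ ka (w - ζ) * (sw w * sw ζ * 2 * ‖φ (z, ζ)‖ₑ) := by gcongr
      _ = _ := by ring

end

end Pool.Agent.Lib.MP_2de762_an
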