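import Pool.Agent.Lib.MP_2de762_an.H98One

/-! Convolution along a complex direction, and the Cauchy transform with parameters. -/

namespace Pool.Agent.Lib.MP_2de762_an

open Set Metric MeasureTheory Filter Topology ComplexConjugate
open scoped ContDiff

noncomputable section

/-- Convolution with `f` along the complex line spanned by `v`. -/
def Cv (f : ℂ → ℂ) (v : ℂ × ℂ) (φ : ℂ × ℂ → ℂ) (p : ℂ × ℂ) : ℂ := ∫ ξ, f ξ * φ (p - ξ • v)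

/-- Locally uniformly compact support in the direction `v`. -/
def Loc (v : ℂ × ℂ) (φ : ℂ × ℂ → ℂ) : Prop :=
  ∀ R : ℝ, ∃ S : ℝ, ∀ p : ℂ × ℂ, ‖p‖ < R → ∀ ξ : ℂ, S < ‖ξ‖ → φ (p + ξ • v) = 0

/-- The Cauchy kernel. -/
def ck (ξ : ℂ) : ℂ := (Real.pi : ℂ)⁻¹ * ξ⁻¹

theorem ck_loc : LocallyIntegrable ck volume := by
  intro x
  obtain ⟨s, hs, h⟩ := locInt x
  exact ⟨s, hs, h.const_mul _⟩

theorem one_loc : LocallyIntegrable (fun _ : ℂ => (1 : ℂ)) volume :=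
  locallyIntegrable_const 1

theorem Loc.fderiv {v : ℂ × ℂ} {φ : ℂ × ℂ → ℂ} (h : Loc v φ) (u : ℂ × ℂ) :
    Loc v fun q => fderiv ℝ φ q u := by
  intro R
  obtain ⟨S, hS⟩ := h R
  refine ⟨S, fun p hp ξ hξ => ?_⟩
  have h1 : φ =ᶠ[𝓝 (p + ξ • v)] fun _ => 0 := by
    have h2 : ∀ᶠ q in 𝓝 (p + ξ • v), ‖q - ξ • v‖ < R :=
      ContinuousAt.eventually_lt (f := fun q => ‖q - ξ • v‖) (g := fun _ => R) (by fun_prop)
        (by fun_prop) (by simpa using hp)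
    filter_upwards [h2] with q hq
    simpa using hS _ hq ξ hξ
  simp [h1.fderiv_eq]

theorem Loc.wirt {v : ℂ × ℂ} {φ : ℂ × ℂ → ℂ} (h : Loc v φ) (u : ℂ × ℂ) (s : ℂ) :
    Loc v (wirt u s φ) := by
  intro R
  obtain ⟨S, hS⟩ := h.fderiv u R
  obtain ⟨T, hT⟩ := h.fderiv (Complex.I • u) R
  refine ⟨max S T, fun p hp ξ hξ => ?_⟩
  have h1 := hS p hp ξ (lt_of_le_of_lt (le_max_left _ _) hξ)
  have h2 := hT p hp ξ (lt_of_le_of_lt (le_max_right _ _) hξ)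
  simp only at h1 h2
  simp [MP_2de762_an.wirt, h1, h2]

theorem Loc.mul {v : ℂ × ℂ} {φ : ℂ × ℂ → ℂ} (h : Loc v φ) (β : ℂ × ℂ → ℂ) :
    Loc v fun q => β q * φ q := by
  intro R
  obtain ⟨S, hS⟩ := h R
  exact ⟨S, fun p hp ξ hξ => by simp [hS p hp ξ hξ]⟩

theorem loc_fst {φ : ℂ × ℂ → ℂ} {S : ℝ} (h : ∀ p, S < ‖p.1‖ → φ p = 0) : Loc (1, 0) φ := by
  intro R
  refine ⟨S + R, fun p hp ξ hξ => h _ ?_⟩
  have h1 : ‖p.1‖ ≤ ‖p‖ := norm_fst_le p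
  have h2 : ‖ξ‖ ≤ ‖p.1 + ξ‖ + ‖p.1‖ := by simpa using norm_sub_le (p.1 + ξ) p.1
  simp only [Prod.smul_mk, smul_eq_mul, mul_one, Prod.fst_add]
  linarith

theorem loc_snd {φ : ℂ × ℂ → ℂ} {S : ℝ} (h : ∀ p, S < ‖p.2‖ → φ p = 0) : Loc (0, 1) φ := by
  intro R
  refine ⟨S + R, fun p hp ξ hξ => h _ ?_⟩
  have h1 : ‖p.2‖ ≤ ‖p‖ := norm_snd_le p
  have h2 : ‖ξ‖ ≤ ‖p.2 + ξ‖ + ‖p.2‖ := by simpa using norm_sub_le (p.2 + ξ) p.2
  simp only [Prod.smul_mk, smul_eq_mul, mul_one, Prod.snd_add]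
  linarith

theorem Loc.slice {v : ℂ × ℂ} {φ : ℂ × ℂ → ℂ} (h : Loc v φ) (p : ℂ × ℂ) :
    HasCompactSupport fun ξ : ℂ => φ (p + ξ • v) := by
  obtain ⟨S, hS⟩ := h (‖p‖ + 1)
  refine HasCompactSupport.intro (isCompact_closedBall (0 : ℂ) S) fun ξ hξ => ?_
  exact hS p (lt_add_one _) ξ (by simpa using hξ)

theorem integrable_Cv {f : ℂ → ℂ} (hf : LocallyIntegrable f volume) {v : ℂ × ℂ}
    {φ : ℂ × ℂ → ℂ} (hφ : Continuous φ) (h : Loc v φ) (p : ℂ × ℂ) :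
    Integrable fun ξ : ℂ => f ξ * φ (p - ξ • v) := by
  have h1 : HasCompactSupport fun ξ : ℂ => φ (p - ξ • v) := by
    have := (h.slice p).comp_homeomorph (Homeomorph.neg ℂ)
    simpa [Function.comp_def, sub_eq_add_neg] using this
  exact hf.integrable_smul_right_of_hasCompactSupport (g := fun ξ : ℂ => φ (p - ξ • v))
    (by fun_prop) h1

theorem Cv_eq (f : ℂ → ℂ) (v : ℂ × ℂ) (φ : ℂ × ℂ → ℂ) (p : ℂ × ℂ) :
    Cv f v φ p = convolution f (fun x : ℂ => φ (p + x • v)) (ContinuousLinearMap.mul ℝ ℂ)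
      volume 0 := by
  simp [Cv, convolution_def, sub_eq_add_neg]

theorem Cv_contDiff {f : ℂ → ℂ} (hf : LocallyIntegrable f volume) {v : ℂ × ℂ}
    {φ : ℂ × ℂ → ℂ} (hφ : ContDiff ℝ ∞ φ) (h : Loc v φ) : ContDiff ℝ ∞ (Cv f v φ) := by
  rw [contDiff_iff_contDiffAt]
  intro p
  obtain ⟨S, hS⟩ := h (‖p‖ + 1)
  have h1 := contDiffOn_convolution_right_with_param (𝕜 := ℝ) (μ := volume) (n := ⊤)
    (ContinuousLinearMap.mul ℝ ℂ) (g := fun (q : ℂ × ℂ) (x : ℂ) => φ (q + x • v))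
    (s := ball 0 (‖p‖ + 1)) (k := closedBall 0 S) isOpen_ball (isCompact_closedBall _ _)
    (fun q x hq hx => hS q (by simpa using hq) x (by simpa using hx)) hf
    (ContDiff.contDiffOn (by
      show ContDiff ℝ ∞ fun y : (ℂ × ℂ) × ℂ => φ (y.1 + y.2 • v)
      fun_prop))
  have h2 := h1.contDiffAt (x := (p, 0))
    ((isOpen_ball.prod isOpen_univ).mem_nhds ⟨by simp, mem_univ _⟩)
  have h3 := h2.comp p (f := fun q : ℂ × ℂ => (q, (0 : ℂ))) (by fun_prop)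
  have h4 : Cv f v φ = _ := funext fun q => Cv_eq f v φ q
  rw [h4]
  exact h3

theorem Cv_fderiv {f : ℂ → ℂ} (hf : LocallyIntegrable f volume) {v : ℂ × ℂ}
    {φ : ℂ × ℂ → ℂ} (hφ : ContDiff ℝ ∞ φ) (h : Loc v φ) (p u : ℂ × ℂ) :
    fderiv ℝ (Cv f v φ) p u = Cv f v (fun q => fderiv ℝ φ q u) p := by
  obtain ⟨S, hS⟩ := h (‖p‖ + 1)
  have hφ1 : ContDiff ℝ 1 φ := hφ.of_le (by simp)
  have hG : ContDiff ℝ 1 fun y : (ℂ × ℂ) × ℂ => φ (y.1 + y.2 • v) := by fun_prop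
  have h1 := hasFDerivAt_convolution_right_with_param (𝕜 := ℝ) (μ := volume)
    (ContinuousLinearMap.mul ℝ ℂ) (g := fun (q : ℂ × ℂ) (x : ℂ) => φ (q + x • v))
    (s := ball 0 (‖p‖ + 1)) (k := closedBall 0 S) isOpen_ball (isCompact_closedBall _ _)
    (fun q x hq hx => hS q (by simpa using hq) x (by simpa using hx)) hf hG.contDiffOn (p, 0)
    (by simp)
  have h2 := h1.comp p (hasFDerivAt_prodMk_left (𝕜 := ℝ) p (0 : ℂ))
  have h4 : Cv f v φ = _ := funext fun q => Cv_eq f v φ q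
  have h5 : ∀ x : ℂ, HasFDerivAt (fun y : (ℂ × ℂ) × ℂ => φ (y.1 + y.2 • v))
      ((fderiv ℝ φ (p + x • v)).comp (ContinuousLinearMap.fst ℝ (ℂ × ℂ) ℂ +
        (ContinuousLinearMap.snd ℝ (ℂ × ℂ) ℂ).smulRight v)) (p, x) := fun x =>
    (hφ1.differentiable one_ne_zero _).hasFDerivAt.comp (p, x)
      (f := fun y : (ℂ × ℂ) × ℂ => y.1 + y.2 • v)
      (hasFDerivAt_fst.add (hasFDerivAt_snd.smul_const v))
  have h6 : (fun x : ℂ => fderiv ℝ (↿fun (q : ℂ × ℂ) (x : ℂ) => φ (q + x • v)) (p, x)) =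
      fun x : ℂ => (fderiv ℝ φ (p + x • v)).comp (ContinuousLinearMap.fst ℝ (ℂ × ℂ) ℂ +
        (ContinuousLinearMap.snd ℝ (ℂ × ℂ) ℂ).smulRight v) := funext fun x => (h5 x).fderiv
  have hd := hφ1.continuous_fderiv one_ne_zero
  have h7 : HasCompactSupport fun x : ℂ => (fderiv ℝ φ (p + x • v)).comp
      (ContinuousLinearMap.fst ℝ (ℂ × ℂ) ℂ +
        (ContinuousLinearMap.snd ℝ (ℂ × ℂ) ℂ).smulRight v) := by
    refine HasCompactSupport.intro (isCompact_closedBall (0 : ℂ) S) fun ξ hξ => ?_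
    have h8 : φ =ᶠ[𝓝 (p + ξ • v)] fun _ => 0 := by
      have h2 : ∀ᶠ q in 𝓝 (p + ξ • v), ‖q - ξ • v‖ < ‖p‖ + 1 :=
        ContinuousAt.eventually_lt (f := fun q => ‖q - ξ • v‖) (g := fun _ => ‖p‖ + 1)
          (by fun_prop) (by fun_prop) (by simp)
      filter_upwards [h2] with q hq
      simpa using hS _ hq ξ (by simpa using hξ)
    simp [h8.fderiv_eq]
  rw [h4]
  refine (congrArg (fun L => L u) h2.fderiv).trans ?_
  simp only [h6, ContinuousLinearMap.comp_apply]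
  rw [convolution_precompR_apply _ hf h7 (by fun_prop), Cv_eq]
  simp

theorem contDiff_fderiv_apply {φ : ℂ × ℂ → ℂ} (hφ : ContDiff ℝ ∞ φ) (u : ℂ × ℂ) :
    ContDiff ℝ ∞ fun q => fderiv ℝ φ q u :=
  (hφ.fderiv_right (m := ∞) (by simp)).clm_apply contDiff_const

theorem contDiff_wirt {φ : ℂ × ℂ → ℂ} (hφ : ContDiff ℝ ∞ φ) (u : ℂ × ℂ) (s : ℂ) :
    ContDiff ℝ ∞ (wirt u s φ) :=
  ((contDiff_fderiv_apply hφ u).add
    (contDiff_const.mul (contDiff_fderiv_apply hφ _))).div_const _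

theorem wirt_Cv {f : ℂ → ℂ} (hf : LocallyIntegrable f volume) {v : ℂ × ℂ}
    {φ : ℂ × ℂ → ℂ} (hφ : ContDiff ℝ ∞ φ) (h : Loc v φ) (u : ℂ × ℂ) (s : ℂ) :
    wirt u s (Cv f v φ) = Cv f v (wirt u s φ) := by
  funext p
  have i1 := fun u => integrable_Cv hf (contDiff_fderiv_apply hφ u).continuous (h.fderiv u) p
  rw [wirt, Cv_fderiv hf hφ h, Cv_fderiv hf hφ h]
  simp only [Cv, wirt]
  rw [← integral_const_mul, ← integral_add (i1 _) ((i1 _).const_mul _), ← integral_div]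
  congr 1
  funext ξ
  ring

theorem slice_fderiv {φ : ℂ × ℂ → ℂ} (hφ : ContDiff ℝ ∞ φ) (p v : ℂ × ℂ) (ξ η : ℂ) :
    fderiv ℝ (fun x : ℂ => φ (p + x • v)) ξ η = fderiv ℝ φ (p + ξ • v) (η • v) := by
  have h1 : HasFDerivAt (fun x : ℂ => p + x • v) ((ContinuousLinearMap.id ℝ ℂ).smulRight v) ξ :=
    ((hasFDerivAt_id ξ).smul_const v).const_add p
  have h2 := (hφ.differentiable (by simp) (p + ξ • v)).hasFDerivAt.comp ξ h1
  refine (congrArg (fun L => L η) h2.fderiv).trans ?_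
  simp

/-- The formula of Cauchy and Pompeiu with parameters. -/
theorem Cv_wirt {v : ℂ × ℂ} {φ : ℂ × ℂ → ℂ} (hφ : ContDiff ℝ ∞ φ) (h : Loc v φ) :
    Cv ck v (wirt v 1 φ) = φ := by
  funext p
  have h1 : ContDiff ℝ 1 fun x : ℂ => φ (p + x • v) := by
    have := hφ.of_le (show (1 : WithTop ℕ∞) ≤ ∞ by simp)
    fun_prop
  have h2 := pompeiu h1 (h.slice p)
  have h3 : ∀ ξ, dbar (fun x : ℂ => φ (p + x • v)) ξ = wirt v 1 φ (p + ξ • v) := fun ξ => by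
    simp [dbar, wirt, slice_fderiv hφ]
  have h4 : (Real.pi : ℂ) ≠ 0 := Complex.ofReal_ne_zero.2 Real.pi_ne_zero
  simp only [h3, zero_smul, add_zero] at h2
  rw [Cv, ← integral_neg_eq_self]
  have h5 : ∀ ξ : ℂ, ck (-ξ) * wirt v 1 φ (p - (-ξ) • v) =
      -(Real.pi : ℂ)⁻¹ * (wirt v 1 φ (p + ξ • v) / ξ) := fun ξ => by
    simp only [ck, neg_smul, sub_neg_eq_add, inv_neg]
    ring
  simp only [h5]
  rw [integral_const_mul, h2]
  field_simp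

theorem Cv_one_wirt {v : ℂ × ℂ} {φ : ℂ × ℂ → ℂ} (hφ : ContDiff ℝ ∞ φ) (h : Loc v φ) (s : ℂ) :
    wirt v s (Cv (fun _ => 1) v φ) = 0 := by
  funext p
  have h1 : ∀ η : ℂ, fderiv ℝ (Cv (fun _ => 1) v φ) p (η • v) = 0 := fun η => by
    have h2 := slice_fderiv (Cv_contDiff one_loc hφ h) p v 0 η
    have h3 : (fun x : ℂ => Cv (fun _ => 1) v φ (p + x • v)) = fun _ => Cv (fun _ => 1) v φ p := by
      funext x
      simp only [Cv, one_mul]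
      rw [← integral_add_right_eq_self _ x]
      congr 1
      funext ξ
      congr 1
      module
    rw [h3] at h2
    simpa using h2.symm
  have h4 := h1 1
  rw [one_smul] at h4
  simp [wirt, h4, h1]

theorem Cv_add {f : ℂ → ℂ} (hf : LocallyIntegrable f volume) {v : ℂ × ℂ} {φ ψ : ℂ × ℂ → ℂ}
    (hφ : Continuous φ) (h : Loc v φ) (hψ : Continuous ψ) (h' : Loc v ψ) :
    Cv f v (φ + ψ) = Cv f v φ + Cv f v ψ := by
  funext p
  simp only [Cv, Pi.add_apply, mul_add]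
  exact integral_add (integrable_Cv hf hφ h p) (integrable_Cv hf hψ h' p)

theorem Cv_smul (f : ℂ → ℂ) (v : ℂ × ℂ) (c : ℂ) (φ : ℂ × ℂ → ℂ) :
    Cv f v (c • φ) = c • Cv f v φ := by
  funext p
  simp only [Cv, Pi.smul_apply, smul_eq_mul]
  rw [← integral_const_mul]
  congr 1
  funext ξ
  ring

theorem Cv_fst (f : ℂ → ℂ) (φ : ℂ × ℂ → ℂ) (z w : ℂ) :
    Cv f (1, 0) φ (z, w) = ∫ ζ, f (z - ζ) * φ (ζ, w) := by
  rw [Cv, ← integral_sub_left_eq_self _ volume z]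
  simp

theorem Cv_snd (f : ℂ → ℂ) (φ : ℂ × ℂ → ℂ) (z w : ℂ) :
    Cv f (0, 1) φ (z, w) = ∫ ζ, f (w - ζ) * φ (z, ζ) := by
  rw [Cv, ← integral_sub_left_eq_self _ volume w]
  simp

end

end Pool.Agent.Lib.MP_2de762_an
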