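import Pool.Agent.Lib.MP_2de762_an.H98L2

/-! Cut-off functions: weak derivatives against test functions without compact support. -/

namespace Pool.Agent.Lib.MP_2de762_an

open Set Metric MeasureTheory Filter Topology ComplexConjugate
open scoped ContDiff ENNReal

noncomputable section

theorem wirt_mul {β φ : ℂ × ℂ → ℂ} (hβ : ContDiff ℝ ∞ β) (hφ : ContDiff ℝ ∞ φ) (u : ℂ × ℂ)
    (s : ℂ) (p : ℂ × ℂ) :
    wirt u s (fun q => β q * φ q) p = β p * wirt u s φ p + φ p * wirt u s β p := by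
  simp only [wirt]
  rw [fderiv_fun_mul (hβ.differentiable (by simp) p) (hφ.differentiable (by simp) p)]
  simp only [add_apply, smul_apply, smul_eq_mul]
  ring

theorem wirt_add {β φ : ℂ × ℂ → ℂ} (hβ : ContDiff ℝ ∞ β) (hφ : ContDiff ℝ ∞ φ) (u : ℂ × ℂ)
    (s : ℂ) : wirt u s (β + φ) = wirt u s β + wirt u s φ := by
  funext p
  simp only [wirt, Pi.add_apply]
  rw [fderiv_add (hβ.differentiable (by simp) p) (hφ.differentiable (by simp) p)]
  simp only [add_apply]
  ring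

theorem wirt_smul {φ : ℂ × ℂ → ℂ} (hφ : ContDiff ℝ ∞ φ) (c : ℂ) (u : ℂ × ℂ)
    (s : ℂ) : wirt u s (c • φ) = c • wirt u s φ := by
  funext p
  have := wirt_mul (β := fun _ => c) contDiff_const hφ u s p
  refine this.trans ?_
  simp [wirt]

theorem wirt_eq_zero {φ : ℂ × ℂ → ℂ} {U : Set (ℂ × ℂ)} (hU : IsOpen U) (h : ∀ p ∈ U, φ p = 0)
    (u : ℂ × ℂ) (s : ℂ) : ∀ p ∈ U, wirt u s φ p = 0 := by
  intro p hp
  have h1 : φ =ᶠ[𝓝 p] fun _ => 0 := by
    filter_upwards [hU.mem_nhds hp] with q hq using h q hq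
  simp [wirt, h1.fderiv_eq]

theorem isTest_of_bounds {V : ℂ × ℂ → ℂ} (hV : ContDiff ℝ ∞ V) {S r : ℝ} (hr : r < 1)
    (h1 : ∀ p, S < ‖p.1‖ → V p = 0) (h2 : ∀ p, r < ‖p.2‖ → V p = 0) : IsTest V := by
  have hK : IsCompact (closedBall (0 : ℂ) S ×ˢ closedBall (0 : ℂ) r) :=
    (isCompact_closedBall _ _).prod (isCompact_closedBall _ _)
  have h3 : Function.support V ⊆ closedBall (0 : ℂ) S ×ˢ closedBall (0 : ℂ) r := fun p hp =>
    ⟨by simpa using not_lt.1 fun h => hp (h1 p h), by simpa using not_lt.1 fun h => hp (h2 p h)⟩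
  have h4 := closure_minimal h3 hK.isClosed
  refine ⟨hV, hK.of_isClosed_subset isClosed_closure h4, fun p hp => ?_⟩
  exact lt_of_le_of_lt (by simpa using (h4 hp).2) hr

theorem IsTest.bounds {φ : ℂ × ℂ → ℂ} (h : IsTest φ) : ∃ S r : ℝ, 0 < S ∧ r < 1 ∧
    (∀ p, S < ‖p.1‖ → φ p = 0) ∧ ∀ p, r < ‖p.2‖ → φ p = 0 := by
  obtain ⟨S, hS⟩ := h.2.1.isCompact.isBounded.subset_closedBall 0
  have h1 : ∃ r : ℝ, r < 1 ∧ ∀ p ∈ tsupport φ, ‖p.2‖ ≤ r := by
    rcases (tsupport φ).eq_empty_or_nonempty with h0 | h0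
    · exact ⟨0, one_pos, by simp [h0]⟩
    · obtain ⟨q, hq, hm⟩ := h.2.1.isCompact.exists_isMaxOn h0
        (f := fun p : ℂ × ℂ => ‖p.2‖) (by fun_prop)
      exact ⟨‖q.2‖, h.2.2 hq, fun p hp => hm hp⟩
  obtain ⟨r, hr, h2⟩ := h1
  refine ⟨max S 1, r, by positivity, hr, fun p hp => image_eq_zero_of_notMem_tsupport fun hq => ?_,
    fun p hp => image_eq_zero_of_notMem_tsupport fun hq => (h2 p hq).not_gt hp⟩
  have h3 : ‖p‖ ≤ S := by simpa using hS hq
  linarith [norm_fst_le p, le_max_left S 1]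

theorem IsTest.loc1 {φ : ℂ × ℂ → ℂ} (h : IsTest φ) : Loc (1, 0) φ := by
  obtain ⟨S, r, -, -, h1, -⟩ := h.bounds
  exact loc_fst h1

theorem IsTest.loc2 {φ : ℂ × ℂ → ℂ} (h : IsTest φ) : Loc (0, 1) φ := by
  obtain ⟨S, r, -, -, -, h1⟩ := h.bounds
  exact loc_snd h1

theorem IsTest.wirt {φ : ℂ × ℂ → ℂ} (h : IsTest φ) (u : ℂ × ℂ) (s : ℂ) :
    IsTest (wirt u s φ) := by
  obtain ⟨S, r, -, hr, h1, h2⟩ := h.bounds
  exact isTest_of_bounds (contDiff_wirt h.1 u s) hr
    (wirt_eq_zero (U := {p | S < ‖p.1‖}) (isOpen_lt continuous_const (by fun_prop)) h1 u s)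
    (wirt_eq_zero (U := {p | r < ‖p.2‖}) (isOpen_lt continuous_const (by fun_prop)) h2 u s)

theorem exists_cut : ∃ (χ : ℝ → ℂ → ℂ) (B : ℝ), 0 ≤ B ∧ ∀ R, 0 < R → ContDiff ℝ ∞ (χ R) ∧
    (∀ x, ‖χ R x‖ ≤ 1) ∧ (∀ x, ‖x‖ ≤ R → χ R x = 1) ∧ (∀ x, 2 * R < ‖x‖ → χ R x = 0) ∧
    (∀ x, ‖fderiv ℝ (χ R) x‖ ≤ B / R) ∧ (∀ x, ‖x‖ < R → fderiv ℝ (χ R) x = 0) ∧
    ∀ x, 2 * R < ‖x‖ → fderiv ℝ (χ R) x = 0 := by
  let b : ContDiffBump (0 : ℂ) := ⟨1, 2, one_pos, one_lt_two⟩
  have hb : ContDiff ℝ ∞ fun x : ℂ => (b x : ℂ) := Complex.ofRealCLM.contDiff.comp b.contDiff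
  have hc : HasCompactSupport fun x : ℂ => (b x : ℂ) :=
    b.hasCompactSupport.comp_left (g := fun x : ℝ => (x : ℂ)) rfl
  obtain ⟨B, hB⟩ := (hb.continuous_fderiv (by simp)).bounded_above_of_compact_support (hc.fderiv ℝ)
  refine ⟨fun R x => (b (R⁻¹ • x) : ℂ), B, (norm_nonneg _).trans (hB 0), fun R hR => ?_⟩
  have hn : ∀ x : ℂ, ‖R⁻¹ • x‖ = ‖x‖ / R := fun x => by
    rw [norm_smul, Real.norm_of_nonneg (by positivity), div_eq_inv_mul]
  have h1 : ∀ x : ℂ, ‖x‖ ≤ R → (b (R⁻¹ • x) : ℂ) = 1 := fun x hx => by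
    rw [b.one_of_mem_closedBall, Complex.ofReal_one]
    rw [mem_closedBall, dist_zero_right, hn, div_le_iff₀ hR]
    simpa [b] using hx
  have h2 : ∀ x : ℂ, 2 * R < ‖x‖ → (b (R⁻¹ • x) : ℂ) = 0 := fun x hx => by
    rw [b.zero_of_le_dist, Complex.ofReal_zero]
    rw [dist_zero_right, hn, le_div_iff₀ hR]
    exact hx.le
  refine ⟨hb.comp (contDiff_id.const_smul _), fun x => ?_, h1, h2, fun x => ?_, fun x hx => ?_,
    fun x hx => ?_⟩
  · rw [Complex.norm_real, Real.norm_of_nonneg b.nonneg]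
    exact b.le_one
  · have h3 := (hb.differentiable (by simp) (R⁻¹ • x)).hasFDerivAt.comp x
      ((hasFDerivAt_id x).const_smul R⁻¹)
    refine (congrArg norm h3.fderiv).trans_le ((ContinuousLinearMap.opNorm_comp_le _ _).trans ?_)
    rw [norm_smul, Real.norm_of_nonneg (by positivity), ContinuousLinearMap.norm_id, mul_one,
      div_eq_mul_inv]
    exact mul_le_mul_of_nonneg_right (hB _) (by positivity)
  · have h3 : (fun x : ℂ => (b (R⁻¹ • x) : ℂ)) =ᶠ[𝓝 x] fun _ => 1 := by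
      filter_upwards [(isOpen_lt continuous_norm continuous_const).mem_nhds hx] with y hy
        using h1 y (le_of_lt hy)
    exact h3.fderiv_eq.trans (by simp)
  · have h3 : (fun x : ℂ => (b (R⁻¹ • x) : ℂ)) =ᶠ[𝓝 x] fun _ => 0 := by
      filter_upwards [(isOpen_lt continuous_const continuous_norm).mem_nhds hx] with y hy
        using h2 y hy
    exact h3.fderiv_eq.trans (by simp)

theorem fderiv_comp_fst {χ : ℂ → ℂ} (h : ContDiff ℝ ∞ χ) (p u : ℂ × ℂ) :
    fderiv ℝ (fun q : ℂ × ℂ => χ q.1) p u = fderiv ℝ χ p.1 u.1 :=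
  congrArg (fun L => L u)
    ((h.differentiable (by simp) p.1).hasFDerivAt.comp p hasFDerivAt_fst).fderiv

theorem fderiv_comp_snd {χ : ℂ → ℂ} (h : ContDiff ℝ ∞ χ) (p u : ℂ × ℂ) :
    fderiv ℝ (fun q : ℂ × ℂ => χ q.2) p u = fderiv ℝ χ p.2 u.2 :=
  congrArg (fun L => L u)
    ((h.differentiable (by simp) p.2).hasFDerivAt.comp p hasFDerivAt_snd).fderiv

theorem pair_le {f g : ℂ × ℂ → ℂ} (hf : AEStronglyMeasurable f (volume.restrict Om))
    (hg : AEStronglyMeasurable g (volume.restrict Om)) :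
    ‖∫ p in Om, f p * g p‖ₑ ^ 2 ≤ N2 f * N2 g := by
  refine (pow_le_pow_left' (enorm_integral_le_lintegral_enorm _) 2).trans ?_
  simp only [enorm_mul]
  exact cs _ hf.enorm hg.enorm

/-- Passing to the limit along cut-off functions. -/
theorem WD.ext {v : ℂ × ℂ} {s : ℂ} {u a V : ℂ × ℂ → ℂ} (h : WD (wirt v s) u a)
    (hV : ContDiff ℝ ∞ V) {θ : ℕ → ℂ × ℂ → ℂ} (hθ : ∀ n, ContDiff ℝ ∞ (θ n))
    (ht : ∀ n, IsTest fun p => θ n p * V p) (hb : ∀ n p, ‖θ n p‖ ≤ 1)
    (hl : ∀ p ∈ Om, ∀ᶠ n in atTop, θ n p = 1)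
    (i1 : IntegrableOn (fun p => u p * wirt v s V p) Om)
    (i2 : IntegrableOn (fun p => a p * V p) Om)
    (i3 : ∀ n, IntegrableOn (fun p => u p * (V p * wirt v s (θ n) p)) Om)
    (h0 : Tendsto (fun n => ∫ p in Om, u p * (V p * wirt v s (θ n) p)) atTop (𝓝 0)) :
    ∫ p in Om, u p * wirt v s V p = -∫ p in Om, a p * V p := by
  have ib : ∀ {F : ℂ × ℂ → ℂ}, IntegrableOn F Om → ∀ n, IntegrableOn (fun p => θ n p * F p) Om :=
    fun hF n => hF.bdd_mul (c := 1) (hθ n).continuous.aestronglyMeasurable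
      (Eventually.of_forall (hb n))
  have lim : ∀ {F : ℂ × ℂ → ℂ}, IntegrableOn F Om →
      Tendsto (fun n => ∫ p in Om, θ n p * F p) atTop (𝓝 (∫ p in Om, F p)) := fun {F} hF => by
    refine tendsto_integral_of_dominated_convergence (fun p => ‖F p‖) (fun n => (ib hF n).1)
      hF.norm (fun n => Eventually.of_forall fun p => ?_) ?_
    · rw [norm_mul]
      exact mul_le_of_le_one_left (norm_nonneg _) (hb n p)
    · filter_upwards [ae_restrict_mem isOpen_Om.measurableSet] with p hp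
      refine tendsto_const_nhds.congr' ?_
      filter_upwards [hl p hp] with n hn
      rw [hn, one_mul]
  have h1 := (lim i1).add h0
  rw [add_zero] at h1
  refine tendsto_nhds_unique h1 ((lim i2).neg.congr fun n => ?_)
  have h2 := h _ (ht n)
  rw [← integral_add (ib i1 n) (i3 n)]
  simp only [wirt_mul (hθ n) hV] at h2
  refine Eq.trans ?_ (h2.symm.trans ?_)
  · congr 2
    funext p
    ring
  · congr 1
    funext p
    ring

/-- Derivative in `z` against a bounded function without decay in `z`. -/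
theorem WD.ext_bdd {s : ℂ} {u a V : ℂ × ℂ → ℂ} (h : WD (wirt (1, 0) s) u a)
    (hu : MemLp u 2 (volume.restrict Om)) (hV : ContDiff ℝ ∞ V) {r K : ℝ} (hr : r < 1)
    (h2 : ∀ p, r < ‖p.2‖ → V p = 0) (hK : ∀ p, ‖V p‖ ≤ K)
    (i1 : IntegrableOn (fun p => u p * wirt (1, 0) s V p) Om)
    (i2 : IntegrableOn (fun p => a p * V p) Om) :
    ∫ p in Om, u p * wirt (1, 0) s V p = -∫ p in Om, a p * V p := by
  obtain ⟨χ, B, hB, hχ⟩ := exists_cut
  have hR : ∀ n : ℕ, (0 : ℝ) < n + 1 := fun n => by positivity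
  have K0 : 0 ≤ K := (norm_nonneg _).trans (hK 0)
  have sm : ∀ n : ℕ, ContDiff ℝ ∞ fun p : ℂ × ℂ => χ (n + 1) p.1 := fun n =>
    (hχ _ (hR n)).1.comp contDiff_fst
  set E : ℕ → ℂ × ℂ → ℂ := fun n p => V p * wirt (1, 0) s (fun p : ℂ × ℂ => χ (n + 1) p.1) p
    with hE
  have Ec : ∀ n, Continuous (E n) := fun n =>
    hV.continuous.mul (contDiff_wirt (sm n) _ _).continuous
  have Ee : ∀ n p, E n p = V p * ((fderiv ℝ (χ (n + 1)) p.1 1 +
      s * Complex.I * fderiv ℝ (χ (n + 1)) p.1 Complex.I) / 2) := fun n p => by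
    simp [hE, wirt, fderiv_comp_fst (hχ _ (hR n)).1]
  set L := K * ((1 + ‖s‖) * B) with hL
  have Eb : ∀ n p, ‖E n p‖ ≤ L / (n + 1) := fun n p => by
    have h3 := (hχ _ (hR n)).2.2.2.2.1 p.1
    have h4 : ∀ η : ℂ, ‖η‖ = 1 → ‖fderiv ℝ (χ (n + 1)) p.1 η‖ ≤ B / (n + 1) := fun η hη =>
      ((fderiv ℝ (χ (n + 1)) p.1).le_opNorm η).trans (by rw [hη, mul_one]; exact h3)
    rw [Ee, norm_mul, hL, mul_div_assoc]
    refine mul_le_mul (hK p) ?_ (norm_nonneg _) K0
    rw [norm_div, Complex.norm_two]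
    have h5 := norm_add_le (fderiv ℝ (χ (n + 1)) p.1 1)
      (s * Complex.I * fderiv ℝ (χ (n + 1)) p.1 Complex.I)
    rw [norm_mul, norm_mul, Complex.norm_I, mul_one] at h5
    have h6 := mul_le_mul_of_nonneg_left (h4 _ Complex.norm_I) (norm_nonneg s)
    have h7 : 0 ≤ ‖s‖ * (B / (n + 1)) := by positivity
    have h8 : 0 ≤ B / (n + 1) := by positivity
    rw [mul_div_assoc]
    nlinarith [h4 1 norm_one]
  have L0 : 0 ≤ L := by positivity
  have EN : ∀ n, N2 (E n) ≤ ENNReal.ofReal (2 * L) ^ 2 * NNReal.pi * volume (ball (0 : ℂ) 1) :=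
    fun n => by
      calc N2 (E n) ≤ ∫⁻ p in Om, (closedBall (0 : ℂ) (2 * (n + 1)) ×ˢ (univ : Set ℂ)).indicator
            (fun _ => ENNReal.ofReal (L / (n + 1)) ^ 2) p := by
            refine lintegral_mono fun p => ?_
            by_cases hp : p ∈ closedBall (0 : ℂ) (2 * (n + 1)) ×ˢ (univ : Set ℂ)
            · rw [indicator_of_mem hp, ← ofReal_norm]
              exact pow_le_pow_left' (ENNReal.ofReal_le_ofReal (Eb n p)) 2
            · rw [Ee, (hχ _ (hR n)).2.2.2.2.2.2 p.1 (by simpa using hp)]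
              simp
        _ = _ := by
            rw [lintegral_indicator (measurableSet_closedBall.prod MeasurableSet.univ),
              setLIntegral_const, mu_eq, Measure.prod_prod, Complex.volume_closedBall,
              Measure.restrict_apply_univ, ← mul_assoc, ← mul_assoc, ← mul_pow,
              ← ENNReal.ofReal_mul (by positivity)]
            congr 4
            field_simp
  have Ef : ENNReal.ofReal (2 * L) ^ 2 * NNReal.pi * volume (ball (0 : ℂ) 1) ≠ ⊤ := by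
    have := (measure_ball_lt_top (μ := volume) (x := (0 : ℂ)) (r := 1)).ne
    finiteness
  refine h.ext hV sm (fun n => isTest_of_bounds ((sm n).mul hV) (S := 2 * (n + 1)) hr
    (fun p hp => by rw [(hχ _ (hR n)).2.2.2.1 _ hp, zero_mul])
    (fun p hp => by rw [h2 p hp, mul_zero])) (fun n p => (hχ _ (hR n)).2.1 _) (fun p _ => ?_)
    i1 i2 (fun n => hu.integrable_mul (memLp_of_N2 (Ec n).aestronglyMeasurable
      (ne_top_of_le_ne_top Ef (EN n)))) ?_
  · filter_upwards [tendsto_natCast_atTop_atTop.eventually_ge_atTop ‖p.1‖] with n hn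
    exact (hχ _ (hR n)).2.2.1 _ (by linarith)
  · set A : ℕ → Set (ℂ × ℂ) := fun n => {p | (n : ℝ) + 1 ≤ ‖p.1‖} with hA
    have mA : ∀ n, MeasurableSet (A n) := fun n =>
      (isClosed_le continuous_const (by fun_prop)).measurableSet
    have t1 : Tendsto (fun n => N2 ((A n).indicator u)) atTop (𝓝 0) := by
      have h3 := tendsto_lintegral_of_dominated_convergence' (μ := volume.restrict Om)
        (F := fun n p => ‖(A n).indicator u p‖ₑ ^ 2) (f := fun _ => 0) (fun p => ‖u p‖ₑ ^ 2)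
        (fun n => (hu.1.indicator (mA n)).enorm.pow_const 2)
        (fun n => Eventually.of_forall fun p =>
          pow_le_pow_left' (enorm_indicator_le_enorm_self _ _) 2) (N2_ne_top hu)
        (Eventually.of_forall fun p => tendsto_const_nhds.congr' (by
          filter_upwards [tendsto_natCast_atTop_atTop.eventually_ge_atTop ‖p.1‖] with n hn
          rw [indicator_of_notMem (by simp only [hA, mem_ofPred_eq]; linarith)]
          simp))
      simpa [N2] using h3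
    have t2 := ENNReal.Tendsto.mul_const t1 (Or.inr Ef)
    rw [zero_mul] at t2
    have t3 : Tendsto (fun n => ‖∫ p in Om, u p * E n p‖ₑ ^ 2) atTop (𝓝 0) := by
      refine tendsto_of_tendsto_of_tendsto_of_le_of_le tendsto_const_nhds t2
        (fun _ => zero_le) fun n => ?_
      have h3 : (fun p => u p * E n p) = fun p => (A n).indicator u p * E n p := by
        funext p
        by_cases hp : p ∈ A n
        · rw [indicator_of_mem hp]
        · rw [Ee, (hχ _ (hR n)).2.2.2.2.2.1 p.1 (by simpa [hA] using hp)]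
          simp
      simp only [h3]
      exact (pair_le (hu.1.indicator (mA n)) (Ec n).aestronglyMeasurable).trans
        (mul_le_mul_right (EN n) _)
    have t4 := (ENNReal.tendsto_toReal ENNReal.zero_ne_top).comp t3
    rw [tendsto_zero_iff_norm_tendsto_zero]
    have t5 := t4.sqrt
    simpa [Function.comp_def] using t5

end

end Pool.Agent.Lib.MP_2de762_an
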