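import Mathlib

/-! The Hartogs triangle `{[z0 : z1 : z2] : |z1| < |z2|}` of the complex projective plane, in the
affine chart `(z, w) = (z0 / z2, z1 / z2)`, where it is the product of the plane and the unit
disc. -/

namespace Pool.Agent.Lib.MP_2de762_an

open MeasureTheory ComplexConjugate
open scoped ContDiff

noncomputable section

/-- The Hartogs triangle in the chart `z2 = 1`. -/
def Om : Set (ℂ × ℂ) := {p | ‖p.2‖ < 1}

/-- Smooth functions with compact support inside the domain. -/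
def IsTest (φ : ℂ × ℂ → ℂ) : Prop :=
  ContDiff ℝ ∞ φ ∧ HasCompactSupport φ ∧ tsupport φ ⊆ Om

/-- The Wirtinger derivative in the complex direction `v`: `s = -1` gives the derivative in the
holomorphic variable, `s = 1` the derivative in the conjugate variable. -/
def wirt (v : ℂ × ℂ) (s : ℂ) (φ : ℂ × ℂ → ℂ) (p : ℂ × ℂ) : ℂ :=
  (fderiv ℝ φ p v + s * Complex.I * fderiv ℝ φ p (Complex.I • v)) / 2

/-- Derivative in `z`. -/
def dz : (ℂ × ℂ → ℂ) → ℂ × ℂ → ℂ := wirt (1, 0) (-1)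

/-- Derivative in the conjugate of `z`. -/
def dzb : (ℂ × ℂ → ℂ) → ℂ × ℂ → ℂ := wirt (1, 0) 1

/-- Derivative in `w`. -/
def dw : (ℂ × ℂ → ℂ) → ℂ × ℂ → ℂ := wirt (0, 1) (-1)

/-- Derivative in the conjugate of `w`. -/
def dwb : (ℂ × ℂ → ℂ) → ℂ × ℂ → ℂ := wirt (0, 1) 1

/-- `D u = a` in the sense of distributions on the domain. -/
def WD (D : (ℂ × ℂ → ℂ) → ℂ × ℂ → ℂ) (u a : ℂ × ℂ → ℂ) : Prop :=
  ∀ φ, IsTest φ → ∫ p in Om, u p * D φ p = -∫ p in Om, a p * φ p

/-- The squared length of the form `a d(conj z) + b d(conj w)` at `p` in the metric of Fubini and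
Study (the inverse of the matrix of second derivatives of `log (1 + |z|^2 + |w|^2)`). -/
def fs (p : ℂ × ℂ) (a b : ℂ) : ℝ :=
  (1 + ‖p.1‖ ^ 2 + ‖p.2‖ ^ 2) * (‖a‖ ^ 2 + ‖b‖ ^ 2 + ‖conj p.1 * a + conj p.2 * b‖ ^ 2)

/-- The `(2,1)`-form `(a d(conj z) + b d(conj w)) ∧ dz ∧ dw` is square integrable. -/
def L21 (a b : ℂ × ℂ → ℂ) : Prop :=
  AEStronglyMeasurable a (volume.restrict Om) ∧ AEStronglyMeasurable b (volume.restrict Om) ∧
    IntegrableOn (fun p => fs p (a p) (b p)) Om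

end

end Pool.Agent.Lib.MP_2de762_an
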