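import Pool.Agent.Lib.MP_2de762_an.H98Defs

/-! The Sobolev space of order one on the Hartogs triangle of the complex projective plane, for the
metric and the volume of Fubini and Study. -/

namespace Pool.Agent.Lib.MP_2de762_an

open MeasureTheory ComplexConjugate

noncomputable section

/-- The function `u` and its differential `a dz + c dw + b d(conj z) + d d(conj w)`, taken in the
sense of distributions, are square integrable for the metric and the volume
`dV / (1 + |z|^2 + |w|^2)^3` of Fubini and Study. -/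
def W1 (u : ℂ × ℂ → ℂ) : Prop :=
  AEStronglyMeasurable u (volume.restrict Om) ∧ ∃ a b c d : ℂ × ℂ → ℂ,
    AEStronglyMeasurable a (volume.restrict Om) ∧ AEStronglyMeasurable b (volume.restrict Om) ∧
    AEStronglyMeasurable c (volume.restrict Om) ∧ AEStronglyMeasurable d (volume.restrict Om) ∧
    WD dz u a ∧ WD dzb u b ∧ WD dw u c ∧ WD dwb u d ∧
    IntegrableOn (fun p => (‖u p‖ ^ 2 + fs p (conj (a p)) (conj (c p)) + fs p (b p) (d p)) /
      (1 + ‖p.1‖ ^ 2 + ‖p.2‖ ^ 2) ^ 3) Om

/-- The form `f1 d(conj z) + f2 d(conj w)` has its coefficients in `W1` in the two charts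
`z2 = 1` and `z0 = 1` that cover the closure of the domain. In the coordinates
`(x, y) = (z1 / z0, z2 / z0) = (w / z, 1 / z)` the form is
`conj z * f2 d(conj x) - conj z * (conj z * f1 + conj w * f2) d(conj y)`. -/
def W1Form (f1 f2 : ℂ × ℂ → ℂ) : Prop :=
  W1 f1 ∧ W1 f2 ∧ W1 (fun p => conj p.1 * f2 p) ∧
    W1 fun p => conj p.1 * (conj p.1 * f1 p + conj p.2 * f2 p)

end

end Pool.Agent.Lib.MP_2de762_an
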