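import Pool.Agent.Lib.MP_2de762_an.H98Hardy
import Pool.Agent.Lib.MP_2de762_an.H98W1Defs

/-! The space `W1` in terms of weighted square integrability. -/

namespace Pool.Agent.Lib.MP_2de762_an

open Set Metric MeasureTheory Filter Topology ComplexConjugate
open scoped ContDiff ENNReal

noncomputable section

/-- Square integrable after division by the weight. -/
def Lw (m : ℂ → ℂ) (u : ℂ × ℂ → ℂ) : Prop :=
  MemLp (fun p : ℂ × ℂ => (m p.1)⁻¹ * u p) 2 (volume.restrict Om)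

/-- The weighted form of `W1`. -/
def Good (u a b c d : ℂ × ℂ → ℂ) : Prop :=
  Lw rho u ∧ Lw sr a ∧ Lw sr b ∧ Lw rho c ∧ Lw rho d ∧
    WD dz u a ∧ WD dzb u b ∧ WD dw u c ∧ WD dwb u d

theorem Lw.locr {u : ℂ × ℂ → ℂ} (h : Lw rho u) : LocallyIntegrableOn u Om volume :=
  loc_of_w contDiff_rho.continuous rho_ne h

theorem Lw.locs {u : ℂ × ℂ → ℂ} (h : Lw sr u) : LocallyIntegrableOn u Om volume :=
  loc_of_w contDiff_sr.continuous sr_ne h

theorem lw_of_le {m : ℂ → ℂ} (hm : Continuous m) (hm0 : ∀ z, m z ≠ 0) {u : ℂ × ℂ → ℂ}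
    (hu : AEStronglyMeasurable u (volume.restrict Om)) {g : ℂ × ℂ → ℝ} (hg : IntegrableOn g Om)
    (h : ∀ p ∈ Om, ‖u p‖ ^ 2 ≤ ‖m p.1‖ ^ 2 * (16 * g p)) : Lw m u := by
  refine memLp_of_N2 (((hm.inv₀ hm0).comp continuous_fst).aestronglyMeasurable.mul hu)
    (ne_top_of_le_ne_top ENNReal.ofReal_ne_top (N2_le (hg.const_mul 16) fun p hp => ?_))
  have := norm_pos_iff.2 (hm0 p.1)
  rw [norm_mul, norm_inv, mul_pow, inv_pow, inv_mul_le_iff₀ (by positivity)]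
  exact h p hp

theorem fs_low2 (p : ℂ × ℂ) (a b : ℂ) : (1 + ‖p.1‖ ^ 2) * ‖b‖ ^ 2 ≤ fs p a b := by
  exact mul_le_mul (le_add_of_nonneg_right (sq_nonneg _))
    (by nlinarith [sq_nonneg ‖a‖, sq_nonneg ‖conj p.1 * a + conj p.2 * b‖]) (sq_nonneg _)
    (by positivity)

theorem norm_sr_sq (z : ℂ) : ‖sr z‖ ^ 2 = 1 + ‖z‖ ^ 2 := by
  rw [norm_sr, Real.sq_sqrt (by positivity)]

theorem W1.good {u : ℂ × ℂ → ℂ} (h : W1 u) : ∃ a b c d, Good u a b c d := by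
  obtain ⟨mu, a, b, c, d, ma, mb, mc, md, wa, wb, wc, wd, hi⟩ := h
  have sc := contDiff_sr.continuous
  have rc := contDiff_rho.continuous
  have key : ∀ p ∈ Om, ∀ x : ℝ, x ≤ 2 * (‖u p‖ ^ 2 + fs p (conj (a p)) (conj (c p)) +
      fs p (b p) (d p)) → x ≤ (1 + ‖p.1‖ ^ 2) ^ 3 * (16 * ((‖u p‖ ^ 2 +
        fs p (conj (a p)) (conj (c p)) + fs p (b p) (d p)) /
          (1 + ‖p.1‖ ^ 2 + ‖p.2‖ ^ 2) ^ 3)) := fun p hp x hx => by
    have h1 : ‖p.2‖ < 1 := hp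
    have h2 : (1 + ‖p.1‖ ^ 2 + ‖p.2‖ ^ 2) ^ 3 ≤ (2 * (1 + ‖p.1‖ ^ 2)) ^ 3 :=
      pow_le_pow_left₀ (by positivity) (by nlinarith [norm_nonneg p.2, sq_nonneg ‖p.1‖]) 3
    have h3 := fs_nonneg p (conj (a p)) (conj (c p))
    have h4 := fs_nonneg p (b p) (d p)
    refine hx.trans ?_
    rw [← mul_div_assoc, ← mul_div_assoc, le_div_iff₀ (by positivity)]
    nlinarith [mul_le_mul_of_nonneg_left h2 (show 0 ≤ ‖u p‖ ^ 2 +
      fs p (conj (a p)) (conj (c p)) + fs p (b p) (d p) by positivity)]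
  have k1 : ∀ x y : ℝ, ∀ z : ℂ, (1 + ‖z‖ ^ 2) ^ 2 * x ≤ (1 + ‖z‖ ^ 2) ^ 3 * y →
      x ≤ ‖sr z‖ ^ 2 * y := fun x y z h => by
    rw [norm_sr_sq]
    refine le_of_mul_le_mul_left (h.trans_eq (by ring)) (show 0 < (1 + ‖z‖ ^ 2) ^ 2 by positivity)
  have k2 : ∀ x y : ℝ, ∀ z : ℂ, (1 + ‖z‖ ^ 2) * x ≤ (1 + ‖z‖ ^ 2) ^ 3 * y →
      x ≤ ‖rho z‖ ^ 2 * y := fun x y z h => by
    rw [norm_rho]
    refine le_of_mul_le_mul_left (h.trans_eq (by ring)) (show 0 < 1 + ‖z‖ ^ 2 by positivity)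
  have la : Lw sr a := lw_of_le sc sr_ne ma hi fun p hp => k1 _ _ _ (key p hp _ (by
    have := (fs_low hp (conj (a p)) (conj (c p))).1
    rw [norm_mul, norm_rho, RCLike.norm_conj, mul_pow] at this
    linarith [fs_nonneg p (b p) (d p), sq_nonneg ‖u p‖]))
  have lb : Lw sr b := lw_of_le sc sr_ne mb hi fun p hp => k1 _ _ _ (key p hp _ (by
    have := (fs_low hp (b p) (d p)).1
    rw [norm_mul, norm_rho, mul_pow] at this
    linarith [fs_nonneg p (conj (a p)) (conj (c p)), sq_nonneg ‖u p‖]))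
  refine ⟨a, b, c, d, hardy wa wb (lw_of_le (m := fun z => rho z * sr z) (rc.mul sc)
    (fun z => mul_ne_zero (rho_ne z) (sr_ne z)) mu hi fun p hp => ?_) la lb, la, lb,
    lw_of_le rc rho_ne mc hi fun p hp => k2 _ _ _ (key p hp _ ?_),
    lw_of_le rc rho_ne md hi fun p hp => k2 _ _ _ (key p hp _ ?_), wa, wb, wc, wd⟩
  · rw [norm_mul, mul_pow, norm_sr_sq, norm_rho, ← pow_succ]
    exact key p hp _ (by
      linarith [fs_nonneg p (conj (a p)) (conj (c p)), fs_nonneg p (b p) (d p), sq_nonneg ‖u p‖])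
  · have := fs_low2 p (conj (a p)) (conj (c p))
    rw [RCLike.norm_conj] at this
    linarith [fs_nonneg p (conj (a p)) (conj (c p)), fs_nonneg p (b p) (d p), sq_nonneg ‖u p‖]
  · linarith [fs_low2 p (b p) (d p), fs_nonneg p (conj (a p)) (conj (c p)),
      fs_nonneg p (b p) (d p), sq_nonneg ‖u p‖]

theorem fs_up {p : ℂ × ℂ} (hp : p ∈ Om) (a b : ℂ) : fs p a b / (1 + ‖p.1‖ ^ 2 + ‖p.2‖ ^ 2) ^ 3 ≤
    3 * ‖(sr p.1)⁻¹ * a‖ ^ 2 + 3 * ‖(rho p.1)⁻¹ * b‖ ^ 2 := by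
  have h1 : ‖p.2‖ < 1 := hp
  have h2 : ‖conj p.1 * a + conj p.2 * b‖ ≤ ‖p.1‖ * ‖a‖ + ‖b‖ := by
    refine (norm_add_le _ _).trans ?_
    rw [norm_mul, norm_mul, RCLike.norm_conj, RCLike.norm_conj]
    nlinarith [norm_nonneg b]
  have h3 := pow_le_pow_left₀ (norm_nonneg _) h2 2
  rw [norm_mul, norm_mul, mul_pow, mul_pow, norm_inv, norm_inv, inv_pow, inv_pow, norm_sr_sq,
    norm_rho, fs]
  generalize ‖conj p.1 * a + conj p.2 * b‖ = e at *
  have h4 : ‖a‖ ^ 2 + ‖b‖ ^ 2 + e ^ 2 ≤ 3 * (1 + ‖p.1‖ ^ 2) * ‖a‖ ^ 2 + 3 * ‖b‖ ^ 2 := by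
    nlinarith [sq_nonneg (‖p.1‖ * ‖a‖ - ‖b‖), sq_nonneg ‖a‖, sq_nonneg (‖p.1‖ * ‖a‖)]
  calc _ = (‖a‖ ^ 2 + ‖b‖ ^ 2 + e ^ 2) / (1 + ‖p.1‖ ^ 2 + ‖p.2‖ ^ 2) ^ 2 := by field_simp
    _ ≤ (3 * (1 + ‖p.1‖ ^ 2) * ‖a‖ ^ 2 + 3 * ‖b‖ ^ 2) / (1 + ‖p.1‖ ^ 2) ^ 2 :=
        div_le_div₀ (by positivity) h4 (by positivity)
          (pow_le_pow_left₀ (by positivity) (le_add_of_nonneg_right (sq_nonneg _)) 2)
    _ = _ := by field_simp

theorem Good.w1 {u a b c d : ℂ × ℂ → ℂ} (h : Good u a b c d) : W1 u := by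
  obtain ⟨lu, la, lb, lc, ld, wa, wb, wc, wd⟩ := h
  have mu := lu.locr.aestronglyMeasurable
  have ma := la.locs.aestronglyMeasurable
  have mb := lb.locs.aestronglyMeasurable
  have mc := lc.locr.aestronglyMeasurable
  have md := ld.locr.aestronglyMeasurable
  have i := fun {F : ℂ × ℂ → ℂ} (h : MemLp F 2 (volume.restrict Om)) =>
    (memLp_two_iff_integrable_sq_norm h.1).1 h
  have c3 : Continuous fun p : ℂ × ℂ => ((1 + ‖p.1‖ ^ 2 + ‖p.2‖ ^ 2) ^ 3)⁻¹ :=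
    Continuous.inv₀ (by fun_prop) fun p => by positivity
  refine ⟨mu, a, b, c, d, ma, mb, mc, md, wa, wb, wc, wd, Integrable.mono'
    (((i lu).add (((i la).const_mul 3).add ((i lc).const_mul 3))).add
      (((i lb).const_mul 3).add ((i ld).const_mul 3))) ?_ ?_⟩
  · simp only [div_eq_mul_inv]
    exact (((mu.norm.pow 2).add (fs_meas ma.star mc.star)).add (fs_meas mb md)).mul
      c3.aestronglyMeasurable
  · filter_upwards [ae_restrict_mem isOpen_Om.measurableSet] with p hp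
    have h3 := fs_nonneg p (conj (a p)) (conj (c p))
    have h4 := fs_nonneg p (b p) (d p)
    rw [Real.norm_of_nonneg (by positivity), add_div, add_div]
    have h1 := fs_up hp (conj (a p)) (conj (c p))
    simp only [norm_mul, RCLike.norm_conj] at h1
    simp only [Pi.add_apply, norm_mul]
    refine add_le_add (add_le_add ?_ h1) (by simpa only [norm_mul] using fs_up hp (b p) (d p))
    rw [mul_pow, norm_inv, inv_pow, norm_rho, inv_mul_eq_div]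
    refine div_le_div_of_nonneg_left (sq_nonneg _) (by positivity) ?_
    calc _ ≤ (1 + ‖p.1‖ ^ 2) ^ 3 := pow_le_pow_right₀ (by nlinarith [sq_nonneg ‖p.1‖]) (by norm_num)
      _ ≤ _ := pow_le_pow_left₀ (by positivity) (le_add_of_nonneg_right (sq_nonneg _)) 3

theorem two_parts {h k : ℂ × ℂ → ℂ} (h1 : Lw rho h) (h2 : Lw rho k)
    (e : k =ᵐ[volume.restrict Om] fun p => conj p.1 * conj p.1 * h p) :
    MemLp h 2 (volume.restrict Om) := by
  refine (MemLp.add (MemLp.norm h1) (MemLp.norm h2)).of_le h1.locr.aestronglyMeasurable ?_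
  filter_upwards [e] with p hp
  simp only [Pi.add_apply, hp, norm_mul, norm_inv, norm_rho, RCLike.norm_conj]
  rw [Real.norm_of_nonneg (by positivity)]
  refine le_of_eq ?_
  field_simp

theorem Lw.mul_w {u : ℂ × ℂ → ℂ} (h : Lw rho u) : Lw rho fun p => conj p.2 * u p := by
  have := mem_bdd (β := fun p => conj p.2) (K := 1) (by fun_prop)
    (fun p hp => by rw [RCLike.norm_conj]; exact le_of_lt hp) h
  simpa only [Lw, mul_left_comm] using this

theorem Lw.sub {u v : ℂ × ℂ → ℂ} (h : Lw rho u) (h' : Lw rho v) :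
    Lw rho fun p => u p - v p := by
  simp only [Lw, mul_sub]
  exact MemLp.sub h h'

/-- What the four hypotheses give. -/
theorem W1Form.data {f1 f2 : ℂ × ℂ → ℂ} (h : W1Form f1 f2) : ∃ c g a : ℂ × ℂ → ℂ,
    MemLp f1 2 (volume.restrict Om) ∧ MemLp c 2 (volume.restrict Om) ∧
    MemLp g 2 (volume.restrict Om) ∧ Lw rho f2 ∧ Lw sr a ∧
    WD dw f1 c ∧ WD dwb f1 g ∧ WD dz f2 a := by
  obtain ⟨-, -, c, g, l1, -, -, lc, lg, -, -, wc, wg⟩ := h.1.good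
  obtain ⟨a, -, -, -, l2, la, -, -, -, wa, -⟩ := h.2.1.good
  obtain ⟨-, -, cG, dG, lG, -, -, lcG, ldG, -, -, wcG, wdG⟩ := h.2.2.1.good
  obtain ⟨-, -, cF, dF, lF, -, -, lcF, ldF, -, -, wcF, wdF⟩ := h.2.2.2.good
  have s1 : ContDiff ℝ ∞ fun z : ℂ => conj z * conj z := contDiff_conj.mul contDiff_conj
  have t1 : ContDiff ℝ ∞ fun p : ℂ × ℂ => conj p.1 * conj p.1 := s1.comp contDiff_fst
  have t2 : ContDiff ℝ ∞ fun p : ℂ × ℂ => conj p.2 := contDiff_conj.comp contDiff_snd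
  have eF : (fun p : ℂ × ℂ => conj p.1 * (conj p.1 * f1 p + conj p.2 * f2 p)) =
      fun p => conj p.1 * conj p.1 * f1 p + conj p.2 * (conj p.1 * f2 p) := by
    funext p
    ring
  rw [eF] at lF wcF wdF
  have key : ∀ (s : ℂ) (x y z : ℂ × ℂ → ℂ), Lw rho x → Lw rho y → Lw rho z →
      WD (wirt (0, 1) s) f1 x → WD (wirt (0, 1) s) (fun p => conj p.1 * f2 p) y →
      WD (wirt (0, 1) s) (fun p => conj p.1 * conj p.1 * f1 p + conj p.2 * (conj p.1 * f2 p)) z →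
      z =ᵐ[volume.restrict Om] fun p => conj p.1 * conj p.1 * x p +
        (conj p.2 * y p + w1 s (fun z => conj z) p.2 * (conj p.1 * f2 p)) := by
    intro s x y z lx ly lz wx wy wz
    have k1 := wx.mul l1.locr lx.locr t1
    have k2 := wy.mul lG.locr ly.locr t2
    simp only [(wirt_fst s1 _ _).2, zero_mul, add_zero] at k1
    simp only [(wirt_snd contDiff_conj _ _).1] at k2
    have q1 := loc_mul lx.locr t1.continuous
    have q2 := (loc_mul ly.locr t2.continuous).add (loc_mul lG.locr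
      ((cd_w1 contDiff_conj s).continuous.comp continuous_snd))
    exact wz.unique (k1.add k2 (loc_mul l1.locr t1.continuous) q1
      (loc_mul lG.locr t2.continuous) q2) lz.locr (q1.add q2)
  refine ⟨c, g, a, two_parts l1 (lF.sub lG.mul_w) (Eventually.of_forall fun p => by ring),
    two_parts lc (lcF.sub lcG.mul_w) ?_, two_parts lg ((ldF.sub ldG.mul_w).sub lG) ?_, l2, la,
    wc, wg, wa⟩
  · filter_upwards [key (-1) c cG cF lc lcG lcF wc wcG wcF] with p hp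
    rw [hp, (w1_conj _).2]
    ring
  · filter_upwards [key 1 g dG dF lg ldG ldF wg wdG wdF] with p hp
    rw [hp, (w1_conj _).1]
    ring

end

end Pool.Agent.Lib.MP_2de762_an
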