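import Pool.Agent.Lib.MP_2de762_an.H98Weak

/-! The inequality of Hardy at the singular point of the boundary. -/

namespace Pool.Agent.Lib.MP_2de762_an

open Set Metric MeasureTheory Filter Topology ComplexConjugate
open scoped ContDiff ENNReal

noncomputable section

/-- The square root of `1 + |z|^2`. -/
def sr (z : ℂ) : ℂ := (√(1 + ‖z‖ ^ 2) : ℝ)

theorem norm_sr (z : ℂ) : ‖sr z‖ = √(1 + ‖z‖ ^ 2) := by
  rw [sr, Complex.norm_real, Real.norm_of_nonneg (by positivity)]

theorem sr_ne (z : ℂ) : sr z ≠ 0 := by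
  rw [← norm_ne_zero_iff, norm_sr]
  positivity

theorem sr_sq (z : ℂ) : sr z * sr z = rho z := by
  rw [sr, rho_eq, ← Complex.ofReal_mul, Real.mul_self_sqrt (by positivity)]

theorem contDiff_sr : ContDiff ℝ ∞ sr :=
  Complex.ofRealCLM.contDiff.comp ((contDiff_const.add (contDiff_norm_sq ℂ)).sqrt
    fun z => by positivity)

theorem le_sr (z : ℂ) : ‖z‖ ≤ ‖sr z‖ ∧ 1 ≤ ‖sr z‖ := by
  rw [norm_sr]
  exact ⟨Real.le_sqrt_of_sq_le (by linarith), Real.le_sqrt_of_sq_le (by nlinarith [sq_nonneg ‖z‖])⟩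

theorem mem_bdd {β F : ℂ × ℂ → ℂ} (hβ : Continuous β) {K : ℝ} (hK : ∀ p ∈ Om, ‖β p‖ ≤ K)
    (hF : MemLp F 2 (volume.restrict Om)) : MemLp (fun p => β p * F p) 2 (volume.restrict Om) := by
  refine hF.of_le_mul (c := K) (hβ.aestronglyMeasurable.mul hF.1) ?_
  filter_upwards [ae_restrict_mem isOpen_Om.measurableSet] with p hp
  rw [norm_mul]
  exact mul_le_mul_of_nonneg_right (hK p hp) (norm_nonneg _)

theorem w1_mul {f g : ℂ → ℂ} (hf : ContDiff ℝ ∞ f) (hg : ContDiff ℝ ∞ g) (s x : ℂ) :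
    w1 s (fun x => f x * g x) x = f x * w1 s g x + g x * w1 s f x := by
  simp only [w1]
  rw [fderiv_fun_mul (hf.differentiable (by simp) x) (hg.differentiable (by simp) x)]
  simp only [add_apply, smul_apply, smul_eq_mul]
  ring

theorem euler (ψ : ℂ × ℂ → ℂ) (p : ℂ × ℂ) : fderiv ℝ ψ p (p.1, 0) =
    p.1 * wirt (1, 0) (-1) ψ p + conj p.1 * wirt (1, 0) 1 ψ p := by
  have h : ((p.1, 0) : ℂ × ℂ) = p.1.re • ((1, 0) : ℂ × ℂ) +
      p.1.im • (Complex.I • ((1, 0) : ℂ × ℂ)) := by
    simp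
  rw [h, map_add, map_smul, map_smul, wirt, wirt, Complex.real_smul, Complex.real_smul]
  have h1 : conj p.1 = p.1.re - p.1.im * Complex.I := by
    apply Complex.ext <;> simp
  rw [h1]
  linear_combination ((fderiv ℝ ψ p (1, 0) - Complex.I * fderiv ℝ ψ p
    (Complex.I • ((1, 0) : ℂ × ℂ))) / 2) * Complex.re_add_im p.1 +
    (p.1.im : ℂ) * fderiv ℝ ψ p (Complex.I • ((1, 0) : ℂ × ℂ)) * Complex.I_mul_I

theorem N2_scale {Φ : ℂ × ℂ → ℂ} (h : Continuous Φ) {t : ℝ} (ht : 0 < t) :
    N2 (fun p => Φ (t • p.1, p.2)) = ENNReal.ofReal (t ^ 2)⁻¹ * N2 Φ := by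
  rw [N2_fst (by fun_prop), N2_fst h, ← lintegral_const_mul' _ _ (by simp)]
  congr 1
  funext w
  have h1 := lintegral_map (μ := (volume : Measure ℂ)) (f := fun z => ‖Φ (z, w)‖ₑ ^ 2)
    (g := fun z => t • z) (Continuous.measurable (by fun_prop)) (by fun_prop)
  rw [Measure.map_addHaar_smul _ ht.ne', lintegral_smul_measure] at h1
  simp only [Complex.finrank_real_complex, abs_of_pos (show 0 < (t ^ 2)⁻¹ by positivity)] at h1
  exact h1.symm

theorem hardy_core {v H : ℂ × ℂ → ℂ} {η : ℂ → ℂ} (hv : LocallyIntegrableOn v Om volume)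
    (hη : Continuous η) (hη0 : ∀ z, ‖z‖ ≤ 1 → η z = 0) (hH0 : ∀ p, ‖p.1‖ < 1 → H p = 0)
    (hH : MemLp (fun p : ℂ × ℂ => (rho p.1)⁻¹ * H p) 2 (volume.restrict Om))
    (hP : ∀ ψ, IsTest ψ → ∫ p in Om, η p.1 * v p * (2 * ψ p + fderiv ℝ ψ p (p.1, 0)) =
      -∫ p in Om, H p * ψ p) {φ : ℂ × ℂ → ℂ} (hφ : IsTest φ) :
    ‖∫ p in Om, η p.1 * v p * φ p‖ₑ ^ 2 ≤
      N2 (fun p => (rho p.1)⁻¹ * H p) * 2 ^ 2 * N2 fun p => rho p.1 * φ p := by
  obtain ⟨S, r, hS, hr, h1, h2⟩ := hφ.bounds
  have hc := hφ.1.continuous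
  have hd := hφ.1.continuous_fderiv (by simp)
  have hv' := loc_mul hv (hη.comp continuous_fst)
  have ht : ∀ t : ℝ, 0 < t → IsTest fun p : ℂ × ℂ => φ (t • p.1, p.2) := fun t ht =>
    isTest_of_bounds (hφ.1.comp (by fun_prop)) (S := S / t) hr (fun p hp => h1 _ (by
      rw [norm_smul, Real.norm_of_nonneg ht.le]
      rwa [div_lt_iff₀' ht] at hp)) fun p hp => h2 _ hp
  set Y := N2 (fun p => (rho p.1)⁻¹ * H p) * 2 ^ 2 * N2 fun p => rho p.1 * φ p with hY
  have Yt : Y ≠ ⊤ := by
    have := N2_ne_top hH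
    have := N2_ne_top (hφ.mul (contDiff_rho.comp contDiff_fst)).memLp
    finiteness
  set G : ℝ → ℂ × ℂ → ℂ := fun t p => 2 * t * φ (t • p.1, p.2) +
    t ^ 2 * fderiv ℝ φ (t • p.1, p.2) (p.1, 0) with hG
  have Gc : Continuous fun q : ℝ × ℂ × ℂ => G q.1 q.2 := by
    simp only [hG]
    fun_prop
  set J : ℝ → ℂ := fun t => ∫ p in Om, η p.1 * v p * (t ^ 2 * φ (t • p.1, p.2)) with hJ
  have hK : IsCompact (closedBall (0 : ℂ) (2 * S) ×ˢ closedBall (0 : ℂ) r) :=
    (isCompact_closedBall _ _).prod (isCompact_closedBall _ _)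
  have hKO : closedBall (0 : ℂ) (2 * S) ×ˢ closedBall (0 : ℂ) r ⊆ Om := fun p hp =>
    lt_of_le_of_lt (by simpa using hp.2) hr
  have dJ : ∀ t : ℝ, 1 ≤ t → HasDerivAt J (∫ p in Om, η p.1 * v p * G t p) t := fun t ht1 => by
    obtain ⟨C, hC⟩ := ((isCompact_Icc (a := 1 / 2) (b := t + 1)).prod
      hK).exists_bound_of_continuousOn Gc.continuousOn
    have m1 := hv'.aestronglyMeasurable
    refine (hasDerivAt_integral_of_dominated_loc_of_deriv_le (s := Ioo (1 / 2) (t + 1)) (x₀ := t)
      (F := fun (t : ℝ) (p : ℂ × ℂ) => η p.1 * v p * (t ^ 2 * φ (t • p.1, p.2)))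
      (bound := fun p => (closedBall (0 : ℂ) (2 * S) ×ˢ closedBall (0 : ℂ) r).indicator
        (fun p => ‖η p.1 * v p‖ * C) p) (F' := fun t p => η p.1 * v p * G t p)
      (Ioo_mem_nhds (by linarith) (by linarith))
      (Eventually.of_forall fun x => m1.mul (Continuous.aestronglyMeasurable (by fun_prop)))
      (int_test hv' ((ht t (by linarith)).mul contDiff_const))
      (m1.mul (Continuous.aestronglyMeasurable (by fun_prop)))
      (Eventually.of_forall fun p x hx => ?_) ?_ (Eventually.of_forall fun p x _ => ?_)).2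
    · by_cases hp : p ∈ closedBall (0 : ℂ) (2 * S) ×ˢ closedBall (0 : ℂ) r
      · rw [indicator_of_mem hp, norm_mul]
        exact mul_le_mul_of_nonneg_left (hC (x, p) ⟨Ioo_subset_Icc_self hx, hp⟩) (norm_nonneg _)
      · have h3 : φ =ᶠ[𝓝 (x • p.1, p.2)] fun _ => 0 := by
          rcases not_and_or.1 hp with h | h
          · have h4 : S < ‖x • p.1‖ := by
              have h5 : 2 * S < ‖p.1‖ := by simpa using h
              rw [norm_smul, Real.norm_of_nonneg (by linarith [hx.1])]
              nlinarith [hx.1]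
            filter_upwards [(isOpen_lt continuous_const continuous_fst.norm).mem_nhds h4]
              with q hq using h1 q hq
          · filter_upwards [(isOpen_lt continuous_const continuous_snd.norm).mem_nhds
              (show r < ‖p.2‖ by simpa using h)] with q hq using h2 q hq
        rw [indicator_of_notMem hp]
        simp only [hG, h3.fderiv_eq, h3.self_of_nhds]
        simp
    · exact ((integrable_indicator_iff hK.measurableSet).2
        (((hv'.integrableOn_compact_subset hKO hK).norm.mul_const C).mono_measure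
          (Measure.restrict_mono le_rfl Measure.restrict_le_self)))
    · have d1 : HasDerivAt (fun t : ℝ => ((t • p.1, p.2) : ℂ × ℂ)) (p.1, 0) x := by
        simpa using ((hasDerivAt_id x).smul_const p.1).prodMk (hasDerivAt_const x p.2)
      have d2 := (hφ.1.differentiable (by simp) _).hasFDerivAt.comp_hasDerivAt x d1
      have d3 : HasDerivAt (fun t : ℝ => (t : ℂ) ^ 2) (2 * x) x := by
        have := (Complex.ofRealCLM.hasDerivAt (x := x)).fun_pow 2
        simpa using this
      exact (d3.mul d2).const_mul _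
  have bJ : ∀ t : ℝ, 1 ≤ t → ‖∫ p in Om, η p.1 * v p * G t p‖ ≤ √Y.toReal * (t ^ 2)⁻¹ := by
    intro t ht1
    have t0 : 0 < t := by linarith
    have e1 : ∀ p : ℂ × ℂ, η p.1 * v p * G t p = t * (η p.1 * v p * (2 * φ (t • p.1, p.2) +
        fderiv ℝ (fun p : ℂ × ℂ => φ (t • p.1, p.2)) p (p.1, 0))) := fun p => by
      have d1 : HasFDerivAt (fun p : ℂ × ℂ => ((t • p.1, p.2) : ℂ × ℂ))
          ((t • ContinuousLinearMap.fst ℝ ℂ ℂ).prod (ContinuousLinearMap.snd ℝ ℂ ℂ)) p :=
        (hasFDerivAt_fst.const_smul t).prodMk hasFDerivAt_snd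
      have d2 := ((hφ.1.differentiable (by simp) _).hasFDerivAt.comp p d1).fderiv
      have d3 : fderiv ℝ (fun p : ℂ × ℂ => φ (t • p.1, p.2)) p (p.1, 0) =
          t * fderiv ℝ φ (t • p.1, p.2) (p.1, 0) := by
        refine (congrArg (fun L => L (p.1, 0)) d2).trans ?_
        rw [← Complex.real_smul, ← map_smul]
        simp
      rw [d3, hG]
      ring
    simp only [e1]
    rw [integral_const_mul, hP _ (ht t t0)]
    set A : Set (ℂ × ℂ) := {p | 1 ≤ ‖p.1‖} with hA
    have mA : MeasurableSet A := (isClosed_le continuous_const (by fun_prop)).measurableSet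
    have rc := contDiff_rho.continuous
    have e2 : (fun p => H p * φ (t • p.1, p.2)) = fun p => (rho p.1)⁻¹ * H p *
        A.indicator (fun p => rho p.1 * φ (t • p.1, p.2)) p := by
      funext p
      by_cases hp : p ∈ A
      · have := rho_ne p.1
        rw [indicator_of_mem hp]
        field_simp
      · rw [hH0 p (by simpa [hA] using hp)]
        simp
    have b1 : N2 (A.indicator fun p => rho p.1 * φ (t • p.1, p.2)) ≤
        ENNReal.ofReal (2 / t ^ 2) ^ 2 * N2 fun p => rho (t • p.1) * φ (t • p.1, p.2) := by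
      rw [N2, N2, ← lintegral_const_mul' _ _ (by finiteness)]
      refine lintegral_mono fun p => ?_
      rw [← mul_pow]
      refine pow_le_pow_left' ?_ 2
      by_cases hp : p ∈ A
      · rw [indicator_of_mem hp, ← ofReal_norm, ← ofReal_norm,
          ← ENNReal.ofReal_mul (by positivity), norm_mul, norm_mul, norm_rho, norm_rho, norm_smul,
          Real.norm_of_nonneg t0.le, ← mul_assoc]
        refine ENNReal.ofReal_le_ofReal (mul_le_mul_of_nonneg_right ?_ (norm_nonneg _))
        have h3 : 1 ≤ ‖p.1‖ := hp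
        rw [div_mul_eq_mul_div, le_div_iff₀ (by positivity)]
        nlinarith [mul_le_mul_of_nonneg_right (one_le_pow₀ h3 (n := 2)) (sq_nonneg t)]
      · simp [indicator_of_notMem hp]
    rw [N2_scale (Φ := fun p => rho p.1 * φ p) (by fun_prop) t0] at b1
    have b2 := (pair_le hH.1 (Continuous.aestronglyMeasurable (f := fun p : ℂ × ℂ =>
      rho p.1 * φ (t • p.1, p.2)) (by fun_prop) |>.indicator mA)).trans (mul_le_mul_right b1 _)
    rw [← e2] at b2
    have e3 : ENNReal.ofReal (2 / t ^ 2) ^ 2 * ENNReal.ofReal (t ^ 2)⁻¹ =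
        2 ^ 2 * ENNReal.ofReal ((t ^ 3)⁻¹ ^ 2) := by
      rw [← ENNReal.ofReal_ofNat 2, ← ENNReal.ofReal_pow (by positivity),
        ← ENNReal.ofReal_pow (by positivity), ← ENNReal.ofReal_mul (by positivity),
        ← ENNReal.ofReal_mul (by positivity)]
      congr 1
      field_simp
    have b3 : ‖∫ p in Om, H p * φ (t • p.1, p.2)‖ₑ ^ 2 ≤ Y * ENNReal.ofReal ((t ^ 3)⁻¹ ^ 2) := by
      refine b2.trans_eq ?_
      rw [← mul_assoc (_ ^ 2), e3, hY]
      ring
    have b4 := ENNReal.toReal_mono (by finiteness) b3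
    rw [ENNReal.toReal_pow, toReal_enorm, ENNReal.toReal_mul,
      ENNReal.toReal_ofReal (by positivity)] at b4
    have b5 := Real.le_sqrt_of_sq_le b4
    rw [Real.sqrt_mul ENNReal.toReal_nonneg, Real.sqrt_sq (by positivity)] at b5
    rw [norm_mul, norm_neg, Complex.norm_real, Real.norm_of_nonneg t0.le]
    refine (mul_le_mul_of_nonneg_left b5 t0.le).trans_eq ?_
    field_simp
  have hT : (1 : ℝ) ≤ S + 1 := by linarith
  have m := image_norm_le_of_norm_deriv_right_le_deriv_boundary' (a := 1) (b := S + 1)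
    (f := fun t => J t - J 1) (B := fun t => √Y.toReal * (1 - t⁻¹))
    (B' := fun t => √Y.toReal * (t ^ 2)⁻¹)
    (fun t ht => ((dJ t ht.1).sub_const _).continuousAt.continuousWithinAt)
    (fun t ht => ((dJ t ht.1).sub_const _).hasDerivWithinAt) (by simp)
    (continuousOn_const.mul (continuousOn_const.sub (continuousOn_id.inv₀
      fun t ht => (lt_of_lt_of_le one_pos ht.1).ne')))
    (fun t ht => by
      simpa using (((hasDerivAt_inv (lt_of_lt_of_le one_pos ht.1).ne').const_sub 1).const_mul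
        √Y.toReal).hasDerivWithinAt) (fun t ht => bJ t ht.1) ⟨hT, le_rfl⟩
  have J0 : J (S + 1) = 0 := by
    refine integral_eq_zero_of_ae (Eventually.of_forall fun p => ?_)
    rcases le_or_gt ‖p.1‖ 1 with h | h
    · simp [hη0 _ h]
    · have h4 : φ ((S + 1) • p.1, p.2) = 0 := h1 _ (by
        rw [norm_smul, Real.norm_of_nonneg (by linarith)]
        nlinarith)
      simp only [h4, mul_zero, Pi.zero_apply]
  have J1 : J 1 = ∫ p in Om, η p.1 * v p * φ p := by simp [hJ]
  simp only [J0, J1, zero_sub, norm_neg] at m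
  have m2 : ‖∫ p in Om, η p.1 * v p * φ p‖ ≤ √Y.toReal :=
    m.trans (mul_le_of_le_one_right (by positivity) (sub_le_self _ (by positivity)))
  rw [← ENNReal.ofReal_toReal Yt, ← ofReal_norm, ← ENNReal.ofReal_pow (norm_nonneg _)]
  exact ENNReal.ofReal_le_ofReal ((Real.le_sqrt (norm_nonneg _) ENNReal.toReal_nonneg).1 m2)

theorem hardy {v a b : ℂ × ℂ → ℂ} (ha : WD dz v a) (hb : WD dzb v b)
    (h0 : MemLp (fun p : ℂ × ℂ => (rho p.1 * sr p.1)⁻¹ * v p) 2 (volume.restrict Om))
    (h1 : MemLp (fun p : ℂ × ℂ => (sr p.1)⁻¹ * a p) 2 (volume.restrict Om))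
    (h2 : MemLp (fun p : ℂ × ℂ => (sr p.1)⁻¹ * b p) 2 (volume.restrict Om)) :
    MemLp (fun p : ℂ × ℂ => (rho p.1)⁻¹ * v p) 2 (volume.restrict Om) := by
  obtain ⟨χ, B, -, hχ⟩ := exists_cut
  obtain ⟨c1, c2, c3, c4, -, c5, c6⟩ := hχ 1 one_pos
  have sc := contDiff_sr.continuous
  have rc := contDiff_rho.continuous
  have lv := loc_of_w (m := fun z => rho z * sr z) (rc.mul sc)
    (fun z => mul_ne_zero (rho_ne z) (sr_ne z)) h0
  have la := loc_of_w sc sr_ne h1
  have lb := loc_of_w sc sr_ne h2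
  set η : ℂ → ℂ := fun z => 1 - χ 1 z with hη
  have ηs : ContDiff ℝ ∞ η := contDiff_const.sub c1
  have ηc := ηs.continuous
  have η0 : ∀ z, ‖z‖ ≤ 1 → η z = 0 := fun z hz => by simp [hη, c3 z hz]
  have ηb : ∀ z, ‖η z‖ ≤ 2 := fun z => (norm_sub_le _ _).trans (by
    rw [norm_one]
    linarith [c2 z])
  have ηd : ∀ s z, w1 s η z = -w1 s (χ 1) z := fun s z => by
    simp only [w1, hη, fderiv_const_sub, neg_apply]
    ring
  set E : ℂ → ℂ := fun z => z * w1 (-1) η z + conj z * w1 1 η z with hE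
  have Ec : Continuous E := by
    have := (cd_w1 ηs (-1)).continuous
    have := (cd_w1 ηs 1).continuous
    simp only [hE]
    fun_prop
  have Ez : ∀ z, fderiv ℝ (χ 1) z = 0 → E z = 0 := fun z hz => by
    simp only [hE, ηd]
    simp [w1, hz]
  have bd : ∀ f : ℂ → ℂ, Continuous f → (∀ z, 2 * 1 < ‖z‖ → f z = 0) →
      MemLp (fun p : ℂ × ℂ => (rho p.1)⁻¹ * (f p.1 * v p)) 2 (volume.restrict Om) :=
    fun f hf hf0 => by
      obtain ⟨K, hK⟩ := (sc.mul hf).bounded_above_of_compact_support (HasCompactSupport.intro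
        (isCompact_closedBall (0 : ℂ) (2 * 1)) fun z hz => by simp [hf0 z (by simpa using hz)])
      convert mem_bdd (β := fun p => sr p.1 * f p.1) (by fun_prop) (fun p _ => hK p.1) h0
        using 2 with p
      have := sr_ne p.1
      have := rho_ne p.1
      field_simp
  have bz : ∀ (f : ℂ → ℂ) (a : ℂ × ℂ → ℂ), Continuous f → (∀ z, ‖f z‖ = ‖z‖) →
      MemLp (fun p : ℂ × ℂ => (sr p.1)⁻¹ * a p) 2 (volume.restrict Om) →
      MemLp (fun p : ℂ × ℂ => (rho p.1)⁻¹ * (η p.1 * f p.1 * a p)) 2 (volume.restrict Om) :=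
    fun f a hf hn ha => by
      convert mem_bdd (β := fun p => η p.1 * (f p.1 * (sr p.1)⁻¹)) (K := 2 * 1)
        ((ηc.comp continuous_fst).mul ((hf.mul (sc.inv₀ sr_ne)).comp continuous_fst))
        (fun p _ => ?_) ha using 2 with p
      · rw [← sr_sq]
        have := sr_ne p.1
        field_simp
      · rw [norm_mul, norm_mul, norm_inv, hn]
        exact mul_le_mul (ηb _) (mul_inv_le_one_of_le₀ (le_sr _).1 (norm_nonneg _))
          (by positivity) zero_le_two
  have hH : MemLp (fun p : ℂ × ℂ => (rho p.1)⁻¹ * (η p.1 * p.1 * a p + η p.1 * conj p.1 * b p +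
      E p.1 * v p)) 2 (volume.restrict Om) := by
    simp only [mul_add]
    exact ((bz (fun z => z) a continuous_id (fun _ => rfl) h1).add (bz (fun z => conj z) b
      (by fun_prop) (fun z => RCLike.norm_conj z) h2)).add (bd E Ec fun z hz => Ez z (c6 z hz))
  have lv' := loc_mul lv (ηc.comp continuous_fst)
  obtain ⟨u, hu, hu2⟩ := rieszw (L := fun φ => ∫ p in Om, η p.1 * v p * φ p)
    (ENNReal.mul_ne_top (N2_ne_top hH) (by finiteness)) contDiff_rho rho_ne
    (fun φ ψ hφ hψ => by
      simp only [Pi.add_apply, mul_add]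
      exact integral_add (int_test lv' hφ) (int_test lv' hψ))
    (fun c φ _ => by
      rw [← integral_const_mul]
      congr 1
      funext p
      simp only [Pi.smul_apply, smul_eq_mul]
      ring)
    (fun φ hφ => hardy_core lv ηc η0 (fun p hp => by
      simp [η0 _ hp.le, Ez _ (c5 _ hp)]) hH (fun ψ hψ => by
        have s1 : ContDiff ℝ ∞ fun z : ℂ => η z * z := ηs.mul contDiff_id
        have s2 : ContDiff ℝ ∞ fun z : ℂ => η z * conj z := ηs.mul contDiff_conj
        have k1 := WD.mul ha lv la (s1.comp contDiff_fst) ψ hψ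
        have k2 := WD.mul hb lv lb (s2.comp contDiff_fst) ψ hψ
        have q1 := s1.continuous.comp (continuous_fst (X := ℂ) (Y := ℂ))
        have q2 := s2.continuous.comp (continuous_fst (X := ℂ) (Y := ℂ))
        have i0 := (int_test lv' hψ).const_mul 2
        have i1 := int_test (loc_mul lv q1) (hψ.wirt (1, 0) (-1))
        have i2 := int_test (loc_mul lv q2) (hψ.wirt (1, 0) 1)
        have j1 := int_test ((loc_mul la q1).add (loc_mul lv
          (contDiff_wirt (s1.comp contDiff_fst) (1, 0) (-1)).continuous)) hψ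
        have j2 := int_test ((loc_mul lb q2).add (loc_mul lv
          (contDiff_wirt (s2.comp contDiff_fst) (1, 0) 1).continuous)) hψ
        have k3 := congrArg₂ (· + ·) k1 k2
        simp only [Function.comp_def, Pi.add_apply] at k3 i0 i1 i2 j1 j2
        rw [← neg_add, ← integral_add i1 i2, ← integral_add j1 j2] at k3
        have k4 := (integral_add (i1.add i2) i0).trans
          ((congrArg (· + ∫ p in Om, 2 * (η p.1 * v p * ψ p)) k3).trans
            ((neg_add_eq_sub _ _).trans (integral_sub i0 (j1.add j2)).symm))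
        simp only [Pi.add_apply] at k4
        rw [← integral_neg]
        refine Eq.trans ?_ (k4.trans ?_)
        · congr 1
          funext p
          rw [euler]
          ring
        · congr 1
          funext p
          rw [(wirt_fst s1 _ _).1, (wirt_fst s2 _ _).1, w1_mul (g := fun z => z) ηs contDiff_id,
            w1_mul ηs contDiff_conj, (w1_conj _).1, w1_id, hE]
          ring) hφ)
  have e : (fun p : ℂ × ℂ => η p.1 * v p) =ᵐ[volume.restrict Om] u :=
    ae_eq_of_tests lv' (loc_of_w rc rho_ne hu) fun φ hφ => (hu2 φ hφ).symm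
  refine ((bd (χ 1) c1.continuous c4).add hu).ae_eq ?_
  filter_upwards [e] with p hp
  simp only [Pi.add_apply, ← hp, hη]
  ring

end

end Pool.Agent.Lib.MP_2de762_an
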