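import Pool.Agent.Lib.MP_2de762_an.H98CT

/-! Square integrable functions on the domain: slices, the test of Schur, the theorem of Riesz. -/

namespace Pool.Agent.Lib.MP_2de762_an

open Set Metric MeasureTheory Filter Topology ComplexConjugate
open scoped ContDiff ENNReal

noncomputable section

/-- The squared norm. -/
def N2 (F : ℂ × ℂ → ℂ) : ℝ≥0∞ := ∫⁻ p in Om, ‖F p‖ₑ ^ 2

theorem Om_eq : Om = (univ : Set ℂ) ×ˢ ball (0 : ℂ) 1 := by
  ext p
  simp [Om]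

theorem isOpen_Om : IsOpen Om := by
  rw [Om_eq]
  exact isOpen_univ.prod isOpen_ball

theorem mu_eq : (volume : Measure (ℂ × ℂ)).restrict Om =
    (volume : Measure ℂ).prod (volume.restrict (ball (0 : ℂ) 1)) := by
  rw [Om_eq, Measure.volume_eq_prod, ← Measure.prod_restrict, Measure.restrict_univ]

theorem eLp_sq (F : ℂ × ℂ → ℂ) : eLpNorm F 2 (volume.restrict Om) ^ 2 = N2 F := by
  rw [eLpNorm_eq_lintegral_rpow_enorm_toReal two_ne_zero ENNReal.ofNat_ne_top,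
    ← ENNReal.rpow_natCast, ← ENNReal.rpow_mul]
  simp [N2]

theorem memLp_of_N2 {F : ℂ × ℂ → ℂ} (h : AEStronglyMeasurable F (volume.restrict Om))
    (h2 : N2 F ≠ ⊤) : MemLp F 2 (volume.restrict Om) := by
  refine ⟨h, lt_top_iff_ne_top.2 fun h3 => h2 ?_⟩
  rw [← eLp_sq, h3]
  simp

theorem N2_ne_top {F : ℂ × ℂ → ℂ} (h : MemLp F 2 (volume.restrict Om)) : N2 F ≠ ⊤ := by
  rw [← eLp_sq]
  exact ENNReal.pow_ne_top h.2.ne

theorem cs {α : Type*} [MeasurableSpace α] (μ : Measure α) {f g : α → ℝ≥0∞}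
    (hf : AEMeasurable f μ) (hg : AEMeasurable g μ) :
    (∫⁻ a, f a * g a ∂μ) ^ 2 ≤ (∫⁻ a, f a ^ 2 ∂μ) * ∫⁻ a, g a ^ 2 ∂μ := by
  have h := ENNReal.lintegral_mul_le_Lp_mul_Lq μ Real.HolderConjugate.two_two hf hg
  refine (pow_le_pow_left' h 2).trans_eq ?_
  rw [mul_pow, ← ENNReal.rpow_natCast, ← ENNReal.rpow_natCast, ← ENNReal.rpow_mul,
    ← ENNReal.rpow_mul]
  simp

/-- The modulus of the kernel. -/
def ka (ξ : ℂ) : ℝ≥0∞ := ENNReal.ofReal ‖ξ‖⁻¹

/-- The weight `(1 + |z|^2)^(-1/2)`. -/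
def sw (z : ℂ) : ℝ≥0∞ := ENNReal.ofReal (√(1 + ‖z‖ ^ 2))⁻¹

@[fun_prop] theorem measurable_ka : Measurable ka := by
  unfold ka
  fun_prop

@[fun_prop] theorem measurable_sw : Measurable sw := by
  unfold sw
  fun_prop

theorem sw_sq (z : ℂ) : sw z ^ 2 = ENNReal.ofReal (1 + ‖z‖ ^ 2)⁻¹ := by
  rw [sw, ← ENNReal.ofReal_pow (by positivity), inv_pow, Real.sq_sqrt (by positivity)]

theorem young3 {x y : ℝ} (hx : 1 ≤ x) (hy : 0 ≤ y) :
    x⁻¹ * (1 + y ^ 2)⁻¹ ≤ 4 * (1 + x) ^ (-(3 : ℝ)) + 4 * (1 + y) ^ (-(3 : ℝ)) := by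
  have e : ∀ t : ℝ, 0 ≤ t → (1 + t) ^ (-(3 : ℝ)) = (1 + t)⁻¹ ^ 3 := fun t ht => by
    rw [Real.rpow_neg (by positivity), inv_pow]
    norm_cast
  rw [e x (by positivity), e y hy]
  have h1 : x⁻¹ ≤ 2 * (1 + x)⁻¹ := by
    rw [← div_eq_mul_inv, inv_eq_one_div, div_le_div_iff₀ (by positivity) (by positivity)]
    linarith
  have h2 : (1 + y ^ 2)⁻¹ ≤ 2 * (1 + y)⁻¹ ^ 2 := by
    rw [inv_pow, ← div_eq_mul_inv, inv_eq_one_div, div_le_div_iff₀ (by positivity) (by positivity)]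
    nlinarith [sq_nonneg (y - 1)]
  have ha : 0 ≤ (1 + x)⁻¹ := by positivity
  have hc : 0 ≤ (1 + y)⁻¹ := by positivity
  generalize (1 + x)⁻¹ = a at *
  generalize (1 + y)⁻¹ = c at *
  have h3 : a * c ^ 2 ≤ a ^ 3 + c ^ 3 := by
    rcases le_total a c with h | h
    · nlinarith [mul_le_mul_of_nonneg_right h (sq_nonneg c), pow_nonneg ha 3]
    · nlinarith [mul_le_mul_of_nonneg_left (pow_le_pow_left₀ hc h 2) ha, pow_nonneg hc 3]
  calc _ ≤ (2 * a) * (2 * c ^ 2) := mul_le_mul h1 h2 (by positivity) (by positivity)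
    _ ≤ _ := by nlinarith

theorem kernel_bound : ∃ M : ℝ≥0∞, M ≠ ⊤ ∧ ∀ z : ℂ, ∫⁻ ζ, ka (z - ζ) * sw ζ ^ 2 ≤ M := by
  set j : ℂ → ℝ≥0∞ := fun x => ENNReal.ofReal ((1 + ‖x‖) ^ (-(3 : ℝ))) with hj
  have hJ : ∫⁻ x, j x < ⊤ := finite_integral_one_add_norm (by simp; norm_num)
  have mj : Measurable j := by
    rw [hj]
    fun_prop
  refine ⟨ENNReal.ofReal (2 * Real.pi * 1) + (4 * (∫⁻ x, j x) + 4 * ∫⁻ x, j x), by finiteness,
    fun z => ?_⟩
  calc _ ≤ ∫⁻ ζ, ((ball z 1).indicator (fun ζ => ENNReal.ofReal ‖ζ - z‖⁻¹) ζ +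
        (4 * j (z - ζ) + 4 * j ζ)) := by
        refine lintegral_mono fun ζ => ?_
        rw [sw_sq, ka, ← ENNReal.ofReal_mul (by positivity)]
        by_cases h : ζ ∈ ball z 1
        · rw [indicator_of_mem h, norm_sub_rev]
          refine le_trans (ENNReal.ofReal_le_ofReal ?_) le_self_add
          exact mul_le_of_le_one_right (by positivity)
            (inv_le_one_of_one_le₀ (by nlinarith [sq_nonneg ‖ζ‖]))
        · rw [indicator_of_notMem h, zero_add]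
          rw [mem_ball, dist_eq_norm, not_lt, norm_sub_rev] at h
          refine (ENNReal.ofReal_le_ofReal (young3 h (norm_nonneg ζ))).trans_eq ?_
          rw [ENNReal.ofReal_add (by positivity) (by positivity),
            ENNReal.ofReal_mul (by norm_num), ENNReal.ofReal_mul (by norm_num)]
          simp [hj]
    _ = (∫⁻ ζ in ball z 1, ENNReal.ofReal ‖ζ - z‖⁻¹) + (4 * (∫⁻ x, j x) + 4 * ∫⁻ x, j x) := by
        rw [lintegral_add_right _ (by fun_prop), lintegral_add_right _ (by fun_prop),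
          lintegral_const_mul _ (by fun_prop), lintegral_const_mul _ mj,
          lintegral_indicator measurableSet_ball, lintegral_sub_left_eq_self j z]
    _ ≤ _ := add_le_add_left (lintegral_inv_ball z one_pos) _

/-- The test of Schur for the kernel `1 / (|z - ζ| sqrt (1 + |z|^2) sqrt (1 + |ζ|^2))`. -/
theorem schur : ∃ M : ℝ≥0∞, M ≠ ⊤ ∧ ∀ G : ℂ → ℝ≥0∞, Measurable G →
    ∫⁻ z, (sw z * ∫⁻ ζ, ka (z - ζ) * (sw ζ * G ζ)) ^ 2 ≤ M * ∫⁻ ζ, G ζ ^ 2 := by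
  obtain ⟨M, hM, hK⟩ := kernel_bound
  refine ⟨M * M, by finiteness, fun G hG => ?_⟩
  set r : ℂ → ℝ≥0∞ := fun ξ => ENNReal.ofReal √(‖ξ‖⁻¹) with hr
  have mr : Measurable r := by
    rw [hr]
    fun_prop
  have r2 : ∀ ξ, r ξ ^ 2 = ka ξ := fun ξ => by
    rw [hr, ← ENNReal.ofReal_pow (by positivity), Real.sq_sqrt (by positivity), ka]
  have h1 : ∀ z, (∫⁻ ζ, ka (z - ζ) * (sw ζ * G ζ)) ^ 2 ≤ M * ∫⁻ ζ, ka (z - ζ) * G ζ ^ 2 := by
    intro z
    have h2 := cs volume (f := fun ζ => r (z - ζ) * sw ζ) (g := fun ζ => r (z - ζ) * G ζ)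
      (by fun_prop) (by fun_prop)
    simp only [mul_pow, r2] at h2
    refine le_trans (le_of_eq ?_) (h2.trans (mul_le_mul_left (hK z) _))
    congr 2
    funext ζ
    rw [← r2]
    ring
  calc _ ≤ ∫⁻ z, M * ∫⁻ ζ, ka (ζ - z) * sw z ^ 2 * G ζ ^ 2 := by
        refine lintegral_mono fun z => ?_
        rw [mul_pow]
        refine (mul_le_mul_right (h1 z) _).trans_eq ?_
        rw [mul_left_comm, ← lintegral_const_mul (sw z ^ 2) (by fun_prop)]
        congr 2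
        funext ζ
        rw [ka, ka, norm_sub_rev]
        ring
    _ = M * ∫⁻ ζ, (∫⁻ z, ka (ζ - z) * sw z ^ 2) * G ζ ^ 2 := by
        rw [lintegral_const_mul' _ _ hM, lintegral_lintegral_swap (by
          refine Measurable.aemeasurable ?_
          show Measurable fun q : ℂ × ℂ => ka (q.2 - q.1) * sw q.1 ^ 2 * G q.2 ^ 2
          fun_prop)]
        congr 2
        funext ζ
        rw [lintegral_mul_const _ (by fun_prop)]
    _ ≤ M * ∫⁻ ζ, M * G ζ ^ 2 := by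
        gcongr with ζ
        exact hK ζ
    _ = _ := by rw [lintegral_const_mul' _ _ hM, mul_assoc]

theorem N2_fst {F : ℂ × ℂ → ℂ} (hF : Continuous F) :
    N2 F = ∫⁻ w in ball (0 : ℂ) 1, ∫⁻ z, ‖F (z, w)‖ₑ ^ 2 := by
  rw [N2, mu_eq, lintegral_prod_symm _ (by fun_prop)]

theorem N2_snd {F : ℂ × ℂ → ℂ} (hF : Continuous F) :
    N2 F = ∫⁻ z, ∫⁻ w in ball (0 : ℂ) 1, ‖F (z, w)‖ₑ ^ 2 := by
  rw [N2, mu_eq, lintegral_prod _ (by fun_prop)]

theorem schur_fst : ∃ M : ℝ≥0∞, M ≠ ⊤ ∧ ∀ F φ : ℂ × ℂ → ℂ, Continuous F → Continuous φ →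
    (∀ z w, ‖F (z, w)‖ₑ ≤ sw z * ∫⁻ ζ, ka (z - ζ) * (sw ζ * ‖φ (ζ, w)‖ₑ)) →
    N2 F ≤ M * N2 φ := by
  obtain ⟨M, hM, h⟩ := schur
  refine ⟨M, hM, fun F φ hF hφ hb => ?_⟩
  rw [N2_fst hF, N2_fst hφ, ← lintegral_const_mul' _ _ hM]
  refine lintegral_mono fun w => le_trans (lintegral_mono fun z => ?_)
    (h _ (Continuous.measurable (f := fun z => ‖φ (z, w)‖ₑ) (by fun_prop)))
  exact pow_le_pow_left' (hb z w) 2

theorem IsTest.memLp {φ : ℂ × ℂ → ℂ} (h : IsTest φ) : MemLp φ 2 (volume.restrict Om) :=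
  (h.1.continuous.memLp_of_hasCompactSupport h.2.1).restrict _

theorem IsTest.add {φ ψ : ℂ × ℂ → ℂ} (h : IsTest φ) (h' : IsTest ψ) : IsTest (φ + ψ) :=
  ⟨h.1.add h'.1, h.2.1.add h'.2.1, (tsupport_add φ ψ).trans (union_subset h.2.2 h'.2.2)⟩

theorem IsTest.mul {φ β : ℂ × ℂ → ℂ} (h : IsTest φ) (hβ : ContDiff ℝ ∞ β) :
    IsTest fun p => β p * φ p :=
  ⟨hβ.mul h.1, h.2.1.mul_left, (tsupport_mul_subset_right).trans h.2.2⟩

theorem IsTest.smul {φ : ℂ × ℂ → ℂ} (h : IsTest φ) (c : ℂ) : IsTest (c • φ) :=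
  h.mul (β := fun _ => c) contDiff_const

/-- The space of test functions. -/
def Dsp : Submodule ℂ (ℂ × ℂ → ℂ) where
  carrier := {φ | IsTest φ}
  add_mem' := IsTest.add
  zero_mem' := ⟨contDiff_const, HasCompactSupport.zero, by simp⟩
  smul_mem' := fun c _ h => h.smul c

/-- The transpose of an operator that is bounded on test functions. -/
theorem riesz {T : (ℂ × ℂ → ℂ) → ℂ × ℂ → ℂ} {C : ℝ≥0∞} (hC : C ≠ ⊤)
    (hadd : ∀ φ ψ, IsTest φ → IsTest ψ → T (φ + ψ) = T φ + T ψ)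
    (hsmul : ∀ (c : ℂ) φ, IsTest φ → T (c • φ) = c • T φ)
    (hm : ∀ φ, IsTest φ → Continuous (T φ)) (hb : ∀ φ, IsTest φ → N2 (T φ) ≤ C * N2 φ)
    {a : ℂ × ℂ → ℂ} (ha : MemLp a 2 (volume.restrict Om)) :
    ∃ u, MemLp u 2 (volume.restrict Om) ∧ N2 u ≤ C * N2 a ∧
      ∀ φ, IsTest φ → ∫ p in Om, u p * φ p = ∫ p in Om, a p * T φ p := by
  set μ := (volume : Measure (ℂ × ℂ)).restrict Om with hμ
  have hT : ∀ φ, IsTest φ → MemLp (T φ) 2 μ := fun φ h =>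
    memLp_of_N2 (hm φ h).aestronglyMeasurable
      (ne_top_of_le_ne_top (ENNReal.mul_ne_top hC (N2_ne_top h.memLp)) (hb φ h))
  let ι : Dsp →ₗ[ℂ] Lp ℂ 2 μ :=
    { toFun := fun φ => (IsTest.memLp φ.2).toLp φ.1
      map_add' := fun φ ψ => MemLp.toLp_add (IsTest.memLp φ.2) (IsTest.memLp ψ.2)
      map_smul' := fun c φ => MemLp.toLp_const_smul c (IsTest.memLp φ.2) }
  let Λ : Dsp →ₗ[ℂ] ℂ :=
    { toFun := fun φ => ∫ p, a p * T φ.1 p ∂μ
      map_add' := fun φ ψ => by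
        simp only [Submodule.coe_add, hadd _ _ φ.2 ψ.2, Pi.add_apply, mul_add]
        exact integral_add (ha.integrable_mul (hT _ φ.2)) (ha.integrable_mul (hT _ ψ.2))
      map_smul' := fun c φ => by
        simp only [Submodule.coe_smul, hsmul _ _ φ.2, Pi.smul_apply, smul_eq_mul, RingHom.id_apply]
        rw [← integral_const_mul]
        congr 1
        funext p
        ring }
  set c : ℝ≥0∞ := C ^ (1 / 2 : ℝ) with hc
  have c2 : c ^ 2 = C := by
    rw [hc, ← ENNReal.rpow_natCast, ← ENNReal.rpow_mul]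
    simp
  have ct : c ≠ ⊤ := ENNReal.rpow_ne_top_of_nonneg (by norm_num) hC
  have at' := ha.2.ne
  set K : ℝ≥0∞ := c * eLpNorm a 2 μ with hK
  have Kt : K ≠ ⊤ := ENNReal.mul_ne_top ct at'
  have hΛ : ∀ φ : Dsp, ‖Λ φ‖ ≤ K.toReal * ‖ι φ‖ := fun φ => by
    have h1 : eLpNorm (T φ.1) 2 μ ≤ c * eLpNorm φ.1 2 μ := by
      rw [← ENNReal.pow_le_pow_left_iff two_ne_zero, mul_pow, c2, eLp_sq, eLp_sq]
      exact hb _ φ.2
    have h2 : ‖Λ φ‖ₑ ≤ K * eLpNorm φ.1 2 μ := by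
      refine (enorm_integral_le_lintegral_enorm _).trans ?_
      rw [← eLpNorm_one_eq_lintegral_enorm]
      refine (eLpNorm_smul_le_mul_eLpNorm (p := 2) (q := 2) (r := 1) (hT _ φ.2).1 ha.1).trans ?_
      refine (mul_le_mul_right h1 _).trans_eq ?_
      rw [hK]
      ring
    have h3 := ENNReal.toReal_mono (ENNReal.mul_ne_top Kt (IsTest.memLp φ.2).2.ne) h2
    rw [toReal_enorm, ENNReal.toReal_mul] at h3
    have h4 : ‖ι φ‖ = (eLpNorm φ.1 2 μ).toReal := Lp.norm_toLp _ (IsTest.memLp φ.2)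
    rw [h4]
    exact h3
  have hker : LinearMap.ker ι ≤ LinearMap.ker Λ := fun φ h => by
    have := hΛ φ
    rw [LinearMap.mem_ker.1 h, norm_zero, mul_zero] at this
    exact norm_le_zero_iff.1 this
  let Λ0 : LinearMap.range ι →ₗ[ℂ] ℂ :=
    (LinearMap.ker ι).liftQ Λ hker ∘ₗ ι.quotKerEquivRange.symm.toLinearMap
  have hΛ0 : ∀ φ : Dsp, Λ0 ⟨ι φ, φ, rfl⟩ = Λ φ := fun φ => by
    exact congrArg ((LinearMap.ker ι).liftQ Λ hker)
      (ι.quotKerEquivRange_symm_apply_image φ ⟨φ, rfl⟩)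
  have hΛ1 : ∀ x : LinearMap.range ι, ‖Λ0 x‖ ≤ K.toReal * ‖x‖ := by
    rintro ⟨_, φ, rfl⟩
    rw [hΛ0]
    exact hΛ φ
  obtain ⟨g, hg, hn⟩ := exists_extension_norm_eq (LinearMap.range ι) (Λ0.mkContinuous _ hΛ1)
  set U := (InnerProductSpace.toDual ℂ (Lp ℂ 2 μ)).symm g with hU
  have hU1 : ‖U‖ ≤ K.toReal := by
    rw [hU, LinearIsometryEquiv.norm_map, hn]
    exact LinearMap.mkContinuous_norm_le _ ENNReal.toReal_nonneg _
  have hU2 : eLpNorm U 2 μ ≤ K := by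
    rw [Lp.norm_def] at hU1
    exact (ENNReal.toReal_le_toReal (Lp.eLpNorm_ne_top U) Kt).1 hU1
  refine ⟨fun p => conj (U p), (Lp.memLp U).star, ?_, fun φ hφ => ?_⟩
  · have h1 : N2 (fun p => conj (U p)) = N2 U := by
      simp only [N2, ← ofReal_norm, RCLike.norm_conj]
    rw [h1, ← eLp_sq, ← eLp_sq, ← c2, ← mul_pow]
    exact pow_le_pow_left' hU2 2
  · have h1 : inner ℂ U (ι ⟨φ, hφ⟩) = Λ ⟨φ, hφ⟩ := by
      rw [hU, InnerProductSpace.toDual_symm_apply, ← hΛ0]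
      exact hg ⟨ι ⟨φ, hφ⟩, ⟨φ, hφ⟩, rfl⟩
    refine Eq.trans ?_ h1
    rw [L2.inner_def]
    refine integral_congr_ae ?_
    filter_upwards [MemLp.coeFn_toLp (IsTest.memLp hφ)] with p hp
    have h2 : (ι ⟨φ, hφ⟩ : ℂ × ℂ → ℂ) p = φ p := hp
    rw [h2, RCLike.inner_apply, mul_comm]

/-- Two square integrable functions with the same pairings agree. -/
theorem ae_eq_of_tests {u v : ℂ × ℂ → ℂ} (hu : LocallyIntegrableOn u Om volume)
    (hv : LocallyIntegrableOn v Om volume)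
    (h : ∀ φ, IsTest φ → ∫ p in Om, u p * φ p = ∫ p in Om, v p * φ p) :
    u =ᵐ[volume.restrict Om] v := by
  have h1 := isOpen_Om.ae_eq_zero_of_integral_contDiff_smul_eq_zero (hu.sub hv)
    fun g h1 h2 h3 => by
      have hφ : IsTest fun p => (g p : ℂ) :=
        ⟨Complex.ofRealCLM.contDiff.comp h1, h2.comp_left (g := fun x : ℝ => (x : ℂ)) rfl,
          (tsupport_comp_subset (g := fun x : ℝ => (x : ℂ)) rfl g).trans h3⟩
      have i : ∀ {f : ℂ × ℂ → ℂ}, LocallyIntegrableOn f Om volume →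
          IntegrableOn (fun p => f p * (g p : ℂ)) Om := fun {f} hf => by
        have h4 : IntegrableOn (fun p => f p * (g p : ℂ)) (tsupport g) :=
          (hf.integrableOn_compact_subset h3 h2).mul_continuousOn
            hφ.1.continuous.continuousOn h2
        exact h4.of_forall_sdiff_eq_zero isOpen_Om.measurableSet fun p hp => by
          simp [image_eq_zero_of_notMem_tsupport hp.2]
      rw [← setIntegral_eq_integral_of_forall_compl_eq_zero (s := Om) fun p hp => by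
        simp [image_eq_zero_of_notMem_tsupport fun h => hp (h3 h)]]
      have h5 := h _ hφ
      rw [← sub_eq_zero, ← integral_sub (i hu) (i hv)] at h5
      rw [← h5]
      congr 1
      funext p
      simp only [Pi.sub_apply, Complex.real_smul]
      ring
  rw [EventuallyEq, ae_restrict_iff' isOpen_Om.measurableSet]
  filter_upwards [h1] with p hp hq
  exact sub_eq_zero.1 (hp hq)

theorem locInt_of_memLp {u : ℂ × ℂ → ℂ} (hu : MemLp u 2 (volume.restrict Om)) :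
    LocallyIntegrableOn u Om volume := by
  refine (locallyIntegrableOn_iff isOpen_Om.isLocallyClosed).2 fun k hk hc => ?_
  have h1 : MemLp u 2 (volume.restrict k) := hu.mono_measure (Measure.restrict_mono hk le_rfl)
  have : IsFiniteMeasure ((volume : Measure (ℂ × ℂ)).restrict k) :=
    isFiniteMeasure_restrict.2 hc.measure_lt_top.ne
  exact h1.integrable one_le_two

end

end Pool.Agent.Lib.MP_2de762_an
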