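import Pool.Agent.Lib.MP_2de762_an.H98Defs

/-! Weak derivatives and the Sobolev space of order one (metric and volume of Fubini and Study) on
an open set of an affine chart of the complex projective plane, and a domain foliated by cubic
curves. -/

namespace Pool.Agent.Lib.MP_2de762_an

open MeasureTheory ComplexConjugate
open scoped ContDiff

noncomputable section

/-- The domain `|y^2 - x^3| < 1` in the affine chart with coordinates `(x, y)`. -/
def Cu : Set (ℂ × ℂ) := {p | ‖p.2 ^ 2 - p.1 ^ 3‖ < 1}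

/-- Smooth functions with compact support inside `U`. -/
def IsTestOn (U : Set (ℂ × ℂ)) (φ : ℂ × ℂ → ℂ) : Prop :=
  ContDiff ℝ ∞ φ ∧ HasCompactSupport φ ∧ tsupport φ ⊆ U

/-- `D u = a` in the sense of distributions on `U`. -/
def WDOn (U : Set (ℂ × ℂ)) (D : (ℂ × ℂ → ℂ) → ℂ × ℂ → ℂ) (u a : ℂ × ℂ → ℂ) : Prop :=
  ∀ φ, IsTestOn U φ → ∫ p in U, u p * D φ p = -∫ p in U, a p * φ p

/-- The function `u` and its differential `a dx + c dy + b d(conj x) + d d(conj y)`, taken in the
sense of distributions on `U`, are square integrable on `U` for the metric and the volume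
`dV / (1 + |x|^2 + |y|^2)^3` of Fubini and Study. -/
def W1On (U : Set (ℂ × ℂ)) (u : ℂ × ℂ → ℂ) : Prop :=
  AEStronglyMeasurable u (volume.restrict U) ∧ ∃ a b c d : ℂ × ℂ → ℂ,
    AEStronglyMeasurable a (volume.restrict U) ∧ AEStronglyMeasurable b (volume.restrict U) ∧
    AEStronglyMeasurable c (volume.restrict U) ∧ AEStronglyMeasurable d (volume.restrict U) ∧
    WDOn U dz u a ∧ WDOn U dzb u b ∧ WDOn U dw u c ∧ WDOn U dwb u d ∧
    IntegrableOn (fun p => (‖u p‖ ^ 2 + fs p (conj (a p)) (conj (c p)) + fs p (b p) (d p)) /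
      (1 + ‖p.1‖ ^ 2 + ‖p.2‖ ^ 2) ^ 3) U

end

end Pool.Agent.Lib.MP_2de762_an
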