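import Pool.Agent.Lib.MP_2de762_an.H98Hardy
import Pool.Agent.Lib.MP_2de762_an.H98NegDefs

/-! The domain foliated by cubic curves: test functions and the estimate at infinity. -/

namespace Pool.Agent.Lib.MP_2de762_an

open Set Metric MeasureTheory Filter Topology ComplexConjugate
open scoped ContDiff ENNReal

noncomputable section

/-- The parameter of the pencil. -/
def lam (p : ℂ × ℂ) : ℂ := p.2 ^ 2 - p.1 ^ 3

/-- The weight as a complex number. -/
def sg (p : ℂ × ℂ) : ℂ := ((1 + ‖p.1‖ ^ 2 + ‖p.2‖ ^ 2 : ℝ) : ℂ)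

/-- Test functions on the disc of parameters. -/
def T1 (ν : ℂ → ℂ) : Prop := ContDiff ℝ ∞ ν ∧ ∃ r : ℝ, r < 1 ∧ ∀ q, r < ‖q‖ → ν q = 0

/-- Test functions on the plane. -/
def T0 (θ : ℂ → ℂ) : Prop := ContDiff ℝ ∞ θ ∧ ∃ S : ℝ, ∀ q, S < ‖q‖ → θ q = 0

theorem contDiff_lam : ContDiff ℝ ∞ lam := by
  unfold lam
  fun_prop

theorem isOpen_Cu : IsOpen Cu := isOpen_lt contDiff_lam.continuous.norm continuous_const

theorem norm_sg (p : ℂ × ℂ) : ‖sg p‖ = 1 + ‖p.1‖ ^ 2 + ‖p.2‖ ^ 2 := by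
  rw [sg, Complex.norm_real, Real.norm_of_nonneg (by positivity)]

theorem sg_ne (p : ℂ × ℂ) : sg p ≠ 0 := by
  rw [← norm_ne_zero_iff, norm_sg]
  positivity

theorem continuous_sg : Continuous sg := by
  unfold sg
  fun_prop

theorem w1_zero {ν : ℂ → ℂ} {r : ℝ} (h : ∀ q, r < ‖q‖ → ν q = 0) (s : ℂ) :
    ∀ q, r < ‖q‖ → w1 s ν q = 0 := by
  intro q hq
  have h1 : ν =ᶠ[𝓝 q] fun _ => 0 := by
    filter_upwards [(isOpen_lt continuous_const continuous_norm).mem_nhds hq] with y hy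
      using h y hy
  simp [w1, h1.fderiv_eq]

theorem T1.w1 {ν : ℂ → ℂ} (h : T1 ν) (s : ℂ) : T1 (w1 s ν) := by
  obtain ⟨h1, r, hr, h2⟩ := h
  exact ⟨cd_w1 h1 s, r, hr, w1_zero h2 s⟩

theorem T1.mul {ν : ℂ → ℂ} (h : T1 ν) : T1 fun q => q * ν q := by
  obtain ⟨h1, r, hr, h2⟩ := h
  exact ⟨contDiff_id.mul h1, r, hr, fun q hq => by simp [h2 q hq]⟩

theorem T0.w1 {ν : ℂ → ℂ} (h : T0 ν) (s : ℂ) : T0 (w1 s ν) := by
  obtain ⟨h1, r, h2⟩ := h
  exact ⟨cd_w1 h1 s, r, w1_zero h2 s⟩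

theorem T0.mul {ν β : ℂ → ℂ} (h : T0 ν) (hβ : ContDiff ℝ ∞ β) : T0 fun q => β q * ν q := by
  obtain ⟨h1, r, h2⟩ := h
  exact ⟨hβ.mul h1, r, fun q hq => by simp [h2 q hq]⟩

theorem sq_le_of_lam {p : ℂ × ℂ} (h : ‖lam p‖ ≤ 1) : ‖p.2‖ ^ 2 ≤ ‖p.1‖ ^ 3 + 1 := by
  have h1 := norm_add_le (p.1 ^ 3) (lam p)
  rw [lam, add_sub_cancel, norm_pow, norm_pow] at h1
  exact h1.trans (add_le_add_right h _)

theorem isTest_cu {β : ℂ × ℂ → ℂ} {θ ν : ℂ → ℂ} (hβ : ContDiff ℝ ∞ β) (hθ : T0 θ) (hν : T1 ν) :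
    IsTestOn Cu fun p => β p * (θ p.1 * ν (lam p)) := by
  obtain ⟨h1, S, hS⟩ := hθ
  obtain ⟨h2, r, hr, h3⟩ := hν
  have lc := contDiff_lam.continuous
  have hK : IsCompact {p : ℂ × ℂ | ‖p.1‖ ≤ S ∧ ‖lam p‖ ≤ r} := by
    refine ((isCompact_closedBall (0 : ℂ) S).prod
      (isCompact_closedBall (0 : ℂ) (S ^ 3 + 2))).of_isClosed_subset
      ((isClosed_le continuous_fst.norm continuous_const).and
        (isClosed_le lc.norm continuous_const)) fun p hp => ⟨by simpa using hp.1, ?_⟩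
    have h4 := sq_le_of_lam (hp.2.trans hr.le)
    have h5 := pow_le_pow_left₀ (norm_nonneg _) hp.1 3
    rw [mem_closedBall, dist_zero_right]
    nlinarith [sq_nonneg (‖p.2‖ - 1), pow_nonneg (norm_nonneg p.1) 3]
  have h4 : Function.support (fun p : ℂ × ℂ => β p * (θ p.1 * ν (lam p))) ⊆
      {p : ℂ × ℂ | ‖p.1‖ ≤ S ∧ ‖lam p‖ ≤ r} := fun p hp =>
    ⟨not_lt.1 fun h => hp (by simp [hS _ h]), not_lt.1 fun h => hp (by simp [h3 _ h])⟩
  have h5 := closure_minimal h4 hK.isClosed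
  exact ⟨hβ.mul ((h1.comp contDiff_fst).mul (h2.comp contDiff_lam)),
    hK.of_isClosed_subset isClosed_closure h5, fun p hp => lt_of_le_of_lt (h5 hp).2 hr⟩

theorem int_cu {u β : ℂ × ℂ → ℂ} {θ ν : ℂ → ℂ} (hu : LocallyIntegrableOn u Cu volume)
    (hβ : ContDiff ℝ ∞ β) (hθ : T0 θ) (hν : T1 ν) :
    IntegrableOn (fun p => u p * (β p * (θ p.1 * ν (lam p)))) Cu := by
  have hφ := isTest_cu hβ hθ hν
  exact ((hu.integrableOn_compact_subset hφ.2.2 hφ.2.1).mul_continuousOn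
    hφ.1.continuous.continuousOn hφ.2.1).of_forall_sdiff_eq_zero isOpen_Cu.measurableSet
    fun p hp => by rw [image_eq_zero_of_notMem_tsupport hp.2, mul_zero]

theorem euler1 (ν : ℂ → ℂ) (q ζ : ℂ) : fderiv ℝ ν q ζ = ζ * w1 (-1) ν q + conj ζ * w1 1 ν q := by
  have h : ζ = ζ.re • (1 : ℂ) + ζ.im • Complex.I := by simp
  have h1 : conj ζ = ζ.re - ζ.im * Complex.I := by
    apply Complex.ext <;> simp
  rw [h1, w1, w1]
  conv_lhs => rw [h, map_add, map_smul, map_smul, Complex.real_smul, Complex.real_smul]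
  linear_combination ((fderiv ℝ ν q 1 - Complex.I * fderiv ℝ ν q Complex.I) / 2) *
    Complex.re_add_im ζ + (ζ.im : ℂ) * fderiv ℝ ν q Complex.I * Complex.I_mul_I

theorem wirt_lam {ν : ℂ → ℂ} (hν : ContDiff ℝ ∞ ν) (p v : ℂ × ℂ) :
    wirt v (-1) (fun q => ν (lam q)) p =
        (2 * p.2 * v.2 - 3 * p.1 ^ 2 * v.1) * w1 (-1) ν (lam p) ∧
      wirt v 1 (fun q => ν (lam q)) p =
        conj (2 * p.2 * v.2 - 3 * p.1 ^ 2 * v.1) * w1 1 ν (lam p) := by
  have h1 : HasFDerivAt lam _ p :=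
    ((hasFDerivAt_snd (𝕜 := ℝ) (p := p)).pow 2).sub ((hasFDerivAt_fst (𝕜 := ℝ) (p := p)).pow 3)
  have h2 : ∀ u : ℂ × ℂ, fderiv ℝ (fun q => ν (lam q)) p u =
      fderiv ℝ ν (lam p) (2 * p.2 * u.2 - 3 * p.1 ^ 2 * u.1) := fun u => by
    refine (congrArg (fun L => L u)
      ((hν.differentiable (by simp) (lam p)).hasFDerivAt.comp p h1).fderiv).trans ?_
    simp
  simp only [wirt, h2, euler1 ν (lam p), Prod.smul_fst, Prod.smul_snd, smul_eq_mul, map_sub,
    map_mul, Complex.conj_I, map_ofNat, map_pow]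
  constructor
  · linear_combination (-((2 * p.2 * v.2 - 3 * p.1 ^ 2 * v.1) * w1 (-1) ν (lam p)) / 2 +
      (2 * conj p.2 * conj v.2 - 3 * conj p.1 ^ 2 * conj v.1) * w1 1 ν (lam p) / 2) *
      Complex.I_mul_I
  · linear_combination (((2 * p.2 * v.2 - 3 * p.1 ^ 2 * v.1) * w1 (-1) ν (lam p)) / 2 -
      (2 * conj p.2 * conj v.2 - 3 * conj p.1 ^ 2 * conj v.1) * w1 1 ν (lam p) / 2) *
      Complex.I_mul_I

theorem slice_area {x : ℂ} (hx : 1 ≤ ‖x‖) :
    ∫⁻ y, Cu.indicator (fun p => ‖p.2‖ₑ ^ 2) (x, y) ≤ 4 * NNReal.pi := by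
  obtain ⟨d, hd⟩ := IsAlgClosed.exists_eq_mul_self (x ^ 3)
  have h1 : ‖d‖ * ‖d‖ = ‖x‖ ^ 3 := by rw [← norm_mul, ← hd, norm_pow]
  have h2 : 1 ≤ ‖x‖ ^ 3 := one_le_pow₀ hx
  have d0 : 0 < ‖d‖ := by
    by_contra h
    nlinarith [norm_nonneg d]
  calc _ ≤ ∫⁻ y, (ball d ‖d‖⁻¹ ∪ ball (-d) ‖d‖⁻¹).indicator
        (fun _ => ENNReal.ofReal (2 * ‖d‖ ^ 2)) y := by
        refine lintegral_mono fun y => ?_
        by_cases hy : (x, y) ∈ Cu
        · have h3 : ‖y - d‖ * ‖y + d‖ < 1 := by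
            have h4 : ‖y ^ 2 - x ^ 3‖ < 1 := hy
            rwa [hd, ← sq, sq_sub_sq, norm_mul, mul_comm] at h4
          have h4 : 2 * ‖d‖ ≤ ‖y + d‖ + ‖y - d‖ := by
            have := norm_sub_le (y + d) (y - d)
            rwa [show y + d - (y - d) = 2 * d by ring, norm_mul, Complex.norm_two] at this
          rw [indicator_of_mem hy, indicator_of_mem, ← ofReal_norm,
            ← ENNReal.ofReal_pow (norm_nonneg _)]
          · refine ENNReal.ofReal_le_ofReal ?_
            have := sq_le_of_lam (p := (x, y)) (le_of_lt hy)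
            nlinarith
          · simp only [mem_union, mem_ball, dist_eq_norm, sub_neg_eq_add, ← one_div,
              lt_div_iff₀ d0]
            rcases le_total ‖y - d‖ ‖y + d‖ with h | h
            · left
              nlinarith [norm_nonneg (y - d)]
            · right
              nlinarith [norm_nonneg (y + d)]
        · simp [indicator_of_notMem hy]
    _ ≤ ENNReal.ofReal (2 * ‖d‖ ^ 2) * (volume (ball d ‖d‖⁻¹) + volume (ball (-d) ‖d‖⁻¹)) := by
        rw [lintegral_indicator (measurableSet_ball.union measurableSet_ball), setLIntegral_const]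
        exact mul_le_mul_right (measure_union_le _ _) _
    _ = _ := by
        rw [Complex.volume_ball, Complex.volume_ball, ← two_mul, ← mul_assoc, ← mul_assoc,
          ← ENNReal.ofReal_pow (by positivity), ← ENNReal.ofReal_ofNat 2,
          ← ENNReal.ofReal_mul (by positivity), ← ENNReal.ofReal_mul (by positivity),
          ← ENNReal.ofReal_ofNat 4]
        congr 2
        field_simp
        norm_num

/-- Pairings with functions concentrated on the rings `n + 1 ≤ |x| ≤ 2 (n + 1)` tend to zero. -/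
theorem tail_cu {F : ℂ × ℂ → ℂ} (hF : MemLp F 2 (volume.restrict Cu)) {G : ℕ → ℂ × ℂ → ℂ}
    (hG : ∀ n, Continuous (G n)) {K : ℝ} (K0 : 0 ≤ K)
    (h1 : ∀ (n : ℕ) p, ‖p.1‖ < n + 1 ∨ 2 * (n + 1) < ‖p.1‖ → G n p = 0)
    (h2 : ∀ (n : ℕ), ∀ p ∈ Cu, n + 1 ≤ ‖p.1‖ → ‖G n p‖ ≤ K / (n + 1) * ‖p.2‖) :
    Tendsto (fun n => ∫ p in Cu, F p * G n p) atTop (𝓝 0) := by
  have hR : ∀ n : ℕ, (0 : ℝ) < n + 1 := fun n => by positivity
  have mU := isOpen_Cu.measurableSet
  have EN : ∀ n, ∫⁻ p in Cu, ‖G n p‖ₑ ^ 2 ≤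
      ENNReal.ofReal (2 * K) ^ 2 * NNReal.pi * (4 * NNReal.pi) := fun n => by
    have mG := (hG n).enorm.measurable.pow_const 2
    rw [← lintegral_indicator mU, Measure.volume_eq_prod,
      lintegral_prod _ (mG.indicator mU).aemeasurable]
    calc _ ≤ ∫⁻ x, (closedBall (0 : ℂ) (2 * (n + 1))).indicator
          (fun _ => ENNReal.ofReal (K / (n + 1)) ^ 2 * (4 * NNReal.pi)) x := by
          refine lintegral_mono fun x => ?_
          by_cases hx : ‖x‖ < n + 1 ∨ 2 * (n + 1) < ‖x‖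
          · have : ∀ y, Cu.indicator (fun p => ‖G n p‖ₑ ^ 2) (x, y) = 0 := fun y => by
              simp [indicator, h1 n (x, y) hx]
            simp [this]
          · rw [not_or, not_lt, not_lt] at hx
            rw [indicator_of_mem (by simpa using hx.2)]
            refine le_trans ?_ (mul_le_mul_right (slice_area (x := x)
              (by linarith [hx.1, n.cast_nonneg (α := ℝ)])) _)
            rw [← lintegral_const_mul' _ _ (by finiteness)]
            refine lintegral_mono fun y => ?_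
            by_cases hy : (x, y) ∈ Cu
            · rw [indicator_of_mem hy, indicator_of_mem hy, ← mul_pow, ← ofReal_norm, ← ofReal_norm,
                ← ENNReal.ofReal_mul (by positivity)]
              exact pow_le_pow_left' (ENNReal.ofReal_le_ofReal (h2 n _ hy hx.1)) 2
            · simp [indicator_of_notMem hy]
      _ = _ := by
          rw [lintegral_indicator measurableSet_closedBall, setLIntegral_const,
            Complex.volume_closedBall, mul_right_comm, ← mul_assoc (_ ^ 2), ← mul_pow,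
            ← ENNReal.ofReal_mul (by positivity)]
          congr 4
          field_simp
  have Ef : ENNReal.ofReal (2 * K) ^ 2 * NNReal.pi * (4 * NNReal.pi) ≠ ⊤ := by finiteness
  set A : ℕ → Set (ℂ × ℂ) := fun n => {p | (n : ℝ) + 1 ≤ ‖p.1‖} with hA
  have mA : ∀ n, MeasurableSet (A n) := fun n =>
    (isClosed_le continuous_const (by fun_prop)).measurableSet
  have Ft : ∫⁻ p in Cu, ‖F p‖ₑ ^ 2 ≠ ⊤ := by
    simpa using (lintegral_rpow_enorm_lt_top_of_eLpNorm_lt_top two_ne_zero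
      ENNReal.ofNat_ne_top hF.2).ne
  have t1 : Tendsto (fun n => ∫⁻ p in Cu, ‖(A n).indicator F p‖ₑ ^ 2) atTop (𝓝 0) := by
    simpa using tendsto_lintegral_of_dominated_convergence' (μ := volume.restrict Cu)
      (F := fun n p => ‖(A n).indicator F p‖ₑ ^ 2) (f := fun _ => 0) (fun p => ‖F p‖ₑ ^ 2)
      (fun n => (hF.1.indicator (mA n)).enorm.pow_const 2)
      (fun n => Eventually.of_forall fun p =>
        pow_le_pow_left' (enorm_indicator_le_enorm_self _ _) 2) Ft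
      (Eventually.of_forall fun p => tendsto_const_nhds.congr' (by
        filter_upwards [tendsto_natCast_atTop_atTop.eventually_ge_atTop ‖p.1‖] with n hn
        rw [indicator_of_notMem (by simp only [hA, mem_ofPred_eq]; linarith)]
        simp))
  have t2 := ENNReal.Tendsto.mul_const t1 (Or.inr Ef)
  rw [zero_mul] at t2
  have t3 : Tendsto (fun n => ‖∫ p in Cu, F p * G n p‖ₑ ^ 2) atTop (𝓝 0) := by
    refine tendsto_of_tendsto_of_tendsto_of_le_of_le tendsto_const_nhds t2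
      (fun _ => zero_le) fun n => ?_
    have h3 : (fun p => F p * G n p) = fun p => (A n).indicator F p * G n p := by
      funext p
      by_cases hp : p ∈ A n
      · rw [indicator_of_mem hp]
      · rw [h1 n p (Or.inl (by simpa [hA] using hp)), mul_zero, mul_zero]
    simp only [h3]
    refine (pow_le_pow_left' (enorm_integral_le_lintegral_enorm _) 2).trans ?_
    simp only [enorm_mul]
    exact (cs _ (hF.1.indicator (mA n)).enorm (hG n).aestronglyMeasurable.enorm).trans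
      (mul_le_mul_right (EN n) _)
  rw [tendsto_zero_iff_norm_tendsto_zero]
  simpa [Function.comp_def] using ((ENNReal.tendsto_toReal ENNReal.zero_ne_top).comp t3).sqrt

end

end Pool.Agent.Lib.MP_2de762_an
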