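import Pool.Agent.Lib.MP_2de762_an.H98NegA

/-! The domain foliated by cubic curves: there is no solution in the Sobolev space of order one. -/

namespace Pool.Agent.Lib.MP_2de762_an

open Set Metric MeasureTheory Filter Topology ComplexConjugate
open scoped ContDiff ENNReal

noncomputable section

/-- The pairing that reads off the coefficients of the odd part at infinity. -/
def pr (u : ℂ × ℂ → ℂ) (θ ν : ℂ → ℂ) : ℂ := ∫ p in Cu, u p * (conj p.2 * (θ p.1 * ν (lam p)))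

theorem cd1 : ContDiff ℝ ∞ fun p : ℂ × ℂ => conj p.1 := contDiff_conj.comp contDiff_fst

theorem cd2 : ContDiff ℝ ∞ fun p : ℂ × ℂ => conj p.2 := contDiff_conj.comp contDiff_snd

theorem w1_id' (x : ℂ) : w1 1 (fun z => z) x = 0 := by
  simp [w1]

theorem wirt3 {β : ℂ × ℂ → ℂ} {θ ν : ℂ → ℂ} (hβ : ContDiff ℝ ∞ β) (hθ : ContDiff ℝ ∞ θ)
    (hν : ContDiff ℝ ∞ ν) (v : ℂ × ℂ) (s : ℂ) (p : ℂ × ℂ) :
    wirt v s (fun p => β p * (θ p.1 * ν (lam p))) p =
      β p * (θ p.1 * wirt v s (fun q => ν (lam q)) p + ν (lam p) * wirt v s (fun q => θ q.1) p) +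
        θ p.1 * ν (lam p) * wirt v s β p := by
  have h1 : ContDiff ℝ ∞ fun q : ℂ × ℂ => θ q.1 := hθ.comp contDiff_fst
  have h2 : ContDiff ℝ ∞ fun q : ℂ × ℂ => ν (lam q) := hν.comp contDiff_lam
  rw [wirt_mul hβ (h1.mul h2), wirt_mul h1 h2]

/-- The tangential equation. -/
theorem pr_bar {u f : ℂ × ℂ → ℂ} (lu : LocallyIntegrableOn u Cu volume) (h1 : WDOn Cu dzb u f)
    (h2 : WDOn Cu dwb u fun _ => 0) {θ ν : ℂ → ℂ} (hθ : T0 θ) (hν : T1 ν) :
    pr u (w1 1 θ) ν = -pr f θ ν := by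
  have s : ContDiff ℝ ∞ fun z : ℂ => conj z * conj z := contDiff_conj.mul contDiff_conj
  have k1 := h1 _ (isTest_cu cd2 hθ hν)
  have k2 := h2 _ (isTest_cu (cd1.mul cd1) hθ hν)
  simp only [dzb, wirt3 cd2 hθ.1 hν.1, (wirt_lam hν.1 _ _).2, (wirt_fst hθ.1 _ _).1,
    (wirt_snd contDiff_conj _ _).2] at k1
  simp only [dwb, wirt3 (cd1.mul cd1) hθ.1 hν.1, (wirt_lam hν.1 _ _).2, (wirt_fst hθ.1 _ _).2,
    (wirt_fst s _ _).2, zero_mul, integral_zero, neg_zero] at k2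
  have i1 := int_cu lu cd2 (hθ.w1 1) hν
  have i2 := int_cu lu ((cd1.mul cd1).mul cd2) hθ (hν.w1 1)
  have e1 : ∫ p in Cu, u p * (conj p.1 * conj p.1 * conj p.2 * (θ p.1 * w1 1 ν (lam p))) = 0 := by
    rw [← mul_zero (1 / 2 : ℂ), ← k2, ← integral_const_mul]
    congr 1
    funext p
    simp only [map_sub, map_mul, map_pow, map_ofNat, map_one, map_zero]
    ring
  have e2 := integral_sub i1 (i2.const_mul 3)
  rw [integral_const_mul, e1, mul_zero, sub_zero] at e2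
  rw [pr, pr, ← k1, ← e2]
  congr 1
  funext p
  simp only [map_sub, map_mul, map_pow, map_ofNat, map_one, map_zero]
  ring

/-- The equation along the radial field. -/
theorem pr_euler {u a c : ℂ × ℂ → ℂ} (lu : LocallyIntegrableOn u Cu volume)
    (la : LocallyIntegrableOn a Cu volume) (lc : LocallyIntegrableOn c Cu volume)
    (h1 : WDOn Cu dz u a) (h2 : WDOn Cu dw u c) {θ ν : ℂ → ℂ} (hθ : T0 θ) (hν : T1 ν) :
    pr (fun p => p.1 * a p + p.2 * c p) θ ν = -2 * pr u θ ν - pr u (fun x => x * w1 (-1) θ x) ν -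
      2 * pr u θ (fun q => q * w1 (-1) ν q) + pr u (fun x => x ^ 3 * θ x) (w1 (-1) ν) := by
  have c1 : ContDiff ℝ ∞ fun p : ℂ × ℂ => p.1 * conj p.2 := contDiff_fst.mul cd2
  have c2 : ContDiff ℝ ∞ fun p : ℂ × ℂ => p.2 * conj p.2 := contDiff_snd.mul cd2
  have k1 := h1 _ (isTest_cu c1 hθ hν)
  have k2 := h2 _ (isTest_cu c2 hθ hν)
  have d1 : ∀ p : ℂ × ℂ, wirt (1, 0) (-1) (fun p : ℂ × ℂ => p.1 * conj p.2) p = conj p.2 :=
    fun p => by
      rw [wirt_mul contDiff_fst cd2, (wirt_snd contDiff_conj _ _).2,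
        (wirt_fst (χ := fun z => z) contDiff_id _ _).1, w1_id]
      ring
  have d2 : ∀ p : ℂ × ℂ, wirt (0, 1) (-1) (fun p : ℂ × ℂ => p.2 * conj p.2) p = conj p.2 :=
    fun p => by
      rw [wirt_mul contDiff_snd cd2, (wirt_snd contDiff_conj _ _).1,
        (wirt_snd (χ := fun z => z) contDiff_id _ _).1, w1_id, (w1_conj _).2]
      ring
  simp only [dz, wirt3 c1 hθ.1 hν.1, (wirt_lam hν.1 _ _).1, (wirt_fst hθ.1 _ _).1, d1] at k1
  simp only [dw, wirt3 c2 hθ.1 hν.1, (wirt_lam hν.1 _ _).1, (wirt_fst hθ.1 _ _).2, d2] at k2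
  have i0 := int_cu lu cd2 hθ hν
  have i1 := int_cu lu cd2 ((hθ.w1 (-1)).mul contDiff_id) hν
  have i2 := int_cu lu cd2 hθ (hν.w1 (-1)).mul
  have i3 := int_cu lu cd2 (hθ.mul (contDiff_id.pow 3)) (hν.w1 (-1))
  have e0 : pr (fun p => p.1 * a p + p.2 * c p) θ ν =
      (∫ p in Cu, a p * (p.1 * conj p.2 * (θ p.1 * ν (lam p)))) +
        ∫ p in Cu, c p * (p.2 * conj p.2 * (θ p.1 * ν (lam p))) := by
    rw [pr, ← integral_add (int_cu la c1 hθ hν) (int_cu lc c2 hθ hν)]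
    congr 1
    funext p
    ring
  have e1 := (integral_add (i0.add i1) (i3.const_mul (-3))).trans
    (congrArg₂ (· + ·) (integral_add i0 i1) (integral_const_mul _ _))
  have e2 := (integral_add (i0.add (i2.const_mul 2)) (i3.const_mul 2)).trans
    (congrArg₂ (· + ·) ((integral_add i0 (i2.const_mul 2)).trans
      (congrArg₂ (· + ·) rfl (integral_const_mul _ _))) (integral_const_mul _ _))
  have f1 := (Eq.trans (congrArg (fun F => ∫ p in Cu, F p) (funext fun p => ?_)) e1).symm.trans k1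
  have f2 := (Eq.trans (congrArg (fun F => ∫ p in Cu, F p) (funext fun p => ?_)) e2).symm.trans k2
  · rw [e0]
    simp only [pr, id] at f1 f2 ⊢
    linear_combination f1 + f2
  · simp only [Pi.add_apply, id, lam]
    ring
  · simp only [Pi.add_apply, id]
    ring

theorem pr_congr (u : ℂ × ℂ → ℂ) {θ θ' ν : ℂ → ℂ} (h : ∀ x, θ x = θ' x) : pr u θ ν = pr u θ' ν := by
  rw [funext h]

theorem pr_add_left {u : ℂ × ℂ → ℂ} (lu : LocallyIntegrableOn u Cu volume) {θ θ' ν : ℂ → ℂ}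
    (hθ : T0 θ) (hθ' : T0 θ') (hν : T1 ν) (c : ℂ) :
    pr u (fun x => c * θ x + θ' x) ν = c * pr u θ ν + pr u θ' ν := by
  rw [pr, pr, pr, ← integral_const_mul, ← integral_add ((int_cu lu cd2 hθ hν).const_mul _)
    (int_cu lu cd2 hθ' hν)]
  congr 1
  funext p
  ring

theorem pr_add_right {u : ℂ × ℂ → ℂ} (lu : LocallyIntegrableOn u Cu volume) {θ ν ν' : ℂ → ℂ}
    (hθ : T0 θ) (hν : T1 ν) (hν' : T1 ν') :
    pr u θ (fun q => ν q + ν' q) = pr u θ ν + pr u θ ν' := by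
  rw [pr, pr, pr, ← integral_add (int_cu lu cd2 hθ hν) (int_cu lu cd2 hθ hν')]
  congr 1
  funext p
  ring

theorem pr_w1_mul {u : ℂ × ℂ → ℂ} (lu : LocallyIntegrableOn u Cu volume) {θ ν : ℂ → ℂ}
    (hθ : T0 θ) (hν : T1 ν) : pr u θ (w1 (-1) fun q => q * ν q) =
      pr u θ (fun q => q * w1 (-1) ν q) + pr u θ ν := by
  rw [← pr_add_right lu hθ (hν.w1 _).mul hν]
  congr 1
  funext q
  rw [w1_mul (f := fun z => z) contDiff_id hν.1, w1_id, mul_one]

theorem cd_inv_mul {θ : ℂ → ℂ} (hθ : ContDiff ℝ ∞ θ) (h : ∀ x, ‖x‖ < 1 → θ x = 0) (k : ℕ) :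
    ContDiff ℝ ∞ fun x => (x ^ k)⁻¹ * θ x := by
  rw [contDiff_iff_contDiffAt]
  intro x
  rcases eq_or_ne x 0 with rfl | hx
  · refine (contDiffAt_const (c := (0 : ℂ))).congr_of_eventuallyEq ?_
    filter_upwards [ball_mem_nhds (0 : ℂ) one_pos] with y hy
    rw [h y (by simpa using hy), mul_zero]
  · exact ((contDiffAt_id.pow k).inv (pow_ne_zero k hx)).mul hθ.contDiffAt

theorem w1_inv_mul {θ : ℂ → ℂ} (hθ : ContDiff ℝ ∞ θ) (h : ∀ x, ‖x‖ < 1 → θ x = 0) (k : ℕ)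
    (x : ℂ) : x * w1 (-1) (fun x => (x ^ k)⁻¹ * θ x) x =
        -k * ((x ^ k)⁻¹ * θ x) + (x ^ k)⁻¹ * (x * w1 (-1) θ x) ∧
      w1 1 (fun x => (x ^ k)⁻¹ * θ x) x = (x ^ k)⁻¹ * w1 1 θ x := by
  rcases eq_or_ne x 0 with rfl | hx
  · have h1 : θ =ᶠ[𝓝 0] fun _ => 0 := by
      filter_upwards [ball_mem_nhds (0 : ℂ) one_pos] with y hy using h y (by simpa using hy)
    have h2 : (fun x => (x ^ k)⁻¹ * θ x) =ᶠ[𝓝 0] fun _ => 0 := by
      filter_upwards [h1] with y hy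
      rw [hy, mul_zero]
    simp [w1, h1.fderiv_eq, h2.fderiv_eq, h1.self_of_nhds]
  · have d1 := ((hasDerivAt_pow k x).inv (pow_ne_zero k hx)).hasFDerivAt.restrictScalars ℝ
    have d2 := (d1.mul (hθ.differentiable (by simp) x).hasFDerivAt).fderiv
    have d3 : ∀ v, fderiv ℝ (fun x => (x ^ k)⁻¹ * θ x) x v = (x ^ k)⁻¹ * fderiv ℝ θ x v +
        θ x * (v * (-(k * x ^ (k - 1)) / (x ^ k) ^ 2)) := fun v => by
      refine (congrArg (fun L => L v) d2).trans ?_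
      simp
    have d4 : x * (-(k * x ^ (k - 1)) / (x ^ k) ^ 2) = -k * (x ^ k)⁻¹ := by
      rcases k with _ | k
      · simp
      · simp only [Nat.add_sub_cancel]
        field_simp
        ring
    simp only [w1, d3]
    constructor
    · linear_combination θ x * d4 -
        (x * θ x * (-(k * x ^ (k - 1)) / (x ^ k) ^ 2) / 2) * Complex.I_mul_I
    · linear_combination (θ x * (-(k * x ^ (k - 1)) / (x ^ k) ^ 2) / 2) * Complex.I_mul_I

theorem w1_comm {W : ℂ → ℂ} (hW : ContDiff ℝ ∞ W) (x : ℂ) :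
    w1 (-1) (w1 1 W) x = w1 1 (w1 (-1) W) x := by
  have d := fun u => (cd_fd hW u).differentiable (by simp) x
  have e : ∀ s v : ℂ, fderiv ℝ (w1 s W) x v = (fderiv ℝ (fun q => fderiv ℝ W q 1) x v +
      s * Complex.I * fderiv ℝ (fun q => fderiv ℝ W q Complex.I) x v) / 2 := fun s v => by
    have := (((d 1).hasFDerivAt.add ((d Complex.I).hasFDerivAt.const_mul
      (s * Complex.I))).mul_const (2 : ℂ)⁻¹).fderiv
    refine (congrArg (fun L => L v) this).trans ?_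
    simp only [smul_apply, add_apply, smul_eq_mul]
    ring
  rw [w1, w1, e, e, e, e, fd_symm hW 1 Complex.I]
  ring

theorem mem_cu {F : ℂ × ℂ → ℂ} {g : ℂ × ℂ → ℝ} (hF : AEStronglyMeasurable F (volume.restrict Cu))
    (hg : IntegrableOn g Cu) (j : ℕ) (h : ∀ p, ‖F p‖ ^ 2 / (‖sg p‖ ^ j) ^ 2 ≤ g p) :
    MemLp (fun p => (sg p ^ j)⁻¹ * F p) 2 (volume.restrict Cu) := by
  have m := ((continuous_sg.pow j).inv₀
    fun p => pow_ne_zero j (sg_ne p)).aestronglyMeasurable.mul hF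
  refine (memLp_two_iff_integrable_sq_norm m).2 (hg.mono' (m.norm.pow 2)
    (Eventually.of_forall fun p => ?_))
  rw [Real.norm_of_nonneg (sq_nonneg _)]
  simpa [div_pow, inv_mul_eq_div] using h p

theorem loc_cu {F : ℂ × ℂ → ℂ} {j : ℕ}
    (h : MemLp (fun p => (sg p ^ j)⁻¹ * F p) 2 (volume.restrict Cu)) :
    LocallyIntegrableOn F Cu volume := by
  have h1 : LocallyIntegrableOn (fun p => (sg p ^ j)⁻¹ * F p) Cu volume := by
    refine (locallyIntegrableOn_iff isOpen_Cu.isLocallyClosed).2 fun k hk hc => ?_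
    have : IsFiniteMeasure ((volume : Measure (ℂ × ℂ)).restrict k) :=
      isFiniteMeasure_restrict.2 hc.measure_lt_top.ne
    exact (h.mono_measure (Measure.restrict_mono hk le_rfl)).integrable one_le_two
  simpa [sg_ne] using h1.continuousOn_mul (continuous_sg.pow j).continuousOn
    isOpen_Cu.isLocallyClosed

theorem int_zero {θ ν : ℂ → ℂ} (hθ : T0 θ) (hν : T1 ν) :
    pr (fun p => p.2) θ (w1 (-1) ν) = 0 := by
  have t := isTest_cu cd2 hθ hν
  have d : ∀ v : ℂ × ℂ, Integrable (fun p => fderiv ℝ (fun p : ℂ × ℂ =>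
      conj p.2 * (θ p.1 * ν (lam p))) p v) := fun v =>
    (contDiff_fderiv_apply t.1 v).continuous.integrable_of_hasCompactSupport
      (t.2.1.fderiv_apply ℝ v)
  have z : ∀ v : ℂ × ℂ, ∫ p, fderiv ℝ (fun p : ℂ × ℂ => conj p.2 * (θ p.1 * ν (lam p))) p v = 0 :=
    fun v => by
      have : (volume : Measure (ℂ × ℂ)).IsAddHaarMeasure := Measure.prod.instIsAddHaarMeasure _ _
      simpa using integral_mul_fderiv_eq_neg_fderiv_mul_of_integrable (μ := volume) (v := v)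
        (f := fun _ : ℂ × ℂ => (1 : ℂ)) (g := fun p : ℂ × ℂ => conj p.2 * (θ p.1 * ν (lam p)))
        (by simp) (by simpa using d v)
        (by simpa using t.1.continuous.integrable_of_hasCompactSupport t.2.1)
        (fun _ _ => differentiableAt_const _) fun x _ => t.1.differentiable (by simp) x
  have w : ∫ p, wirt (0, 1) (-1) (fun p : ℂ × ℂ => conj p.2 * (θ p.1 * ν (lam p))) p = 0 := by
    simp only [wirt]
    rw [integral_div, integral_add (d _) ((d _).const_mul _), integral_const_mul, z, z]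
    simp
  simp only [wirt3 cd2 hθ.1 hν.1, (wirt_lam hν.1 _ _).1, (wirt_fst hθ.1 _ _).2,
    (wirt_snd contDiff_conj _ _).1, (w1_conj _).2] at w
  obtain ⟨-, r, hr, h3⟩ := hν.w1 (-1)
  rw [pr, setIntegral_eq_integral_of_forall_compl_eq_zero fun p hp => by
    rw [h3 (lam p) (hr.trans_le (not_lt.1 hp)), mul_zero, mul_zero, mul_zero],
    ← mul_zero (1 / 2 : ℂ), ← w, ← integral_const_mul]
  congr 1
  funext p
  ring

theorem no_solution {κ : ℂ → ℝ} (hκ : ContDiff ℝ ∞ κ) (κ0 : ∀ x, 0 ≤ κ x)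
    (κ1 : ∀ x, 1 ≤ ‖x‖ → κ x = 0) (κ2 : κ 0 ≠ 0) {u : ℂ × ℂ → ℂ} (hu : W1On Cu u)
    (h1 : WDOn Cu dzb u fun p => κ p.1 * (p.2 * lam p ^ 2)) (h2 : WDOn Cu dwb u fun _ => 0) :
    False := by
  obtain ⟨mu, a, b, c, d, ma, -, mc, -, wa, -, wc, -, hi⟩ := hu
  have s1 : ∀ p : ℂ × ℂ, 1 ≤ 1 + ‖p.1‖ ^ 2 + ‖p.2‖ ^ 2 := fun p => by
    nlinarith [sq_nonneg ‖p.1‖, sq_nonneg ‖p.2‖]
  have Lu := mem_cu mu hi 2 fun p => by
    rw [norm_sg, ← pow_mul]
    exact div_le_div₀ (add_nonneg (add_nonneg (sq_nonneg _) (fs_nonneg _ _ _)) (fs_nonneg _ _ _))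
      (by linarith [fs_nonneg p (conj (a p)) (conj (c p)),
        fs_nonneg p (b p) (d p)]) (by positivity) (pow_le_pow_right₀ (s1 p) (by norm_num))
  have key : ∀ F : ℂ × ℂ → ℂ, AEStronglyMeasurable F (volume.restrict Cu) →
      (∀ p, ‖F p‖ ^ 2 ≤ ‖a p‖ ^ 2 + ‖c p‖ ^ 2 + ‖p.1 * a p + p.2 * c p‖ ^ 2) →
      MemLp (fun p => (sg p ^ 1)⁻¹ * F p) 2 (volume.restrict Cu) := fun F hF h =>
    mem_cu hF hi 1 fun p => by
      have e : fs p (conj (a p)) (conj (c p)) = (1 + ‖p.1‖ ^ 2 + ‖p.2‖ ^ 2) *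
          (‖a p‖ ^ 2 + ‖c p‖ ^ 2 + ‖p.1 * a p + p.2 * c p‖ ^ 2) := by
        rw [fs, ← map_mul, ← map_mul, ← map_add, RCLike.norm_conj, RCLike.norm_conj,
          RCLike.norm_conj]
      rw [norm_sg, pow_one, ← mul_div_mul_left _ _ (show 1 + ‖p.1‖ ^ 2 + ‖p.2‖ ^ 2 ≠ 0 by
        positivity), ← pow_succ']
      refine div_le_div_of_nonneg_right ?_ (by positivity)
      nlinarith [fs_nonneg p (b p) (d p), sq_nonneg ‖u p‖, mul_le_mul_of_nonneg_left (h p)
        (zero_le_one.trans (s1 p))]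
  have lu := loc_cu Lu
  have la := loc_cu (key a ma fun p => by
    nlinarith [sq_nonneg ‖c p‖, sq_nonneg ‖p.1 * a p + p.2 * c p‖])
  have lc := loc_cu (key c mc fun p => by
    nlinarith [sq_nonneg ‖a p‖, sq_nonneg ‖p.1 * a p + p.2 * c p‖])
  have LE := key (fun p => p.1 * a p + p.2 * c p) ((continuous_fst.aestronglyMeasurable.mul ma).add
    (continuous_snd.aestronglyMeasurable.mul mc)) fun p => by
      nlinarith [sq_nonneg ‖a p‖, sq_nonneg ‖c p‖]
  obtain ⟨χ, B, hB, hχ⟩ := exists_cut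
  have hR : ∀ n : ℕ, (0 : ℝ) < n + 1 := fun n => by positivity
  have T : ∀ n : ℕ, T0 (χ (n + 1)) := fun n => ⟨(hχ _ (hR n)).1, _, (hχ _ (hR n)).2.2.2.1⟩
  have Z : ∀ (n : ℕ) s x, ‖x‖ < n + 1 → w1 s (χ (n + 1)) x = 0 := fun n s x hx => by
    simp [w1, (hχ _ (hR n)).2.2.2.2.2.1 x hx]
  have Z1 : ∀ (n : ℕ) s x, ‖x‖ < 1 → w1 s (χ (n + 1)) x = 0 := fun n s x hx =>
    Z n s x (by linarith [n.cast_nonneg (α := ℝ)])
  have Tk : ∀ (k n : ℕ) s, T0 fun x => (x ^ k)⁻¹ * w1 s (χ (n + 1)) x := fun k n s => by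
    obtain ⟨h3, S, h4⟩ := (T n).w1 s
    exact ⟨cd_inv_mul h3 (Z1 n s) k, S, fun q hq => by simp only [h4 q hq, mul_zero]⟩
  set θ : ℕ → ℕ → ℂ → ℂ := fun k n x => (x ^ k)⁻¹ * w1 1 (χ (n + 1)) x with hθ
  have rel : ∀ (k n : ℕ) ν, T1 ν → pr (fun p => p.1 * a p + p.2 * c p) (θ (k + 3) n) ν =
      (k + 1) * pr u (θ (k + 3) n) ν - 2 * pr u (θ (k + 3) n) (fun q => q * w1 (-1) ν q) +
        pr u (θ k n) (w1 (-1) ν) := fun k n ν hν => by
    have e1 : ∀ x, x ^ 3 * θ (k + 3) n x = θ k n x := fun x => by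
      rcases eq_or_ne x 0 with rfl | hx
      · simp [hθ, Z1 n 1 0]
      · simp only [hθ]
        field_simp
        ring
    have e2 : ∀ x, x * w1 (-1) (θ (k + 3) n) x = -((k + 3 : ℕ) : ℂ) * θ (k + 3) n x +
        w1 1 (fun x => (x ^ (k + 2))⁻¹ * w1 (-1) (χ (n + 1)) x) x := fun x => by
      rw [(w1_inv_mul (cd_w1 (T n).1 _) (Z1 n _) _ x).2, ← w1_comm (T n).1,
        (w1_inv_mul (cd_w1 (T n).1 _) (Z1 n _) _ x).1]
      congr 1
      rcases eq_or_ne x 0 with rfl | hx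
      · simp
      · field_simp
        ring
    have e3 : pr (fun p => κ p.1 * (p.2 * lam p ^ 2))
        (fun x => (x ^ (k + 2))⁻¹ * w1 (-1) (χ (n + 1)) x) ν = 0 := by
      refine integral_eq_zero_of_ae (Eventually.of_forall fun p => ?_)
      rcases lt_or_ge ‖p.1‖ 1 with h | h
      · simp [Z1 n _ _ h]
      · simp [κ1 _ h]
    rw [pr_euler lu la lc wa wc (Tk _ n 1) hν, pr_congr u e1, pr_congr u e2,
      pr_add_left lu (Tk _ n 1) ((Tk _ n (-1)).w1 1) hν, pr_bar lu h1 h2 (Tk _ n (-1)) hν, e3]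
    push_cast
    ring
  have lim : ∀ (j k : ℕ) (v : ℂ × ℂ → ℂ) ν, T1 ν → 3 * j ≤ k →
      MemLp (fun p => (sg p ^ j)⁻¹ * v p) 2 (volume.restrict Cu) →
      Tendsto (fun n => pr v (θ k n) ν) atTop (𝓝 0) := fun j k v ν hν hjk hv => by
    obtain ⟨h3, r, -, h4⟩ := hν
    obtain ⟨K, hK⟩ := h3.continuous.bounded_above_of_compact_support (HasCompactSupport.intro
      (isCompact_closedBall (0 : ℂ) r) fun z hz => h4 z (by simpa using hz))
    have K0 : 0 ≤ K := (norm_nonneg _).trans (hK 0)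
    refine (tail_cu hv (G := fun n p => sg p ^ j * (conj p.2 * (θ k n p.1 * ν (lam p))))
      (fun n => (continuous_sg.pow j).mul (cd2.continuous.mul (((Tk k n 1).1.continuous.comp
        continuous_fst).mul (h3.continuous.comp contDiff_lam.continuous)))) (K := 4 ^ j * B * K)
      (by positivity) (fun n p hp => ?_) fun n p hp hx => ?_).congr fun n => ?_
    · rcases hp with hp | hp
      · simp [hθ, Z n 1 _ hp]
      · simp [hθ, w1, (hχ _ (hR n)).2.2.2.2.2.2 _ hp]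
    · have x1 : 1 ≤ ‖p.1‖ := by linarith [n.cast_nonneg (α := ℝ)]
      have b1 : ‖sg p‖ ≤ 4 * ‖p.1‖ ^ 3 := by
        rw [norm_sg]
        linarith [sq_le_of_lam (p := p) (le_of_lt hp), one_le_pow₀ x1 (n := 3),
          pow_le_pow_right₀ x1 (show 2 ≤ 3 by norm_num)]
      have b2 : ‖sg p‖ ^ j * (‖p.1‖ ^ k)⁻¹ ≤ 4 ^ j := by
        rw [mul_inv_le_iff₀ (by positivity)]
        refine (pow_le_pow_left₀ (norm_nonneg _) b1 j).trans ?_
        rw [mul_pow, ← pow_mul]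
        exact mul_le_mul_of_nonneg_left (pow_le_pow_right₀ x1 hjk) (by positivity)
      have h5 : ∀ η : ℂ, ‖η‖ = 1 → ‖fderiv ℝ (χ (n + 1)) p.1 η‖ ≤ B / (n + 1) :=
        fun η hη => ((fderiv ℝ (χ (n + 1)) p.1).le_opNorm η).trans
          (by rw [hη, mul_one]; exact (hχ _ (hR n)).2.2.2.2.1 _)
      have b3 : ‖w1 1 (χ (n + 1)) p.1‖ ≤ B / (n + 1) := by
        rw [w1, norm_div, Complex.norm_two]
        have h6 := norm_add_le (fderiv ℝ (χ (n + 1)) p.1 1)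
          (1 * Complex.I * fderiv ℝ (χ (n + 1)) p.1 Complex.I)
        rw [norm_mul, one_mul, Complex.norm_I, one_mul] at h6
        rw [one_mul]
        linarith [h5 1 norm_one, h5 _ Complex.norm_I]
      simp only [hθ, norm_mul, norm_pow, norm_inv, RCLike.norm_conj]
      calc _ = ‖sg p‖ ^ j * (‖p.1‖ ^ k)⁻¹ * ‖w1 1 (χ (n + 1)) p.1‖ * ‖ν (lam p)‖ * ‖p.2‖ := by ring
        _ ≤ 4 ^ j * (B / (n + 1)) * K * ‖p.2‖ := by gcongr; exact hK _
        _ = _ := by ring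
    · rw [pr]
      congr 1
      funext p
      have := sg_ne p
      field_simp
  have l3 : ∀ ν, T1 ν → Tendsto (fun n => pr u (θ 3 n) (w1 (-1) ν)) atTop (𝓝 0) := fun ν hν => by
    have := ((lim 1 6 _ ν hν (by norm_num) LE).sub ((lim 2 6 u ν hν le_rfl Lu).const_mul
      ((3 : ℕ) + 1 : ℂ))).add ((lim 2 6 u _ (hν.w1 (-1)).mul le_rfl Lu).const_mul 2)
    simp only [mul_zero, sub_zero, add_zero] at this
    refine this.congr fun n => ?_
    rw [rel 3 n ν hν]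
    ring
  have l0 : ∀ ν, T1 ν → Tendsto (fun n => pr u (θ 0 n) (w1 (-1) (w1 (-1) ν))) atTop (𝓝 0) :=
    fun ν hν => by
      have := ((lim 1 3 _ _ (hν.w1 (-1)) le_rfl LE).sub ((l3 ν hν).const_mul 3)).add
        ((l3 _ (hν.w1 (-1)).mul).const_mul 2)
      simp only [mul_zero, sub_zero, add_zero] at this
      refine this.congr fun n => ?_
      rw [rel 0 n _ (hν.w1 (-1)), pr_w1_mul lu (Tk 3 n 1) (hν.w1 (-1))]
      push_cast
      ring
  let β : ContDiffBump (0 : ℂ) := ⟨1 / 2, 3 / 4, by norm_num, by norm_num⟩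
  have hβ : T1 fun q => (β q : ℂ) := ⟨Complex.ofRealCLM.contDiff.comp β.contDiff, 3 / 4,
    by norm_num, fun q hq => by
      simp only [β.zero_of_le_dist (x := q) (by rw [dist_zero_right]; exact hq.le),
        Complex.ofReal_zero]⟩
  have hk : T0 fun x => (κ x : ℂ) := ⟨Complex.ofRealCLM.contDiff.comp hκ, 1, fun q hq => by
    simp only [κ1 q hq.le, Complex.ofReal_zero]⟩
  have ly : LocallyIntegrableOn (fun p : ℂ × ℂ => p.2) Cu volume :=
    continuous_snd.locallyIntegrable.locallyIntegrableOn _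
  have c0 : pr (fun p => p.2) (fun x => (κ x : ℂ))
      (fun q => q * (q * w1 (-1) (w1 (-1) fun q => (β q : ℂ)) q)) = 0 := by
    refine neg_eq_zero.1 (tendsto_nhds_unique tendsto_const_nhds ((l0 _ hβ).congr fun n => ?_))
    rw [pr_congr u (θ' := w1 1 (χ (n + 1))) fun x => by simp [hθ],
      pr_bar lu h1 h2 (T n) ((hβ.w1 _).w1 _), pr, pr]
    congr 2
    funext p
    rcases lt_or_ge ‖p.1‖ 1 with h | h
    · rw [(hχ _ (hR n)).2.2.1 _ (by linarith [n.cast_nonneg (α := ℝ)])]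
      ring
    · simp [κ1 _ h]
  have c1 := pr_w1_mul ly hk hβ
  have c2 := pr_w1_mul ly hk hβ.mul
  have c3 := pr_w1_mul ly hk (hβ.w1 (-1)).mul
  rw [int_zero hk hβ.mul] at c1
  rw [int_zero hk (hβ.w1 (-1)).mul.mul] at c3
  have c4 : pr (fun p => p.2) (fun x => (κ x : ℂ))
      (fun q => q * w1 (-1) (fun q => q * w1 (-1) (fun q => (β q : ℂ)) q) q) =
      pr (fun p => p.2) (fun x => (κ x : ℂ))
        (fun q => q * (q * w1 (-1) (w1 (-1) fun q => (β q : ℂ)) q)) +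
      pr (fun p => p.2) (fun x => (κ x : ℂ)) fun q => q * w1 (-1) (fun q => (β q : ℂ)) q := by
    rw [← pr_add_right ly hk ((hβ.w1 _).w1 _).mul.mul (hβ.w1 _).mul]
    congr 1
    funext q
    rw [w1_mul (f := fun z => z) contDiff_id (hβ.w1 _).1, w1_id]
    ring
  have c5 : pr (fun p => p.2) (fun x => (κ x : ℂ)) (fun q => (β q : ℂ)) = 0 := by
    linear_combination (-1 : ℂ) * c1 + (1 / 2 : ℂ) * c3 + (1 / 2 : ℂ) * c4 + (1 / 2 : ℂ) * c0
  have t := isTest_cu (contDiff_snd.mul cd2) hk hβ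
  have e : ∀ p : ℂ × ℂ, p.2 * conj p.2 * ((κ p.1 : ℂ) * (β (lam p) : ℂ)) =
      ((‖p.2‖ ^ 2 * (κ p.1 * β (lam p)) : ℝ) : ℂ) := fun p => by
    rw [Complex.mul_conj']
    push_cast
    rfl
  have lc' := contDiff_lam.continuous
  have pos := Continuous.integral_pos_of_hasCompactSupport_nonneg_nonzero (μ := volume)
    (f := fun p : ℂ × ℂ => ‖p.2‖ ^ 2 * (κ p.1 * β (lam p))) (x := (0, 1 / 2))
    ((continuous_snd.norm.pow 2).mul ((hκ.continuous.comp continuous_fst).mul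
      (β.continuous.comp lc')))
    (t.2.1.mono fun p hp h => hp (by simpa only [e, Complex.ofReal_eq_zero] using h))
    (fun p => mul_nonneg (sq_nonneg _) (mul_nonneg (κ0 _) β.nonneg)) (by
      rw [β.one_of_mem_closedBall (by norm_num [lam, β])]
      simp [κ2])
  rw [pr, setIntegral_eq_integral_of_forall_compl_eq_zero fun p hp => by
    rw [← mul_assoc]
    exact image_eq_zero_of_notMem_tsupport (f := fun p : ℂ × ℂ => p.2 * conj p.2 *
      ((κ p.1 : ℂ) * (β (lam p) : ℂ))) fun h => hp (t.2.2 h)] at c5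
  simp only [← mul_assoc _ (conj _), e, integral_complex_ofReal, Complex.ofReal_eq_zero] at c5
  exact pos.ne' c5

end

end Pool.Agent.Lib.MP_2de762_an
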