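import Pool.Agent.Lib.MP_2de762_an.H98Defs

/-! One complex variable: the formula of Pompeiu and integrals of the Cauchy kernel. The proofs up
to `lintegral_inv_ball` are copied from the team file `MP_44acff_gt/H70CT.lean`. -/

namespace Pool.Agent.Lib.MP_2de762_an

open Set Metric MeasureTheory Filter Topology ComplexConjugate
open scoped ContDiff

/-- The conjugate derivative in one variable. -/
noncomputable def dbar (F : ℂ → ℂ) (z : ℂ) : ℂ :=
  (fderiv ℝ F z 1 + Complex.I * fderiv ℝ F z Complex.I) / 2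

theorem locInt : LocallyIntegrable (fun ξ : ℂ => ξ⁻¹) volume := by
  refine locallyIntegrable_of_norm_le_rpow (C := 1) (α := 1) (by simp) (by simp)
    (Eventually.of_forall fun x => ?_) measurable_inv.aestronglyMeasurable
  simp [Real.rpow_neg_one]

/-- The point of the unit circle. -/
noncomputable def ex (t : ℝ) : ℂ := Real.cos t + Real.sin t * Complex.I

theorem ex_eq (t : ℝ) : ex t = Complex.exp (t * Complex.I) := by
  rw [Complex.exp_mul_I, ex, Complex.ofReal_cos, Complex.ofReal_sin]

theorem norm_ex (t : ℝ) : ‖ex t‖ = 1 := by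
  rw [ex_eq, Complex.norm_exp_ofReal_mul_I]

theorem ex_ne (t : ℝ) : ex t ≠ 0 := by
  rw [ex_eq]
  exact Complex.exp_ne_zero _

theorem continuous_ex : Continuous ex := by
  unfold ex
  fun_prop

theorem hasDerivAt_ex (t : ℝ) : HasDerivAt ex (Complex.I * ex t) t := by
  have h1 : HasDerivAt (fun s : ℝ => (s : ℂ) * Complex.I) Complex.I t := by
    simpa using (Complex.ofRealCLM.hasDerivAt (x := t)).mul_const Complex.I
  have h2 := h1.cexp
  rw [← ex_eq, mul_comm] at h2
  simpa only [← ex_eq] using h2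

theorem ex_pi : ex Real.pi = ex (-Real.pi) := by
  simp [ex]

theorem lin_ex (L : ℂ →L[ℝ] ℂ) (t : ℝ) :
    (L 1 + Complex.I * L Complex.I) / ex t = L (ex t) + Complex.I * L (Complex.I * ex t) := by
  have h1 : ex t = Real.cos t • (1 : ℂ) + Real.sin t • Complex.I := by simp [ex]
  have h2 : Complex.I * ex t = (-Real.sin t) • (1 : ℂ) + Real.cos t • Complex.I := by
    simp only [ex, Complex.real_smul, Complex.ofReal_neg]
    linear_combination (Real.sin t : ℂ) * Complex.I_mul_I
  have h3 : (Real.sin t : ℂ) ^ 2 + (Real.cos t : ℂ) ^ 2 = 1 := by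
    exact_mod_cast Real.sin_sq_add_cos_sq t
  have h4 : L (ex t) = Real.cos t * L 1 + Real.sin t * L Complex.I := by
    rw [h1, map_add, map_smul, map_smul, Complex.real_smul, Complex.real_smul]
  have h5 : L (Complex.I * ex t) = -Real.sin t * L 1 + Real.cos t * L Complex.I := by
    rw [h2, map_add, map_smul, map_smul, Complex.real_smul, Complex.real_smul, Complex.ofReal_neg]
  rw [div_eq_iff (ex_ne t), h4, h5, ex]
  linear_combination (-(L 1) - Complex.I * L Complex.I) * h3 +
    ((Real.sin t : ℂ) ^ 2 * L 1 - (Real.sin t : ℂ) * (Real.cos t : ℂ) * L Complex.I) *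
      Complex.I_mul_I

theorem integrableOn_polar {g : ℂ → ℂ →L[ℝ] ℂ} (hg : Continuous g) (hc : HasCompactSupport g)
    {v : ℝ → ℂ} (hv : Continuous v) :
    IntegrableOn (fun p : ℝ × ℝ => g (p.1 * ex p.2) (v p.2))
      (Ioi (0 : ℝ) ×ˢ Ioo (-Real.pi) Real.pi) (volume.prod volume) := by
  obtain ⟨R, hR⟩ := hc.isCompact.isBounded.subset_closedBall 0
  have he := continuous_ex
  have h1 : Continuous fun p : ℝ × ℝ => g (p.1 * ex p.2) (v p.2) := by fun_prop
  have h2 : IntegrableOn (fun p : ℝ × ℝ => g (p.1 * ex p.2) (v p.2))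
      (Icc (0 : ℝ) R ×ˢ Icc (-Real.pi) Real.pi) (volume.prod volume) :=
    h1.continuousOn.integrableOn_compact (isCompact_Icc.prod isCompact_Icc)
  refine h2.of_forall_sdiff_eq_zero (measurableSet_Ioi.prod measurableSet_Ioo) ?_
  rintro ⟨r, t⟩ ⟨⟨hr, ht⟩, hn⟩
  have hr' : 0 < r := hr
  have h3 : R < r := by
    by_contra h
    exact hn ⟨⟨hr'.le, not_lt.1 h⟩, Ioo_subset_Icc_self ht⟩
  have h4 : (r : ℂ) * ex t ∉ tsupport g := fun h => by
    have := hR h
    rw [mem_closedBall, dist_zero_right, norm_mul, norm_ex, Complex.norm_real,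
      Real.norm_of_nonneg hr'.le] at this
    linarith
  simp only [image_eq_zero_of_notMem_tsupport h4, zero_apply]

theorem radial {φ : ℂ → ℂ} (hφ : ContDiff ℝ 1 φ) (hc : HasCompactSupport φ) (t : ℝ) :
    ∫ r in Ioi (0 : ℝ), fderiv ℝ φ (r * ex t) (ex t) = -φ 0 := by
  have h1 : ContDiff ℝ 1 fun r : ℝ => φ (r * ex t) :=
    hφ.comp (Complex.ofRealCLM.contDiff.mul contDiff_const)
  have h2 : Isometry fun r : ℝ => (r : ℂ) * ex t := by
    refine Isometry.of_dist_eq fun a b => ?_
    rw [dist_eq_norm, ← sub_mul, norm_mul, norm_ex, mul_one, ← Complex.ofReal_sub,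
      Complex.norm_real, dist_eq_norm]
  have h3 : HasCompactSupport fun r : ℝ => φ (r * ex t) :=
    hc.comp_isClosedEmbedding h2.isClosedEmbedding
  have h4 := h3.integral_Ioi_deriv_eq h1 0
  simp only [Complex.ofReal_zero, zero_mul] at h4
  rw [← h4]
  congr 1
  funext r
  have h5 : HasDerivAt (fun s : ℝ => (s : ℂ) * ex t) (ex t) r := by
    simpa using (Complex.ofRealCLM.hasDerivAt (x := r)).mul_const (ex t)
  exact ((hφ.differentiable one_ne_zero _).hasFDerivAt.comp_hasDerivAt r h5).deriv.symm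

theorem angular {φ : ℂ → ℂ} (hφ : ContDiff ℝ 1 φ) {r : ℝ} (hr : 0 < r) :
    ∫ t in Ioo (-Real.pi) Real.pi, fderiv ℝ φ (r * ex t) (Complex.I * ex t) = 0 := by
  have he := continuous_ex
  have hd := hφ.continuous_fderiv one_ne_zero
  have h1 : ∀ t : ℝ, HasDerivAt (fun s : ℝ => φ (r * ex s))
      (r • fderiv ℝ φ (r * ex t) (Complex.I * ex t)) t := fun t => by
    have := (hφ.differentiable one_ne_zero _).hasFDerivAt.comp_hasDerivAt t
      ((hasDerivAt_ex t).const_mul (r : ℂ))
    rwa [← Complex.real_smul (z := Complex.I * ex t), map_smul] at this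
  have h2 := intervalIntegral.integral_eq_sub_of_hasDerivAt (a := -Real.pi) (b := Real.pi)
    (fun t _ => h1 t) (Continuous.intervalIntegrable (by fun_prop) _ _)
  rw [ex_pi, sub_self, intervalIntegral.integral_smul, smul_eq_zero,
    intervalIntegral.integral_of_le (by linarith [Real.pi_pos]),
    integral_Ioc_eq_integral_Ioo] at h2
  exact h2.resolve_left hr.ne'

theorem pompeiu {φ : ℂ → ℂ} (hφ : ContDiff ℝ 1 φ) (hc : HasCompactSupport φ) :
    ∫ ξ, dbar φ ξ / ξ = -Real.pi * φ 0 := by
  have he := continuous_ex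
  have hd := hφ.continuous_fderiv one_ne_zero
  have iA := integrableOn_polar hd (hc.fderiv ℝ) he
  have iB := integrableOn_polar hd (hc.fderiv ℝ) (v := fun t => Complex.I * ex t) (by fun_prop)
  have eA : ∫ p in Ioi (0 : ℝ) ×ˢ Ioo (-Real.pi) Real.pi,
      fderiv ℝ φ (p.1 * ex p.2) (ex p.2) ∂(volume.prod volume) = -(2 * Real.pi) * φ 0 := by
    rw [IntegrableOn, ← Measure.prod_restrict] at iA
    rw [← Measure.prod_restrict, integral_prod_symm _ iA]
    simp only [radial hφ hc, integral_const, MeasurableSet.univ, measureReal_restrict_apply,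
      univ_inter, Real.volume_real_Ioo_of_le (show -Real.pi ≤ Real.pi by linarith [Real.pi_pos]),
      Complex.real_smul]
    push_cast
    ring
  have eB : ∫ p in Ioi (0 : ℝ) ×ˢ Ioo (-Real.pi) Real.pi,
      fderiv ℝ φ (p.1 * ex p.2) (Complex.I * ex p.2) ∂(volume.prod volume) = 0 := by
    rw [setIntegral_prod _ iB]
    exact setIntegral_eq_zero_of_forall_eq_zero fun r hr => angular hφ hr
  rw [← Complex.integral_comp_polarCoord_symm]
  have e1 : ∫ p in polarCoord.target, p.1 • (dbar φ (Complex.polarCoord.symm p) /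
      Complex.polarCoord.symm p) = ∫ p in Ioi (0 : ℝ) ×ˢ Ioo (-Real.pi) Real.pi,
      (1 / 2 : ℂ) * (fderiv ℝ φ (p.1 * ex p.2) (ex p.2) +
        Complex.I * fderiv ℝ φ (p.1 * ex p.2) (Complex.I * ex p.2)) ∂(volume.prod volume) := by
    refine setIntegral_congr_fun polarCoord.open_target.measurableSet fun p hp => ?_
    have hp1 : (p.1 : ℂ) ≠ 0 := Complex.ofReal_ne_zero.2 (ne_of_gt hp.1)
    have h5 : Complex.polarCoord.symm p = p.1 * ex p.2 := Complex.polarCoord_symm_apply p
    have h6 := ex_ne p.2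
    simp only [h5, ← lin_ex, dbar, Complex.real_smul]
    field_simp
  rw [e1, integral_const_mul, integral_add iA (iB.const_mul _), integral_const_mul, eA, eB]
  ring

theorem lintegral_inv_ball (z : ℂ) {r : ℝ} (hr : 0 < r) :
    ∫⁻ ζ in ball z r, ENNReal.ofReal (‖ζ - z‖⁻¹) ≤ ENNReal.ofReal (2 * Real.pi * r) := by
  rw [← lintegral_indicator measurableSet_ball, ← lintegral_add_right_eq_self _ z,
    ← Complex.lintegral_comp_polarCoord_symm]
  calc _ ≤ ∫⁻ p in polarCoord.target,
        (Ioo (0 : ℝ) r ×ˢ Ioo (-Real.pi) Real.pi).indicator (fun _ => (1 : ENNReal)) p := by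
        refine setLIntegral_mono' polarCoord.open_target.measurableSet fun p hp => ?_
        have hp1 : 0 < p.1 := hp.1
        have h1 : ‖Complex.polarCoord.symm p‖ = p.1 := by
          rw [Complex.norm_polarCoord_symm, abs_of_pos hp1]
        by_cases h : p.1 < r
        · rw [indicator_of_mem (show p ∈ Ioo (0 : ℝ) r ×ˢ Ioo (-Real.pi) Real.pi from
            ⟨⟨hp1, h⟩, hp.2⟩)]
          refine le_trans (mul_le_mul_right (indicator_le_self _ _ _) _) ?_
          rw [add_sub_cancel_right, h1, ← ENNReal.ofReal_mul hp1.le, mul_inv_cancel₀ hp1.ne',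
            ENNReal.ofReal_one]
        · rw [indicator_of_notMem, smul_zero]
          · exact zero_le
          · rwa [mem_ball, dist_eq_norm, add_sub_cancel_right, h1]
    _ ≤ ∫⁻ p, (Ioo (0 : ℝ) r ×ˢ Ioo (-Real.pi) Real.pi).indicator (fun _ => (1 : ENNReal)) p :=
        setLIntegral_le_lintegral _ _
    _ = ENNReal.ofReal (2 * Real.pi * r) := by
        rw [lintegral_indicator (measurableSet_Ioo.prod measurableSet_Ioo), setLIntegral_one,
          Measure.volume_eq_prod, Measure.prod_prod, Real.volume_Ioo, Real.volume_Ioo,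
          ← ENNReal.ofReal_mul (by linarith)]
        congr 1
        ring

end Pool.Agent.Lib.MP_2de762_an
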