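import Pool.Agent.Lib.MP_2de762_an.H98Cut

/-! The estimate for `(2,0)`-forms and the closed range. -/

namespace Pool.Agent.Lib.MP_2de762_an

open Set Metric MeasureTheory Filter Topology ComplexConjugate
open scoped ContDiff ENNReal

noncomputable section

/-- `1 + |z|^2` as a complex number. -/
def rho (z : ℂ) : ℂ := 1 + z * conj z

/-- The correction at infinity. -/
def be (z : ℂ) : ℂ := (Real.pi : ℂ)⁻¹ * (conj z * (rho z)⁻¹)

theorem rho_eq (z : ℂ) : rho z = ((1 + ‖z‖ ^ 2 : ℝ) : ℂ) := by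
  rw [rho, Complex.mul_conj']
  push_cast
  rfl

theorem norm_rho (z : ℂ) : ‖rho z‖ = 1 + ‖z‖ ^ 2 := by
  rw [rho_eq, Complex.norm_real, Real.norm_of_nonneg (by positivity)]

theorem rho_ne (z : ℂ) : rho z ≠ 0 := by
  rw [← norm_ne_zero_iff, norm_rho]
  positivity

theorem contDiff_conj : ContDiff ℝ ∞ fun z : ℂ => conj z := Complex.conjCLE.contDiff

theorem contDiff_rho : ContDiff ℝ ∞ rho := contDiff_const.add (contDiff_id.mul contDiff_conj)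

theorem contDiff_rho_inv : ContDiff ℝ ∞ fun z => (rho z)⁻¹ := contDiff_rho.inv rho_ne

theorem contDiff_be : ContDiff ℝ ∞ be := contDiff_const.mul (contDiff_conj.mul contDiff_rho_inv)

theorem norm_pi_inv : ‖(Real.pi : ℂ)⁻¹‖ ≤ 1 := by
  rw [norm_inv, Complex.norm_real, Real.norm_of_nonneg Real.pi_pos.le]
  exact inv_le_one_of_one_le₀ (by linarith [Real.pi_gt_three])

theorem enorm_ck (ξ : ℂ) : ‖ck ξ‖ₑ ≤ ka ξ := by
  rw [← ofReal_norm, ck, norm_mul, norm_inv ξ]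
  exact ENNReal.ofReal_le_ofReal (mul_le_of_le_one_left (by positivity) norm_pi_inv)

theorem ker_le {z ζ : ℂ} (h : ζ ≠ z) :
    ‖(rho z)⁻¹ * (ck (z - ζ) + be ζ)‖ₑ ≤ sw z * (ka (z - ζ) * sw ζ) := by
  have h0 : z - ζ ≠ 0 := sub_ne_zero.2 h.symm
  have h1 : ck (z - ζ) + be ζ = (Real.pi : ℂ)⁻¹ * ((1 + conj ζ * z) * ((z - ζ)⁻¹ * (rho ζ)⁻¹)) := by
    have := rho_ne ζ
    rw [ck, be, ← mul_add]
    congr 1
    field_simp
    rw [rho]
    ring
  set x := √(1 + ‖z‖ ^ 2) with hx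
  set y := √(1 + ‖ζ‖ ^ 2) with hy
  have x0 : 0 < x := by positivity
  have y0 : 0 < y := by positivity
  have x2 : 1 + ‖z‖ ^ 2 = x ^ 2 := (Real.sq_sqrt (by positivity)).symm
  have y2 : 1 + ‖ζ‖ ^ 2 = y ^ 2 := (Real.sq_sqrt (by positivity)).symm
  have h2 : ‖1 + conj ζ * z‖ ≤ x * y := by
    refine (norm_add_le _ _).trans ?_
    rw [norm_one, norm_mul, RCLike.norm_conj]
    refine (pow_le_pow_iff_left₀ (by positivity) (by positivity) two_ne_zero).1 ?_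
    rw [mul_pow, ← x2, ← y2]
    nlinarith [sq_nonneg (‖z‖ - ‖ζ‖)]
  rw [← ofReal_norm, sw, sw, ka, ← ENNReal.ofReal_mul (by positivity),
    ← ENNReal.ofReal_mul (by positivity), ← hx, ← hy]
  refine ENNReal.ofReal_le_ofReal ?_
  rw [h1, norm_mul, norm_mul, norm_mul, norm_mul, norm_inv (rho z), norm_inv (rho ζ),
    norm_inv (z - ζ), norm_rho, norm_rho, x2, y2]
  calc _ ≤ (x ^ 2)⁻¹ * (1 * (x * y * (‖z - ζ‖⁻¹ * (y ^ 2)⁻¹))) := by
        gcongr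
        exact norm_pi_inv
    _ = _ := by field_simp

theorem integrable_fst {f : ℂ → ℂ} (hf : LocallyIntegrable f volume) {φ : ℂ × ℂ → ℂ}
    (hφ : Continuous φ) (h : Loc (1, 0) φ) (z w : ℂ) :
    Integrable fun ζ : ℂ => f (z - ζ) * φ (ζ, w) := by
  simpa using (integrable_Cv hf hφ h (z, w)).comp_sub_left z

/-- The solution operator of the sphere acting on test functions. -/
def Vs (φ : ℂ × ℂ → ℂ) : ℂ × ℂ → ℂ :=
  Cv ck (1, 0) φ + Cv (fun _ => 1) (1, 0) fun q => be q.1 * φ q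

theorem IsTest.be_mul {φ : ℂ × ℂ → ℂ} (h : IsTest φ) : IsTest fun q => be q.1 * φ q :=
  h.mul (contDiff_be.comp contDiff_fst)

theorem Vs_contDiff {φ : ℂ × ℂ → ℂ} (h : IsTest φ) : ContDiff ℝ ∞ (Vs φ) :=
  (Cv_contDiff ck_loc h.1 h.loc1).add (Cv_contDiff one_loc h.be_mul.1 h.be_mul.loc1)

theorem dzb_Vs {φ : ℂ × ℂ → ℂ} (h : IsTest φ) : wirt (1, 0) 1 (Vs φ) = φ := by
  rw [Vs, wirt_add (Cv_contDiff ck_loc h.1 h.loc1) (Cv_contDiff one_loc h.be_mul.1 h.be_mul.loc1),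
    Cv_one_wirt h.be_mul.1 h.be_mul.loc1, wirt_Cv ck_loc h.1 h.loc1, Cv_wirt h.1 h.loc1, add_zero]

theorem Cv_fst_zero (f : ℂ → ℂ) {φ : ℂ × ℂ → ℂ} {r : ℝ} (h : ∀ p, r < ‖p.2‖ → φ p = 0)
    (p : ℂ × ℂ) (hp : r < ‖p.2‖) : Cv f (1, 0) φ p = 0 := by
  have : ∀ ξ : ℂ, φ (p - ξ • ((1, 0) : ℂ × ℂ)) = 0 := fun ξ => h _ (by simpa using hp)
  simp only [Cv, this, mul_zero, integral_zero]

theorem Cv_snd_zero (f : ℂ → ℂ) {φ : ℂ × ℂ → ℂ} {r : ℝ} (h : ∀ p, r < ‖p.1‖ → φ p = 0)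
    (p : ℂ × ℂ) (hp : r < ‖p.1‖) : Cv f (0, 1) φ p = 0 := by
  have : ∀ ξ : ℂ, φ (p - ξ • ((0, 1) : ℂ × ℂ)) = 0 := fun ξ => h _ (by simpa using hp)
  simp only [Cv, this, mul_zero, integral_zero]

theorem Vs_bdd {φ : ℂ × ℂ → ℂ} (h : IsTest φ) : ∃ K, ∀ p, ‖Vs φ p‖ ≤ K := by
  obtain ⟨M, hM, hK⟩ := kernel_bound
  have h1 := h.mul (contDiff_rho.comp contDiff_fst)
  obtain ⟨A, hA⟩ := h1.1.continuous.bounded_above_of_compact_support h1.2.1
  obtain ⟨B, hB⟩ := h.be_mul.1.continuous.bounded_above_of_compact_support h.be_mul.2.1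
  obtain ⟨S, r, -, -, hS, -⟩ := h.be_mul.bounds
  refine ⟨(M * ENNReal.ofReal A).toReal + ∫ ζ, (closedBall (0 : ℂ) S).indicator (fun _ => B) ζ,
    fun ⟨z, w⟩ => (norm_add_le _ _).trans (add_le_add ?_ ?_)⟩
  · rw [Cv_fst, ← toReal_enorm]
    refine ENNReal.toReal_mono (by finiteness) ((enorm_integral_le_lintegral_enorm _).trans
      (le_trans ?_ (mul_le_mul_left (hK z) _)))
    rw [← lintegral_mul_const _ (by fun_prop)]
    refine lintegral_mono fun ζ => ?_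
    rw [enorm_mul, mul_assoc]
    refine mul_le_mul' (enorm_ck _) ?_
    rw [sw_sq, ← ENNReal.ofReal_mul (by positivity), ← ofReal_norm]
    refine ENNReal.ofReal_le_ofReal ?_
    have h2 := hA (ζ, w)
    simp only [Function.comp_apply, norm_mul, norm_rho] at h2
    rwa [le_inv_mul_iff₀ (by positivity)]
  · rw [Cv_fst]
    refine norm_integral_le_of_norm_le ((integrable_indicator_iff measurableSet_closedBall).2
      (integrableOn_const measure_closedBall_lt_top.ne)) (Eventually.of_forall fun ζ => ?_)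
    rw [one_mul]
    by_cases hζ : ζ ∈ closedBall (0 : ℂ) S
    · rw [indicator_of_mem hζ]
      exact hB (ζ, w)
    · rw [indicator_of_notMem hζ, hS (ζ, w) (by simpa using hζ), norm_zero]

theorem Vs_N2 : ∃ M : ℝ≥0∞, M ≠ ⊤ ∧ ∀ φ, IsTest φ →
    N2 (fun p => (rho p.1)⁻¹ * Vs φ p) ≤ M * N2 φ := by
  obtain ⟨M, hM, h⟩ := schur_fst
  refine ⟨M, hM, fun φ hφ => h _ _
    ((contDiff_rho_inv.comp contDiff_fst).mul (Vs_contDiff hφ)).continuous hφ.1.continuous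
    fun z w => ?_⟩
  have hc := hφ.1.continuous
  simp only [Vs, Pi.add_apply, Cv_fst]
  rw [← integral_add (integrable_fst ck_loc hc hφ.loc1 z w)
    (integrable_fst one_loc hφ.be_mul.1.continuous hφ.be_mul.loc1 z w), ← integral_const_mul,
    ← lintegral_const_mul' _ _ (by simp [sw])]
  refine (enorm_integral_le_lintegral_enorm _).trans (lintegral_mono_ae ?_)
  filter_upwards [Measure.ae_ne volume z] with ζ hζ
  have h1 : (rho z)⁻¹ * (ck (z - ζ) * φ (ζ, w) + 1 * (be ζ * φ (ζ, w))) =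
      (rho z)⁻¹ * (ck (z - ζ) + be ζ) * φ (ζ, w) := by ring
  rw [h1, enorm_mul]
  refine (mul_le_mul_left (ker_le hζ) _).trans_eq ?_
  ring

theorem memLp_T {φ : ℂ × ℂ → ℂ} (hφ : IsTest φ) :
    MemLp (fun p : ℂ × ℂ => (rho p.1)⁻¹ * Vs φ p) 2 (volume.restrict Om) := by
  obtain ⟨M, hM, h⟩ := Vs_N2
  exact memLp_of_N2 ((contDiff_rho_inv.comp contDiff_fst).mul
    (Vs_contDiff hφ)).continuous.aestronglyMeasurable
    (ne_top_of_le_ne_top (ENNReal.mul_ne_top hM (N2_ne_top hφ.memLp)) (h φ hφ))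

theorem rep {h a φ : ℂ × ℂ → ℂ} (hh : MemLp h 2 (volume.restrict Om)) (hw : WD dzb h a)
    (ha : MemLp (fun p : ℂ × ℂ => rho p.1 * a p) 2 (volume.restrict Om)) (hφ : IsTest φ) :
    ∫ p in Om, h p * φ p = -∫ p in Om, rho p.1 * a p * ((rho p.1)⁻¹ * Vs φ p) := by
  obtain ⟨K, hK⟩ := Vs_bdd hφ
  obtain ⟨S, r, -, hr, -, h2⟩ := hφ.bounds
  have e : (fun p : ℂ × ℂ => rho p.1 * a p * ((rho p.1)⁻¹ * Vs φ p)) = fun p => a p * Vs φ p := by
    funext p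
    have := rho_ne p.1
    field_simp
  have h3 := WD.ext_bdd (s := 1) hw hh (Vs_contDiff hφ) hr (fun p hp => by
    rw [Vs, Pi.add_apply, Cv_fst_zero _ h2 p hp,
      Cv_fst_zero _ (fun q hq => by rw [h2 q hq, mul_zero]) p hp, add_zero]) hK
    (by rw [dzb_Vs hφ]; exact hh.integrable_mul hφ.memLp)
    (by rw [← e]; exact ha.integrable_mul (memLp_T hφ))
  rwa [dzb_Vs hφ, ← e] at h3

theorem solve : ∃ M : ℝ≥0∞, M ≠ ⊤ ∧ ∀ F, MemLp F 2 (volume.restrict Om) →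
    ∃ u, MemLp u 2 (volume.restrict Om) ∧ N2 u ≤ M * N2 F ∧ ∀ φ, IsTest φ →
      ∫ p in Om, u p * φ p = -∫ p in Om, F p * ((rho p.1)⁻¹ * Vs φ p) := by
  obtain ⟨M, hM, h⟩ := Vs_N2
  refine ⟨M, hM, fun F hF => ?_⟩
  obtain ⟨u, h1, h2, h3⟩ := riesz (T := fun φ p => (rho p.1)⁻¹ * Vs φ p) hM
    (fun φ ψ hφ hψ => by
      funext p
      have e : (fun q : ℂ × ℂ => be q.1 * (φ + ψ) q) =
          (fun q : ℂ × ℂ => be q.1 * φ q) + fun q : ℂ × ℂ => be q.1 * ψ q := by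
        funext q
        simp [mul_add]
      rw [Vs, e, Cv_add ck_loc hφ.1.continuous hφ.loc1 hψ.1.continuous hψ.loc1,
        Cv_add one_loc hφ.be_mul.1.continuous hφ.be_mul.loc1 hψ.be_mul.1.continuous
          hψ.be_mul.loc1]
      simp only [Vs, Pi.add_apply]
      ring)
    (fun c φ hφ => by
      funext p
      have e : (fun q : ℂ × ℂ => be q.1 * (c • φ) q) = c • fun q : ℂ × ℂ => be q.1 * φ q := by
        funext q
        simp [mul_left_comm]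
      rw [Vs, e, Cv_smul, Cv_smul]
      simp only [Vs, Pi.add_apply, Pi.smul_apply, smul_eq_mul]
      ring)
    (fun φ hφ => ((contDiff_rho_inv.comp contDiff_fst).mul (Vs_contDiff hφ)).continuous) h hF
  refine ⟨-u, h1.neg, by simpa [N2] using h2, fun φ hφ => ?_⟩
  rw [← h3 φ hφ, ← integral_neg]
  simp

theorem fs_nonneg (p : ℂ × ℂ) (a b : ℂ) : 0 ≤ fs p a b := by
  unfold fs
  positivity

theorem fs_low {p : ℂ × ℂ} (hp : p ∈ Om) (a b : ℂ) :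
    ‖rho p.1 * a‖ ^ 2 ≤ 2 * fs p a b ∧ ‖a‖ ^ 2 ≤ 2 * fs p a b ∧ ‖b‖ ^ 2 ≤ 2 * fs p a b := by
  have h1 : ‖p.2‖ < 1 := hp
  have h2 : ‖p.1‖ * ‖a‖ ≤ ‖conj p.1 * a + conj p.2 * b‖ + ‖b‖ := by
    have h3 := norm_sub_le (conj p.1 * a + conj p.2 * b) (conj p.2 * b)
    rw [add_sub_cancel_right, norm_mul, norm_mul, RCLike.norm_conj, RCLike.norm_conj] at h3
    nlinarith [norm_nonneg b, norm_nonneg p.2]
  rw [norm_mul, norm_rho, fs]
  have h4 := pow_le_pow_left₀ (by positivity) h2 2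
  generalize ‖conj p.1 * a + conj p.2 * b‖ = e at *
  have h5 : (1 + ‖p.1‖ ^ 2) * ‖a‖ ^ 2 ≤ 2 * (‖a‖ ^ 2 + ‖b‖ ^ 2 + e ^ 2) := by
    nlinarith [sq_nonneg (e - ‖b‖), sq_nonneg ‖a‖]
  have h6 : 0 ≤ ‖a‖ ^ 2 + ‖b‖ ^ 2 + e ^ 2 := by positivity
  have h7 := mul_nonneg (add_nonneg (sq_nonneg ‖p.1‖) (sq_nonneg ‖p.2‖)) h6
  refine ⟨?_, by nlinarith [sq_nonneg ‖b‖, sq_nonneg e, sq_nonneg ‖a‖],
    by nlinarith [sq_nonneg ‖b‖, sq_nonneg e, sq_nonneg ‖a‖]⟩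
  nlinarith [mul_le_mul_of_nonneg_left h5 (show 0 ≤ 1 + ‖p.1‖ ^ 2 by positivity),
    mul_nonneg (sq_nonneg ‖p.2‖) h6]

theorem N2_le {F : ℂ × ℂ → ℂ} {g : ℂ × ℂ → ℝ} (hg : IntegrableOn g Om)
    (h : ∀ p ∈ Om, ‖F p‖ ^ 2 ≤ g p) : N2 F ≤ ENNReal.ofReal (∫ p in Om, g p) := by
  rw [ofReal_integral_eq_lintegral_ofReal hg (by
    filter_upwards [ae_restrict_mem isOpen_Om.measurableSet] with p hp
    exact (sq_nonneg _).trans (h p hp))]
  refine setLIntegral_mono_ae' isOpen_Om.measurableSet (Eventually.of_forall fun p hp => ?_)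
  rw [← ofReal_norm, ← ENNReal.ofReal_pow (norm_nonneg _)]
  exact ENNReal.ofReal_le_ofReal (h p hp)

theorem L21.N2_le {a b : ℂ × ℂ → ℂ} (h : L21 a b) :
    N2 (fun p => rho p.1 * a p) ≤ ENNReal.ofReal (2 * ∫ p in Om, fs p (a p) (b p)) ∧
      N2 a ≤ ENNReal.ofReal (2 * ∫ p in Om, fs p (a p) (b p)) ∧
      N2 b ≤ ENNReal.ofReal (2 * ∫ p in Om, fs p (a p) (b p)) := by
  rw [← integral_const_mul]
  exact ⟨MP_2de762_an.N2_le (h.2.2.const_mul 2) fun p hp => (fs_low hp _ _).1,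
    MP_2de762_an.N2_le (h.2.2.const_mul 2) fun p hp => (fs_low hp _ _).2.1,
    MP_2de762_an.N2_le (h.2.2.const_mul 2) fun p hp => (fs_low hp _ _).2.2⟩

theorem L21.memLp {a b : ℂ × ℂ → ℂ} (h : L21 a b) :
    MemLp (fun p : ℂ × ℂ => rho p.1 * a p) 2 (volume.restrict Om) ∧
      MemLp a 2 (volume.restrict Om) ∧ MemLp b 2 (volume.restrict Om) :=
  ⟨memLp_of_N2 ((contDiff_rho.continuous.comp continuous_fst).aestronglyMeasurable.mul h.1)
      (ne_top_of_le_ne_top ENNReal.ofReal_ne_top h.N2_le.1),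
    memLp_of_N2 h.1 (ne_top_of_le_ne_top ENNReal.ofReal_ne_top h.N2_le.2.1),
    memLp_of_N2 h.2.1 (ne_top_of_le_ne_top ENNReal.ofReal_ne_top h.N2_le.2.2)⟩

theorem fs_meas {a b : ℂ × ℂ → ℂ} (ha : AEStronglyMeasurable a (volume.restrict Om))
    (hb : AEStronglyMeasurable b (volume.restrict Om)) :
    AEStronglyMeasurable (fun p => fs p (a p) (b p)) (volume.restrict Om) := by
  have c1 : Continuous fun p : ℂ × ℂ => conj p.1 := by fun_prop
  have c2 : Continuous fun p : ℂ × ℂ => conj p.2 := by fun_prop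
  have c3 : Continuous fun p : ℂ × ℂ => 1 + ‖p.1‖ ^ 2 + ‖p.2‖ ^ 2 := by fun_prop
  exact c3.aestronglyMeasurable.mul (((ha.norm.pow 2).add (hb.norm.pow 2)).add
    (((c1.aestronglyMeasurable.mul ha).add (c2.aestronglyMeasurable.mul hb)).norm.pow 2))

theorem sq_sub_le (x y : ℂ) : ‖x - y‖ ^ 2 ≤ 2 * ‖x‖ ^ 2 + 2 * ‖y‖ ^ 2 := by
  nlinarith [pow_le_pow_left₀ (norm_nonneg _) (norm_sub_le x y) 2, sq_nonneg (‖x‖ - ‖y‖)]

theorem L21.sub {a b A B : ℂ × ℂ → ℂ} (h : L21 a b) (h' : L21 A B) :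
    L21 (fun p => a p - A p) fun p => b p - B p := by
  refine ⟨h.1.sub h'.1, h.2.1.sub h'.2.1, Integrable.mono' ((h.2.2.const_mul 2).add
    (h'.2.2.const_mul 2)) (fs_meas (h.1.sub h'.1) (h.2.1.sub h'.2.1))
    (Eventually.of_forall fun p => ?_)⟩
  rw [Real.norm_of_nonneg (fs_nonneg _ _ _)]
  have e : conj p.1 * (a p - A p) + conj p.2 * (b p - B p) =
      (conj p.1 * a p + conj p.2 * b p) - (conj p.1 * A p + conj p.2 * B p) := by ring
  simp only [fs, Pi.add_apply, e]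
  nlinarith [mul_le_mul_of_nonneg_left (add_le_add (add_le_add (sq_sub_le (a p) (A p))
    (sq_sub_le (b p) (B p))) (sq_sub_le (conj p.1 * a p + conj p.2 * b p)
    (conj p.1 * A p + conj p.2 * B p))) (show 0 ≤ 1 + ‖p.1‖ ^ 2 + ‖p.2‖ ^ 2 by positivity)]

theorem tendsto_pair {F : ℕ → ℂ × ℂ → ℂ} {A G : ℂ × ℂ → ℂ} {e : ℕ → ℝ}
    (hF : ∀ n, MemLp (F n) 2 (volume.restrict Om)) (hA : MemLp A 2 (volume.restrict Om))
    (hG : MemLp G 2 (volume.restrict Om)) (he : Tendsto e atTop (𝓝 0))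
    (hb : ∀ n, N2 (fun p => F n p - A p) ≤ ENNReal.ofReal (2 * e n)) :
    Tendsto (fun n => ∫ p in Om, F n p * G p) atTop (𝓝 (∫ p in Om, A p * G p)) := by
  have t1 : Tendsto (fun n => ENNReal.ofReal (2 * e n)) atTop (𝓝 0) := by
    simpa using ENNReal.tendsto_ofReal (he.const_mul 2)
  have t2 := ENNReal.Tendsto.mul_const t1 (Or.inr (N2_ne_top hG))
  rw [zero_mul] at t2
  have t3 : Tendsto (fun n => ‖∫ p in Om, (F n p - A p) * G p‖ₑ ^ 2) atTop (𝓝 0) :=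
    tendsto_of_tendsto_of_tendsto_of_le_of_le tendsto_const_nhds t2 (fun _ => zero_le)
      fun n => (pair_le ((hF n).1.sub hA.1) hG.1).trans (mul_le_mul_left (hb n) _)
  have t5 := ((ENNReal.tendsto_toReal ENNReal.zero_ne_top).comp t3).sqrt
  rw [tendsto_iff_norm_sub_tendsto_zero]
  have e1 : ∀ n, (∫ p in Om, F n p * G p) - ∫ p in Om, A p * G p =
      ∫ p in Om, (F n p - A p) * G p := fun n => by
    simp only [sub_mul]
    exact (integral_sub ((hF n).integrable_mul hG) (hA.integrable_mul hG)).symm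
  simpa [Function.comp_def, e1] using t5

theorem estimate : ∃ C : ℝ, ∀ h a b : ℂ × ℂ → ℂ, MemLp h 2 (volume.restrict Om) → L21 a b →
    WD dzb h a → ∫ p in Om, ‖h p‖ ^ 2 ≤ C * ∫ p in Om, fs p (a p) (b p) := by
  obtain ⟨M, hM, hs⟩ := solve
  refine ⟨M.toReal * 2, fun h a b hh hL hw => ?_⟩
  obtain ⟨u, h1, h2, h3⟩ := hs _ hL.memLp.1
  have h4 : h =ᵐ[volume.restrict Om] u := ae_eq_of_tests (locInt_of_memLp hh) (locInt_of_memLp h1)
    fun φ hφ => (rep hh hw hL.memLp.1 hφ).trans (h3 φ hφ).symm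
  have h5 : N2 h = N2 u := lintegral_congr_ae (h4.mono fun p hp => by simp only [hp])
  have h6 : ENNReal.ofReal (∫ p in Om, ‖h p‖ ^ 2) = N2 h := by
    rw [ofReal_integral_eq_lintegral_ofReal ((memLp_two_iff_integrable_sq_norm hh.1).1 hh)
      (Eventually.of_forall fun p => sq_nonneg _)]
    simp only [ENNReal.ofReal_pow (norm_nonneg _), ofReal_norm, N2]
  have h7 : 0 ≤ ∫ p in Om, fs p (a p) (b p) := integral_nonneg fun p => fs_nonneg _ _ _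
  rw [← ENNReal.ofReal_le_ofReal_iff (by positivity), h6, h5, mul_assoc,
    ENNReal.ofReal_mul ENNReal.toReal_nonneg, ENNReal.ofReal_toReal hM]
  exact h2.trans (mul_le_mul_right hL.N2_le.1 _)

theorem closed_range (h a b : ℕ → ℂ × ℂ → ℂ) (A B : ℂ × ℂ → ℂ)
    (hn : ∀ n, MemLp (h n) 2 (volume.restrict Om) ∧ L21 (a n) (b n) ∧ WD dzb (h n) (a n) ∧
      WD dwb (h n) (b n)) (hL : L21 A B)
    (he : Tendsto (fun n => ∫ p in Om, fs p (a n p - A p) (b n p - B p)) atTop (𝓝 0)) :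
    ∃ H, MemLp H 2 (volume.restrict Om) ∧ WD dzb H A ∧ WD dwb H B := by
  obtain ⟨M, -, hs⟩ := solve
  obtain ⟨u, h1, -, h3⟩ := hs _ hL.memLp.1
  have t : ∀ φ, IsTest φ →
      Tendsto (fun n => ∫ p in Om, h n p * φ p) atTop (𝓝 (∫ p in Om, u p * φ p)) := fun φ hφ => by
    rw [h3 φ hφ]
    simp only [fun n => rep (hn n).1 (hn n).2.2.1 (hn n).2.1.memLp.1 hφ]
    exact (tendsto_pair (fun n => (hn n).2.1.memLp.1) hL.memLp.1 (memLp_T hφ) he fun n => by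
      simpa only [mul_sub] using ((hn n).2.1.sub hL).N2_le.1).neg
  refine ⟨u, h1, fun φ hφ => tendsto_nhds_unique (t _ (hφ.wirt _ _)) ?_,
    fun φ hφ => tendsto_nhds_unique (t _ (hφ.wirt _ _)) ?_⟩
  · exact ((tendsto_pair (fun n => (hn n).2.1.memLp.2.1) hL.memLp.2.1 hφ.memLp he fun n =>
      ((hn n).2.1.sub hL).N2_le.2.1).neg).congr fun n => ((hn n).2.2.1 φ hφ).symm
  · exact ((tendsto_pair (fun n => (hn n).2.1.memLp.2.2) hL.memLp.2.2 hφ.memLp he fun n =>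
      ((hn n).2.1.sub hL).N2_le.2.2).neg).congr fun n => ((hn n).2.2.2 φ hφ).symm

end

end Pool.Agent.Lib.MP_2de762_an
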