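import Pool.Agent.Lib.MP_2de762_an.H98Good

/-! The solution in `W1`, by duality. -/

namespace Pool.Agent.Lib.MP_2de762_an

open Set Metric MeasureTheory Filter Topology ComplexConjugate
open scoped ContDiff ENNReal

noncomputable section

/-- Linear operators on test functions that are bounded for the weight `m`. -/
def Bd (m : ℂ → ℂ) (T : (ℂ × ℂ → ℂ) → ℂ × ℂ → ℂ) : Prop :=
  (∀ φ ψ, IsTest φ → IsTest ψ → T (φ + ψ) = T φ + T ψ) ∧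
  (∀ (c : ℂ) φ, IsTest φ → T (c • φ) = c • T φ) ∧ (∀ φ, IsTest φ → ContDiff ℝ ∞ (T φ)) ∧
  ∃ C : ℝ≥0∞, C ≠ ⊤ ∧ ∀ φ, IsTest φ → N2 (T φ) ≤ C * N2 fun p => m p.1 * φ p

/-- The values vanish near `|w| = 1`. -/
def Sw (T : (ℂ × ℂ → ℂ) → ℂ × ℂ → ℂ) : Prop :=
  ∀ φ, IsTest φ → ∃ r : ℝ, r < 1 ∧ ∀ p, r < ‖p.2‖ → T φ p = 0

theorem Bd.memLp {m : ℂ → ℂ} {T : (ℂ × ℂ → ℂ) → ℂ × ℂ → ℂ} (h : Bd m T) (hm : ContDiff ℝ ∞ m)
    {φ : ℂ × ℂ → ℂ} (hφ : IsTest φ) : MemLp (T φ) 2 (volume.restrict Om) := by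
  obtain ⟨-, -, h3, C, hC, h4⟩ := h
  exact memLp_of_N2 (h3 φ hφ).continuous.aestronglyMeasurable (ne_top_of_le_ne_top
    (ENNReal.mul_ne_top hC (N2_ne_top (hφ.mul (hm.comp contDiff_fst)).memLp)) (h4 φ hφ))

theorem Bd.rep {m : ℂ → ℂ} {T : (ℂ × ℂ → ℂ) → ℂ × ℂ → ℂ} (h : Bd m T) (hm : ContDiff ℝ ∞ m)
    (hm0 : ∀ z, m z ≠ 0) {a : ℂ × ℂ → ℂ} (ha : MemLp a 2 (volume.restrict Om)) :
    ∃ u, Lw m u ∧ ∀ φ, IsTest φ → ∫ p in Om, u p * φ p = ∫ p in Om, a p * T φ p := by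
  obtain ⟨C, hC, h4⟩ := h.2.2.2
  refine rieszw (C := N2 a * C) (ENNReal.mul_ne_top (N2_ne_top ha) hC) hm hm0
    (fun φ ψ hφ hψ => ?_) (fun c φ hφ => ?_) fun φ hφ => ?_
  · simp only [h.1 φ ψ hφ hψ, Pi.add_apply, mul_add]
    exact integral_add (ha.integrable_mul (h.memLp hm hφ)) (ha.integrable_mul (h.memLp hm hψ))
  · rw [h.2.1 c φ hφ, ← integral_const_mul]
    simp only [Pi.smul_apply, smul_eq_mul, mul_left_comm]
  · rw [mul_assoc]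
    exact (pair_le ha.1 (h.memLp hm hφ).1).trans (mul_le_mul_right (h4 φ hφ) _)

theorem rep3 {m : ℂ → ℂ} {T1 T2 T3 : (ℂ × ℂ → ℂ) → ℂ × ℂ → ℂ} (h1 : Bd m T1) (h2 : Bd m T2)
    (h3 : Bd m T3) (hm : ContDiff ℝ ∞ m) (hm0 : ∀ z, m z ≠ 0) {a1 a2 a3 : ℂ × ℂ → ℂ}
    (m1 : MemLp a1 2 (volume.restrict Om)) (m2 : MemLp a2 2 (volume.restrict Om))
    (m3 : MemLp a3 2 (volume.restrict Om)) (e1 e2 e3 : ℂ) :
    ∃ u, Lw m u ∧ ∀ φ, IsTest φ → ∫ p in Om, u p * φ p = e1 * (∫ p in Om, a1 p * T1 φ p) +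
      e2 * (∫ p in Om, a2 p * T2 φ p) + e3 * ∫ p in Om, a3 p * T3 φ p := by
  obtain ⟨u1, l1, k1⟩ := h1.rep hm hm0 (m1.const_mul e1)
  obtain ⟨u2, l2, k2⟩ := h2.rep hm hm0 (m2.const_mul e2)
  obtain ⟨u3, l3, k3⟩ := h3.rep hm hm0 (m3.const_mul e3)
  have i := fun {u φ} (l : Lw m u) (hφ : IsTest φ) =>
    int_test (loc_of_w hm.continuous hm0 l) hφ
  refine ⟨fun p => u1 p + u2 p + u3 p, ?_, fun φ hφ => ?_⟩
  · simp only [Lw, mul_add]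
    exact (MemLp.add l1 l2).add l3
  · simp only [add_mul]
    refine (integral_add ((i l1 hφ).add (i l2 hφ)) (i l3 hφ)).trans ?_
    simp only [Pi.add_apply]
    rw [integral_add (i l1 hφ) (i l2 hφ), k1 φ hφ, k2 φ hφ, k3 φ hφ]
    simp only [mul_assoc, integral_const_mul]

theorem Bd.cw {m : ℂ → ℂ} {T : (ℂ × ℂ → ℂ) → ℂ × ℂ → ℂ} (h : Bd m T) (hs : Sw T) :
    Bd m (fun φ => Cv ck (0, 1) (T φ)) ∧
      Bd m fun φ => wirt (0, 1) (-1) (Cv ck (0, 1) (T φ)) := by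
  obtain ⟨h1, h2, h3, C, hC, h4⟩ := h
  obtain ⟨M, hM, hW⟩ := N2_Cw
  have l : ∀ φ, IsTest φ → Loc (0, 1) (T φ) := fun φ hφ => by
    obtain ⟨r, -, hr⟩ := hs φ hφ
    exact loc_snd hr
  have s : ∀ φ, IsTest φ → ContDiff ℝ ∞ (Cv ck (0, 1) (T φ)) := fun φ hφ =>
    Cv_contDiff ck_loc (h3 φ hφ) (l φ hφ)
  have a : ∀ φ ψ, IsTest φ → IsTest ψ →
      Cv ck (0, 1) (T (φ + ψ)) = Cv ck (0, 1) (T φ) + Cv ck (0, 1) (T ψ) := fun φ ψ hφ hψ => by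
    rw [h1 φ ψ hφ hψ, Cv_add ck_loc (h3 φ hφ).continuous (l φ hφ) (h3 ψ hψ).continuous (l ψ hψ)]
  have b : ∀ (c : ℂ) φ, IsTest φ → Cv ck (0, 1) (T (c • φ)) = c • Cv ck (0, 1) (T φ) :=
    fun c φ hφ => by rw [h2 c φ hφ, Cv_smul]
  refine ⟨⟨a, b, s, M * C, ENNReal.mul_ne_top hM hC, fun φ hφ => ?_⟩,
    fun φ ψ hφ hψ => ?_, fun c φ hφ => ?_, fun φ hφ => contDiff_wirt (s φ hφ) _ _, 2 * C,
    by finiteness, fun φ hφ => ?_⟩
  · obtain ⟨r, hr, h5⟩ := hs φ hφ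
    rw [mul_assoc]
    exact (hW _ r (h3 φ hφ) hr h5).trans (mul_le_mul_right (h4 φ hφ) _)
  · simp only [a φ ψ hφ hψ, wirt_add (s φ hφ) (s ψ hψ)]
  · simp only [b c φ hφ, wirt_smul (s φ hφ)]
  · obtain ⟨r, hr, h5⟩ := hs φ hφ
    rw [mul_assoc]
    exact (N2_beur_snd (h3 φ hφ) hr h5).trans (mul_le_mul_right (h4 φ hφ) _)

theorem bd_mul {m : ℂ → ℂ} (hm : ContDiff ℝ ∞ m) :
    Bd m (fun φ p => m p.1 * φ p) ∧ Sw fun φ p => m p.1 * φ p := by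
  refine ⟨⟨fun φ ψ _ _ => ?_, fun c φ _ => ?_, fun φ hφ => (hφ.mul (hm.comp contDiff_fst)).1, 1,
    ENNReal.one_ne_top, fun φ _ => (one_mul _).ge⟩, fun φ hφ => ?_⟩
  · funext p
    simp [mul_add]
  · funext p
    simp [mul_left_comm]
  · obtain ⟨S, r, -, hr, -, h⟩ := hφ.bounds
    exact ⟨r, hr, fun p hp => by simp [h p hp]⟩

theorem bd_beur : Bd sr (fun φ => wirt (1, 0) (-1) (Cv ck (1, 0) φ)) ∧
    Sw fun φ => wirt (1, 0) (-1) (Cv ck (1, 0) φ) := by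
  have s : ∀ φ, IsTest φ → ContDiff ℝ ∞ (Cv ck (1, 0) φ) := fun φ hφ =>
    Cv_contDiff ck_loc hφ.1 hφ.loc1
  refine ⟨⟨fun φ ψ hφ hψ => ?_, fun c φ hφ => ?_, fun φ hφ => contDiff_wirt (s φ hφ) _ _, 2,
    by simp, fun φ hφ => (N2_beur_fst hφ.1 hφ.loc1).trans (mul_le_mul_right
      (lintegral_mono fun p => pow_le_pow_left' ?_ 2) _)⟩, fun φ hφ => ?_⟩
  · simp only [Cv_add ck_loc hφ.1.continuous hφ.loc1 hψ.1.continuous hψ.loc1,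
      wirt_add (s φ hφ) (s ψ hψ)]
  · simp only [Cv_smul, wirt_smul (s φ hφ)]
  · rw [← ofReal_norm, ← ofReal_norm, norm_mul]
    exact ENNReal.ofReal_le_ofReal (le_mul_of_one_le_left (norm_nonneg _) (le_sr _).2)
  · obtain ⟨S, r, -, hr, -, h⟩ := hφ.bounds
    exact ⟨r, hr, wirt_eq_zero (U := {p | r < ‖p.2‖}) (isOpen_lt continuous_const (by fun_prop))
      (Cv_fst_zero _ h) _ _⟩

/-- The transpose of the solution operator of the sphere. -/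
def Ps (φ : ℂ × ℂ → ℂ) : ℂ × ℂ → ℂ :=
  (fun p => be p.1 * Cv (fun _ => 1) (1, 0) φ p) + (-1 : ℂ) • Cv ck (1, 0) φ

theorem contDiff_smul' {φ : ℂ × ℂ → ℂ} (h : ContDiff ℝ ∞ φ) (c : ℂ) : ContDiff ℝ ∞ (c • φ) :=
  contDiff_const.mul h

theorem bd_Ps : Bd rho Ps ∧ Sw Ps := by
  have s : ∀ φ, IsTest φ → ContDiff ℝ ∞ (Ps φ) := fun φ hφ =>
    ((contDiff_be.comp contDiff_fst).mul (Cv_contDiff one_loc hφ.1 hφ.loc1)).add
      (contDiff_smul' (Cv_contDiff ck_loc hφ.1 hφ.loc1) _)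
  obtain ⟨M, hM, h⟩ := schur_fst
  refine ⟨⟨fun φ ψ hφ hψ => ?_, fun c φ hφ => ?_, s, M, hM, fun φ hφ => h _ _ (s φ hφ).continuous
    (hφ.mul (contDiff_rho.comp contDiff_fst)).1.continuous fun z w => ?_⟩, fun φ hφ => ?_⟩
  · funext p
    simp only [Ps, Cv_add ck_loc hφ.1.continuous hφ.loc1 hψ.1.continuous hψ.loc1,
      Cv_add one_loc hφ.1.continuous hφ.loc1 hψ.1.continuous hψ.loc1, Pi.add_apply,
      Pi.smul_apply, smul_eq_mul]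
    ring
  · funext p
    simp only [Ps, Cv_smul, Pi.add_apply, Pi.smul_apply, smul_eq_mul]
    ring
  · have hc := hφ.1.continuous
    simp only [Ps, Pi.add_apply, Pi.smul_apply, smul_eq_mul, Cv_fst]
    rw [← integral_const_mul, ← integral_const_mul, ← integral_add
      ((integrable_fst one_loc hc hφ.loc1 z w).const_mul _)
      ((integrable_fst ck_loc hc hφ.loc1 z w).const_mul _), ← lintegral_const_mul' _ _ (by simp [sw])]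
    refine (enorm_integral_le_lintegral_enorm _).trans (lintegral_mono_ae ?_)
    filter_upwards [Measure.ae_ne volume z] with ζ hζ
    have h1 : be z * (1 * φ (ζ, w)) + -1 * (ck (z - ζ) * φ (ζ, w)) =
        (rho ζ)⁻¹ * (ck (ζ - z) + be z) * (rho ζ * φ (ζ, w)) := by
      have := rho_ne ζ
      rw [← neg_sub ζ z, ck, ck, inv_neg]
      field_simp
      ring
    rw [h1, enorm_mul]
    refine (mul_le_mul_left (ker_le hζ.symm) _).trans_eq ?_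
    rw [ka, ka, norm_sub_rev]
    ring
  · obtain ⟨S, r, -, hr, -, h⟩ := hφ.bounds
    exact ⟨r, hr, fun p hp => by simp [Ps, Cv_fst_zero _ h p hp]⟩

theorem Ps_w {φ : ℂ × ℂ → ℂ} (hφ : IsTest φ) (s : ℂ) :
    Ps (wirt (0, 1) s φ) = wirt (0, 1) s (Ps φ) := by
  have s1 := Cv_contDiff one_loc hφ.1 hφ.loc1
  have s2 := Cv_contDiff ck_loc hφ.1 hφ.loc1
  have s3 : ContDiff ℝ ∞ fun p : ℂ × ℂ => be p.1 := contDiff_be.comp contDiff_fst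
  rw [Ps, Ps, wirt_add (s3.mul s1) (contDiff_smul' s2 _), wirt_smul s2,
    wirt_Cv ck_loc hφ.1 hφ.loc1]
  congr 1
  funext p
  rw [wirt_mul s3 s1, (wirt_fst contDiff_be _ _).2, wirt_Cv one_loc hφ.1 hφ.loc1, mul_zero,
    add_zero]

theorem Ps_z {φ : ℂ × ℂ → ℂ} (hφ : IsTest φ) (s : ℂ) :
    Ps (wirt (1, 0) s φ) = (-1 : ℂ) • wirt (1, 0) s (Cv ck (1, 0) φ) := by
  rw [Ps, ← wirt_Cv one_loc hφ.1 hφ.loc1, Cv_one_wirt hφ.1 hφ.loc1, wirt_Cv ck_loc hφ.1 hφ.loc1]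
  funext p
  simp

theorem Cw_mul (m : ℂ → ℂ) (φ : ℂ × ℂ → ℂ) (p : ℂ × ℂ) :
    Cv ck (0, 1) (fun q => m q.1 * φ q) p = m p.1 * Cv ck (0, 1) φ p := by
  obtain ⟨z, w⟩ := p
  rw [Cv_snd, Cv_snd, ← integral_const_mul]
  simp only [mul_left_comm]

theorem int_neg (f g : ℂ × ℂ → ℂ) :
    ∫ p in Om, f p * ((-1 : ℂ) • g) p = -∫ p in Om, f p * g p := by
  rw [← integral_neg]
  simp

theorem solve_w1 {f1 f2 : ℂ × ℂ → ℂ} (h : W1Form f1 f2)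
    (hc : ∀ φ, IsTest φ → ∫ p in Om, f1 p * dwb φ p = ∫ p in Om, f2 p * dzb φ p) :
    ∃ u, W1 u ∧ WD dzb u f1 ∧ WD dwb u f2 := by
  obtain ⟨c, g, a, m1, mc, mg, l2, la, wc, wg, wa⟩ := h.data
  have wg2 : WD (wirt (1, 0) 1) f2 g := fun φ hφ => (hc φ hφ).symm.trans (wg φ hφ)
  have R := bd_mul contDiff_rho
  have CR := R.1.cw R.2
  have Q := bd_mul contDiff_sr
  have CQ := Q.1.cw Q.2
  have CP := bd_Ps.1.cw bd_Ps.2
  have CB := bd_beur.1.cw bd_beur.2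
  have ew : ∀ (m : ℂ → ℂ), (∀ z, m z ≠ 0) → ∀ f φ : ℂ × ℂ → ℂ,
      (fun p => (m p.1)⁻¹ * f p * Cv ck (0, 1) (fun q => m q.1 * φ q) p) =
        fun p => f p * Cv ck (0, 1) φ p := fun m hm f φ => by
    funext p
    have := hm p.1
    rw [Cw_mul]
    field_simp
  have i2 : ∀ φ, IsTest φ → IntegrableOn (fun p => f2 p * Cv ck (0, 1) φ p) Om := fun φ hφ => by
    rw [← ew rho rho_ne]
    exact MemLp.integrable_mul l2 (CR.1.memLp contDiff_rho hφ)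
  have iz : ∀ (s : ℂ) (x : ℂ × ℂ → ℂ) φ, IsTest φ → WD (wirt (1, 0) s) f2 x →
      IntegrableOn (fun p => x p * Cv ck (0, 1) φ p) Om →
      ∫ p in Om, f2 p * Cv ck (0, 1) (wirt (1, 0) s φ) p = -∫ p in Om, x p * Cv ck (0, 1) φ p :=
    fun s x φ hφ wx ix => by
      obtain ⟨S, r, -, -, h1, -⟩ := hφ.bounds
      rw [← wirt_Cv ck_loc hφ.1 hφ.loc2]
      refine wx.ext_z (Cv_contDiff ck_loc hφ.1 hφ.loc2) (Cv_snd_zero _ h1) ?_ ix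
      rw [wirt_Cv ck_loc hφ.1 hφ.loc2]
      exact i2 _ (hφ.wirt _ _)
  have iw : ∀ (s : ℂ) (x : ℂ × ℂ → ℂ) φ, IsTest φ → WD (wirt (0, 1) s) f1 x →
      MemLp x 2 (volume.restrict Om) →
      ∫ p in Om, f1 p * Ps (wirt (0, 1) s φ) p = -∫ p in Om, x p * Ps φ p :=
    fun s x φ hφ wx mx => by
      obtain ⟨r, hr, h1⟩ := bd_Ps.2 φ hφ
      rw [Ps_w hφ]
      refine wx.ext_w (bd_Ps.1.2.2.1 φ hφ) hr h1 ?_
        (mx.integrable_mul (bd_Ps.1.memLp contDiff_rho hφ))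
      rw [← Ps_w hφ]
      exact m1.integrable_mul (bd_Ps.1.memLp contDiff_rho (hφ.wirt _ _))
  have lP : ∀ φ, IsTest φ → Loc (0, 1) (Ps φ) := fun φ hφ => by
    obtain ⟨r, -, hr⟩ := bd_Ps.2 φ hφ
    exact loc_snd hr
  obtain ⟨u, lu, hu⟩ := rep3 CR.1 bd_Ps.1 CP.1 contDiff_rho rho_ne l2 m1 mg (-1) 1 1
  simp only [ew rho rho_ne] at hu
  obtain ⟨x, lx, hx⟩ := rep3 CR.2 bd_Ps.1 CP.2 contDiff_rho rho_ne l2 mc mg 1 1 (-1)
  obtain ⟨y, ly, hy⟩ := rep3 CQ.1 bd_beur.1 CB.1 contDiff_sr sr_ne la m1 mg (-1) 1 1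
  simp only [ew sr sr_ne] at hy
  have k1 : WD dzb u f1 := fun φ hφ => by
    have o := bd_mul (m := fun _ => 1) contDiff_const
    have ig : IntegrableOn (fun p => g p * Cv ck (0, 1) φ p) Om := by
      have := (o.1.cw o.2).1.memLp contDiff_const hφ
      simp only [one_mul] at this
      exact mg.integrable_mul this
    rw [dzb, hu _ (hφ.wirt _ _), iz 1 g φ hφ wg2 ig, Ps_z hφ, wirt_Cv ck_loc hφ.1 hφ.loc1,
      Cv_wirt hφ.1 hφ.loc1, Cv_smul, int_neg, int_neg]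
    ring
  have k2 : WD dwb u f2 := fun φ hφ => by
    rw [dwb, hu _ (hφ.wirt _ _), iw 1 g φ hφ wg mg, Cv_wirt hφ.1 hφ.loc2, Ps_w hφ,
      Cv_wirt (bd_Ps.1.2.2.1 φ hφ) (lP φ hφ)]
    ring
  have k3 : WD dw u x := fun φ hφ => by
    have t := hφ.mul (contDiff_rho.comp contDiff_fst)
    have e : (fun q : ℂ × ℂ => rho q.1 * wirt (0, 1) (-1) φ q) =
        wirt (0, 1) (-1) fun q => rho q.1 * φ q := by
      funext p
      rw [wirt_mul (β := fun q => rho q.1) (contDiff_rho.comp contDiff_fst) hφ.1,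
        (wirt_fst contDiff_rho _ _).2, mul_zero, add_zero]
    rw [dw, hu _ (hφ.wirt _ _), hx φ hφ, iw (-1) c φ hφ wc mc, Ps_w hφ,
      ← wirt_Cv ck_loc (bd_Ps.1.2.2.1 φ hφ) (lP φ hφ), ← ew rho rho_ne f2, e,
      wirt_Cv (φ := fun q => rho q.1 * φ q) ck_loc t.1 t.loc2]
    ring
  have k4 : WD dz u y := fun φ hφ => by
    have ia : IntegrableOn (fun p => a p * Cv ck (0, 1) φ p) Om := by
      rw [← ew sr sr_ne]
      exact MemLp.integrable_mul la (CQ.1.memLp contDiff_sr hφ)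
    rw [dz, hu _ (hφ.wirt _ _), hy φ hφ, iz (-1) a φ hφ wa ia, Ps_z hφ, Cv_smul, int_neg, int_neg]
    ring
  refine ⟨u, Good.w1 (a := y) (b := f1) (c := x) (d := f2) ⟨lu, ly, mem_bdd (K := 1)
    ((contDiff_sr.continuous.inv₀ sr_ne).comp continuous_fst) (fun p _ => ?_) m1, lx, l2, k4, k1,
    k3, k2⟩, k1, k2⟩
  rw [norm_inv]
  exact inv_le_one_of_one_le₀ (le_sr _).2

end

end Pool.Agent.Lib.MP_2de762_an
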