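import Pool.Agent.Lib.MP_2de762_an.H98Beur

/-! Calculus of weak derivatives, and the theorem of Riesz with a weight. -/

namespace Pool.Agent.Lib.MP_2de762_an

open Set Metric MeasureTheory Filter Topology ComplexConjugate
open scoped ContDiff ENNReal

noncomputable section

theorem riesz0 {L : (ℂ × ℂ → ℂ) → ℂ} {C : ℝ≥0∞} (hC : C ≠ ⊤)
    (hadd : ∀ φ ψ, IsTest φ → IsTest ψ → L (φ + ψ) = L φ + L ψ)
    (hsmul : ∀ (c : ℂ) φ, IsTest φ → L (c • φ) = c * L φ)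
    (hb : ∀ φ, IsTest φ → ‖L φ‖ₑ ^ 2 ≤ C * N2 φ) :
    ∃ u, MemLp u 2 (volume.restrict Om) ∧ ∀ φ, IsTest φ → ∫ p in Om, u p * φ p = L φ := by
  set μ := (volume : Measure (ℂ × ℂ)).restrict Om with hμ
  let ι : Dsp →ₗ[ℂ] Lp ℂ 2 μ :=
    { toFun := fun φ => (IsTest.memLp φ.2).toLp φ.1
      map_add' := fun φ ψ => MemLp.toLp_add (IsTest.memLp φ.2) (IsTest.memLp ψ.2)
      map_smul' := fun c φ => MemLp.toLp_const_smul c (IsTest.memLp φ.2) }
  let Λ : Dsp →ₗ[ℂ] ℂ :=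
    { toFun := fun φ => L φ.1
      map_add' := fun φ ψ => hadd _ _ φ.2 ψ.2
      map_smul' := fun c φ => hsmul c _ φ.2 }
  set K : ℝ≥0∞ := C ^ (1 / 2 : ℝ) with hK
  have c2 : K ^ 2 = C := by
    rw [hK, ← ENNReal.rpow_natCast, ← ENNReal.rpow_mul]
    simp
  have Kt : K ≠ ⊤ := ENNReal.rpow_ne_top_of_nonneg (by norm_num) hC
  have hΛ : ∀ φ : Dsp, ‖Λ φ‖ ≤ K.toReal * ‖ι φ‖ := fun φ => by
    have h2 : ‖Λ φ‖ₑ ≤ K * eLpNorm φ.1 2 μ := by
      rw [← ENNReal.pow_le_pow_left_iff two_ne_zero, mul_pow, c2, eLp_sq]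
      exact hb _ φ.2
    have h3 := ENNReal.toReal_mono (ENNReal.mul_ne_top Kt (IsTest.memLp φ.2).2.ne) h2
    rw [toReal_enorm, ENNReal.toReal_mul] at h3
    have h4 : ‖ι φ‖ = (eLpNorm φ.1 2 μ).toReal := Lp.norm_toLp _ (IsTest.memLp φ.2)
    rw [h4]
    exact h3
  have hker : LinearMap.ker ι ≤ LinearMap.ker Λ := fun φ h => by
    have := hΛ φ
    rw [LinearMap.mem_ker.1 h, norm_zero, mul_zero] at this
    exact norm_le_zero_iff.1 this
  let Λ0 : LinearMap.range ι →ₗ[ℂ] ℂ :=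
    (LinearMap.ker ι).liftQ Λ hker ∘ₗ ι.quotKerEquivRange.symm.toLinearMap
  have hΛ0 : ∀ φ : Dsp, Λ0 ⟨ι φ, φ, rfl⟩ = Λ φ := fun φ =>
    congrArg ((LinearMap.ker ι).liftQ Λ hker) (ι.quotKerEquivRange_symm_apply_image φ ⟨φ, rfl⟩)
  have hΛ1 : ∀ x : LinearMap.range ι, ‖Λ0 x‖ ≤ K.toReal * ‖x‖ := by
    rintro ⟨_, φ, rfl⟩
    rw [hΛ0]
    exact hΛ φ
  obtain ⟨g, hg, -⟩ := exists_extension_norm_eq (LinearMap.range ι) (Λ0.mkContinuous _ hΛ1)
  set U := (InnerProductSpace.toDual ℂ (Lp ℂ 2 μ)).symm g with hU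
  refine ⟨fun p => conj (U p), (Lp.memLp U).star, fun φ hφ => ?_⟩
  have h1 : inner ℂ U (ι ⟨φ, hφ⟩) = Λ ⟨φ, hφ⟩ := by
    rw [hU, InnerProductSpace.toDual_symm_apply, ← hΛ0]
    exact hg ⟨ι ⟨φ, hφ⟩, ⟨φ, hφ⟩, rfl⟩
  refine Eq.trans ?_ h1
  rw [L2.inner_def]
  refine integral_congr_ae ?_
  filter_upwards [MemLp.coeFn_toLp (IsTest.memLp hφ)] with p hp
  have h2 : (ι ⟨φ, hφ⟩ : ℂ × ℂ → ℂ) p = φ p := hp
  rw [h2, RCLike.inner_apply, mul_comm]

theorem rieszw {L : (ℂ × ℂ → ℂ) → ℂ} {C : ℝ≥0∞} (hC : C ≠ ⊤) {m : ℂ → ℂ}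
    (hm : ContDiff ℝ ∞ m) (hm0 : ∀ z, m z ≠ 0)
    (hadd : ∀ φ ψ, IsTest φ → IsTest ψ → L (φ + ψ) = L φ + L ψ)
    (hsmul : ∀ (c : ℂ) φ, IsTest φ → L (c • φ) = c * L φ)
    (hb : ∀ φ, IsTest φ → ‖L φ‖ₑ ^ 2 ≤ C * N2 fun p => m p.1 * φ p) :
    ∃ u : ℂ × ℂ → ℂ, MemLp (fun p : ℂ × ℂ => (m p.1)⁻¹ * u p) 2 (volume.restrict Om) ∧
      ∀ φ, IsTest φ → ∫ p in Om, u p * φ p = L φ := by
  have hi : ContDiff ℝ ∞ fun p : ℂ × ℂ => (m p.1)⁻¹ := (hm.inv hm0).comp contDiff_fst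
  obtain ⟨U, h1, h2⟩ := riesz0 (L := fun φ => L fun p => (m p.1)⁻¹ * φ p) hC
    (fun φ ψ hφ hψ => by
      rw [← hadd _ _ (hφ.mul hi) (hψ.mul hi)]
      congr 1
      funext p
      simp [mul_add])
    (fun c φ hφ => by
      rw [← hsmul _ _ (hφ.mul hi)]
      congr 1
      funext p
      simp [mul_left_comm])
    (fun φ hφ => by simpa [hm0] using hb _ (hφ.mul hi))
  refine ⟨fun p => m p.1 * U p, by simpa [hm0] using h1, fun φ hφ => ?_⟩
  have h3 := h2 _ (hφ.mul (hm.comp contDiff_fst))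
  simp only [Function.comp_apply, ne_eq, hm0, not_false_eq_true, inv_mul_cancel_left₀] at h3
  rw [← h3]
  congr 1
  funext p
  ring

theorem int_test {u φ : ℂ × ℂ → ℂ} (hu : LocallyIntegrableOn u Om volume) (hφ : IsTest φ) :
    IntegrableOn (fun p => u p * φ p) Om := by
  have h4 : IntegrableOn (fun p => u p * φ p) (tsupport φ) :=
    (hu.integrableOn_compact_subset hφ.2.2 hφ.2.1).mul_continuousOn
      hφ.1.continuous.continuousOn hφ.2.1
  exact h4.of_forall_sdiff_eq_zero isOpen_Om.measurableSet fun p hp => by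
    simp [image_eq_zero_of_notMem_tsupport hp.2]

theorem loc_mul {u β : ℂ × ℂ → ℂ} (hu : LocallyIntegrableOn u Om volume) (hβ : Continuous β) :
    LocallyIntegrableOn (fun p => β p * u p) Om volume :=
  hu.continuousOn_mul hβ.continuousOn isOpen_Om.isLocallyClosed

theorem loc_of_w {u : ℂ × ℂ → ℂ} {m : ℂ → ℂ} (hm : Continuous m) (hm0 : ∀ z, m z ≠ 0)
    (h : MemLp (fun p : ℂ × ℂ => (m p.1)⁻¹ * u p) 2 (volume.restrict Om)) :
    LocallyIntegrableOn u Om volume := by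
  simpa [hm0] using loc_mul (locInt_of_memLp h) (hm.comp continuous_fst)

theorem WD.mul {v : ℂ × ℂ} {s : ℂ} {u a β : ℂ × ℂ → ℂ} (h : WD (wirt v s) u a)
    (hu : LocallyIntegrableOn u Om volume) (ha : LocallyIntegrableOn a Om volume)
    (hβ : ContDiff ℝ ∞ β) :
    WD (wirt v s) (fun p => β p * u p) fun p => β p * a p + wirt v s β p * u p := by
  intro φ hφ
  have h1 := h _ (hφ.mul hβ)
  simp only [wirt_mul hβ hφ.1, mul_add] at h1
  have i1 := int_test hu ((hφ.wirt v s).mul hβ)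
  have i2 := int_test hu (hφ.mul (contDiff_wirt hβ v s))
  have i3 := int_test ha (hφ.mul hβ)
  simp only [mul_comm (φ _)] at h1
  rw [integral_add i1 i2] at h1
  have e1 : (fun p => β p * u p * wirt v s φ p) = fun p => u p * (β p * wirt v s φ p) := by
    funext p
    ring
  have e2 : (fun p => (β p * a p + wirt v s β p * u p) * φ p) =
      fun p => a p * (β p * φ p) + u p * (wirt v s β p * φ p) := by
    funext p
    ring
  rw [e1, e2, integral_add i3 i2]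
  linear_combination h1

theorem WD.add {v : ℂ × ℂ} {s : ℂ} {u a u' a' : ℂ × ℂ → ℂ} (h : WD (wirt v s) u a)
    (h' : WD (wirt v s) u' a') (hu : LocallyIntegrableOn u Om volume)
    (ha : LocallyIntegrableOn a Om volume) (hu' : LocallyIntegrableOn u' Om volume)
    (ha' : LocallyIntegrableOn a' Om volume) :
    WD (wirt v s) (fun p => u p + u' p) fun p => a p + a' p := by
  intro φ hφ
  simp only [add_mul]
  rw [integral_add (int_test hu (hφ.wirt v s)) (int_test hu' (hφ.wirt v s)),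
    integral_add (int_test ha hφ) (int_test ha' hφ), h φ hφ, h' φ hφ]
  ring

theorem WD.unique {D : (ℂ × ℂ → ℂ) → ℂ × ℂ → ℂ} {u a a' : ℂ × ℂ → ℂ} (h : WD D u a)
    (h' : WD D u a') (ha : LocallyIntegrableOn a Om volume)
    (ha' : LocallyIntegrableOn a' Om volume) : a =ᵐ[volume.restrict Om] a' :=
  ae_eq_of_tests ha ha' fun φ hφ => neg_inj.1 ((h φ hφ).symm.trans (h' φ hφ))

theorem wirt_fst {χ : ℂ → ℂ} (h : ContDiff ℝ ∞ χ) (s : ℂ) (p : ℂ × ℂ) :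
    wirt (1, 0) s (fun q => χ q.1) p = w1 s χ p.1 ∧ wirt (0, 1) s (fun q => χ q.1) p = 0 := by
  simp [wirt, w1, fderiv_comp_fst h]

theorem wirt_snd {χ : ℂ → ℂ} (h : ContDiff ℝ ∞ χ) (s : ℂ) (p : ℂ × ℂ) :
    wirt (0, 1) s (fun q => χ q.2) p = w1 s χ p.2 ∧ wirt (1, 0) s (fun q => χ q.2) p = 0 := by
  simp [wirt, w1, fderiv_comp_snd h]

theorem w1_id (x : ℂ) : w1 (-1) (fun z => z) x = 1 := by
  simp [w1]

theorem w1_conj (x : ℂ) : w1 1 (fun z => conj z) x = 1 ∧ w1 (-1) (fun z => conj z) x = 0 := by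
  have h : fderiv ℝ (fun z : ℂ => conj z) x = _ := Complex.conjCLE.hasFDerivAt.fderiv
  simp [w1, h]

/-- Derivatives in `w` against functions without compact support in `z`. -/
theorem WD.ext_w {s : ℂ} {u a V : ℂ × ℂ → ℂ} (h : WD (wirt (0, 1) s) u a) (hV : ContDiff ℝ ∞ V)
    {r : ℝ} (hr : r < 1) (h2 : ∀ p, r < ‖p.2‖ → V p = 0)
    (i1 : IntegrableOn (fun p => u p * wirt (0, 1) s V p) Om)
    (i2 : IntegrableOn (fun p => a p * V p) Om) :
    ∫ p in Om, u p * wirt (0, 1) s V p = -∫ p in Om, a p * V p := by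
  obtain ⟨χ, B, -, hχ⟩ := exists_cut
  have hR : ∀ n : ℕ, (0 : ℝ) < n + 1 := fun n => by positivity
  have sm : ∀ n : ℕ, ContDiff ℝ ∞ fun p : ℂ × ℂ => χ (n + 1) p.1 := fun n =>
    (hχ _ (hR n)).1.comp contDiff_fst
  have e := fun (n : ℕ) p => (wirt_fst (hχ _ (hR n)).1 s p).2
  refine h.ext hV sm (fun n => isTest_of_bounds ((sm n).mul hV) (S := 2 * (n + 1)) hr
    (fun p hp => by rw [(hχ _ (hR n)).2.2.2.1 _ hp, zero_mul])
    (fun p hp => by rw [h2 p hp, mul_zero])) (fun n p => (hχ _ (hR n)).2.1 _) (fun p _ => ?_)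
    i1 i2 (fun n => by simp [e]) (by simp [e])
  filter_upwards [tendsto_natCast_atTop_atTop.eventually_ge_atTop ‖p.1‖] with n hn
  exact (hχ _ (hR n)).2.2.1 _ (by linarith)

/-- Derivatives in `z` against functions that do not vanish near `|w| = 1`. -/
theorem WD.ext_z {s : ℂ} {u a V : ℂ × ℂ → ℂ} (h : WD (wirt (1, 0) s) u a) (hV : ContDiff ℝ ∞ V)
    {S : ℝ} (h2 : ∀ p, S < ‖p.1‖ → V p = 0)
    (i1 : IntegrableOn (fun p => u p * wirt (1, 0) s V p) Om)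
    (i2 : IntegrableOn (fun p => a p * V p) Om) :
    ∫ p in Om, u p * wirt (1, 0) s V p = -∫ p in Om, a p * V p := by
  have hR : ∀ n : ℕ, (0 : ℝ) < 1 / (n + 1) := fun n => by positivity
  have hR1 : ∀ n : ℕ, (1 : ℝ) / (n + 1) ≤ 1 := fun n =>
    div_le_one_of_le₀ (by linarith [n.cast_nonneg (α := ℝ)]) (by positivity)
  let b : ℕ → ContDiffBump (0 : ℂ) := fun n =>
    ⟨1 - 1 / (n + 1) / 2, 1 - 1 / (n + 1) / 4, by linarith [hR1 n], by linarith [hR n]⟩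
  have s1 : ∀ n : ℕ, ContDiff ℝ ∞ fun x : ℂ => (b n x : ℂ) := fun n =>
    Complex.ofRealCLM.contDiff.comp (b n).contDiff
  have sm : ∀ n : ℕ, ContDiff ℝ ∞ fun p : ℂ × ℂ => (b n p.2 : ℂ) := fun n =>
    (s1 n).comp contDiff_snd
  have e := fun (n : ℕ) p => (wirt_snd (s1 n) s p).2
  refine h.ext hV sm (fun n => isTest_of_bounds ((sm n).mul hV) (S := S)
    (r := 1 - 1 / (n + 1) / 4) (by linarith [hR n]) (fun p hp => by rw [h2 p hp, mul_zero])
    (fun p hp => by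
      rw [(b n).zero_of_le_dist (by rw [dist_zero_right]; exact hp.le), Complex.ofReal_zero,
        zero_mul])) (fun n p => ?_) (fun p hp => ?_) i1 i2 (fun n => by simp [e]) (by simp [e])
  · rw [Complex.norm_real, Real.norm_of_nonneg (b n).nonneg]
    exact (b n).le_one
  · have h3 : 0 < 1 - ‖p.2‖ := sub_pos.2 hp
    filter_upwards [tendsto_one_div_add_atTop_nhds_zero_nat.eventually (gt_mem_nhds h3)] with n hn
    rw [(b n).one_of_mem_closedBall, Complex.ofReal_one]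
    rw [mem_closedBall, dist_zero_right]
    show ‖p.2‖ ≤ 1 - 1 / (n + 1) / 2
    linarith [hR n]

end

end Pool.Agent.Lib.MP_2de762_an
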